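import Pool.Agent.P.MP_ec89a0_al.Defs

namespace Pool.Agent.FitW

open Subgroup
open scoped commutatorElement

variable {G : Type} [Group G]

theorem dser_mono {K L : Subgroup G} (h : K ≤ L) (n : ℕ) : dser K n ≤ dser L n := by
  induction n with
  | zero => exact h
  | succ n ih => exact Subgroup.commutator_mono ih ih

theorem dser_succ_le (K : Subgroup G) (n : ℕ) : dser K (n + 1) ≤ dser K n := by
  show ⁅dser K n, dser K n⁆ ≤ dser K n
  simpa using Subgroup.commutator_le_sup (dser K n) (dser K n)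

theorem dser_anti (K : Subgroup G) {m n : ℕ} (h : m ≤ n) : dser K n ≤ dser K m :=
  antitone_nat_of_succ_le (dser_succ_le K) h

theorem map_dser {H : Type} [Group H] (f : G →* H) (K : Subgroup G) (n : ℕ) :
    (dser K n).map f = dser (K.map f) n := by
  induction n with
  | zero => rfl
  | succ n ih =>
    show (⁅dser K n, dser K n⁆).map f = ⁅dser (K.map f) n, dser (K.map f) n⁆
    rw [Subgroup.map_commutator, ih]

theorem Basic_top_eq_bot (H : Type) [Group H] [Finite H] [Group.IsSolvable H] (n : ℕ) :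
    dser (⊤ : Subgroup H) n = ⊥ ∨ Nat.card (dser (⊤ : Subgroup H) n) + n ≤ Nat.card H := by
  induction n with
  | zero =>
    right
    show Nat.card (⊤ : Subgroup H) + 0 ≤ _
    simp
  | succ n ih =>
    by_cases hb : dser (⊤ : Subgroup H) n = ⊥
    · left
      have := dser_succ_le (⊤ : Subgroup H) n
      rw [hb] at this
      exact le_bot_iff.mp this
    · right
      have h1 := ih.resolve_left hb
      have h2 : ⁅dser (⊤ : Subgroup H) n, dser (⊤ : Subgroup H) n⁆ < dser (⊤ : Subgroup H) n :=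
        Group.IsSolvable.commutator_lt_of_ne_bot hb
      have h3 : Nat.card (dser (⊤ : Subgroup H) (n + 1)) < Nat.card (dser (⊤ : Subgroup H) n) := by
        have h4 : ((dser (⊤ : Subgroup H) (n + 1) : Subgroup H) : Set H) ⊂
            ((dser (⊤ : Subgroup H) n : Subgroup H) : Set H) := h2
        exact Set.ncard_lt_ncard h4 (Set.toFinite _)
      omega

/-- a solvable subgroup of order at most `n` has trivial `n`-th derived subgroup -/
theorem dser_eq_bot (K : Subgroup G) [Finite K] [Group.IsSolvable K] {n : ℕ} (h : Nat.card K ≤ n) :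
    dser K n = ⊥ := by
  have h1 : dser (⊤ : Subgroup K) n = ⊥ := by
    rcases Basic_top_eq_bot K n with h2 | h2
    · exact h2
    · have h3 : 0 < Nat.card (dser (⊤ : Subgroup K) n) := Nat.card_pos
      omega
  have h2 := map_dser K.subtype ⊤ n
  rw [h1, Subgroup.map_bot, ← MonoidHom.range_eq_map, Subgroup.subtype_range] at h2
  exact h2.symm

theorem Chain.antitone {R : ℕ → Subgroup G} (h : Chain R) : Antitone R :=
  antitone_nat_of_succ_le h.anti

theorem Chain.le_dser {R : ℕ → Subgroup G} (h : Chain R) {K : Subgroup G} {j : ℕ}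
    (hj : R j ≤ K) (f : ℕ) : R (j + f) ≤ dser K f := by
  induction f with
  | zero => exact hj
  | succ f ih =>
    show R (j + f + 1) ≤ ⁅dser K f, dser K f⁆
    rw [← h.comm (j + f)]
    exact Subgroup.commutator_mono ((h.anti _).trans ih) ih

theorem Basic_lcs_normal (S : Subgroup G) [S.Normal] (k : ℕ) : (S.lowerCentralSeries k).Normal := by
  induction k with
  | zero => simpa using (inferInstance : S.Normal)
  | succ k ih =>
    rw [Subgroup.lowerCentralSeries_succ]
    infer_instance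

theorem Basic_lcs_stab [Finite G] (S : Subgroup G) :
    ∃ k, 1 ≤ k ∧ S.lowerCentralSeries (k + 1) = S.lowerCentralSeries k := by
  obtain ⟨T, ⟨k, hk, rfl⟩, hmin⟩ := (wellFounded_lt (α := Subgroup G)).has_min
    {T | ∃ k, 1 ≤ k ∧ S.lowerCentralSeries k = T} ⟨_, 1, le_rfl, rfl⟩
  refine ⟨k, hk, ?_⟩
  have h1 : S.lowerCentralSeries (k + 1) ≤ S.lowerCentralSeries k :=
    S.lowerCentralSeries_antitone (Nat.le_succ k)
  rcases h1.lt_or_eq with h2 | h2
  · exact absurd h2 (hmin _ ⟨k + 1, by omega, rfl⟩)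
  · exact h2

theorem exists_chain (G : Type) [Group G] [Finite G] [Group.IsSolvable G] :
    ∃ R : ℕ → Subgroup G, Chain R := by
  choose κ hκ1 hκ2 using fun S : Subgroup G => Basic_lcs_stab S
  let R : ℕ → Subgroup G := fun j => Nat.rec ⊤ (fun _ S => S.lowerCentralSeries (κ S)) j
  have hR : ∀ j, R (j + 1) = (R j).lowerCentralSeries (κ (R j)) := fun _ => rfl
  have hN : ∀ j, (R j).Normal := by
    intro j
    induction j with
    | zero => exact (inferInstance : (⊤ : Subgroup G).Normal)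
    | succ j ih => rw [hR]; exact @Basic_lcs_normal _ _ _ ih _
  have hle : ∀ j, R j ≤ dser (⊤ : Subgroup G) j := by
    intro j
    induction j with
    | zero => exact le_rfl
    | succ j ih =>
      rw [hR]
      refine ((R j).lowerCentralSeries_antitone (hκ1 (R j))).trans ?_
      show ⁅R j, R j⁆ ≤ ⁅dser ⊤ j, dser ⊤ j⁆
      exact Subgroup.commutator_mono ih ih
  refine ⟨R, rfl, hN, fun j => ?_, fun j => ?_, fun j => ⟨κ (R j), le_of_eq (hR j).symm⟩, ?_⟩
  · rw [hR]
    exact (R j).lowerCentralSeries_antitone (Nat.zero_le _)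
  · rw [hR, ← Subgroup.lowerCentralSeries_succ]
    exact hκ2 _
  · refine ⟨Nat.card G, le_bot_iff.mp ((hle _).trans (le_of_eq ?_))⟩
    exact dser_eq_bot ⊤ (by simp)

theorem exists_sect [Finite G] (Q K : Subgroup G) [Q.Normal] [K.Normal] (hle : K ≤ Q)
    (hab : ⁅Q, Q⁆ ≤ K) :
    ∃ (X : Type) (_ : AddCommGroup X) (_ : Finite X) (_ : DistribMulAction G X) (p : G → X),
      IsSect Q K p := by
  classical
  let π := QuotientGroup.mk' K
  let M : Subgroup (G ⧸ K) := Q.map π
  have hMn : M.Normal := Subgroup.Normal.map inferInstance π (QuotientGroup.mk'_surjective K)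
  have hcomm : ∀ a b : M, a * b = b * a := by
    rintro ⟨_, a, ha, rfl⟩ ⟨_, b, hb, rfl⟩
    apply Subtype.ext
    show π a * π b = π b * π a
    have h1 : π ⁅a, b⁆ = 1 := by
      rw [← MonoidHom.mem_ker, QuotientGroup.ker_mk']
      exact hab (Subgroup.commutator_mem_commutator ha hb)
    rw [map_commutatorElement] at h1
    exact commutatorElement_eq_one_iff_mul_comm.mp h1
  let iC : CommGroup M := { (inferInstance : Group M) with mul_comm := hcomm }
  let act : G → Additive M → Additive M := fun g x =>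
    Additive.ofMul ⟨π g * (Additive.toMul x : M).1 * (π g)⁻¹,
      hMn.conj_mem _ (Additive.toMul x).2 _⟩
  let iS : SMul G (Additive M) := ⟨act⟩
  have hact : ∀ (g : G) (x : Additive M),
      ((Additive.toMul (g • x) : M) : G ⧸ K) = π g * (Additive.toMul x : M).1 * (π g)⁻¹ :=
    fun _ _ => rfl
  have hext : ∀ x y : Additive M,
      ((Additive.toMul x : M) : G ⧸ K) = (Additive.toMul y : M) → x = y := by
    intro x y h
    exact Additive.toMul.injective (Subtype.ext h)
  let iD : DistribMulAction G (Additive M) :=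
    { one_smul := fun x => hext _ _ (by rw [hact]; simp)
      mul_smul := fun g h x => hext _ _ (by rw [hact, hact, hact, map_mul]; group)
      smul_zero := fun g => hext _ _ (by rw [hact]; simp)
      smul_add := fun g x y => hext _ _ (by
        rw [hact, toMul_add, toMul_add, Subgroup.coe_mul, Subgroup.coe_mul, hact, hact]; group) }
  let p : G → Additive M := fun x =>
    if h : x ∈ Q then Additive.ofMul ⟨π x, Subgroup.mem_map_of_mem π h⟩ else 0
  have hp : ∀ x ∈ Q, ((Additive.toMul (p x) : M) : G ⧸ K) = π x := by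
    intro x hx
    simp only [p, dif_pos hx]
    rfl
  refine ⟨Additive M, inferInstance, inferInstance, iD, p, ?_, ?_, ?_, ?_⟩
  · intro x hx y hy
    apply hext
    rw [toMul_add, Subgroup.coe_mul, hp _ hx, hp _ hy, hp _ (Q.mul_mem hx hy), map_mul]
  · intro g x hx
    apply hext
    rw [hact, hp _ hx, hp _ (Subgroup.Normal.conj_mem inferInstance x hx g), map_mul, map_mul,
      map_inv]
  · intro x hx
    constructor
    · intro h
      have h1 := hp x hx
      rw [h] at h1
      have h2 : π x = 1 := by simpa using h1.symm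
      rwa [← MonoidHom.mem_ker, QuotientGroup.ker_mk'] at h2
    · intro h
      apply hext
      rw [hp x hx]
      have h2 : π x = 1 := by
        rwa [← MonoidHom.mem_ker, QuotientGroup.ker_mk']
      simpa using h2
  · intro v
    obtain ⟨x, hx, hxv⟩ := (Additive.toMul v : M).2
    exact ⟨x, hx, hext _ _ (by rw [hp x hx]; exact hxv)⟩

section
variable {X : Type} [AddCommGroup X] [DistribMulAction G X] {Q K : Subgroup G} {p : G → X}

theorem IsSect.one (h : IsSect Q K p) : p 1 = 0 := by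
  have h1 := h.mul 1 Q.one_mem 1 Q.one_mem
  rw [mul_one] at h1
  simpa using h1

theorem IsSect.inv (h : IsSect Q K p) {x : G} (hx : x ∈ Q) : p x⁻¹ = -p x := by
  have h1 := h.mul x hx x⁻¹ (Q.inv_mem hx)
  rw [mul_inv_cancel, h.one] at h1
  exact (neg_eq_of_add_eq_zero_right h1.symm).symm

/-- the preimage in `Q` of a subgroup of the section -/
def IsSect.pre (h : IsSect Q K p) (U : AddSubgroup X) : Subgroup G where
  carrier := {u | u ∈ Q ∧ p u ∈ U}
  one_mem' := ⟨Q.one_mem, by rw [h.one]; exact U.zero_mem⟩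
  mul_mem' := by
    rintro a b ⟨ha, ha'⟩ ⟨hb, hb'⟩
    exact ⟨Q.mul_mem ha hb, by rw [h.mul a ha b hb]; exact U.add_mem ha' hb'⟩
  inv_mem' := by
    rintro a ⟨ha, ha'⟩
    exact ⟨Q.inv_mem ha, by rw [h.inv ha]; exact U.neg_mem ha'⟩

theorem IsSect.mem_pre (h : IsSect Q K p) (U : AddSubgroup X) (u : G) :
    u ∈ h.pre U ↔ u ∈ Q ∧ p u ∈ U := Iff.rfl

/-- `[Q, T] = Q` passes to the section -/
theorem IsSect.mov (h : IsSect Q K p) [Q.Normal] {T : Subgroup G} (hT : ⁅Q, T⁆ = Q) :
    Mov X T := by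
  unfold Mov
  set U := AddSubgroup.closure {v : X | ∃ t ∈ T, ∃ x : X, v = t • x - x} with hU
  have h1 : ⁅Q, T⁆ ≤ h.pre U := by
    rw [Subgroup.commutator_le]
    intro q hq t ht
    have hq' : t * q⁻¹ * t⁻¹ ∈ Q := Subgroup.Normal.conj_mem inferInstance _ (Q.inv_mem hq) t
    have he : ⁅q, t⁆ = q * (t * q⁻¹ * t⁻¹) := by
      rw [commutatorElement_def]; group
    rw [h.mem_pre, he]
    refine ⟨Q.mul_mem hq hq', ?_⟩
    rw [h.mul _ hq _ hq', h.conj t _ (Q.inv_mem hq), h.inv hq]
    apply AddSubgroup.subset_closure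
    exact ⟨t, ht, -p q, by abel⟩
  rw [eq_top_iff]
  intro v _
  obtain ⟨x, hx, rfl⟩ := h.surj v
  rw [hT] at h1
  exact (h1 hx).2

/-- elements centralising `Q` modulo `K` act trivially -/
theorem IsSect.smul_eq (h : IsSect Q K p) [Q.Normal] {g : G} (hg : ∀ u ∈ Q, ⁅g, u⁆ ∈ K)
    (x : X) : g • x = x := by
  obtain ⟨u, hu, rfl⟩ := h.surj x
  have hu' : g * u * g⁻¹ ∈ Q := Subgroup.Normal.conj_mem inferInstance _ hu g
  have he : ⁅g, u⁆ = (g * u * g⁻¹) * u⁻¹ := by
    rw [commutatorElement_def]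
  have h1 : p ⁅g, u⁆ = 0 := (h.ker _ (by rw [he]; exact Q.mul_mem hu' (Q.inv_mem hu))).mpr (hg u hu)
  rw [he, h.mul _ hu' _ (Q.inv_mem hu), h.conj g u hu, h.inv hu] at h1
  exact add_neg_eq_zero.mp h1

/-- a chief factor is a simple module -/
theorem IsSect.simple (h : IsSect Q K p) [Q.Normal] [K.Normal] (hle : K ≤ Q)
    (hmin : ∀ U : Subgroup G, U.Normal → K ≤ U → U ≤ Q → U = K ∨ U = Q) : SimpleMod G X := by
  intro U hU
  have hn : (h.pre U).Normal := ⟨by
    rintro u ⟨hu, hu'⟩ g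
    exact ⟨Subgroup.Normal.conj_mem inferInstance _ hu g, by rw [h.conj g u hu]; exact hU g _ hu'⟩⟩
  have hK : K ≤ h.pre U := fun k hk =>
    ⟨hle hk, by rw [(h.ker k (hle hk)).mpr hk]; exact U.zero_mem⟩
  rcases hmin _ hn hK (fun u hu => hu.1) with h1 | h1
  · left
    rw [eq_bot_iff]
    intro v hv
    obtain ⟨x, hx, rfl⟩ := h.surj v
    have h2 : x ∈ h.pre U := ⟨hx, hv⟩
    rw [h1] at h2
    exact (h.ker x hx).mpr h2
  · right
    rw [eq_top_iff]
    intro v _
    obtain ⟨x, hx, rfl⟩ := h.surj v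
    have h2 : x ∈ h.pre U := by rw [h1]; exact hx
    exact h2.2

/-- the image of `Q ⊓ A` in the section -/
theorem IsSect.exists_image (h : IsSect Q K p) [Q.Normal] (A : Subgroup G) (hK : K ≤ A) :
    ∃ Y : AddSubgroup X, (∀ u ∈ Q, p u ∈ Y ↔ u ∈ A) ∧ (∀ a ∈ A, ∀ x ∈ Y, a • x ∈ Y) ∧
      (¬ Q ≤ A → Y ≠ ⊤) := by
  let Y : AddSubgroup X :=
    { carrier := {v | ∃ u, u ∈ Q ∧ u ∈ A ∧ p u = v}
      zero_mem' := ⟨1, Q.one_mem, A.one_mem, h.one⟩
      add_mem' := by
        rintro _ _ ⟨a, ha, ha', rfl⟩ ⟨b, hb, hb', rfl⟩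
        exact ⟨a * b, Q.mul_mem ha hb, A.mul_mem ha' hb', h.mul a ha b hb⟩
      neg_mem' := by
        rintro _ ⟨a, ha, ha', rfl⟩
        exact ⟨a⁻¹, Q.inv_mem ha, A.inv_mem ha', h.inv ha⟩ }
  have hY : ∀ u ∈ Q, p u ∈ Y ↔ u ∈ A := by
    intro u hu
    constructor
    · rintro ⟨a, ha, ha', hau⟩
      have h1 : p (a⁻¹ * u) = 0 := by
        rw [h.mul _ (Q.inv_mem ha) _ hu, h.inv ha, hau, neg_add_cancel]
      have h2 := hK ((h.ker _ (Q.mul_mem (Q.inv_mem ha) hu)).mp h1)
      have h3 := A.mul_mem ha' h2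
      simpa using h3
    · intro hA
      exact ⟨u, hu, hA, rfl⟩
  refine ⟨Y, hY, ?_, ?_⟩
  · rintro a ha _ ⟨u, hu, hu', rfl⟩
    exact ⟨a * u * a⁻¹, Subgroup.Normal.conj_mem inferInstance _ hu a,
      A.mul_mem (A.mul_mem ha hu') (A.inv_mem ha), h.conj a u hu⟩
  · intro hQ htop
    apply hQ
    intro u hu
    exact (hY u hu).mp (by rw [htop]; trivial)

end

end Pool.Agent.FitW
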