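import Pool.Agent.P.MP_ec89a0_al.Defs

namespace Pool.Agent.FitW

open Subgroup
open scoped commutatorElement

/-- a transitive solvable group generated by elements of small support has small degree -/
theorem perm_card_le {Γ Ω : Type} [Group Γ] [Finite Γ] [Group.IsSolvable Γ] [Finite Ω] [MulAction Γ Ω]
    [MulAction.IsPretransitive Γ Ω] (S : Set Γ) (hS : Subgroup.closure S = ⊤) (σ : ℕ)
    (hσ : ∀ t ∈ S, Set.ncard {ω : Ω | t • ω ≠ ω} ≤ σ) : Nat.card Ω ≤ max 1 (2 * σ) := by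
  by_cases h1 : Nat.card Ω ≤ 1
  · exact h1.trans (le_max_left _ _)
  refine le_trans ?_ (le_max_right _ _)
  have : Nontrivial Ω := Finite.one_lt_card_iff_nontrivial.1 (not_le.1 h1)
  obtain ⟨ω₀, ω₁, hω⟩ := exists_pair_ne Ω
  set A := MulAction.stabilizer Γ ω₀ with hA
  have hA' : A ≠ ⊤ := fun h => by
    obtain ⟨g, hg⟩ := MulAction.exists_smul_eq Γ ω₀ ω₁
    exact hω ((show g ∈ A from h ▸ mem_top g).symm.trans hg)
  obtain ⟨j, j1, j2⟩ : ∃ j, derivedSeries Γ j ⊔ A = ⊤ ∧ derivedSeries Γ (j + 1) ⊔ A ≠ ⊤ := by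
    by_contra h
    push Not at h
    have key : ∀ j, derivedSeries Γ j ⊔ A = ⊤ := fun j => by
      induction j with
      | zero => simp
      | succ j ih => exact h j ih
    obtain ⟨n, hn⟩ := Group.IsSolvable.solvable (G := Γ)
    exact hA' (by simpa [hn] using key n)
  have trans : ∀ ω : Ω, ∃ d ∈ derivedSeries Γ j, d • ω₀ = ω := fun ω => by
    obtain ⟨g, hg⟩ := MulAction.exists_smul_eq Γ ω₀ ω
    obtain ⟨d, hd, a, ha, rfl⟩ := mem_sup_of_normal_left.1 (j1 ▸ mem_top g)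
    exact ⟨d, hd, by rw [← hg, mul_smul, show a • ω₀ = ω₀ from ha]⟩
  have conj : ∀ (c d : Γ), c • d • ω₀ = d • ω₀ → d⁻¹ * c * d ∈ derivedSeries Γ (j + 1) ⊔ A :=
    fun c d h => mem_sup_right (by
      rw [hA, MulAction.mem_stabilizer_iff, mul_smul, mul_smul, h, inv_smul_smul])
  have free : ∀ c ∈ derivedSeries Γ j, c ∉ derivedSeries Γ (j + 1) ⊔ A → ∀ ω : Ω, c • ω ≠ ω := by
    intro c hc hc' ω h
    obtain ⟨d, hd, rfl⟩ := trans ω
    have h2 : ⁅d⁻¹, c⁆ ∈ derivedSeries Γ (j + 1) ⊔ A :=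
      mem_sup_left (commutator_mem_commutator (inv_mem hd) hc)
    refine hc' ?_
    have := mul_mem (inv_mem h2) (conj c d h)
    simpa [commutatorElement_def, mul_assoc] using this
  obtain ⟨t, t1, t2⟩ : ∃ t ∈ S, t ∉ derivedSeries Γ (j + 1) ⊔ A := by
    by_contra h
    push Not at h
    exact j2 (top_le_iff.1 (hS ▸ (closure_le _).2 h))
  have t3 := hσ t t1
  by_cases h : ∃ ω : Ω, t • ω = ω
  · obtain ⟨ω, h⟩ := h
    obtain ⟨d, hd, rfl⟩ := trans ω
    have h2 := conj t d h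
    have h3 := free (t⁻¹ * (d⁻¹ * t * d)) (by
      have := mul_mem ((inferInstance : (derivedSeries Γ j).Normal).conj_mem _ (inv_mem hd) t⁻¹) hd
      simpa [mul_assoc] using this) fun h3 => t2 (by
        simpa [mul_assoc] using mul_mem h2 (inv_mem h3))
    have h4 : (Set.univ : Set Ω) ⊆ {ω | t • ω ≠ ω} ∪ (fun ω => d⁻¹ • ω) '' {ω | t • ω ≠ ω} := by
      intro ω _
      by_contra h4
      simp only [Set.mem_union, Set.mem_ofPred_eq, Set.mem_image, not_or, not_not, not_exists,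
        not_and] at h4
      refine h3 ω ?_
      have h5 : t • d • ω = d • ω := by
        by_contra h5
        exact h4.2 _ h5 (inv_smul_smul _ _)
      rw [mul_smul, mul_smul, mul_smul, h5, inv_smul_smul, inv_smul_eq_iff, h4.1]
    have h5 := (Set.ncard_le_ncard h4 (Set.toFinite _)).trans (Set.ncard_union_le _ _)
    have h6 := Set.ncard_image_le (f := fun ω => d⁻¹ • ω) (s := {ω : Ω | t • ω ≠ ω})
      (Set.toFinite _)
    rw [Set.ncard_univ] at h5
    omega
  · rw [Set.eq_univ_of_forall (s := {ω : Ω | t • ω ≠ ω}) fun ω h' => h ⟨ω, h'⟩,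
      Set.ncard_univ] at t3
    omega

variable {G : Type} [Group G] {X : Type} [AddCommGroup X] [DistribMulAction G X]

/-- a nontrivial normal `r`-subgroup of exponent `r` of a faithful simple module -/
theorem cop_zero [Finite G] [Finite X] (hs : SimpleMod G X) (hf : Faith G X) (E : Subgroup G)
    [E.Normal] (hE : E ≠ ⊥) {r : ℕ} (hr : r.Prime) (hexp : ∀ e ∈ E, e ^ r = 1) :
    (∀ x : X, (∀ e ∈ E, e • x = x) → x = 0) ∧ ∀ x : X, r • x = 0 → x = 0 := by
  have triv : ¬ ∀ x : X, ∀ e ∈ E, e • x = x := fun h =>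
    hE (eq_bot_iff.2 fun e he => hf e fun x => h x e he)
  have h1 : ∀ x : X, (∀ e ∈ E, e • x = x) → x = 0 := by
    rcases hs (FixedPoints.addSubgroup E X) (fun g x hx e => by
      have := hx ⟨g⁻¹ * e * g, by
        simpa using (inferInstance : E.Normal).conj_mem _ e.2 g⁻¹⟩
      change (g⁻¹ * e * g) • x = x at this
      change (e : G) • g • x = g • x
      rwa [mul_smul, mul_smul, inv_smul_eq_iff] at this) with h | h
    · exact fun x hx => (AddSubgroup.eq_bot_iff_forall _).1 h x fun e => hx e e.2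
    · exact absurd (fun x e he => (show x ∈ FixedPoints.addSubgroup E X from
        h ▸ AddSubgroup.mem_top x) ⟨e, he⟩) triv
  refine ⟨h1, ?_⟩
  rcases hs (nsmulAddMonoidHom (α := X) r).ker (fun g x hx => by
    change r • x = 0 at hx
    change r • g • x = 0
    rw [← smul_comm, hx, smul_zero]) with h | h
  · exact (AddSubgroup.eq_bot_iff_forall _).1 h
  intro x hx
  by_contra h0
  have := Fact.mk hr
  have hp : IsPGroup r E := fun e => ⟨1, Subtype.ext (by simpa using hexp e e.2)⟩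
  obtain ⟨b, b1, b2⟩ := hp.exists_fixed_point_of_prime_dvd_card_of_fixed_point X
    (addOrderOf_eq_prime hx h0 ▸ addOrderOf_dvd_natCard x) (a := 0) fun e => smul_zero e
  exact b2 (h1 b fun e he => b1 ⟨e, he⟩).symm

/-- coprime action of an elementary abelian group: a hyperplane whose fixed points leave `Y` -/
theorem cop_eta [Finite G] [Finite X] (E : Subgroup G) (hc : ∀ e ∈ E, ∀ e' ∈ E, e * e' = e' * e)
    {r : ℕ} (hr : r.Prime) (hexp : ∀ e ∈ E, e ^ r = 1)
    (h0 : ∀ x : X, (∀ e ∈ E, e • x = x) → x = 0) (hr0 : ∀ x : X, r • x = 0 → x = 0)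
    (Y : AddSubgroup X) (hY : Y ≠ ⊤) :
    ∃ η : Subgroup G, η ≤ E ∧ (∃ x : X, (∀ e ∈ η, e • x = x) ∧ x ∉ Y) ∧
      (∀ e ∈ E, e ∉ η → ∀ x : X, (∀ e' ∈ η, e' • x = x) → e • x = x → x = 0) ∧
      ∃ e₀ ∈ E, e₀ ∉ η ∧ ∀ e ∈ E, ∃ k : ℕ, (e₀ ^ k)⁻¹ * e ∈ η := by
  obtain ⟨η, ⟨a1, x₀, a2, a3⟩, a4⟩ := (Set.toFinite {η : Subgroup G | η ≤ E ∧
      ∃ x : X, (∀ e ∈ η, e • x = x) ∧ x ∉ Y}).exists_maximal (by
    obtain ⟨x, hx⟩ : ∃ x, x ∉ Y := by
      by_contra h
      push Not at h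
      exact hY ((AddSubgroup.eq_top_iff' _).2 h)
    exact ⟨⊥, bot_le, x, fun e he => by rw [mem_bot.1 he, one_smul], hx⟩)
  have c1 : ∀ e ∈ E, e ∉ η → ∀ x : X, (∀ e' ∈ η, e' • x = x) → e • x = x → x ∈ Y := by
    intro e he he' x h1 h2
    by_contra h3
    have h4 : η ⊔ zpowers e ≤ MulAction.stabilizer G x := sup_le h1 (zpowers_le.2 h2)
    exact he' (a4 ⟨sup_le a1 (zpowers_le.2 he), x, h4, h3⟩ le_sup_left
      (mem_sup_right (mem_zpowers e)))
  have inv : ∀ e ∈ E, ∀ x : X, (∀ e' ∈ η, e' • x = x) → ∀ e' ∈ η, e' • e • x = e • x :=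
    fun e he x hx e' he' => by rw [← mul_smul, hc e' (a1 he') e he, mul_smul, hx e' he']
  have c2 : ∀ e ∈ E, e ∉ η → ∀ x : X, (∀ e' ∈ η, e' • x = x) →
      ∑ i ∈ Finset.range r, e ^ i • x ∈ Y := by
    intro e he he' x hx
    refine c1 e he he' _ (fun e' h1 => ?_) ?_
    · rw [Finset.smul_sum]
      exact Finset.sum_congr rfl fun i _ => inv _ (pow_mem he i) x hx e' h1
    · have h1 := Finset.sum_range_succ (fun i => e ^ i • x) r
      rw [Finset.sum_range_succ', hexp e he, pow_zero, add_left_inj] at h1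
      rw [Finset.smul_sum]
      refine Eq.trans (Finset.sum_congr rfl fun i _ => ?_) h1
      rw [pow_succ', mul_smul]
  have c3 : ∀ e₁ ∈ E, e₁ ∉ η → ∀ e ∈ E, ∃ k : ℕ, (e₁ ^ k)⁻¹ * e ∈ η := by
    intro e₁ h1 h2 e h3
    by_contra h4
    push Not at h4
    have d1 : ∀ x : X, (∀ e' ∈ η, e' • x = x) → r • x ∈ Y := by
      intro x hx
      have d2 : ∑ j ∈ Finset.range r, ∑ i ∈ Finset.range r, (e₁ ^ j * e) ^ i • x ∈ Y := by
        refine sum_mem fun j _ => c2 _ (mul_mem (pow_mem h1 j) h3) (fun d3 => ?_) x hx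
        refine h4 ((r - 1) * j) ?_
        rwa [inv_eq_of_mul_eq_one_left (a := e₁ ^ j) (by
          rw [← pow_add, ← one_add_mul, Nat.add_sub_of_le hr.one_le, pow_mul, hexp e₁ h1,
            one_pow])]
      obtain ⟨s, rfl⟩ := Nat.exists_eq_succ_of_ne_zero hr.ne_zero
      rw [Finset.sum_comm, Finset.sum_range_succ'] at d2
      simp only [pow_zero, one_smul, Finset.sum_const, Finset.card_range] at d2
      refine (AddSubgroup.add_mem_cancel_left Y (sum_mem fun i hi => ?_)).1 d2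
      have d3 : e₁ ^ (i + 1) ∉ η := fun d3 => by
        obtain ⟨m, hm⟩ := exists_pow_eq_self_of_coprime (x := e₁) (n := i + 1)
          (Nat.Coprime.coprime_dvd_right (orderOf_dvd_of_pow_eq_one (hexp e₁ h1))
            (Nat.coprime_of_lt_prime i.succ_ne_zero
              (Nat.succ_lt_succ (Finset.mem_range.1 hi)) hr).symm)
        exact h2 (hm ▸ pow_mem d3 m)
      have d4 := c2 _ (pow_mem h1 (i + 1)) d3 _ (inv _ (pow_mem h3 (i + 1)) x hx)
      have d5 : ∑ j ∈ Finset.range (s + 1), (e₁ ^ j * e) ^ (i + 1) • x =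
          ∑ j ∈ Finset.range (s + 1), (e₁ ^ (i + 1)) ^ j • e ^ (i + 1) • x :=
        Finset.sum_congr rfl fun j _ => by
          rw [Commute.mul_pow (hc _ (pow_mem h1 j) e h3), mul_smul, ← pow_mul, ← pow_mul, mul_comm]
      exact d5 ▸ d4
    let f : {x : X // ∀ e' ∈ η, e' • x = x} → {x : X // ∀ e' ∈ η, e' • x = x} :=
      fun x => ⟨r • x.1, fun e' he' => by rw [smul_comm, x.2 e' he']⟩
    have d2 : Function.Injective f := fun x y h => Subtype.ext (sub_eq_zero.1 (hr0 _ (by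
      rw [smul_sub, sub_eq_zero]
      exact congrArg Subtype.val h)))
    obtain ⟨x, hx⟩ := Finite.surjective_of_injective d2 ⟨x₀, a2⟩
    exact a3 ((show r • x.1 = x₀ from congrArg Subtype.val hx) ▸ d1 x.1 x.2)
  refine ⟨η, a1, ⟨x₀, a2, a3⟩, fun e he he' x h1 h2 => h0 x fun e' h3 => ?_, ?_⟩
  · obtain ⟨k, hk⟩ := c3 e he he' e' h3
    have := h1 _ hk
    rw [mul_smul, inv_smul_eq_iff] at this
    exact this.trans (pow_mem (show e ∈ MulAction.stabilizer G x from h2) k)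
  · obtain ⟨e₀, b1, b2⟩ : ∃ e₀ ∈ E, e₀ ∉ η := by
      by_contra h
      push Not at h
      exact a3 (h0 x₀ (fun e he => a2 e (h e he)) ▸ zero_mem Y)
    exact ⟨e₀, b1, b2, c3 e₀ b1 b2⟩

end Pool.Agent.FitW
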