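import Mathlib

/-! Definitions for the Fitting height bound (words dying on generating pairs). -/

namespace Pool.Agent.FitW

open Subgroup
open scoped commutatorElement

variable {G : Type} [Group G]

/-- derived series of a subgroup, inside the ambient group -/
def dser (K : Subgroup G) : ℕ → Subgroup G
  | 0 => K
  | n + 1 => ⁅dser K n, dser K n⁆

theorem dser_realize : True := by
  have := @dser.eq_def
  trivial

/-- letters: a generator index and a sign -/
abbrev Lt := Fin 2 × Bool

/-- value of a list of letters at the pair `π` -/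
def ev (π : Fin 2 → G) (L : List Lt) : G := FreeGroup.lift π (FreeGroup.mk L)

/-- the pair generates the group -/
def Gen (π : Fin 2 → G) : Prop := Subgroup.closure (Set.range π) = ⊤

/-- the values of distinct tails of `L` lie in distinct left cosets of `A` -/
def Sep (π : Fin 2 → G) (A : Subgroup G) (L : List Lt) : Prop :=
  ∀ M₁ M₂ : List Lt, M₁ <:+ L → M₂ <:+ L → M₁ ≠ M₂ → (ev π M₁)⁻¹ * ev π M₂ ∉ A

/-- number of elements of `N` with property `P` -/
noncomputable def cnt (N : Subgroup G) (P : G → Prop) : ℕ := Set.ncard {y : G | y ∈ N ∧ P y}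

/-- lower nilpotent series -/
structure Chain (R : ℕ → Subgroup G) : Prop where
  top : R 0 = ⊤
  normal : ∀ j, (R j).Normal
  anti : ∀ j, R (j + 1) ≤ R j
  comm : ∀ j, ⁅R (j + 1), R j⁆ = R (j + 1)
  nil : ∀ j, ∃ k, (R j).lowerCentralSeries k ≤ R (j + 1)
  fin : ∃ m, R m = ⊥

section Mod

variable {X : Type} [AddCommGroup X] [DistribMulAction G X]

/-- `p` identifies the abelian section `Q / K` with the module `X` -/
structure IsSect (Q K : Subgroup G) (p : G → X) : Prop where
  mul : ∀ x ∈ Q, ∀ y ∈ Q, p (x * y) = p x + p y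
  conj : ∀ g : G, ∀ x ∈ Q, p (g * x * g⁻¹) = g • p x
  ker : ∀ x ∈ Q, p x = 0 ↔ x ∈ K
  surj : ∀ v : X, ∃ x ∈ Q, p x = v

variable (G X) in
/-- no invariant subgroup except the two trivial ones -/
def SimpleMod : Prop :=
  ∀ U : AddSubgroup X, (∀ g : G, ∀ x ∈ U, g • x ∈ U) → U = ⊥ ∨ U = ⊤

variable (G X) in
/-- only the identity acts trivially -/
def Faith : Prop := ∀ g : G, (∀ x : X, g • x = x) → g = 1

variable (X) in
/-- `[X, T] = X` -/
def Mov (T : Subgroup G) : Prop :=
  AddSubgroup.closure {v : X | ∃ t ∈ T, ∃ x : X, v = t • x - x} = ⊤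

/-- `t` stabilises `Y` and `t - 1` takes at most `n` values modulo `Y` -/
def Small (Y : AddSubgroup X) (n : ℕ) (t : G) : Prop :=
  (∀ x ∈ Y, t • x ∈ Y) ∧ ∃ F : Finset X, F.card ≤ n ∧ ∀ x : X, ∃ φ ∈ F, t • x - x - φ ∈ Y

/-- index at most two -/
def Idx2 (U : AddSubgroup X) : Prop := ∀ x x' : X, x ∉ U → x' ∉ U → x - x' ∈ U

/-- the operator `1 + Σ ε s` -/
def opSum (T : List (ℤ × G)) (x : X) : X := x + (T.map fun a => a.1 • (a.2 • x)).sum

/-- Fox derivative of a list of letters in the variable `i`, acting on `X` -/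
def fox (π : Fin 2 → G) (i : Fin 2) : List Lt → X → X
  | [], _ => 0
  | (j, true) :: L, x => (if j = i then x else 0) + π j • fox π i L x
  | (j, false) :: L, x => (π j)⁻¹ • (fox π i L x - if j = i then x else 0)

theorem fox_realize : True := by
  have := @fox.eq_def
  trivial

end Mod

/-- `s` acts on `Q` modulo the radical of `η` with more than `n` values of the commutator -/
def Big (Q η : Subgroup G) (n : ℕ) (s : G) : Prop :=
  ∀ F : Finset G, (∀ a ∈ F, a ∈ Q) → F.card ≤ n →
    ∃ y ∈ Q, ∀ a ∈ F, ∃ q ∈ Q, ⁅y * a * (s⁻¹ * y⁻¹ * s), q⁆ ∉ η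

end Pool.Agent.FitW
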