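import Pool.Agent.P.MP_ec89a0_al.Words

namespace Pool.Agent.FitW

open Subgroup
open scoped commutatorElement

theorem fox_aux {G : Type} [Group G] {X : Type} [AddCommGroup X] [DistribMulAction G X]
    (π : Fin 2 → G) (i : Fin 2) (b : Bool) (post s : List Lt) :
    ∃ T : List (ℤ × List Lt), T.length ≤ s.length ∧
      (∀ a ∈ T, a.2 <:+ s ++ post ∧ (a.2 = s ++ post → s.head? = some (i, !b))) ∧
      ∀ y : X, (ev π (s ++ post))⁻¹ • fox π i s ((if b then π i else 1) • y) =
        (T.map fun a => a.1 • ((ev π a.2)⁻¹ • y)).sum := by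
  induction s with
  | nil => exact ⟨[], le_rfl, by simp, fun y => by simp [fox]⟩
  | cons w s ih =>
    obtain ⟨T, h1, h2, h3⟩ := ih
    have hne : ∀ M : List Lt, M <:+ s ++ post → M ≠ w :: s ++ post := by
      intro M hM h
      have := hM.length_le
      rw [h] at this
      simp at this
    have h2' : ∀ a ∈ T, a.2 <:+ w :: s ++ post ∧
        (a.2 = w :: s ++ post → (w :: s).head? = some (i, !b)) := fun a ha =>
      ⟨(h2 a ha).1.trans (List.suffix_cons _ _), fun h => absurd h (hne _ (h2 a ha).1)⟩
    obtain ⟨j, c⟩ := w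
    by_cases hj : j = i
    · subst hj
      refine ⟨(if c then 1 else -1, if c = b then s ++ post else (j, c) :: s ++ post) :: T,
        by simpa using h1, ?_, fun y => ?_⟩
      · intro a ha
        rcases List.mem_cons.1 ha with rfl | ha
        · by_cases hc : c = b
          · simp only [hc, if_true]
            exact ⟨List.suffix_cons _ _, fun h => absurd h (hc ▸ hne _ List.suffix_rfl)⟩
          · simp only [hc, if_false]
            refine ⟨List.suffix_rfl, fun _ => ?_⟩
            cases c <;> cases b <;> simp_all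
        · exact h2' a ha
      · rw [List.map_cons, List.sum_cons, ← h3 y]
        cases c <;> cases b <;>
          simp [fox, ev_cons_true, ev_cons_false, smul_add, mul_smul, sub_eq_neg_add]
    · refine ⟨T, h1.trans (by simp), h2', fun y => ?_⟩
      rw [← h3 y]
      cases c <;> simp [fox, ev_cons_true, ev_cons_false, mul_smul, hj]

theorem sum_map_neg {X A : Type} [AddCommGroup X] (T : List A) (c : A → ℤ) (f : A → X) :
    (T.map fun a => (-c a) • f a).sum = -(T.map fun a => c a • f a).sum := by
  induction T with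
  | nil => simp
  | cons a T ih => rw [List.map_cons, List.sum_cons, ih, List.map_cons, List.sum_cons, neg_add,
      neg_smul]

/-- the Fox derivative of the initial piece `z :: t` of a reduced list, in the variable of its
first letter, seen from the end point -/
theorem fox_expand {G : Type} [Group G] {X : Type} [AddCommGroup X] [DistribMulAction G X]
    (π : Fin 2 → G) (z : Lt) (t M₀ : List Lt) (hred : FreeGroup.IsReduced (z :: (t ++ M₀))) :
    ∃ (T : List (ℤ × G)) (β : G) (ε : ℤ), (ε = 1 ∨ ε = -1) ∧ T.length ≤ t.length ∧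
      (∀ a ∈ T, ∃ M : List Lt, M <:+ (t ++ M₀) ∧ M ≠ t ++ M₀ ∧
        a.2 = (ev π M)⁻¹ * ev π (t ++ M₀)) ∧
      ∀ x : X, (ev π (z :: (t ++ M₀)))⁻¹ • fox π z.1 (z :: t) (β • x) = ε • opSum T x := by
  obtain ⟨i, b⟩ := z
  obtain ⟨T, h1, h2, h3⟩ := fox_aux (X := X) π i b M₀ t
  have hh : t.head? ≠ some (i, !b) := by
    intro h
    cases t with
    | nil => simp at h
    | cons w t =>
      simp only [List.head?_cons, Option.some.injEq] at h
      subst h
      have := (FreeGroup.isReduced_cons_cons.1 hred).1 rfl
      cases b <;> simp at this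
  refine ⟨T.map fun a => ((if b then a.1 else -a.1), (ev π a.2)⁻¹ * ev π (t ++ M₀)),
    (if b then π i else 1) * ev π (t ++ M₀), if b then 1 else -1, by cases b <;> simp,
    by simpa using h1, ?_, fun x => ?_⟩
  · intro a ha
    obtain ⟨a', ha', rfl⟩ := List.mem_map.1 ha
    exact ⟨a'.2, (h2 a' ha').1, fun h => hh ((h2 a' ha').2 h), rfl⟩
  · have h4 := h3 (ev π (t ++ M₀) • x)
    unfold opSum
    rw [List.map_map]
    cases b
    · have h5 := sum_map_neg T (fun a => a.1) (fun a => (ev π a.2)⁻¹ • ev π (t ++ M₀) • x)
      simp only [Bool.false_eq_true, if_false, one_smul, one_mul] at h4 ⊢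
      simp only [Function.comp_def, mul_smul, h5, ← h4]
      simp [fox, ev_cons_false, mul_smul, sub_eq_add_neg, add_comm]
    · simp only [if_true, one_smul] at h4 ⊢
      simp only [Function.comp_def, mul_smul, ← h4]
      simp [fox, ev_cons_true, mul_smul]

end Pool.Agent.FitW
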