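import Pool.Agent.P.MP_ec89a0_al.Defs

namespace Pool.Agent.FitW

open Subgroup
open scoped commutatorElement

section GaschAux

variable {G : Type} [Group G] [Fintype G]

open Classical in
/-- pairs congruent to `c` modulo `N` that generate `H` -/
noncomputable def gaschSet (N H : Subgroup G) (c : Fin 2 → G) : Finset (Fin 2 → G) :=
  Finset.univ.filter fun c' => Subgroup.closure (Set.range c') = H ∧ ∀ j, c' j * (c j)⁻¹ ∈ N

open Classical in
/-- pairs in `H` congruent to `c` modulo `N` -/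
noncomputable def gaschAll (N H : Subgroup G) (c : Fin 2 → G) : Finset (Fin 2 → G) :=
  Finset.univ.filter fun c' => Subgroup.closure (Set.range c') ≤ H ∧ ∀ j, c' j * (c j)⁻¹ ∈ N

theorem mem_gaschSet {N H : Subgroup G} {c c' : Fin 2 → G} :
    c' ∈ gaschSet N H c ↔ Subgroup.closure (Set.range c') = H ∧ ∀ j, c' j * (c j)⁻¹ ∈ N := by
  unfold gaschSet
  simp only [Finset.mem_filter, Finset.mem_univ, true_and]

theorem mem_gaschAll {N H : Subgroup G} {c c' : Fin 2 → G} :
    c' ∈ gaschAll N H c ↔ (∀ j, c' j ∈ H) ∧ ∀ j, c' j * (c j)⁻¹ ∈ N := by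
  unfold gaschAll
  simp only [Finset.mem_filter, Finset.mem_univ, true_and, Subgroup.closure_le,
    Set.range_subset_iff, SetLike.mem_coe]

open Classical in
theorem gaschAll_card (N H : Subgroup G) (c : Fin 2 → G) :
    (gaschAll N H c).card =
      ∑ K ∈ (Set.toFinite {K : Subgroup G | K ≤ H}).toFinset, (gaschSet N K c).card := by
  rw [Finset.card_eq_sum_card_fiberwise (f := fun c' : Fin 2 → G => Subgroup.closure (Set.range c'))
    (t := (Set.toFinite {K : Subgroup G | K ≤ H}).toFinset)]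
  · refine Finset.sum_congr rfl fun K hK => ?_
    have hK' : K ≤ H := by simpa using hK
    congr 1
    ext c'
    rw [Finset.mem_filter, mem_gaschSet, mem_gaschAll]
    constructor
    · rintro ⟨⟨-, h2⟩, h3⟩
      exact ⟨h3, h2⟩
    · rintro ⟨h1, h2⟩
      refine ⟨⟨fun j => hK' ?_, h2⟩, h1⟩
      rw [← h1]
      exact Subgroup.subset_closure ⟨j, rfl⟩
  · intro c' hc'
    have h := (mem_gaschAll.1 (Finset.mem_coe.1 hc')).1
    simp only [Finset.mem_coe, Set.Finite.mem_toFinset, Set.mem_setOf_eq, Subgroup.closure_le,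
      Set.range_subset_iff, SetLike.mem_coe]
    exact h

omit [Fintype G] in
theorem gasch_rep (N H : Subgroup G) [N.Normal] (h : H ⊔ N = ⊤) (g : G) :
    ∃ k ∈ H, k * g⁻¹ ∈ N := by
  have hg : g ∈ ((N ⊔ H : Subgroup G) : Set G) := by
    rw [sup_comm, h]
    trivial
  rw [Subgroup.normal_mul] at hg
  obtain ⟨n, hn, k, hk, rfl⟩ := hg
  refine ⟨k, hk, ?_⟩
  have : k * (n * k)⁻¹ = n⁻¹ := by group
  simp only
  rw [this]
  exact N.inv_mem hn

theorem gaschAll_le (N H : Subgroup G) [N.Normal] (h : H ⊔ N = ⊤) (c d : Fin 2 → G) :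
    (gaschAll N H c).card ≤ (gaschAll N H d).card := by
  choose a ha ha' using fun j => gasch_rep N H h (c j)
  choose b hb hb' using fun j => gasch_rep N H h (d j)
  refine Finset.card_le_card_of_injOn (fun c' j => c' j * (a j)⁻¹ * b j) ?_ ?_
  · intro c' hc'
    obtain ⟨h1, h2⟩ := mem_gaschAll.1 (Finset.mem_coe.1 hc')
    refine Finset.mem_coe.2 (mem_gaschAll.2 ⟨fun j => ?_, fun j => ?_⟩)
    · exact H.mul_mem (H.mul_mem (h1 j) (H.inv_mem (ha j))) (hb j)
    · have : c' j * (a j)⁻¹ * b j * (d j)⁻¹ =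
          (c' j * (c j)⁻¹) * (a j * (c j)⁻¹)⁻¹ * (b j * (d j)⁻¹) := by group
      rw [this]
      exact N.mul_mem (N.mul_mem (h2 j) (N.inv_mem (ha' j))) (hb' j)
  · intro x _ y _ hxy
    funext j
    have := congrFun hxy j
    simpa using this

theorem gaschSet_empty (N H : Subgroup G) (h : H ⊔ N ≠ ⊤) (c : Fin 2 → G)
    (hc : Subgroup.closure (Set.range c) ⊔ N = ⊤) : (gaschSet N H c).card = 0 := by
  rw [Finset.card_eq_zero, Finset.eq_empty_iff_forall_notMem]
  intro c' hc'
  obtain ⟨h1, h2⟩ := mem_gaschSet.1 hc'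
  apply h
  rw [eq_top_iff, ← hc]
  refine sup_le ?_ le_sup_right
  rw [Subgroup.closure_le]
  rintro _ ⟨j, rfl⟩
  have e : c j = (c' j * (c j)⁻¹)⁻¹ * c' j := by group
  rw [e]
  refine (H ⊔ N).mul_mem (Subgroup.mem_sup_right (N.inv_mem (h2 j))) (Subgroup.mem_sup_left ?_)
  rw [← h1]
  exact Subgroup.subset_closure ⟨j, rfl⟩

theorem gaschSet_card_eq (N : Subgroup G) [N.Normal] (c d : Fin 2 → G)
    (hc : Subgroup.closure (Set.range c) ⊔ N = ⊤)
    (hd : Subgroup.closure (Set.range d) ⊔ N = ⊤) (H : Subgroup G) :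
    (gaschSet N H c).card = (gaschSet N H d).card := by
  classical
  induction H using WellFoundedLT.induction with
  | ind H ih =>
    by_cases h : H ⊔ N = ⊤
    · have e : (gaschAll N H c).card = (gaschAll N H d).card :=
        le_antisymm (gaschAll_le N H h c d) (gaschAll_le N H h d c)
      rw [gaschAll_card, gaschAll_card] at e
      have hH : H ∈ (Set.toFinite {K : Subgroup G | K ≤ H}).toFinset := by simp
      rw [← Finset.add_sum_erase _ _ hH, ← Finset.add_sum_erase _ _ hH] at e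
      have e2 : ∑ K ∈ ((Set.toFinite {K : Subgroup G | K ≤ H}).toFinset).erase H,
            (gaschSet N K c).card =
          ∑ K ∈ ((Set.toFinite {K : Subgroup G | K ≤ H}).toFinset).erase H,
            (gaschSet N K d).card := by
        refine Finset.sum_congr rfl fun K hK => ih K ?_
        rw [Finset.mem_erase] at hK
        have h2 : K ≤ H := by simpa using hK.2
        exact lt_of_le_of_ne h2 hK.1
      omega
    · rw [gaschSet_empty N H h c hc, gaschSet_empty N H h d hd]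

end GaschAux

/-- Gaschuetz lemma for pairs -/
theorem gaschuetz {G : Type} [Group G] [Finite G] (N : Subgroup G) [N.Normal]
    (h2 : ∃ π₀ : Fin 2 → G, Gen π₀) (π : Fin 2 → G)
    (hπ : Subgroup.closure (Set.range π) ⊔ N = ⊤) :
    ∃ π' : Fin 2 → G, Gen π' ∧ ∀ j, π' j * (π j)⁻¹ ∈ N := by
  obtain ⟨π₀, h0⟩ := h2
  haveI := Fintype.ofFinite G
  have h0' : Subgroup.closure (Set.range π₀) ⊔ N = ⊤ := by
    unfold Gen at h0
    rw [h0, top_sup_eq]
  have e := gaschSet_card_eq N π π₀ hπ h0' ⊤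
  have hpos : 0 < (gaschSet N ⊤ π₀).card :=
    Finset.card_pos.2 ⟨π₀, mem_gaschSet.2 ⟨h0, fun j => by simp⟩⟩
  rw [← e] at hpos
  obtain ⟨π', h'⟩ := Finset.card_pos.1 hpos
  exact ⟨π', (mem_gaschSet.1 h').1, (mem_gaschSet.1 h').2⟩

end Pool.Agent.FitW
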