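import Pool.Agent.P.MP_ec89a0_al.Defs

namespace Pool.Agent.FitW

open Subgroup
open scoped commutatorElement

section IndepAux

variable {G X : Type} [Group G] [AddCommGroup X] [DistribMulAction G X]

variable (X) in
/-- fixed points of `η` -/
def indepW (η : Subgroup G) : AddSubgroup X where
  carrier := {w | ∀ e ∈ η, e • w = w}
  zero_mem' := fun e _ => smul_zero e
  add_mem' := fun {a b} ha hb e he => by rw [smul_add, ha e he, hb e he]
  neg_mem' := fun {a} ha e he => by rw [smul_neg, ha e he]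

theorem indep_mem_W {η : Subgroup G} {w : X} : w ∈ indepW X η ↔ ∀ e ∈ η, e • w = w := Iff.rfl

variable (X) in
/-- the action of one element as an additive map -/
def indepR (g : G) : X →+ X := DistribSMul.toAddMonoidHom X g

@[simp] theorem indepR_apply (g : G) (x : X) : indepR X g x = g • x := rfl

/-- commutes with the action of `Q` -/
def IndepComm (Q : Subgroup G) (c : X →+ X) : Prop := ∀ q ∈ Q, ∀ x : X, c (q • x) = q • c x

/-- injective on the fixed points -/
def IndepInj (η : Subgroup G) (c : X →+ X) : Prop := ∀ w ∈ indepW X η, c w = 0 → w = 0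

/-- sum of the terms of a list -/
def indepS (L : List ((X →+ X) × G)) (w : X) : X := (L.map fun t => t.1 (t.2 • w)).sum

@[simp] theorem indepS_nil (w : X) : indepS ([] : List ((X →+ X) × G)) w = 0 := rfl

@[simp] theorem indepS_cons (t : (X →+ X) × G) (L : List ((X →+ X) × G)) (w : X) :
    indepS (t :: L) w = t.1 (t.2 • w) + indepS L w := by
  simp [indepS]

@[simp] theorem indepS_append (L L' : List ((X →+ X) × G)) (w : X) :
    indepS (L ++ L') w = indepS L w + indepS L' w := by
  simp [indepS]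

theorem indepS_comp (f : X →+ X) (L : List ((X →+ X) × G)) (w : X) :
    indepS (L.map fun t => (f.comp t.1, t.2)) w = f (indepS L w) := by
  induction L with
  | nil => simp
  | cons t L ih => simp [ih]

theorem indepS_split (A B : (X →+ X) × G → Prop) (L : List ((X →+ X) × G))
    (h : ∀ t ∈ L, A t ∨ B t) :
    ∃ L₁ L₂ : List ((X →+ X) × G), L₁.length ≤ L.length ∧ L₂.length ≤ L.length ∧
      (∀ t ∈ L₁, A t) ∧ (∀ t ∈ L₂, B t) ∧ ∀ w : X, indepS L w = indepS L₁ w + indepS L₂ w := by
  induction L with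
  | nil => exact ⟨[], [], le_rfl, le_rfl, by simp, by simp, by simp⟩
  | cons t L ih =>
    obtain ⟨L₁, L₂, h1, h2, hA, hB, hs⟩ := ih (fun s hs => h s (List.mem_cons_of_mem _ hs))
    rcases h t (List.mem_cons_self) with ht | ht
    · refine ⟨t :: L₁, L₂, by simpa using h1, by simp; omega, ?_, hB, fun w => ?_⟩
      · intro s hs
        rcases List.mem_cons.1 hs with rfl | hs
        · exact ht
        · exact hA s hs
      · simp [hs, add_assoc]
    · refine ⟨L₁, t :: L₂, by simp; omega, by simpa using h2, hA, ?_, fun w => ?_⟩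
      · intro s hs
        rcases List.mem_cons.1 hs with rfl | hs
        · exact ht
        · exact hB s hs
      · simp [hs, add_left_comm]

/-- conjugating terms of one coset only changes coefficients -/
theorem indepS_conj {Q : Subgroup G} (σ y e : G) (hy : y ∈ Q) (L : List ((X →+ X) × G))
    (hL : ∀ t ∈ L, IndepComm Q t.1 ∧ t.2 * σ⁻¹ ∈ Q) (w : X) :
    indepS (L.map fun t => ((indepR X ⁅y, t.2 * σ⁻¹⁆ - indepR X e).comp t.1, t.2)) w =
      y • indepS L ((σ⁻¹ * y⁻¹ * σ) • w) - e • indepS L w := by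
  induction L with
  | nil => simp
  | cons t L ih =>
    obtain ⟨hc, hq⟩ := hL t List.mem_cons_self
    have h1 : y • t.1 (t.2 • (σ⁻¹ * y⁻¹ * σ) • w) = ⁅y, t.2 * σ⁻¹⁆ • t.1 (t.2 • w) := by
      have hm : ⁅y, t.2 * σ⁻¹⁆ ∈ Q := by
        rw [commutatorElement_def]
        exact Q.mul_mem (Q.mul_mem (Q.mul_mem hy hq) (Q.inv_mem hy)) (Q.inv_mem hq)
      rw [← hc y hy, ← hc _ hm, smul_smul, smul_smul, smul_smul]
      congr 2
      rw [commutatorElement_def]
      group
    rw [List.map_cons, indepS_cons, ih (fun s hs => hL s (List.mem_cons_of_mem _ hs)),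
      indepS_cons, indepS_cons, smul_add, smul_add, h1]
    simp only [AddMonoidHom.comp_apply, AddMonoidHom.sub_apply, indepR_apply]
    abel

theorem indepS_move {Q : Subgroup G} (y y' : G) (hy : y ∈ Q) (L : List ((X →+ X) × G))
    (hL : ∀ t ∈ L, IndepComm Q t.1) (w : X) :
    indepS (L.map fun t => (t.1, y * t.2 * y')) w = y • indepS L (y' • w) := by
  induction L with
  | nil => simp
  | cons t L ih =>
    have hc := hL t List.mem_cons_self
    rw [List.map_cons, indepS_cons, ih (fun s hs => hL s (List.mem_cons_of_mem _ hs)),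
      indepS_cons, smul_add, ← hc y hy, smul_smul, smul_smul]

/-- certificate: a bounded combination of translates of `Ψ` is a good map on the fixed points -/
def IndepCert (Q η D : Subgroup G) (Ψ : X → X) (b : ℕ) : Prop :=
  ∃ H K : Finset G, (∀ a ∈ H, a ∈ Q) ∧ (∀ k ∈ K, k ∈ D) ∧ H.card ≤ b ∧ K.card ≤ b ∧
    ∃ c : X →+ X, IndepComm Q c ∧ IndepInj η c ∧
      ∀ S : AddSubgroup X, ∀ w ∈ indepW X η, (∀ a ∈ H, ∀ k ∈ K, a • Ψ (k • w) ∈ S) → c w ∈ S

theorem IndepCert.mono {Q η D : Subgroup G} {Ψ : X → X} {b b' : ℕ} (h : IndepCert Q η D Ψ b)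
    (hb : b ≤ b') : IndepCert Q η D Ψ b' := by
  obtain ⟨H, K, h1, h2, h3, h4, h5⟩ := h
  exact ⟨H, K, h1, h2, h3.trans hb, h4.trans hb, h5⟩

theorem indep_cert_base {Q η D : Subgroup G} {Ψ : X → X} (c : X →+ X) (hc : IndepComm Q c)
    (hi : IndepInj η c) (h : ∀ w ∈ indepW X η, Ψ w = c w) : IndepCert Q η D Ψ 1 := by
  refine ⟨{1}, {1}, by simp, by simp, by simp, by simp, c, hc, hi, fun S w hw hS => ?_⟩
  have := hS 1 (by simp) 1 (by simp)
  rwa [one_smul, one_smul, h w hw] at this

/-- the standing hypotheses -/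
structure IndepHyp (X : Type) [AddCommGroup X] [DistribMulAction G X] (Q E η : Subgroup G) :
    Prop where
  normal : Q.Normal
  le₁ : E ≤ Q
  le₂ : η ≤ E
  cent : ∀ e ∈ E, ∀ q ∈ Q, e * q = q * e
  comm : ⁅Q, Q⁆ ≤ E
  free : ∀ e ∈ E, e ∉ η → ∀ x : X, (∀ e' ∈ η, e' • x = x) → e • x = x → x = 0

variable {Q E η : Subgroup G}

theorem IndepHyp.smul_mem (h : IndepHyp X Q E η) {q : G} (hq : q ∈ Q) {w : X}
    (hw : w ∈ indepW X η) : q • w ∈ indepW X η := by
  intro e he
  rw [smul_smul, h.cent e (h.le₂ he) q hq, ← smul_smul, hw e he]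

theorem IndepHyp.map_mem (h : IndepHyp X Q E η) {c : X →+ X} (hc : IndepComm Q c) {w : X}
    (hw : w ∈ indepW X η) : c w ∈ indepW X η := by
  intro e he
  rw [← hc e (h.le₁ (h.le₂ he)), hw e he]

theorem IndepHyp.comm_R (h : IndepHyp X Q E η) {e : G} (he : e ∈ E) :
    IndepComm Q (indepR X e) := by
  intro q hq x
  simp only [indepR_apply, smul_smul, h.cent e he q hq]

theorem IndepHyp.comm_mem (h : IndepHyp X Q E η) {a b : G} (ha : a ∈ Q) (hb : b ∈ Q) :
    ⁅a, b⁆ ∈ E := h.comm (commutator_mem_commutator ha hb)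

theorem IndepComm.sub {c c' : X →+ X} (hc : IndepComm Q c) (hc' : IndepComm Q c') :
    IndepComm Q (c - c') := by
  intro q hq x
  simp only [AddMonoidHom.sub_apply, hc q hq, hc' q hq, smul_sub]

theorem IndepComm.neg {c : X →+ X} (hc : IndepComm Q c) : IndepComm Q (-c) := by
  intro q hq x
  simp only [AddMonoidHom.neg_apply, hc q hq, smul_neg]

theorem IndepComm.comp {c c' : X →+ X} (hc : IndepComm Q c) (hc' : IndepComm Q c') :
    IndepComm Q (c.comp c') := by
  intro q hq x
  simp only [AddMonoidHom.comp_apply, hc q hq, hc' q hq]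

theorem indep_comm_id : IndepComm Q (AddMonoidHom.id X) := fun _ _ _ => rfl

theorem indep_cert_step (h : IndepHyp X Q E η) {D : Subgroup G} {Ψ Ψ' : X → X}
    {b : ℕ} (hD : D ≤ Q) {y y' e : G} (hy : y ∈ Q) (hy' : y' ∈ D) (he : e ∈ Q)
    (hΨ : ∀ w ∈ indepW X η, Ψ' w = y • Ψ (y' • w) - e • Ψ w) (hc : IndepCert Q η D Ψ' b) :
    IndepCert Q η D Ψ (2 * b) := by
  classical
  obtain ⟨H, K, h1, h2, h3, h4, c, hc1, hc2, hc3⟩ := hc
  refine ⟨H.image (· * y) ∪ H.image (· * e), K.image (y' * ·) ∪ K, ?_, ?_, ?_, ?_, c, hc1, hc2,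
    fun S w hw hS => hc3 S w hw fun a ha k hk => ?_⟩
  · intro a ha
    rcases Finset.mem_union.1 ha with ha | ha
    · obtain ⟨a', ha', rfl⟩ := Finset.mem_image.1 ha
      exact Q.mul_mem (h1 a' ha') hy
    · obtain ⟨a', ha', rfl⟩ := Finset.mem_image.1 ha
      exact Q.mul_mem (h1 a' ha') he
  · intro a ha
    rcases Finset.mem_union.1 ha with ha | ha
    · obtain ⟨a', ha', rfl⟩ := Finset.mem_image.1 ha
      exact D.mul_mem hy' (h2 a' ha')
    · exact h2 a ha
  · have := Finset.card_union_le (H.image (· * y)) (H.image (· * e))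
    have := Finset.card_image_le (s := H) (f := (· * y))
    have := Finset.card_image_le (s := H) (f := (· * e))
    omega
  · have := Finset.card_union_le (K.image (y' * ·)) K
    have := Finset.card_image_le (s := K) (f := (y' * ·))
    omega
  · rw [hΨ _ (h.smul_mem (hD (h2 k hk)) hw), smul_sub, smul_smul, smul_smul, smul_smul]
    refine S.sub_mem (hS _ ?_ _ ?_) (hS _ ?_ _ ?_)
    · exact Finset.mem_union_left _ (Finset.mem_image_of_mem _ ha)
    · exact Finset.mem_union_left _ (Finset.mem_image_of_mem _ hk)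
    · exact Finset.mem_union_right _ (Finset.mem_image_of_mem _ ha)
    · exact Finset.mem_union_right _ hk

theorem IndepCert.congr (h : IndepHyp X Q E η) {D : Subgroup G} {Ψ Ψ' : X → X} {b : ℕ}
    (hD : D ≤ Q) (hc : IndepCert Q η D Ψ b) (hΨ : ∀ w ∈ indepW X η, Ψ' w = Ψ w) :
    IndepCert Q η D Ψ' b := by
  obtain ⟨H, K, h1, h2, h3, h4, c, hc1, hc2, hc3⟩ := hc
  refine ⟨H, K, h1, h2, h3, h4, c, hc1, hc2, fun S w hw hS => hc3 S w hw fun a ha k hk => ?_⟩
  rw [← hΨ _ (h.smul_mem (hD (h2 k hk)) hw)]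
  exact hS a ha k hk

theorem IndepHyp.inj_sub (h : IndepHyp X Q E η) {e : G} (he : e ∈ E) (he' : e ∉ η)
    {c : X →+ X} (hc : IndepComm Q c) (hi : IndepInj η c) :
    IndepInj η ((indepR X e - AddMonoidHom.id X).comp c) := by
  intro w hw h0
  refine hi w hw (h.free e he he' _ (h.map_mem hc hw) ?_)
  simpa [sub_eq_zero] using h0

/-- stage I -/
theorem indep_stage_one (h : IndepHyp X Q E η) {D : Subgroup G} (hD : D ≤ Q) (P : G → Prop)
    (M b : ℕ)
    (hP : ∀ (c : X →+ X) (L : List ((X →+ X) × G)), IndepComm Q c → IndepInj η c →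
      L.length ≤ M → (∀ t ∈ L, IndepComm Q t.1 ∧ P t.2) →
      IndepCert Q η D (fun w => c w + indepS L w) b) :
    ∀ (k : ℕ) (c : X →+ X) (L₁ L₂ : List ((X →+ X) × G)), IndepComm Q c → IndepInj η c →
      L₁.length ≤ k → L₂.length ≤ M →
      (∀ t ∈ L₁, IndepComm Q t.1 ∧ ∃ e ∈ E, e ∉ η ∧ t.2⁻¹ * e * t.2 ∈ η) →
      (∀ t ∈ L₂, IndepComm Q t.1 ∧ P t.2) →
      IndepCert Q η D (fun w => c w + indepS L₁ w + indepS L₂ w) (2 ^ k * b) := by
  intro k
  induction k with
  | zero =>
    intro c L₁ L₂ hc hi h1 h2 _ hL₂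
    obtain rfl : L₁ = [] := List.length_eq_zero_iff.1 (Nat.le_zero.1 h1)
    simpa using hP c L₂ hc hi h2 hL₂
  | succ k ih =>
    intro c L₁ L₂ hc hi h1 h2 hL₁ hL₂
    cases L₁ with
    | nil =>
      refine (ih c [] L₂ hc hi (by simp) h2 hL₁ hL₂).mono ?_
      exact Nat.mul_le_mul_right _ (Nat.pow_le_pow_right (by norm_num) (Nat.le_succ k))
    | cons t L₁ =>
      obtain ⟨ht, e, he, he', hs⟩ := hL₁ t List.mem_cons_self
      set f : X →+ X := indepR X e - AddMonoidHom.id X with hf
      have hfc : IndepComm Q f := (h.comm_R he).sub indep_comm_id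
      have key := ih (f.comp c) (L₁.map fun t => (f.comp t.1, t.2))
        (L₂.map fun t => (f.comp t.1, t.2)) (hfc.comp hc) (h.inj_sub he he' hc hi)
        (by simpa using h1) (by simpa using h2)
        (by
          intro s hs
          obtain ⟨s', hs', rfl⟩ := List.mem_map.1 hs
          obtain ⟨a, b⟩ := hL₁ s' (List.mem_cons_of_mem _ hs')
          exact ⟨hfc.comp a, b⟩)
        (by
          intro s hs
          obtain ⟨s', hs', rfl⟩ := List.mem_map.1 hs
          obtain ⟨a, b⟩ := hL₂ s' hs'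
          exact ⟨hfc.comp a, b⟩)
      rw [pow_succ, mul_comm _ 2, mul_assoc]
      refine indep_cert_step h hD (h.le₁ he) D.one_mem Q.one_mem (fun w hw => ?_) key
      have h0 : e • t.1 (t.2 • w) = t.1 (t.2 • w) := by
        rw [← ht e (h.le₁ he)]
        congr 1
        conv_rhs => rw [← hw _ hs]
        rw [smul_smul, smul_smul]
        congr 1
        group
      rw [indepS_comp, indepS_comp]
      simp only [hf, AddMonoidHom.comp_apply, AddMonoidHom.sub_apply, indepR_apply,
        AddMonoidHom.id_apply, one_smul, indepS_cons, smul_add, h0]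
      abel

/-- terms of type III -/
def IndepT (Q η : Subgroup G) (s : G) : Prop := s ∈ Q ∧ ∃ q ∈ Q, ⁅s, q⁆ ∉ η

/-- stage III -/
theorem indep_stage_three (h : IndepHyp X Q E η) :
    ∀ (k : ℕ) (c : X →+ X) (L : List ((X →+ X) × G)), IndepComm Q c → IndepInj η c →
      L.length ≤ k → (∀ t ∈ L, IndepComm Q t.1 ∧ IndepT Q η t.2) →
      IndepCert Q η Q (fun w => c w + indepS L w) (2 ^ k) := by
  intro k
  induction k with
  | zero =>
    intro c L hc hi h1 _
    obtain rfl : L = [] := List.length_eq_zero_iff.1 (Nat.le_zero.1 h1)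
    exact indep_cert_base c hc hi (by simp)
  | succ k ih =>
    intro c L hc hi h1 hL
    cases L with
    | nil =>
      exact (indep_cert_base c hc hi (by simp)).mono Nat.one_le_two_pow
    | cons t L =>
      obtain ⟨ht, hs, q, hq, hqs⟩ := hL t List.mem_cons_self
      set e := ⁅q, t.2 * (1 : G)⁻¹⁆ with hedef
      have he : e ∈ E := h.comm_mem hq (by simpa using hs)
      have he' : e ∉ η := by
        intro h'
        apply hqs
        have := η.inv_mem h'
        simpa [hedef, commutatorElement_inv] using this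
      set f : X →+ X := indepR X e - AddMonoidHom.id X with hf
      have hfc : IndepComm Q f := (h.comm_R he).sub indep_comm_id
      have key := ih (-(f.comp c))
        (L.map fun t => ((indepR X ⁅q, t.2 * (1 : G)⁻¹⁆ - indepR X e).comp t.1, t.2))
        (hfc.comp hc).neg
        (fun w hw h0 => h.inj_sub he he' hc hi w hw (neg_eq_zero.1 h0))
        (by simpa using h1)
        (by
          intro s hs
          obtain ⟨s', hs', rfl⟩ := List.mem_map.1 hs
          obtain ⟨a, b⟩ := hL s' (List.mem_cons_of_mem _ hs')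
          exact ⟨((h.comm_R (h.comm_mem hq (by simpa using b.1))).sub (h.comm_R he)).comp a, b⟩)
      rw [pow_succ, mul_comm _ 2]
      refine indep_cert_step h le_rfl hq (y' := (1 : G)⁻¹ * q⁻¹ * 1) (by simpa using hq)
        (h.le₁ he) (fun w hw => ?_) key
      have h2 := indepS_conj (Q := Q) 1 q e hq (t :: L)
        (fun s hs => ⟨(hL s hs).1, by simpa using (hL s hs).2.1⟩) w
      rw [List.map_cons, indepS_cons] at h2
      simp only [← hedef, sub_self, AddMonoidHom.zero_comp, AddMonoidHom.zero_apply,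
        zero_add] at h2
      have h3 : q • c (((1 : G)⁻¹ * q⁻¹ * 1) • w) = c w := by
        rw [← hc q hq, smul_smul]
        simp
      rw [h2, smul_add, smul_add, h3]
      simp only [hf, AddMonoidHom.neg_apply, AddMonoidHom.comp_apply, AddMonoidHom.sub_apply,
        indepR_apply, AddMonoidHom.id_apply]
      abel

/-- number of steps -/
def indepG : ℕ → ℕ → ℕ :=
  fun m => Nat.rec (fun M => M) (fun _ g M => M + 2 ^ M * (M + 1) + g (2 ^ M * (M + 1))) m

theorem indepG_zero (M : ℕ) : indepG 0 M = M := rfl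

theorem indepG_succ (m M : ℕ) :
    indepG (m + 1) M = M + 2 ^ M * (M + 1) + indepG m (2 ^ M * (M + 1)) := rfl

theorem indep_big_mono {n n' : ℕ} {s : G} (h : Big Q η n s) (hn : n' ≤ n) : Big Q η n' s :=
  fun F hF hc => h F hF (hc.trans hn)

/-- good terms -/
def IndepGood (Q η : Subgroup G) (Z : List G) (s : G) : Prop :=
  IndepT Q η s ∨ ∃ σ ∈ Z, s * σ⁻¹ ∈ Q

/-- the inner induction of stage II -/
theorem indep_inner (h : IndepHyp X Q E η) (Z : List G) (σ : G) (B b : ℕ) (hσ : Big Q η B σ)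
    (hP : ∀ (c : X →+ X) (L : List ((X →+ X) × G)), IndepComm Q c → IndepInj η c →
      L.length ≤ B → (∀ t ∈ L, IndepComm Q t.1 ∧ IndepGood Q η Z t.2) →
      IndepCert Q η Q (fun w => c w + indepS L w) b) :
    ∀ (k : ℕ) (c : X →+ X) (L₁ L₂ : List ((X →+ X) × G)), IndepComm Q c → IndepInj η c →
      L₁.length ≤ k → 2 ^ k * (L₂.length + 1) ≤ B →
      (∀ t ∈ L₁, IndepComm Q t.1 ∧ t.2 * σ⁻¹ ∈ Q) →
      (∀ t ∈ L₂, IndepComm Q t.1 ∧ IndepGood Q η Z t.2) →
      IndepCert Q η Q (fun w => c w + indepS L₁ w + indepS L₂ w) (2 ^ k * b) := by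
  classical
  intro k
  induction k with
  | zero =>
    intro c L₁ L₂ hc hi h1 h2 _ hL₂
    obtain rfl : L₁ = [] := List.length_eq_zero_iff.1 (Nat.le_zero.1 h1)
    simpa using hP c L₂ hc hi (by omega) hL₂
  | succ k ih =>
    intro c L₁ L₂ hc hi h1 h2 hL₁ hL₂
    have hpow : 2 ^ k ≤ 2 ^ (k + 1) := Nat.pow_le_pow_right (by norm_num) (Nat.le_succ k)
    cases L₁ with
    | nil =>
      exact (ih c [] L₂ hc hi (by simp) ((Nat.mul_le_mul_right _ hpow).trans h2) hL₁ hL₂).mono
        (Nat.mul_le_mul_right _ hpow)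
    | cons t L₁ =>
      obtain ⟨ht, hs⟩ := hL₁ t List.mem_cons_self
      have hlen : L₂.length + 1 ≤ B :=
        le_trans (Nat.le_mul_of_pos_left _ (Nat.two_pow_pos _)) h2
      obtain ⟨y, hy, hyF⟩ := hσ (insert 1 (((L₂.map Prod.snd).toFinset).filter (· ∈ Q)))
        (by
          intro a ha
          rcases Finset.mem_insert.1 ha with rfl | ha
          · exact Q.one_mem
          · exact (Finset.mem_filter.1 ha).2)
        (by
          have a1 := Finset.card_insert_le (1 : G) (((L₂.map Prod.snd).toFinset).filter (· ∈ Q))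
          have a2 := Finset.card_filter_le ((L₂.map Prod.snd).toFinset) (· ∈ Q)
          have a3 := List.toFinset_card_le (L₂.map Prod.snd)
          rw [List.length_map] at a3
          omega)
      set y' := σ⁻¹ * y⁻¹ * σ with hy'def
      have hy' : y' ∈ Q := by
        have := h.normal.conj_mem _ (Q.inv_mem hy) σ⁻¹
        simpa [hy'def] using this
      set e := ⁅y, t.2 * σ⁻¹⁆ with hedef
      have he : e ∈ E := h.comm_mem hy hs
      set f : X →+ X := -indepR X e with hf
      have hfc : IndepComm Q f := (h.comm_R he).neg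
      have key := ih (f.comp c)
        (L₁.map fun t => ((indepR X ⁅y, t.2 * σ⁻¹⁆ - indepR X e).comp t.1, t.2))
        ((c, y * y') :: ((L₂.map fun t => (t.1, y * t.2 * y')) ++
          (L₂.map fun t => (f.comp t.1, t.2))))
        (hfc.comp hc)
        (fun w hw h0 => hi w hw (by
          have h00 : e • c w = 0 := by simpa [hf] using h0
          rw [← inv_smul_smul e (c w), h00, smul_zero]))
        (by simpa using h1)
        (by
          refine le_trans (le_of_eq ?_) h2
          simp only [List.length_cons, List.length_append, List.length_map]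
          ring)
        (by
          intro s hs
          obtain ⟨s', hs', rfl⟩ := List.mem_map.1 hs
          obtain ⟨a, b⟩ := hL₁ s' (List.mem_cons_of_mem _ hs')
          exact ⟨((h.comm_R (h.comm_mem hy b)).sub (h.comm_R he)).comp a, b⟩)
        (by
          intro s hs
          rcases List.mem_cons.1 hs with rfl | hs
          · refine ⟨hc, Or.inl ⟨Q.mul_mem hy hy', ?_⟩⟩
            simpa using hyF 1 (Finset.mem_insert_self _ _)
          rcases List.mem_append.1 hs with hs | hs
          · obtain ⟨s', hs', rfl⟩ := List.mem_map.1 hs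
            obtain ⟨a, b⟩ := hL₂ s' hs'
            refine ⟨a, ?_⟩
            rcases b with b | ⟨τ, hτ, b⟩
            · refine Or.inl ⟨Q.mul_mem (Q.mul_mem hy b.1) hy', hyF s'.2 ?_⟩
              refine Finset.mem_insert_of_mem (Finset.mem_filter.2 ⟨?_, b.1⟩)
              exact List.mem_toFinset.2 (List.mem_map_of_mem hs')
            · refine Or.inr ⟨τ, hτ, ?_⟩
              have := Q.mul_mem (Q.mul_mem hy b) (h.normal.conj_mem _ hy' τ)
              convert this using 1
              group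
          · obtain ⟨s', hs', rfl⟩ := List.mem_map.1 hs
            obtain ⟨a, b⟩ := hL₂ s' hs'
            exact ⟨hfc.comp a, b⟩)
      rw [pow_succ, mul_comm _ 2, mul_assoc]
      refine indep_cert_step h le_rfl hy hy' (h.le₁ he) (fun w hw => ?_) key
      have h2 := indepS_conj (Q := Q) σ y e hy (t :: L₁) hL₁ w
      rw [List.map_cons, indepS_cons] at h2
      simp only [← hedef, sub_self, AddMonoidHom.zero_comp, AddMonoidHom.zero_apply,
        zero_add, ← hy'def] at h2
      have h3 : c ((y * y') • w) = y • c (y' • w) := by rw [← hc y hy, smul_smul]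
      rw [h2, indepS_cons (c, y * y'), indepS_append, indepS_comp,
        indepS_move y y' hy L₂ (fun s hs => (hL₂ s hs).1), h3]
      simp only [hf, AddMonoidHom.neg_apply, AddMonoidHom.comp_apply, indepR_apply, smul_add]
      abel

/-- stage II -/
theorem indep_stage_two (h : IndepHyp X Q E η) :
    ∀ (m M : ℕ) (Z : List G), Z.length ≤ m → (∀ σ ∈ Z, Big Q η (indepG m M) σ) →
      ∀ (c : X →+ X) (L : List ((X →+ X) × G)), IndepComm Q c → IndepInj η c →
      L.length ≤ M → (∀ t ∈ L, IndepComm Q t.1 ∧ IndepGood Q η Z t.2) →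
      IndepCert Q η Q (fun w => c w + indepS L w) (2 ^ indepG m M) := by
  intro m
  induction m with
  | zero =>
    intro M Z hZ _ c L hc hi hM hL
    obtain rfl : Z = [] := List.length_eq_zero_iff.1 (Nat.le_zero.1 hZ)
    refine indep_stage_three h M c L hc hi hM fun t ht => ⟨(hL t ht).1, ?_⟩
    rcases (hL t ht).2 with b | ⟨τ, hτ, _⟩
    · exact b
    · simp at hτ
  | succ m ih =>
    intro M Z hZ hB c L hc hi hM hL
    rw [indepG_succ] at hB ⊢
    set B := 2 ^ M * (M + 1) with hBdef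
    have hMB : M + 1 ≤ B := Nat.le_mul_of_pos_left _ (Nat.two_pow_pos _)
    cases Z with
    | nil =>
      exact (ih B [] (by simp) (by simp) c L hc hi (by omega) hL).mono
        (Nat.pow_le_pow_right (by norm_num) (by omega))
    | cons σ Z =>
      obtain ⟨L₁, L₂, h1, h2, hL₁, hL₂, hs⟩ := indepS_split
        (fun t => IndepComm Q t.1 ∧ t.2 * σ⁻¹ ∈ Q)
        (fun t => IndepComm Q t.1 ∧ IndepGood Q η Z t.2) L (by
          intro t ht
          obtain ⟨a, b⟩ := hL t ht
          rcases b with b | ⟨τ, hτ, b⟩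
          · exact Or.inr ⟨a, Or.inl b⟩
          · rcases List.mem_cons.1 hτ with rfl | hτ
            · exact Or.inl ⟨a, b⟩
            · exact Or.inr ⟨a, Or.inr ⟨τ, hτ, b⟩⟩)
      have key := indep_inner h Z σ B (2 ^ indepG m B)
        (indep_big_mono (hB σ List.mem_cons_self) (by omega))
        (ih B Z (by simpa using hZ)
          (fun τ hτ => indep_big_mono (hB τ (List.mem_cons_of_mem _ hτ)) (by omega)))
        M c L₁ L₂ hc hi (h1.trans hM) (Nat.mul_le_mul_left _ (by omega)) hL₁ hL₂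
      refine (key.congr h le_rfl fun w _ => by rw [hs, add_assoc]).mono ?_
      rw [← pow_add]
      exact Nat.pow_le_pow_right (by norm_num) (by omega)

theorem IndepHyp.surj [Finite X] (h : IndepHyp X Q E η) {c : X →+ X} (hc : IndepComm Q c)
    (hi : IndepInj η c) {w : X} (hw : w ∈ indepW X η) : ∃ u ∈ indepW X η, c u = w := by
  let f : indepW X η → indepW X η := fun u => ⟨c u, h.map_mem hc u.2⟩
  have hf : Function.Injective f := by
    intro u v huv
    have h1 : c u = c v := congrArg Subtype.val huv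
    have h2 := hi (u - v) ((indepW X η).sub_mem u.2 v.2) (by rw [map_sub, h1, sub_self])
    exact Subtype.ext (sub_eq_zero.1 h2)
  obtain ⟨u, hu⟩ := Finite.surjective_of_injective hf ⟨w, hw⟩
  exact ⟨u, u.2, congrArg Subtype.val hu⟩

theorem indep_relIndex_ne [Finite X] (V W : AddSubgroup X) : V.relIndex W ≠ 0 :=
  AddSubgroup.index_ne_zero_of_finite

theorem indep_idx2_index [Finite X] {U : AddSubgroup X} (hU : Idx2 U) : U.index ≤ 2 := by
  classical
  have : Function.Injective (fun z : X ⧸ U => decide (z = 0)) := by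
    intro z z' hz
    induction z using QuotientAddGroup.induction_on with | H x => ?_
    induction z' using QuotientAddGroup.induction_on with | H x' => ?_
    simp only [decide_eq_decide, QuotientAddGroup.eq_zero_iff] at hz
    rw [QuotientAddGroup.eq_iff_sub_mem]
    by_cases hx : x ∈ U
    · exact U.sub_mem hx (hz.1 hx)
    · exact hU x x' hx (fun h' => hx (hz.2 h'))
  have h2 := Nat.card_le_card_of_injective _ this
  have h3 : Nat.card (X ⧸ U) ≤ 2 := by simpa using h2
  exact h3

/-- a bounded number of translates generates the invariant closure -/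
theorem indep_chain [Finite X] (h : IndepHyp X Q E η) (V₁ : AddSubgroup X)
    (h₁ : V₁ ≤ indepW X η) :
    ∀ (I : ℕ) (V : AddSubgroup X), V ≤ indepW X η → V.relIndex (indepW X η) ≤ I →
      ∃ H : Finset G, (∀ a ∈ H, a ∈ Q) ∧ H.card ≤ I ∧ ∀ S : AddSubgroup X, V ≤ S →
        (∀ a ∈ H, ∀ v ∈ V₁, a • v ∈ S) → ∀ a ∈ Q, ∀ v ∈ V₁, a • v ∈ S := by
  classical
  intro I
  induction I with
  | zero =>
    intro V _ hI
    exact absurd (Nat.le_zero.1 hI) (indep_relIndex_ne _ _)
  | succ I ih =>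
    intro V hV hI
    by_cases hall : ∀ a ∈ Q, ∀ v ∈ V₁, a • v ∈ V
    · exact ⟨∅, by simp, by simp, fun S hS _ a ha v hv => hS (hall a ha v hv)⟩
    push Not at hall
    obtain ⟨a, ha, v, hv, hav⟩ := hall
    have hV' : V ⊔ V₁.map (indepR X a) ≤ indepW X η := by
      refine sup_le hV ?_
      rintro _ ⟨u, hu, rfl⟩
      exact h.smul_mem ha (h₁ hu)
    have hmul := AddSubgroup.relIndex_mul_relIndex V (V ⊔ V₁.map (indepR X a)) (indepW X η)
      le_sup_left hV'
    have hne : V.relIndex (V ⊔ V₁.map (indepR X a)) ≠ 1 := by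
      rw [Ne, AddSubgroup.relIndex_eq_one]
      intro hle
      exact hav (hle (AddSubgroup.mem_sup_right ⟨v, hv, rfl⟩))
    have hn0 := indep_relIndex_ne V (V ⊔ V₁.map (indepR X a))
    have hn1 := indep_relIndex_ne (V ⊔ V₁.map (indepR X a)) (indepW X η)
    have hlt : (V ⊔ V₁.map (indepR X a)).relIndex (indepW X η) ≤ I := by
      have h2 : 2 ≤ V.relIndex (V ⊔ V₁.map (indepR X a)) := by omega
      have h3 := Nat.mul_le_mul_right ((V ⊔ V₁.map (indepR X a)).relIndex (indepW X η)) h2
      omega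
    obtain ⟨H, hH, hc, hS⟩ := ih _ hV' hlt
    refine ⟨insert a H, ?_, ?_, fun S hVS hH' => hS S (sup_le hVS ?_) ?_⟩
    · intro x hx
      rcases Finset.mem_insert.1 hx with rfl | hx
      · exact ha
      · exact hH x hx
    · have := Finset.card_insert_le a H
      omega
    · rintro _ ⟨u, hu, rfl⟩
      exact hH' a (Finset.mem_insert_self _ _) u hu
    · exact fun x hx => hH' x (Finset.mem_insert_of_mem hx)

theorem IndepHyp.eq_of_triv [Finite X] (h : IndepHyp X Q E η) {V : AddSubgroup X} {e : G}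
    (he : e ∈ E) (he' : e ∉ η) (hV : ∀ w ∈ indepW X η, e • w - w ∈ V) : indepW X η ≤ V := by
  intro w hw
  obtain ⟨u, hu, rfl⟩ := h.surj (((h.comm_R he).sub indep_comm_id).comp indep_comm_id)
    (h.inj_sub he he' indep_comm_id (fun w _ h0 => h0)) hw
  simpa using hV u hu

/-- an invariant subgroup of small index is everything when some element is big -/
theorem indep_big_top [Finite X] (h : IndepHyp X Q E η) {V : AddSubgroup X} {I : ℕ}
    (hinv : ∀ a ∈ Q, ∀ v ∈ V, a • v ∈ V) (hI : V.relIndex (indepW X η) ≤ I) {σ : G}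
    (hσ : Big Q η (I ^ I) σ) : indepW X η ≤ V := by
  classical
  let β := indepW X η ⧸ V.addSubgroupOf (indepW X η)
  have : Fintype β := Fintype.ofFinite β
  have hβ : Fintype.card β ≤ I := by
    rw [← Nat.card_eq_fintype_card]
    exact hI
  have hβ0 : 0 < Fintype.card β := Fintype.card_pos
  let sg : Q → β → β := fun q z =>
    QuotientAddGroup.mk ⟨(q : G) • ((z.out : indepW X η) : X), h.smul_mem q.2 z.out.2⟩
  have hsg : ∀ a q : Q, sg a = sg q → ∀ w ∈ indepW X η, (a : G) • w - (q : G) • w ∈ V := by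
    intro a q haq w hw
    let z : β := QuotientAddGroup.mk ⟨w, hw⟩
    have h1 : (a : G) • ((z.out : indepW X η) : X) - (q : G) • ((z.out : indepW X η) : X) ∈ V := by
      have := congrFun haq z
      simp only [sg] at this
      rw [QuotientAddGroup.eq_iff_sub_mem, AddSubgroup.mem_addSubgroupOf] at this
      simpa using this
    have h2 : w - ((z.out : indepW X η) : X) ∈ V := by
      have : (QuotientAddGroup.mk ⟨w, hw⟩ : β) = QuotientAddGroup.mk z.out :=
        (QuotientAddGroup.out_eq' z).symm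
      rw [QuotientAddGroup.eq_iff_sub_mem, AddSubgroup.mem_addSubgroupOf] at this
      simpa using this
    have h3 := V.sub_mem (V.add_mem h1 (hinv a a.2 _ h2)) (hinv q q.2 _ h2)
    convert h3 using 1
    simp only [smul_sub]
    abel
  let sec : (β → β) → Q := fun g => if hg : ∃ q, sg q = g then hg.choose else 1
  have hsec : ∀ q, sg (sec (sg q)) = sg q := by
    intro q
    have hg : ∃ q', sg q' = sg q := ⟨q, rfl⟩
    simp only [sec, dif_pos hg]
    exact hg.choose_spec
  obtain ⟨y, hy, hyF⟩ := hσ (Finset.univ.image fun g => (sec g : G))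
    (by
      intro a ha
      obtain ⟨g, _, rfl⟩ := Finset.mem_image.1 ha
      exact (sec g).2)
    (by
      refine Finset.card_image_le.trans ?_
      rw [Finset.card_univ, Fintype.card_fun]
      exact (Nat.pow_le_pow_left hβ _).trans (Nat.pow_le_pow_right (by omega) hβ))
  set y' := σ⁻¹ * y⁻¹ * σ with hy'def
  have hy' : y' ∈ Q := by
    have := h.normal.conj_mem _ (Q.inv_mem hy) σ⁻¹
    simpa [hy'def] using this
  let q₀ : Q := ⟨y⁻¹ * y'⁻¹, Q.mul_mem (Q.inv_mem hy) (Q.inv_mem hy')⟩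
  obtain ⟨q, hq, hne⟩ := hyF (sec (sg q₀)) (Finset.mem_image_of_mem _ (Finset.mem_univ _))
  set a : G := (sec (sg q₀) : G) with hadef
  have ha : a ∈ Q := (sec (sg q₀)).2
  have hz : y * a * y' ∈ Q := Q.mul_mem (Q.mul_mem hy ha) hy'
  have htriv : ∀ w ∈ indepW X η, (y * a * y') • w - w ∈ V := by
    intro w hw
    have := hinv y hy _ (hsg _ _ (hsec q₀) _ (h.smul_mem hy' hw))
    convert this using 1
    simp only [smul_sub, smul_smul, q₀, ← hadef]
    congr 1
    · rw [mul_assoc]
    · simp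
  set z := y * a * y' with hzdef
  refine h.eq_of_triv (h.comm_mem hz hq) hne fun w hw => ?_
  have h1 := htriv _ (h.smul_mem (Q.mul_mem (Q.mul_mem hq (Q.inv_mem hz)) (Q.inv_mem hq)) hw)
  have h2 := hinv q hq _
    (htriv _ (h.smul_mem (Q.mul_mem (Q.inv_mem hz) (Q.inv_mem hq)) hw))
  have h3 := V.sub_mem h1 h2
  convert h3 using 1
  simp only [smul_sub, smul_smul, commutatorElement_def]
  have e1 : q * (z * (z⁻¹ * q⁻¹)) = 1 := by group
  have e2 : q * (z⁻¹ * q⁻¹) = q * z⁻¹ * q⁻¹ := by group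
  have e3 : z * (q * z⁻¹ * q⁻¹) = z * q * z⁻¹ * q⁻¹ := by group
  rw [e1, e2, e3, one_smul]
  abel

/-- from a certificate to the conclusion -/
theorem indep_final [Finite X] (h : IndepHyp X Q E η) {D : Subgroup G} {Ψ : X → X} {b : ℕ}
    (hc : IndepCert Q η D Ψ b) {U : AddSubgroup X} (hU : Idx2 U)
    (hcase : (∃ σ, Big Q η ((2 ^ b) ^ (2 ^ b)) σ) ∨ (D = ⊥ ∧ ∃ e ∈ E, e ∉ η)) :
    ∃ H : Finset G, (∀ a ∈ H, a ∈ Q) ∧ H.card ≤ (2 ^ b + 1) * b ∧ ∀ S : AddSubgroup X,
      (∀ a ∈ H, ∀ x ∈ U, a • Ψ x ∈ S) → ∀ w : X, (∀ e ∈ η, e • w = w) → w ∈ S := by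
  classical
  obtain ⟨H, K, h1, h2, h3, h4, c, hc1, hc2, hc3⟩ := hc
  set U' : AddSubgroup X := indepW X η ⊓ ⨅ k : K, U.comap (indepR X (k : G)) with hU'
  have hU'mem : ∀ u, u ∈ U' ↔ u ∈ indepW X η ∧ ∀ k ∈ K, k • u ∈ U := by
    intro u
    simp [hU', AddSubgroup.mem_iInf]
  have hI' : U'.relIndex (indepW X η) ≤ 2 ^ b := by
    rw [hU', inf_comm, AddSubgroup.inf_relIndex_right]
    refine (AddSubgroup.relIndex_iInf_le _).trans ?_
    refine (Finset.prod_le_pow_card _ _ 2 fun k _ => ?_).trans ?_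
    · refine (AddSubgroup.relIndex_le_of_le_right le_top (indep_relIndex_ne _ _)).trans ?_
      rw [AddSubgroup.relIndex_top_right]
      refine indep_idx2_index fun x x' hx hx' => ?_
      have := hU _ _ hx hx'
      simpa [smul_sub] using this
    · rw [Finset.card_univ, Fintype.card_coe]
      exact Nat.pow_le_pow_right (by norm_num) h4
  have hmapW : (indepW X η).map c = indepW X η := by
    apply le_antisymm
    · rintro _ ⟨u, hu, rfl⟩
      exact h.map_mem hc1 hu
    · intro w hw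
      obtain ⟨u, hu, rfl⟩ := h.surj hc1 hc2 hw
      exact ⟨u, hu, rfl⟩
  have hV₁ : U'.map c ≤ indepW X η := by
    rw [← hmapW]
    exact AddSubgroup.map_mono inf_le_left
  have hI₁ : (U'.map c).relIndex (indepW X η) ≤ 2 ^ b := by
    conv_lhs => rw [← hmapW, ← AddSubgroup.relIndex_comap]
    exact (AddSubgroup.relIndex_le_of_le_left (AddSubgroup.le_comap_map _ _)
      (indep_relIndex_ne _ _)).trans hI'
  obtain ⟨H₂, hH₂, hcard, hS₂⟩ := indep_chain h (U'.map c) hV₁ (2 ^ b) (U'.map c) hV₁ hI₁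
  set V : AddSubgroup X := AddSubgroup.closure {x | ∃ a ∈ Q, ∃ v ∈ U'.map c, x = a • v} with hVdef
  have hV₁V : U'.map c ≤ V := fun v hv =>
    AddSubgroup.subset_closure ⟨1, Q.one_mem, v, hv, (one_smul _ _).symm⟩
  have hinv : ∀ a ∈ Q, ∀ v ∈ V, a • v ∈ V := by
    intro a ha
    have : V ≤ V.comap (indepR X a) := by
      rw [hVdef, AddSubgroup.closure_le]
      rintro _ ⟨a', ha', v, hv, rfl⟩
      exact AddSubgroup.subset_closure ⟨a * a', Q.mul_mem ha ha', v, hv, smul_smul _ _ _⟩
    exact fun v hv => this hv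
  have htop : indepW X η ≤ V := by
    rcases hcase with ⟨σ, hσ⟩ | ⟨rfl, e, he, he'⟩
    · exact indep_big_top h hinv
        ((AddSubgroup.relIndex_le_of_le_left hV₁V (indep_relIndex_ne _ _)).trans hI₁) hσ
    · have hUU : ∀ u ∈ indepW X η, u ∈ U → c u ∈ V := by
        intro u hu hu'
        refine hV₁V ⟨u, (hU'mem u).2 ⟨hu, fun k hk => ?_⟩, rfl⟩
        rw [Subgroup.mem_bot.1 (h2 k hk), one_smul]
        exact hu'
      refine h.eq_of_triv he he' fun w hw => ?_
      by_cases hwV : w ∈ V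
      · exact V.sub_mem (hinv e (h.le₁ he) w hwV) hwV
      have hwV' : e • w ∉ V := by
        intro h'
        have := hinv e⁻¹ (Q.inv_mem (h.le₁ he)) _ h'
        rw [inv_smul_smul] at this
        exact hwV this
      obtain ⟨u, hu, hcu⟩ := h.surj hc1 hc2 hw
      obtain ⟨u', hu', hcu'⟩ := h.surj hc1 hc2 (h.smul_mem (h.le₁ he) hw)
      have := hUU (u' - u) ((indepW X η).sub_mem hu' hu)
        (hU u' u (fun h' => hwV' (hcu' ▸ hUU u' hu' h')) (fun h' => hwV (hcu ▸ hUU u hu h')))
      rwa [map_sub, hcu, hcu'] at this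
  refine ⟨Finset.image₂ (· * ·) (insert 1 H₂) H, ?_, ?_, fun S hS w hw => ?_⟩
  · intro a ha
    obtain ⟨x, hx, y, hy, rfl⟩ := Finset.mem_image₂.1 ha
    refine Q.mul_mem ?_ (h1 y hy)
    rcases Finset.mem_insert.1 hx with rfl | hx
    · exact Q.one_mem
    · exact hH₂ x hx
  · refine (Finset.card_image₂_le _ _ _).trans (Nat.mul_le_mul ?_ h3)
    have := Finset.card_insert_le 1 H₂
    omega
  · have key : ∀ a ∈ insert 1 H₂, ∀ v ∈ U'.map c, a • v ∈ S := by
      rintro a ha _ ⟨u, hu, rfl⟩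
      obtain ⟨hu1, hu2⟩ := (hU'mem u).1 hu
      refine hc3 (S.comap (indepR X a)) u hu1 fun a' ha' k hk => ?_
      have := hS _ (Finset.mem_image₂_of_mem ha ha') _ (hu2 k hk)
      simpa [smul_smul] using this
    have hall := hS₂ S
      (fun v hv => by simpa using key 1 (Finset.mem_insert_self _ _) v hv)
      (fun a ha => key a (Finset.mem_insert_of_mem ha))
    have hVS : V ≤ S := by
      rw [hVdef, AddSubgroup.closure_le]
      rintro _ ⟨a, ha, v, hv, rfl⟩
      exact hall a ha v hv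
    exact hVS (htop hw)

theorem indep_opSum (T : List (ℤ × G)) (x : X) :
    opSum T x = AddMonoidHom.id X x +
      indepS (T.map fun a => (a.1 • AddMonoidHom.id X, a.2)) x := by
  show x + (T.map fun a => a.1 • (a.2 • x)).sum =
    x + ((T.map fun a => (a.1 • AddMonoidHom.id X, a.2)).map fun t => t.1 (t.2 • x)).sum
  rw [List.map_map]
  rfl

end IndepAux

/-- independence of group elements on a homogeneous component of a class two group -/
theorem indep_lemma (l : ℕ) : ∃ b n : ℕ, ∀ (G X : Type) [Group G] [Finite G] [AddCommGroup X]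
    [Finite X] [DistribMulAction G X] (Q E η : Subgroup G), Q.Normal → E ≤ Q → η ≤ E →
    (∀ e ∈ E, ∀ q ∈ Q, e * q = q * e) → ⁅Q, Q⁆ ≤ E →
    (∀ e ∈ E, e ∉ η → ∀ x : X, (∀ e' ∈ η, e' • x = x) → e • x = x → x = 0) →
    (∃ e ∈ E, e ∉ η) →
    ∀ T : List (ℤ × G), T.length ≤ l →
    (∀ a ∈ T, (∃ e ∈ E, e ∉ η ∧ a.2⁻¹ * e * a.2 ∈ η) ∨ Big Q η n a.2) →
    ∀ U : AddSubgroup X, Idx2 U →
    ∃ H : Finset G, (∀ a ∈ H, a ∈ Q) ∧ H.card ≤ b ∧ ∀ S : AddSubgroup X,
      (∀ a ∈ H, ∀ x ∈ U, a • opSum T x ∈ S) → ∀ w : X, (∀ e ∈ η, e • w = w) → w ∈ S := by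
  obtain ⟨b, hb⟩ : ∃ b, b = 2 ^ l * 2 ^ indepG l l := ⟨_, rfl⟩
  obtain ⟨n₀, hn₀⟩ : ∃ n₀, n₀ = (2 ^ b) ^ (2 ^ b) := ⟨_, rfl⟩
  refine ⟨(2 ^ b + 1) * b, indepG l l + n₀, ?_⟩
  intro G X _ _ _ _ _ Q E η hQ h1 h2 h3 h4 h5 hE T hT hcase U hU
  have h : IndepHyp X Q E η := ⟨hQ, h1, h2, h3, h4, h5⟩
  obtain ⟨L₁, L₂, l1, l2, hL₁, hL₂, hs⟩ := indepS_split
    (fun t => IndepComm Q t.1 ∧ ∃ e ∈ E, e ∉ η ∧ t.2⁻¹ * e * t.2 ∈ η)
    (fun t => IndepComm Q t.1 ∧ Big Q η (indepG l l + n₀) t.2)
    (T.map fun a => (a.1 • AddMonoidHom.id X, a.2)) (by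
      intro t ht
      obtain ⟨a, ha, rfl⟩ := List.mem_map.1 ht
      have hcm : IndepComm Q (a.1 • AddMonoidHom.id X) := by
        intro q _ x
        exact ((indepR X q).map_zsmul a.1 x).symm
      rcases hcase a ha with h' | h'
      · exact Or.inl ⟨hcm, h'⟩
      · exact Or.inr ⟨hcm, h'⟩)
  rw [List.length_map] at l1 l2
  have hid : IndepInj η (AddMonoidHom.id X) := fun w _ h0 => h0
  have hop : ∀ w : X, opSum T w = AddMonoidHom.id X w + indepS L₁ w + indepS L₂ w := by
    intro w
    rw [indep_opSum, hs, add_assoc]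
  cases L₂ with
  | nil =>
    have key := indep_stage_one h (D := ⊥) bot_le (fun _ => True) 0 1
      (fun c L hc hi hL _ => by
        obtain rfl : L = [] := List.length_eq_zero_iff.1 (Nat.le_zero.1 hL)
        exact indep_cert_base c hc hi (by simp))
      l (AddMonoidHom.id X) L₁ [] indep_comm_id hid (l1.trans hT) le_rfl hL₁ (by simp)
    have key' : IndepCert Q η ⊥ (opSum T : X → X) b := by
      refine (key.congr h bot_le fun w _ => hop w).mono ?_
      rw [hb]
      exact Nat.mul_le_mul_left _ Nat.one_le_two_pow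
    exact indep_final h key' hU (Or.inr ⟨rfl, hE⟩)
  | cons t L₂ =>
    have key := indep_stage_one h (D := Q) le_rfl (IndepGood Q η ((t :: L₂).map Prod.snd)) l
      (2 ^ indepG l l)
      (indep_stage_two h l l ((t :: L₂).map Prod.snd) (by rw [List.length_map]; omega) (by
        intro σ hσ
        obtain ⟨s, hs, rfl⟩ := List.mem_map.1 hσ
        exact indep_big_mono (hL₂ s hs).2 (Nat.le_add_right _ _)))
      l (AddMonoidHom.id X) L₁ (t :: L₂) indep_comm_id hid (l1.trans hT) (l2.trans hT) hL₁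
      (fun s hs => ⟨(hL₂ s hs).1, Or.inr ⟨s.2, List.mem_map_of_mem hs, by simp⟩⟩)
    have key' : IndepCert Q η Q (opSum T : X → X) b := by
      rw [hb]
      exact key.congr h le_rfl fun w _ => hop w
    refine indep_final h key' hU (Or.inl ⟨t.2, ?_⟩)
    rw [← hn₀]
    exact indep_big_mono (hL₂ t List.mem_cons_self).2 (Nat.le_add_left _ _)

end Pool.Agent.FitW
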