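import Mathlib

/-! Abelian sections as modules; polynomial maps. -/

namespace Pool.Agent.LawP

open Subgroup
open scoped commutatorElement

variable {K : Type} [Group K]

/-- `π` identifies the abelian section `S / T` with `X` -/
structure Sec (S T : Subgroup K) {X : Type} [AddCommGroup X] (π : K → X) : Prop where
  mul : ∀ x ∈ S, ∀ y ∈ S, π (x * y) = π x + π y
  ker : ∀ x ∈ S, π x = 0 ↔ x ∈ T
  surj : ∀ v : X, ∃ x ∈ S, π x = v

theorem exists_sec (S T : Subgroup K) (h : ⁅S, S⁆ ≤ T) :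
    ∃ (X : Type) (_ : AddCommGroup X) (π : K → X), Sec S T π := by
  classical
  let T' : Subgroup (Abelianization S) := (T.subgroupOf S).map Abelianization.of
  let q : S →* Abelianization S ⧸ T' := (QuotientGroup.mk' T').comp Abelianization.of
  refine ⟨Additive (Abelianization S ⧸ T'), inferInstance,
    fun x => if hx : x ∈ S then Additive.ofMul (q ⟨x, hx⟩) else 0, ?_, ?_, ?_⟩
  · intro x hx y hy
    rw [dif_pos hx, dif_pos hy, dif_pos (S.mul_mem hx hy), ← ofMul_mul, ← map_mul]
    rfl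
  · intro x hx
    rw [dif_pos hx, ofMul_eq_zero]
    show ((Abelianization.of (⟨x, hx⟩ : S) : Abelianization S) : Abelianization S ⧸ T') = 1 ↔ _
    rw [QuotientGroup.eq_one_iff]
    constructor
    · rintro ⟨y, hy, e⟩
      have h1 : y⁻¹ * ⟨x, hx⟩ ∈ commutator S := by
        rw [← Abelianization.ker_of, MonoidHom.mem_ker, map_mul, map_inv, e, inv_mul_cancel]
      have h2 : ((y⁻¹ * ⟨x, hx⟩ : S) : K) ∈ ⁅S, S⁆ := by
        rw [← Subgroup.map_subtype_commutator]
        exact ⟨_, h1, rfl⟩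
      have h3 := T.mul_mem (show (y : K) ∈ T from hy) (h h2)
      simpa using h3
    · intro hT
      exact ⟨⟨x, hx⟩, hT, rfl⟩
  · intro v
    obtain ⟨x, hx⟩ : ∃ x : S, q x = Additive.toMul v :=
      ((QuotientGroup.mk'_surjective T').comp (QuotientGroup.mk'_surjective _)) _
    exact ⟨x, x.2, by rw [dif_pos x.2]; exact congrArg Additive.ofMul hx⟩

section Add

variable {S : Subgroup K} {X : Type} [AddCommGroup X] {π : K → X}

/-- additive on the subgroup `S` -/
def AddOn (S : Subgroup K) (π : K → X) : Prop := ∀ x ∈ S, ∀ y ∈ S, π (x * y) = π x + π y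

theorem AddOn.one (h : AddOn S π) : π 1 = 0 := by
  have := h 1 S.one_mem 1 S.one_mem
  rw [mul_one] at this
  exact left_eq_add.1 this

theorem AddOn.inv (h : AddOn S π) {x : K} (hx : x ∈ S) : π x⁻¹ = -π x := by
  have := h x hx x⁻¹ (S.inv_mem hx)
  rw [mul_inv_cancel, h.one] at this
  exact (neg_eq_of_add_eq_zero_right this.symm).symm

theorem AddOn.pow (h : AddOn S π) {x : K} (hx : x ∈ S) (n : ℕ) : π (x ^ n) = n • π x := by
  induction n with
  | zero => rw [pow_zero, h.one, zero_smul]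
  | succ n ih => rw [pow_succ, h _ (S.pow_mem hx n) _ hx, ih, succ_nsmul]

theorem AddOn.zpow (h : AddOn S π) {x : K} (hx : x ∈ S) (n : ℤ) : π (x ^ n) = n • π x := by
  cases n with
  | ofNat n => rw [Int.ofNat_eq_natCast, zpow_natCast, h.pow hx, natCast_zsmul]
  | negSucc n => rw [zpow_negSucc, h.inv (S.pow_mem hx _), h.pow hx, negSucc_zsmul]

theorem AddOn.comm (h : AddOn S π) {x : K} (hx : x ∈ ⁅S, S⁆) : π x = 0 := by
  have hle : ⁅S, S⁆ ≤ S := by
    rw [Subgroup.commutator_le]
    intro a ha b hb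
    exact S.mul_mem (S.mul_mem (S.mul_mem ha hb) (S.inv_mem ha)) (S.inv_mem hb)
  rw [Subgroup.commutator_def] at hx
  induction hx using Subgroup.closure_induction with
  | mem y hy =>
    obtain ⟨a, ha, b, hb, rfl⟩ := hy
    rw [commutatorElement_def, h _ (S.mul_mem (S.mul_mem ha hb) (S.inv_mem ha)) _ (S.inv_mem hb),
      h _ (S.mul_mem ha hb) _ (S.inv_mem ha), h _ ha _ hb, h.inv ha, h.inv hb]
    abel
  | one => exact h.one
  | mul a b ha hb iha ihb => rw [h _ (hle ha) _ (hle hb), iha, ihb, add_zero]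
  | inv a ha iha => rw [h.inv (hle ha), iha, neg_zero]

end Add

section SecLemmas

variable {S T : Subgroup K} {X : Type} [AddCommGroup X] {π : K → X}

theorem Sec.addOn (h : Sec S T π) : AddOn S π := h.mul

theorem Sec.eq_iff (h : Sec S T π) {x y : K} (hx : x ∈ S) (hy : y ∈ S) :
    π x = π y ↔ x * y⁻¹ ∈ T := by
  rw [← h.ker _ (S.mul_mem hx (S.inv_mem hy)), h.mul _ hx _ (S.inv_mem hy), h.addOn.inv hy,
    ← sub_eq_add_neg, sub_eq_zero]

theorem Sec.ext (h : Sec S T π) {Y : Type} {f g : X → Y} (e : ∀ x ∈ S, f (π x) = g (π x)) (v : X) :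
    f v = g v := by
  obtain ⟨x, hx, rfl⟩ := h.surj v
  exact e x hx

theorem Sec.exists_end (h : Sec S T π) (φ : K →* K) (hS : ∀ x ∈ S, φ x ∈ S)
    (hT : ∀ x ∈ T, φ x ∈ T) : ∃ ψ : Module.End ℤ X, ∀ x ∈ S, ψ (π x) = π (φ x) := by
  choose σ hσ hσ' using h.surj
  have wd : ∀ x ∈ S, ∀ y ∈ S, π x = π y → π (φ x) = π (φ y) := by
    intro x hx y hy e
    rw [h.eq_iff (hS x hx) (hS y hy), ← map_inv, ← map_mul]
    exact hT _ ((h.eq_iff hx hy).1 e)
  let ψ : X →+ X := AddMonoidHom.mk' (fun v => π (φ (σ v))) (by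
    intro v v'
    rw [← h.mul _ (hS _ (hσ v)) _ (hS _ (hσ v')), ← map_mul]
    apply wd _ (hσ _) _ (S.mul_mem (hσ v) (hσ v'))
    rw [h.mul _ (hσ v) _ (hσ v'), hσ', hσ', hσ'])
  exact ⟨ψ.toIntLinearMap, fun x hx => wd _ (hσ _) _ hx (hσ' _)⟩

theorem Sec.exists_rep (h : Sec S T π) [hS : S.Normal] [hT : T.Normal] :
    ∃ ρ : K →* Module.End ℤ X, ∀ g, ∀ x ∈ S, ρ g (π x) = π (g * x * g⁻¹) := by
  have : ∀ g : K, ∃ ψ : Module.End ℤ X, ∀ x ∈ S, ψ (π x) = π (g * x * g⁻¹) := fun g =>
    h.exists_end (MulAut.conj g).toMonoidHom (fun x hx => hS.conj_mem x hx g)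
      (fun x hx => hT.conj_mem x hx g)
  choose ρ hρ using this
  refine ⟨⟨⟨ρ, ?_⟩, ?_⟩, hρ⟩
  · refine LinearMap.ext (h.ext fun x hx => ?_)
    rw [hρ 1 x hx]; simp
  · intro a b
    refine LinearMap.ext (h.ext fun x hx => ?_)
    rw [hρ _ x hx, Module.End.mul_apply, hρ b x hx, hρ a _ (hS.conj_mem x hx b)]
    congr 1
    group

theorem Sec.smul_eq_zero (h : Sec S T π) {q : ℕ} (hq : ∀ x ∈ S, x ^ q = 1) (v : X) :
    q • v = 0 := by
  obtain ⟨x, hx, rfl⟩ := h.surj v
  rw [← h.addOn.pow hx, hq x hx, h.addOn.one]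

/-- the Engel commutator `[a, [a, ... [a, u]]]` -/
def eng (a : K) : ℕ → K → K
  | 0, u => u
  | k + 1, u => ⁅a, eng a k u⁆

theorem eng_mem [hS : S.Normal] (a : K) (k : ℕ) {u : K} (hu : u ∈ S) : eng a k u ∈ S := by
  induction k with
  | zero => exact hu
  | succ k ih => exact S.mul_mem (hS.conj_mem _ ih a) (S.inv_mem ih)

theorem eng_succ' (a : K) (k : ℕ) (u : K) : eng a (k + 1) u = eng a k ⁅a, u⁆ := by
  induction k with
  | zero => rfl
  | succ k ih => show ⁅a, eng a (k + 1) u⁆ = ⁅a, eng a k ⁅a, u⁆⁆; rw [ih]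

theorem eng_add (a : K) (k l : ℕ) (u : K) : eng a (k + l) u = eng a k (eng a l u) := by
  induction k with
  | zero => rw [Nat.zero_add]; rfl
  | succ k ih =>
    rw [Nat.add_right_comm]
    show ⁅a, eng a (k + l) u⁆ = ⁅a, _⁆
    rw [ih]

theorem map_eng {H : Type} [Group H] (θ : K →* H) (a : K) (k : ℕ) (u : K) :
    θ (eng a k u) = eng (θ a) k (θ u) := by
  induction k with
  | zero => rfl
  | succ k ih => show θ ⁅a, _⁆ = ⁅θ a, _⁆; rw [map_commutatorElement, ih]

theorem Sec.comm_apply (h : Sec S T π) [hS : S.Normal] {ρ : K →* Module.End ℤ X}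
    (hρ : ∀ g, ∀ x ∈ S, ρ g (π x) = π (g * x * g⁻¹)) (a : K) {u : K} (hu : u ∈ S) :
    π ⁅a, u⁆ = (ρ a - 1) (π u) := by
  rw [commutatorElement_def, h.mul _ (hS.conj_mem u hu a) _ (S.inv_mem hu), h.addOn.inv hu,
    LinearMap.sub_apply, hρ a u hu, Module.End.one_apply, sub_eq_add_neg]

theorem Sec.eng_apply (h : Sec S T π) [hS : S.Normal] {ρ : K →* Module.End ℤ X}
    (hρ : ∀ g, ∀ x ∈ S, ρ g (π x) = π (g * x * g⁻¹)) (a : K) (k : ℕ) {u : K} (hu : u ∈ S) :
    π (eng a k u) = ((ρ a - 1) ^ k) (π u) := by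
  induction k with
  | zero => rfl
  | succ k ih =>
    show π ⁅a, eng a k u⁆ = _
    rw [h.comm_apply hρ a (eng_mem a k hu), ih, pow_succ', Module.End.mul_apply]

theorem Sec.pow_eq_zero_iff (h : Sec S T π) [hS : S.Normal] {ρ : K →* Module.End ℤ X}
    (hρ : ∀ g, ∀ x ∈ S, ρ g (π x) = π (g * x * g⁻¹)) (a : K) (k : ℕ) :
    (ρ a - 1) ^ k = 0 ↔ ∀ u ∈ S, eng a k u ∈ T := by
  constructor
  · intro e u hu
    rw [← h.ker _ (eng_mem a k hu), h.eng_apply hρ a k hu, e]; rfl
  · intro e
    refine LinearMap.ext (h.ext fun u hu => ?_)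
    rw [← h.eng_apply hρ a k hu, (h.ker _ (eng_mem a k hu)).2 (e u hu)]; rfl

end SecLemmas

section Poly

variable {R : Type} [Ring R]

/-- polynomial map of degree less than `d` -/
def Poly : ℕ → (ℕ → R) → Prop
  | 0, F => ∀ s, F s = 0
  | d + 1, F => Poly d (fun s => F (s + 1) - F s)

theorem poly_zero (d : ℕ) {F : ℕ → R} (h : ∀ s, F s = 0) : Poly d F := by
  induction d generalizing F with
  | zero => exact h
  | succ d ih => exact ih fun s => by rw [h, h, sub_zero]

theorem Poly.succ {d : ℕ} {F : ℕ → R} (h : Poly d F) : Poly (d + 1) F := by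
  induction d generalizing F with
  | zero => exact poly_zero 1 h
  | succ d ih => exact ih h

theorem Poly.mono {d e : ℕ} {F : ℕ → R} (h : Poly d F) (hde : d ≤ e) : Poly e F := by
  induction hde with
  | refl => exact h
  | step _ ih => exact ih.succ

theorem Poly.shift {d : ℕ} {F : ℕ → R} (h : Poly d F) : Poly d (fun s => F (s + 1)) := by
  induction d generalizing F with
  | zero => exact fun s => h (s + 1)
  | succ d ih => exact ih (F := fun s => F (s + 1) - F s) h

theorem Poly.add {d : ℕ} {F G : ℕ → R} (hF : Poly d F) (hG : Poly d G) :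
    Poly d (fun s => F s + G s) := by
  induction d generalizing F G with
  | zero => exact fun s => by show F s + G s = 0; rw [hF s, hG s, add_zero]
  | succ d ih =>
    have := ih hF hG
    show Poly d _
    convert this using 2
    beta_reduce
    abel

theorem poly_const (c : R) : Poly 1 (fun _ => c) := fun _ => sub_self c

theorem Poly.mul_aux (n : ℕ) : ∀ {d e : ℕ} {F G : ℕ → R}, d + e ≤ n + 1 → Poly d F → Poly e G →
    Poly n (fun s => F s * G s) := by
  induction n with
  | zero =>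
    intro d e F G h hF hG s
    rcases d with _ | d
    · show F s * G s = 0; rw [hF s, zero_mul]
    · obtain rfl : e = 0 := by omega
      show F s * G s = 0; rw [hG s, mul_zero]
  | succ n ih =>
    intro d e F G h hF hG
    rcases d with _ | d
    · exact poly_zero _ fun s => by rw [hF s, zero_mul]
    rcases e with _ | e
    · exact poly_zero _ fun s => by rw [hG s, mul_zero]
    have h1 := ih (d := d) (e := e + 1) (by omega) hF hG.shift
    have h2 := ih (d := d + 1) (e := e) (by omega) hF hG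
    have := h1.add h2
    show Poly n _
    convert this using 2
    noncomm_ring

theorem Poly.mul {d e : ℕ} {F G : ℕ → R} (hF : Poly d F) (hG : Poly e G) :
    Poly (d + e) (fun s => F s * G s) := Poly.mul_aux _ (Nat.le_succ _) hF hG

theorem Poly.eq_zero {d : ℕ} {F : ℕ → R} (hF : Poly d F) (h : ∀ s, 1 ≤ s → s ≤ d → F s = 0) :
    F 0 = 0 := by
  induction d using Nat.strong_induction_on generalizing F with
  | _ d ih =>
    rcases d with _ | d
    · exact hF 0
    rcases d with _ | d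
    · have := hF 0
      simp only [zero_add] at this
      rw [h 1 le_rfl le_rfl, zero_sub, neg_eq_zero] at this
      exact this
    · have := ih (d + 1) (by omega) (F := fun s => F (s + 1) - F s) hF (fun s h1 h2 => by
        show F (s + 1) - F s = 0
        rw [h (s + 1) (by omega) (by omega), h s h1 (by omega), sub_zero])
      simp only [zero_add] at this
      rw [h 1 le_rfl (by omega), zero_sub, neg_eq_zero] at this
      exact this

theorem poly_pow_aux (b : R) (m : ℕ) : ∀ c : R, c * (b - 1) ^ m = 0 →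
    Poly m (fun s => c * b ^ s) := by
  induction m with
  | zero => intro c h s; rw [pow_zero, mul_one] at h; show c * b ^ s = 0; rw [h, zero_mul]
  | succ m ih =>
    intro c h
    have := ih (c * (b - 1)) (by rw [mul_assoc, ← pow_succ', h])
    show Poly m _
    convert this using 2
    beta_reduce
    rw [pow_succ']
    noncomm_ring

theorem poly_pow {b : R} {m : ℕ} (h : (b - 1) ^ m = 0) : Poly m (fun s => b ^ s) := by
  have := poly_pow_aux b m 1 (by rw [one_mul, h])
  simpa using this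

theorem inv_sub_one_pow {G : Type} [Group G] (ρ : G →* R) {b : G} {m : ℕ}
    (h : (ρ b - 1) ^ m = 0) : (ρ b⁻¹ - 1) ^ m = 0 := by
  have e : ρ b⁻¹ - 1 = (-ρ b⁻¹) * (ρ b - 1) := by
    rw [neg_mul, mul_sub, ← map_mul, inv_mul_cancel, map_one, mul_one, neg_sub]
  have hc : Commute (-ρ b⁻¹) (ρ b - 1) :=
    (((Commute.refl b).inv_left.map ρ).sub_right (Commute.one_right _)).neg_left
  rw [e, hc.mul_pow, h, mul_zero]

end Poly

end Pool.Agent.LawP
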