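import Pool.Agent.P.MP_ec89a0_al.LP3

/-! Rings generated by nil elements whose Lie algebra is nilpotent. -/

namespace Pool.Agent.LawP

open Polynomial
open scoped commutatorElement

section LieG

variable {R : Type} [Ring R] {ι : Type}

/-- left normed ring commutators -/
def cm (a : ι → R) (i₀ : ι) : List ι → R
  | [] => a i₀
  | i :: L => cm a i₀ L * a i - a i * cm a i₀ L

theorem map_cm {S : Type} [Ring S] (θ : R →+* S) (a : ι → R) (i₀ : ι) (L : List ι) :
    θ (cm a i₀ L) = cm (fun i => θ (a i)) i₀ L := by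
  induction L with
  | nil => rfl
  | cons i L ih => simp only [cm, map_sub, map_mul, ih]

theorem commute_cm {a : ι → R} {z : R} (h : ∀ i, Commute z (a i)) (i₀ : ι) (L : List ι) :
    Commute z (cm a i₀ L) := by
  induction L with
  | nil => exact h i₀
  | cons i L ih => exact (ih.mul_right (h i)).sub_right ((h i).mul_right ih)

/-- all products of `M` members of the family vanish -/
def NilP (a : ι → R) (M : ℕ) : Prop := ∀ L : List ι, L.length = M → (L.map a).prod = 0

theorem central_nil {y a z : R} {m : ℕ} (hz : z = y * a - a * y) (h1 : Commute z a)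
    (h2 : Commute z y) (ha : a ^ m = 0) (hu : IsUnit ((m.factorial : ℕ) : R)) : z ^ m = 0 := by
  have der : ∀ k : ℕ, y * a ^ (k + 1) - a ^ (k + 1) * y = ((k + 1 : ℕ) : R) * (z * a ^ k) := by
    intro k
    induction k with
    | zero => simp [hz]
    | succ k ih =>
      have e : y * a ^ (k + 1 + 1) - a ^ (k + 1 + 1) * y =
          (y * a ^ (k + 1) - a ^ (k + 1) * y) * a + a ^ (k + 1) * z := by
        rw [hz, pow_succ a (k + 1)]; noncomm_ring
      rw [e, ih, ← (h1.pow_right (k + 1)).eq, pow_succ a k]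
      push_cast
      noncomm_ring
  have key : ∀ j, j ≤ m → ((m.descFactorial j : ℕ) : R) * (z ^ j * a ^ (m - j)) = 0 := by
    intro j
    induction j with
    | zero => intro _; simp [ha]
    | succ j ih =>
      intro hj
      have h0 := ih (by omega)
      obtain ⟨k, hk⟩ : ∃ k, m - j = k + 1 := ⟨m - j - 1, by omega⟩
      have hk' : m - (j + 1) = k := by omega
      rw [hk] at h0
      have e : y * (((m.descFactorial j : ℕ) : R) * (z ^ j * a ^ (k + 1))) -
          ((m.descFactorial j : ℕ) : R) * (z ^ j * a ^ (k + 1)) * y =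
          ((m.descFactorial j : ℕ) : R) * (z ^ j * (y * a ^ (k + 1) - a ^ (k + 1) * y)) := by
        rw [← mul_assoc y, ← (Nat.cast_commute _ y).eq, mul_assoc, ← mul_assoc y,
          ← (h2.pow_left j).eq]
        noncomm_ring
      rw [h0, der, mul_zero, zero_mul, sub_zero] at e
      rw [Nat.descFactorial_succ, hk, hk', mul_comm (k + 1), Nat.cast_mul, mul_assoc, e,
        ← mul_assoc (z ^ j), ← (Nat.cast_commute (k + 1) (z ^ j)).eq, pow_succ]
      noncomm_ring
  have := key m le_rfl
  rw [Nat.descFactorial_self, Nat.sub_self, pow_zero, mul_one] at this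
  exact hu.mul_right_eq_zero.1 this

theorem nilP_of_quot {a : ι → R} {z : R} {m M : ℕ} (hc : ∀ r, Commute z r) (hz : z ^ m = 0)
    (h : ∀ L : List ι, L.length = M → ∃ r, (L.map a).prod = r * z) : NilP a (M * m) := by
  have key : ∀ j, ∀ L : List ι, L.length = M * j → ∃ r, (L.map a).prod = r * z ^ j := by
    intro j
    induction j with
    | zero => intro L _; exact ⟨_, by rw [pow_zero, mul_one]⟩
    | succ j ih =>
      intro L hL
      obtain ⟨r, hr⟩ := h (L.take M) (by rw [List.length_take, hL, Nat.mul_succ]; omega)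
      obtain ⟨s, hs⟩ := ih (L.drop M) (by rw [List.length_drop, hL, Nat.mul_succ]; omega)
      refine ⟨r * s, ?_⟩
      rw [← List.take_append_drop M L, List.map_append, List.prod_append, hr, hs, pow_succ',
        mul_assoc r z, ← mul_assoc z, (hc s).eq]
      noncomm_ring
  intro L hL
  obtain ⟨r, hr⟩ := key m L hL
  rw [hr, hz, mul_zero]

theorem nilP_of_list (m M k : ℕ) : ∀ (R : Type) [Ring R] (a : ι → R) (zs : List R),
    zs.length = k → (∀ z ∈ zs, (∀ r, Commute z r) ∧ z ^ m = 0) →
    (∀ (S : Type) [Ring S] (θ : R →+* S), (∀ z ∈ zs, θ z = 0) → NilP (fun i => θ (a i)) M) →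
    NilP a (M * m ^ k) := by
  induction k with
  | zero =>
    intro R _ a zs hk _ h
    obtain rfl := List.length_eq_zero_iff.1 hk
    simpa using h R (RingHom.id R) (by simp)
  | succ k ih =>
    intro R _ a zs hk hz h
    obtain ⟨z, zs, rfl⟩ := List.exists_cons_of_length_eq_add_one hk
    obtain ⟨hc, hm⟩ := hz z List.mem_cons_self
    let I : Ideal R := Ideal.span {z}
    have hI : I.IsTwoSided := ⟨fun {x} b hx => by
      obtain ⟨r, rfl⟩ := Ideal.mem_span_singleton'.1 hx
      exact Ideal.mem_span_singleton'.2 ⟨r * b, by rw [mul_assoc, mul_assoc, (hc b).eq]⟩⟩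
    have h1 := ih (R ⧸ I) (fun i => Ideal.Quotient.mk I (a i)) (zs.map (Ideal.Quotient.mk I))
      (by simpa using hk) (by
        intro y hy
        obtain ⟨y, hy', rfl⟩ := List.mem_map.1 hy
        obtain ⟨h1, h2⟩ := hz y (List.mem_cons_of_mem _ hy')
        refine ⟨fun r => ?_, by rw [← map_pow, h2, map_zero]⟩
        obtain ⟨r, rfl⟩ := Ideal.Quotient.mk_surjective r
        exact (h1 r).map _) (by
        intro S _ θ hθ
        refine h S (θ.comp (Ideal.Quotient.mk I)) fun y hy => ?_
        rcases List.mem_cons.1 hy with rfl | hy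
        · rw [RingHom.comp_apply,
            Ideal.Quotient.eq_zero_iff_mem.2 (Ideal.mem_span_singleton_self _), map_zero]
        · exact hθ _ (List.mem_map_of_mem hy))
    rw [pow_succ, ← mul_assoc]
    refine nilP_of_quot hc hm fun L hL => ?_
    have h2 := h1 L hL
    have h3 : Ideal.Quotient.mk I (L.map a).prod = 0 := by
      rw [map_list_prod, List.map_map]; exact h2
    obtain ⟨r, hr⟩ := Ideal.mem_span_singleton'.1 (Ideal.Quotient.eq_zero_iff_mem.1 h3)
    exact ⟨r, hr.symm⟩

theorem lie_g (ι : Type) [Fintype ι] (m c : ℕ) : ∃ M : ℕ, ∀ (R : Type) [Ring R] (a : ι → R),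
    IsUnit ((m.factorial : ℕ) : R) → (∀ i, a i ^ m = 0) →
    (∀ i₀ L, L.length = c → cm a i₀ L = 0) → NilP a M := by
  classical
  induction c with
  | zero =>
    refine ⟨1, fun R _ a _ _ h L hL => ?_⟩
    obtain ⟨i, rfl⟩ := List.length_eq_one_iff.1 hL
    simpa [cm] using h i [] rfl
  | succ c ih =>
    obtain ⟨M, hM⟩ := ih
    refine ⟨M * m ^ Fintype.card (ι × List.Vector ι c), fun R _ a hu ha hc => ?_⟩
    have hza : ∀ i₀ L, L.length = c → ∀ i, Commute (cm a i₀ L) (a i) := fun i₀ L hL i =>
      sub_eq_zero.1 (hc i₀ (i :: L) (by simp [hL]))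
    have hzm : ∀ i₀ L, L.length = c → cm a i₀ L ^ m = 0 := by
      intro i₀ L hL
      rcases L with _ | ⟨i, L⟩
      · exact ha i₀
      · exact central_nil rfl (hza i₀ _ hL i) (commute_cm (hza i₀ _ hL) i₀ L) (ha i) hu
    let R' : Subring R := Subring.centralizer {z | ∃ i₀ L, L.length = c ∧ cm a i₀ L = z}
    let a' : ι → R' := fun i => ⟨a i, by
      rw [Subring.mem_centralizer_iff]
      rintro _ ⟨i₀, L, hL, rfl⟩
      exact (hza i₀ L hL i).eq⟩
    have hval : ∀ i₀ L, R'.subtype (cm a' i₀ L) = cm a i₀ L := fun i₀ L => map_cm _ _ _ _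
    have hu' : IsUnit ((m.factorial : ℕ) : R') := by
      obtain ⟨u, hu⟩ := hu
      have hinv : ((u⁻¹ : Rˣ) : R) ∈ R' := by
        rw [Subring.mem_centralizer_iff]
        intro z _
        exact (Commute.units_inv_right (hu ▸ Nat.commute_cast z _)).eq
      refine ⟨⟨(m.factorial : ℕ), ⟨_, hinv⟩, Subtype.ext ?_, Subtype.ext ?_⟩, rfl⟩
      · push_cast; rw [← hu]; exact u.mul_inv
      · push_cast; rw [← hu]; exact u.inv_mul
    have h1 := nilP_of_list m M _ R' a'
      ((Finset.univ : Finset (ι × List.Vector ι c)).toList.map fun p => cm a' p.1 p.2.1)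
      (by simp only [List.length_map, Finset.length_toList]; rfl) (by
        intro z hz
        obtain ⟨p, -, rfl⟩ := List.mem_map.1 hz
        refine ⟨fun r => Subtype.ext ?_, Subtype.ext ?_⟩
        · exact (Subring.mem_centralizer_iff.1 r.2) _ ⟨p.1, p.2.1, p.2.2, (hval _ _).symm⟩
        · have := hzm p.1 p.2.1 p.2.2
          rw [← hval, ← map_pow] at this
          exact this) (by
        intro S _ θ hθ
        refine hM S _ (by simpa using hu'.map θ) (fun i => ?_) fun i₀ L hL => ?_
        · rw [← map_pow, show a' i ^ m = 0 from Subtype.ext (ha i), map_zero]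
        · rw [← map_cm]
          exact hθ _ (List.mem_map.2 ⟨(i₀, ⟨L, hL⟩), by simp, rfl⟩))
    intro L hL
    have h2 := congrArg R'.subtype (h1 L hL)
    rw [map_list_prod, List.map_map, map_zero] at h2
    exact h2

end LieG

section Graded

variable {R : Type} [Ring R] {ι : Type}

theorem cm_monomial (a : ι → R) (i₀ : ι) (L : List ι) :
    cm (fun i => monomial 1 (a i)) i₀ L = monomial (L.length + 1) (cm a i₀ L) := by
  induction L with
  | nil => rfl
  | cons i L ih =>
    simp only [cm, ih, monomial_mul_monomial, List.length_cons, map_sub]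
    rw [add_comm 1 (L.length + 1)]

theorem prod_monomial (a : ι → R) (L : List ι) :
    (L.map fun i => monomial 1 (a i)).prod = monomial L.length (L.map a).prod := by
  induction L with
  | nil => simp
  | cons i L ih =>
    simp only [List.map_cons, List.prod_cons, ih, monomial_mul_monomial, List.length_cons]
    rw [add_comm]

/-- the filtered form of `lie_g` -/
theorem lie_g_filtered (ι : Type) [Fintype ι] (m c : ℕ) : ∃ M : ℕ, ∀ (R : Type) [Ring R]
    (F : ℕ → AddSubgroup R), (1 : R) ∈ F 0 →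
    (∀ i j, ∀ x ∈ F i, ∀ y ∈ F j, x * y ∈ F (i + j)) → ∀ (q : ℕ), (q : R) = 0 →
    q.Coprime m.factorial → ∀ a : ι → R, (∀ i, a i ∈ F 1) → (∀ i, a i ^ m ∈ F (m + 1)) →
    (∀ i₀ L, L.length = c → cm a i₀ L ∈ F (c + 2)) →
    ∀ L : List ι, L.length = M → (L.map a).prod ∈ F (M + 1) := by
  obtain ⟨M, hM⟩ := lie_g ι m c
  refine ⟨M, fun R _ F h1 hmul q hq hcop a ha ham hcm L hL => ?_⟩
  let S : Subring R[X] :=
    { carrier := {f | ∀ i, f.coeff i ∈ F i}
      mul_mem' := fun {f g} hf hg i => by
        rw [coeff_mul]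
        refine (F i).sum_mem fun p hp => ?_
        rw [← Finset.HasAntidiagonal.mem_antidiagonal.1 hp]
        exact hmul _ _ _ (hf _) _ (hg _)
      one_mem' := fun i => by
        rw [coeff_one]
        split_ifs with h
        · rw [h]; exact h1
        · exact (F i).zero_mem
      add_mem' := fun hf hg i => by rw [coeff_add]; exact (F i).add_mem (hf i) (hg i)
      zero_mem' := fun i => (F i).zero_mem
      neg_mem' := fun hf i => by rw [coeff_neg]; exact (F i).neg_mem (hf i) }
  let J : Ideal S :=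
    { carrier := {f | ∀ i, f.1.coeff i ∈ F (i + 1)}
      add_mem' := fun {f g} hf hg i => by
        show (f.1 + g.1).coeff i ∈ _
        rw [coeff_add]; exact (F _).add_mem (hf i) (hg i)
      zero_mem' := fun i => (F _).zero_mem
      smul_mem' := fun f g hg i => by
        show (f.1 * g.1).coeff i ∈ _
        rw [coeff_mul]
        refine (F _).sum_mem fun p hp => ?_
        rw [← Finset.HasAntidiagonal.mem_antidiagonal.1 hp, add_assoc]
        exact hmul _ _ _ (f.2 _) _ (hg _) }
  have hJ : J.IsTwoSided := ⟨fun {f} g hf i => by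
    show (f.1 * g.1).coeff i ∈ _
    rw [coeff_mul]
    refine (F _).sum_mem fun p hp => ?_
    rw [← Finset.HasAntidiagonal.mem_antidiagonal.1 hp, add_right_comm]
    exact hmul _ _ _ (hf _) _ (g.2 _)⟩
  have mono : ∀ (k d : ℕ) (r : R), r ∈ F (k + d) → ∀ i, (monomial k r).coeff i ∈ F (i + d) := by
    intro k d r hr i
    rw [coeff_monomial]
    split_ifs with h
    · rw [← h]; exact hr
    · exact (F _).zero_mem
  let a' : ι → S := fun i => ⟨monomial 1 (a i), mono 1 0 _ (ha i)⟩
  have hq' : (q : S ⧸ J) = 0 := by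
    have : (q : S) = 0 := Subtype.ext (by
      push_cast
      rw [← map_natCast C q, hq, map_zero])
    rw [← map_natCast (Ideal.Quotient.mk J) q, this, map_zero]
  have h2 := hM (S ⧸ J) (fun i => Ideal.Quotient.mk J (a' i))
    (by
      have := isUnit_intCast hq' (Nat.isCoprime_iff_coprime.2 hcop.symm)
      rwa [Int.cast_natCast] at this)
    (fun i => by
      rw [← map_pow, Ideal.Quotient.eq_zero_iff_mem]
      show ∀ k, ((monomial 1 (a i)) ^ m).coeff k ∈ F (k + 1)
      rw [monomial_pow, one_mul]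
      exact mono m 1 _ (ham i))
    (fun i₀ L hL => by
      rw [← map_cm, Ideal.Quotient.eq_zero_iff_mem]
      show ∀ k, (S.subtype (cm a' i₀ L)).coeff k ∈ F (k + 1)
      rw [map_cm]
      show ∀ k, (cm (fun i => monomial 1 (a i)) i₀ L).coeff k ∈ F (k + 1)
      rw [cm_monomial, hL]
      exact mono (c + 1) 1 _ (hcm i₀ L hL)) L hL
  have h3 : Ideal.Quotient.mk J (L.map a').prod = 0 := by
    rw [map_list_prod, List.map_map]; exact h2
  have h4 : ∀ k, (S.subtype (L.map a').prod).coeff k ∈ F (k + 1) :=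
    Ideal.Quotient.eq_zero_iff_mem.1 h3
  have h5 := h4 M
  rw [map_list_prod, List.map_map] at h5
  have e : (S.subtype ∘ a') = fun i => monomial 1 (a i) := rfl
  rwa [e, prod_monomial, hL, coeff_monomial_same] at h5

end Graded

section Aug

variable {O : Type} [CommRing O] {R : Type} [Ring R] [Algebra O R] {K : Type} [Group K]

variable (O) in
/-- the augmentation ideal of the image of `J` -/
def aug (ρ : K →* R) (J : Subgroup K) : Submodule O R :=
  Submodule.span O {r | ∃ g ∈ J, ρ g - 1 = r}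

variable {ρ : K →* R} {J : Subgroup K}

theorem mem_aug {g : K} (hg : g ∈ J) : ρ g - 1 ∈ aug O ρ J := Submodule.subset_span ⟨g, hg, rfl⟩

theorem aug_mul_le : aug O ρ J * aug O ρ J ≤ aug O ρ J := by
  unfold aug
  rw [Submodule.span_mul_span, Submodule.span_le]
  rintro _ ⟨_, ⟨g, hg, rfl⟩, _, ⟨h, hh, rfl⟩, rfl⟩
  have e : (ρ g - 1) * (ρ h - 1) = (ρ (g * h) - 1) - (ρ g - 1) - (ρ h - 1) := by
    rw [map_mul]; noncomm_ring
  show (ρ g - 1) * (ρ h - 1) ∈ aug O ρ J
  rw [e]
  exact sub_mem (sub_mem (mem_aug (J.mul_mem hg hh)) (mem_aug hg)) (mem_aug hh)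

theorem aug_pow_succ_le (k : ℕ) : aug O ρ J ^ (k + 2) ≤ aug O ρ J ^ (k + 1) := by
  rw [pow_succ, pow_succ, mul_assoc]
  exact mul_le_mul_right aug_mul_le _

theorem aug_pow_le {k l : ℕ} (h : k ≤ l) : aug O ρ J ^ (l + 1) ≤ aug O ρ J ^ (k + 1) := by
  induction h with
  | refl => exact le_rfl
  | step _ ih => exact (aug_pow_succ_le _).trans ih

theorem mul_aug {k : ℕ} {x y : R} (hx : x ∈ aug O ρ J ^ k) (hy : y ∈ aug O ρ J) :
    x * y ∈ aug O ρ J ^ (k + 1) := by
  rw [pow_succ]; exact Submodule.mul_mem_mul hx hy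

theorem aug_mul {k : ℕ} {x y : R} (hx : x ∈ aug O ρ J ^ k) (hy : y ∈ aug O ρ J) :
    y * x ∈ aug O ρ J ^ (k + 1) := by
  rw [pow_succ']; exact Submodule.mul_mem_mul hy hx

theorem mul_rho {k : ℕ} {x : R} (hx : x ∈ aug O ρ J ^ (k + 1)) {g : K} (hg : g ∈ J) :
    x * ρ g ∈ aug O ρ J ^ (k + 1) := by
  have e : x * ρ g = x + x * (ρ g - 1) := by noncomm_ring
  rw [e]
  exact add_mem hx (aug_pow_succ_le k (mul_aug hx (mem_aug hg)))

theorem comm_formula (g h : K) :
    (ρ g - 1) * (ρ h - 1) - (ρ h - 1) * (ρ g - 1) = (ρ ⁅g, h⁆ - 1) * ρ (h * g) := by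
  rw [sub_mul (ρ ⁅g, h⁆), ← map_mul, show ⁅g, h⁆ * (h * g) = g * h by
    rw [commutatorElement_def]; group, map_mul, map_mul]
  noncomm_ring

theorem lcs_aug (k : ℕ) : ∀ g ∈ J.lowerCentralSeries k, ρ g - 1 ∈ aug O ρ J ^ (k + 1) := by
  induction k with
  | zero => intro g hg; rw [zero_add, pow_one]; exact mem_aug hg
  | succ k ih =>
    intro g hg
    have hle := J.lowerCentralSeries_le_self (k + 1)
    rw [Subgroup.lowerCentralSeries_succ, Subgroup.commutator_def] at hg hle
    induction hg using Subgroup.closure_induction with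
    | mem y hy =>
      obtain ⟨u, hu, v, hv, rfl⟩ := hy
      have hu' := J.lowerCentralSeries_le_self k hu
      have e : ρ ⁅u, v⁆ - 1 = ((ρ u - 1) * (ρ v - 1) - (ρ v - 1) * (ρ u - 1)) * ρ (v * u)⁻¹ := by
        rw [comm_formula, mul_assoc, ← map_mul, mul_inv_cancel, map_one, mul_one]
      rw [e]
      exact mul_rho (sub_mem (mul_aug (ih u hu) (mem_aug hv)) (aug_mul (ih u hu) (mem_aug hv)))
        (J.inv_mem (J.mul_mem hv hu'))
    | one => rw [map_one, sub_self]; exact zero_mem _
    | mul u v _ hv iu iv =>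
      have e : ρ (u * v) - 1 = (ρ u - 1) * ρ v + (ρ v - 1) := by rw [map_mul]; noncomm_ring
      rw [e]
      exact add_mem (mul_rho iu (hle hv)) iv
    | inv u hu iu =>
      have e : ρ u⁻¹ - 1 = -((ρ u - 1) * ρ u⁻¹) := by
        rw [sub_mul, ← map_mul, mul_inv_cancel, map_one, one_mul, neg_sub]
      rw [e]
      exact neg_mem (mul_rho iu (J.inv_mem (hle hu)))

theorem cm_mem {ι : Type} {a : ι → R} (ha : ∀ i, a i ∈ aug O ρ J) (i₀ : ι) (L : List ι) :
    cm a i₀ L ∈ aug O ρ (J.lowerCentralSeries L.length) ⊔ aug O ρ J ^ (L.length + 2) := by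
  induction L with
  | nil => exact Submodule.mem_sup_left (ha i₀)
  | cons i L ih =>
    obtain ⟨y, hy, z, hz, e⟩ := Submodule.mem_sup.1 ih
    have e2 : cm a i₀ (i :: L) = (y * a i - a i * y) + (z * a i - a i * z) := by
      show cm a i₀ L * a i - a i * cm a i₀ L = _
      rw [← e]; noncomm_ring
    rw [e2, List.length_cons]
    refine add_mem ?_ (Submodule.mem_sup_right (sub_mem (mul_aug hz (ha i)) (aug_mul hz (ha i))))
    have hb := ha i
    generalize a i = b at hb
    clear e e2 ih
    induction hy using Submodule.span_induction with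
    | zero => simp
    | add u v _ _ iu iv =>
      have : (u + v) * b - b * (u + v) = (u * b - b * u) + (v * b - b * v) := by noncomm_ring
      rw [this]; exact add_mem iu iv
    | smul s u _ iu =>
      rw [smul_mul_assoc, mul_smul_comm, ← smul_sub]; exact Submodule.smul_mem _ s iu
    | mem u hu =>
      obtain ⟨g, hg, rfl⟩ := hu
      induction hb using Submodule.span_induction with
      | zero => simp
      | add u v _ _ iu iv =>
        have : (ρ g - 1) * (u + v) - (u + v) * (ρ g - 1) =
            ((ρ g - 1) * u - u * (ρ g - 1)) + ((ρ g - 1) * v - v * (ρ g - 1)) := by noncomm_ring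
        rw [this]; exact add_mem iu iv
      | smul s u _ iu =>
        rw [smul_mul_assoc, mul_smul_comm, ← smul_sub]; exact Submodule.smul_mem _ s iu
      | mem u hu =>
        obtain ⟨h, hh, rfl⟩ := hu
        have hm : ⁅g, h⁆ ∈ J.lowerCentralSeries (L.length + 1) :=
          Subgroup.commutator_mem_commutator hg hh
        have e : (ρ ⁅g, h⁆ - 1) * ρ (h * g) =
            (ρ ⁅g, h⁆ - 1) + (ρ ⁅g, h⁆ - 1) * (ρ (h * g) - 1) := by noncomm_ring
        rw [comm_formula, e]
        exact add_mem (Submodule.mem_sup_left (mem_aug hm)) (Submodule.mem_sup_right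
          (mul_aug (lcs_aug _ _ hm)
            (mem_aug (J.mul_mem hh (J.lowerCentralSeries_le_self _ hg)))))

/-- nil generators modulo higher terms and bounded class give a nilpotent augmentation ideal -/
theorem aug_nilpotent (ι : Type) [Fintype ι] (m c : ℕ) : ∃ M : ℕ, ∀ (O : Type) [CommRing O]
    (R : Type) [Ring R] [Algebra O R] (K : Type) [Group K] (ρ : K →* R) (J : Subgroup K) (q : ℕ),
    (q : R) = 0 → q.Coprime m.factorial → (∃ N, aug O ρ J ^ N = ⊥) →
    (∀ g ∈ J.lowerCentralSeries c, ρ g = 1) → ∀ a : ι → R, (∀ i, a i ∈ aug O ρ J) →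
    (∀ i, a i ^ m ∈ aug O ρ J ^ (m + 1)) →
    aug O ρ J ≤ Submodule.span O (Set.range a) ⊔ aug O ρ J ^ 2 → aug O ρ J ^ (M + 1) = ⊥ := by
  obtain ⟨M, hM⟩ := lie_g_filtered ι m c
  refine ⟨M, fun O _ R _ _ K _ ρ J q hq hcop ⟨N, hN⟩ hc a ha ham hgen => ?_⟩
  set D := aug O ρ J with hD
  set A := Submodule.span O (Set.range a) with hA
  have hF : ∀ k, D ^ (k + 1) ⊔ D ^ (k + 1 + 1) = D ^ (k + 1) := fun k =>
    sup_eq_left.2 (aug_pow_succ_le k)
  have h1 := hM R (fun k => (D ^ k ⊔ D ^ (k + 1)).toAddSubgroup)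
    (Submodule.mem_sup_left (by rw [pow_zero]; exact Submodule.one_le.1 le_rfl)) (by
      intro i j x hx y hy
      have hle : (D ^ i ⊔ D ^ (i + 1)) * (D ^ j ⊔ D ^ (j + 1)) ≤ D ^ (i + j) ⊔ D ^ (i + j + 1) := by
        rw [Submodule.mul_sup, Submodule.sup_mul, Submodule.sup_mul, ← pow_add, ← pow_add,
          ← pow_add, ← pow_add]
        refine sup_le (sup_le le_sup_left ?_) (sup_le ?_ ?_)
        · rw [add_right_comm]; exact le_sup_right
        · exact le_sup_right
        · refine le_sup_of_le_right ?_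
          rw [show i + 1 + (j + 1) = i + j + 2 by omega]
          exact aug_pow_succ_le _
      exact hle (Submodule.mul_mem_mul hx hy)) q hq hcop a
    (fun i => Submodule.mem_sup_left (by rw [pow_one]; exact ha i))
    (fun i => Submodule.mem_sup_left (ham i)) (fun i₀ L hL => by
      refine Submodule.mem_sup_left ?_
      have h2 := cm_mem ha i₀ L
      rw [hL] at h2
      have h3 : aug O ρ (J.lowerCentralSeries c) = ⊥ := by
        unfold aug
        rw [Submodule.span_eq_bot]
        rintro _ ⟨g, hg, rfl⟩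
        rw [hc g hg, sub_self]
      rwa [h3, bot_sup_eq] at h2)
  have hAD : A ≤ D := by
    rw [hA, Submodule.span_le]
    rintro _ ⟨i, rfl⟩
    exact ha i
  have h2 : A ^ M ≤ D ^ (M + 1) := by
    rw [hA, Submodule.span_pow, Submodule.span_le]
    intro x hx
    obtain ⟨f, rfl⟩ := Set.mem_pow.1 hx
    choose g hg using fun i => (f i).2
    have e : (List.ofFn fun i => (f i : R)) = (List.ofFn g).map a := by
      rw [List.map_ofFn]; congr 1; funext i; exact (hg i).symm
    have h3 := h1 (List.ofFn g) (by simp)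
    rw [e, ← hF]
    exact h3
  have h3 : ∀ k, D ^ k ≤ A ^ k ⊔ D ^ (k + 1) := by
    intro k
    induction k with
    | zero => rw [pow_zero, pow_zero]; exact le_sup_left
    | succ k ih =>
      have hAk : A ^ k ≤ D ^ k := pow_le_pow_left' hAD k
      rw [pow_succ]
      refine (mul_le_mul' ih hgen).trans ?_
      rw [Submodule.mul_sup, Submodule.sup_mul, Submodule.sup_mul, ← pow_succ, ← pow_add]
      refine sup_le (sup_le le_sup_left (le_sup_of_le_right ?_))
        (sup_le (le_sup_of_le_right ?_) (le_sup_of_le_right (aug_pow_le (by omega))))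
      · rw [pow_succ D (k + 1)]; exact mul_le_mul_right hAD _
      · rw [show k + 1 + 1 = k + 2 from rfl, pow_add]; exact mul_le_mul_left hAk _
  have h4 : D ^ M ≤ D ^ (M + 1) := (h3 M).trans (sup_le h2 le_rfl)
  have h5 : ∀ j, D ^ (M + 1) ≤ D ^ (M + 1 + j) := by
    intro j
    induction j with
    | zero => exact le_rfl
    | succ j ih =>
      refine ih.trans ?_
      rw [show M + 1 + j = M + (j + 1) by omega, show M + 1 + (j + 1) = M + 1 + (j + 1) from rfl,
        pow_add D M, pow_add D (M + 1)]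
      exact mul_le_mul_left h4 _
  refine le_bot_iff.1 ((h5 N).trans ?_)
  rw [pow_add, hN, Submodule.mul_bot]

end Aug

end Pool.Agent.LawP
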