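import Pool.Agent.P.MP_ec89a0_al.LP7
import Pool.Agent.P.MP_ec89a0_al.LP9

/-! Nilpotent action on abelian sections; solvable groups generated by Engel elements. -/

namespace Pool.Agent.LawP

open Subgroup Polynomial
open scoped commutatorElement

variable {K : Type} [Group K]

section NilJ

variable {R : Type} [Ring R]

/-- all products of `k` elements `ρ g - 1` with `g` in `J` vanish -/
def NilJ (ρ : K →* R) (J : Subgroup K) (k : ℕ) : Prop :=
  ∀ f : Fin k → K, (∀ i, f i ∈ J) → (List.ofFn fun i => ρ (f i) - 1).prod = 0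

theorem aug_pow_eq_bot_iff (O : Type) [CommRing O] [Algebra O R] (ρ : K →* R) (J : Subgroup K)
    (k : ℕ) : aug O ρ J ^ k = ⊥ ↔ NilJ ρ J k := by
  unfold aug
  rw [Submodule.span_pow, Submodule.span_eq_bot]
  constructor
  · intro h f hf
    exact h _ (Set.mem_pow.2 ⟨fun i => ⟨ρ (f i) - 1, f i, hf i, rfl⟩, rfl⟩)
  · intro h x hx
    obtain ⟨f, rfl⟩ := Set.mem_pow.1 hx
    choose g hg hg' using fun i => (f i).2
    rw [← h g hg]
    congr 2
    funext i
    exact (hg' i).symm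

theorem nilJ_map {R' : Type} [Ring R'] (θ : R →+* R') (ρ : K →* R) {k : ℕ} (f : Fin k → K) :
    (List.ofFn fun i => (θ.toMonoidHom.comp ρ) (f i) - 1).prod =
      θ (List.ofFn fun i => ρ (f i) - 1).prod := by
  rw [map_list_prod, List.map_ofFn]
  congr 2
  funext i
  simp

theorem NilJ.map {R' : Type} [Ring R'] (θ : R →+* R') {ρ : K →* R} {J : Subgroup K} {k : ℕ}
    (h : NilJ ρ J k) : NilJ (θ.toMonoidHom.comp ρ) J k := fun f hf => by
  rw [nilJ_map, h f hf, map_zero]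

theorem NilJ.of_map {R' : Type} [Ring R'] (θ : R →+* R') (hθ : Function.Injective θ) {ρ : K →* R}
    {J : Subgroup K} {k : ℕ} (h : NilJ (θ.toMonoidHom.comp ρ) J k) : NilJ ρ J k := fun f hf =>
  hθ (by rw [← nilJ_map, h f hf, map_zero])

theorem NilJ.pow {ρ : K →* R} {J : Subgroup K} {k : ℕ} (h : NilJ ρ J k) {x : K} (hx : x ∈ J) :
    (ρ x - 1) ^ k = 0 := by
  have := h (fun _ => x) fun _ => hx
  rwa [List.ofFn_const, List.prod_replicate] at this

theorem aug_addOn (O : Type) [CommRing O] [Algebra O R] (ρ : K →* R) (J : Subgroup K) :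
    AddOn J fun g => (aug O ρ J ^ 2).mkQ (ρ g - 1) := by
  intro u hu v hv
  have e : ρ (u * v) - 1 = (ρ u - 1) + (ρ v - 1) + (ρ u - 1) * (ρ v - 1) := by
    rw [map_mul]; noncomm_ring
  have h0 : (aug O ρ J ^ 2).mkQ ((ρ u - 1) * (ρ v - 1)) = 0 := by
    rw [Submodule.mkQ_apply, Submodule.Quotient.mk_eq_zero, pow_two]
    exact Submodule.mul_mem_mul (mem_aug hu) (mem_aug hv)
  show (aug O ρ J ^ 2).mkQ (ρ (u * v) - 1) = _
  rw [e, map_add, map_add, h0, add_zero]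

theorem aug_le_of_gen {O : Type} [CommRing O] [Algebra O R] {ρ : K →* R} {s : Set K}
    {A : Submodule O R} (h : ∀ g ∈ s, ρ g - 1 ∈ A) :
    aug O ρ (closure s) ≤ A ⊔ aug O ρ (closure s) ^ 2 := by
  have := (aug_addOn O ρ (closure s)).closure_mem le_rfl
    (U := (A.map (aug O ρ (closure s) ^ 2).mkQ).toAddSubgroup)
    fun g hg => ⟨_, h g hg, rfl⟩
  rw [sup_comm, ← Submodule.comap_map_mkQ]
  refine Submodule.span_le.2 ?_
  rintro _ ⟨g, hg, rfl⟩
  exact this g hg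

end NilJ

section Transl

variable {S T : Subgroup K} [hS : S.Normal] {X : Type} [AddCommGroup X] {π : K → X}
  {ρ : K →* Module.End ℤ X}

omit hS in
theorem Sec.rho_eq_one (h : Sec S T π) (hρ : ∀ g, ∀ x ∈ S, ρ g (π x) = π (g * x * g⁻¹)) {g : K}
    (hg : g ∈ S) : ρ g = 1 := by
  refine LinearMap.ext (h.ext fun x hx => ?_)
  rw [hρ g x hx, h.mul _ (S.mul_mem hg hx) _ (S.inv_mem hg), h.mul _ hg _ hx, h.addOn.inv hg]
  simp

theorem Sec.it_le (h : Sec S T π) (hρ : ∀ g, ∀ x ∈ S, ρ g (π x) = π (g * x * g⁻¹))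
    {J : Subgroup K} {k : ℕ} (hk : NilJ ρ J k) : it S J k ≤ T := by
  have key : ∀ k, ∀ u ∈ it S J k,
      π u ∈ AddSubgroup.closure {v | ∃ r ∈ aug ℤ ρ J ^ k, ∃ w, r w = v} := by
    intro k
    induction k with
    | zero =>
      intro u _
      exact AddSubgroup.subset_closure
        ⟨1, by rw [pow_zero]; exact Submodule.one_le.1 le_rfl, π u, rfl⟩
    | succ k ih =>
      refine h.addOn.closure_mem (s := {g | ∃ g₁ ∈ it S J k, ∃ g₂ ∈ J, ⁅g₁, g₂⁆ = g})
        (LawP.it_le S J (k + 1)) ?_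
      rintro _ ⟨y, hy, g, hg, rfl⟩
      have hy' := LawP.it_le S J k hy
      rw [← commutatorElement_inv, h.addOn.inv (x := ⁅g, y⁆) (eng_mem g 1 hy'), neg_mem_iff,
        h.comm_apply hρ g hy']
      have hle : AddSubgroup.closure {v | ∃ r ∈ aug ℤ ρ J ^ k, ∃ w, r w = v} ≤
          (AddSubgroup.closure {v | ∃ r ∈ aug ℤ ρ J ^ (k + 1), ∃ w, r w = v}).comap
            (ρ g - 1).toAddMonoidHom := by
        rw [AddSubgroup.closure_le]
        rintro _ ⟨r, hr, w, rfl⟩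
        exact AddSubgroup.subset_closure ⟨(ρ g - 1) * r, aug_mul hr (mem_aug hg), w, rfl⟩
      exact hle (ih y hy)
  intro u hu
  rw [← h.ker u (LawP.it_le S J k hu)]
  have h1 : AddSubgroup.closure {v | ∃ r ∈ aug ℤ ρ J ^ k, ∃ w, r w = v} ≤ ⊥ := by
    rw [AddSubgroup.closure_le, (aug_pow_eq_bot_iff ℤ ρ J k).2 hk]
    rintro _ ⟨r, hr, w, rfl⟩
    rw [Submodule.mem_bot] at hr
    rw [hr]; rfl
  exact h1 (key k u hu)

theorem Sec.nilJ (h : Sec S T π) (hρ : ∀ g, ∀ x ∈ S, ρ g (π x) = π (g * x * g⁻¹))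
    {J : Subgroup K} {k : ℕ} (hk : it S J k ≤ T) : NilJ ρ J k := by
  have key : ∀ k, ∀ f : Fin k → K, (∀ i, f i ∈ J) → ∀ u ∈ S, ∃ y ∈ it S J k,
      (List.ofFn fun i => ρ (f i) - 1).prod (π u) = π y := by
    intro k
    induction k with
    | zero => intro f _ u hu; exact ⟨u, hu, rfl⟩
    | succ k ih =>
      intro f hf u hu
      obtain ⟨y, hy, e⟩ := ih (fun i => f i.succ) (fun i => hf _) u hu
      refine ⟨⁅f 0, y⁆, ?_, ?_⟩
      · show _ ∈ ⁅it S J k, J⁆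
        rw [Subgroup.commutator_comm]
        exact Subgroup.commutator_mem_commutator (hf 0) hy
      · rw [List.ofFn_succ, List.prod_cons, Module.End.mul_apply, e,
          h.comm_apply hρ _ (LawP.it_le S J k hy)]
  intro f hf
  refine LinearMap.ext (h.ext fun u hu => ?_)
  obtain ⟨y, hy, e⟩ := key k f hf u hu
  rw [e, (h.ker y (LawP.it_le S J k hy)).2 (hk hy)]
  rfl

theorem Sec.exists_nilJ [Group.IsNilpotent K] (h : Sec S T π)
    (hρ : ∀ g, ∀ x ∈ S, ρ g (π x) = π (g * x * g⁻¹)) (J : Subgroup K) : ∃ N, NilJ ρ J N := by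
  obtain ⟨c, hc⟩ := exists_lcs_top K
  exact ⟨c, h.nilJ hρ ((it_le_lcs le_top le_top c).trans (hc.le.trans bot_le))⟩

end Transl

/-- class bounds along the derived series -/
def cb (M : ℕ → ℕ) : ℕ → ℕ
  | 0 => 0
  | i + 1 => cb M i + M (cb M i)

theorem lcs_cb_le {M : ℕ → ℕ} {s : ℕ}
    (h : ∀ i, i < s → (⊤ : Subgroup K).lowerCentralSeries (cb M i) ≤ ds ⊤ i →
      it (ds ⊤ i) ⊤ (M (cb M i)) ≤ ds (⊤ : Subgroup K) (i + 1)) :
    ∀ i, i ≤ s → (⊤ : Subgroup K).lowerCentralSeries (cb M i) ≤ ds ⊤ i := by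
  intro i
  induction i with
  | zero => intro _; exact le_rfl
  | succ i ih =>
    intro hi
    exact (lcs_add_le_it (ih (by omega)) _).trans (h i (by omega) (ih (by omega)))

/-- a solvable group generated by boundedly many bounded Engel elements has bounded class -/
theorem class_of_engel (ι : Type) [Fintype ι] (E s : ℕ) : ∃ c : ℕ, ∀ (K : Type) [Group K]
    [Group.IsNilpotent K] (q : ℕ), (∀ g : K, g ^ q = 1) → q.Coprime E.factorial →
    ∀ y : ι → K, Gn y → (∀ i u, eng (y i) E u = 1) → ds (⊤ : Subgroup K) s = ⊥ →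
    (⊤ : Subgroup K).lowerCentralSeries c = ⊥ := by
  choose M hM using fun c => aug_nilpotent ι E c
  refine ⟨cb (fun c => M c + 1) s, fun K _ _ q hq hcop y hy hE hs => ?_⟩
  refine le_bot_iff.1 ((lcs_cb_le (s := s) ?_ s le_rfl).trans hs.le)
  intro i _ hi
  have := ds_normal (⊤ : Subgroup K) i
  have := ds_normal (⊤ : Subgroup K) (i + 1)
  obtain ⟨X, _, π, hπ⟩ := exists_sec (ds (⊤ : Subgroup K) i) (ds ⊤ (i + 1)) le_rfl
  obtain ⟨ρ, hρ⟩ := hπ.exists_rep
  refine hπ.it_le hρ ((aug_pow_eq_bot_iff ℤ ρ ⊤ _).1 ?_)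
  obtain ⟨N, hN⟩ := hπ.exists_nilJ hρ ⊤
  refine hM _ ℤ _ K ρ ⊤ q (end_natCast_eq_zero (hπ.smul_eq_zero fun g _ => hq g)) hcop
    ⟨N, (aug_pow_eq_bot_iff ℤ ρ ⊤ _).2 hN⟩ (fun g hg => hπ.rho_eq_one hρ (hi hg))
    (fun j => ρ (y j) - 1) (fun j => mem_aug trivial) (fun j => ?_) ?_
  · rw [(hπ.pow_eq_zero_iff hρ (y j) E).2 fun u _ => by rw [hE]; exact Subgroup.one_mem _]
    exact zero_mem _
  · rw [← show closure (Set.range y) = ⊤ from hy]
    refine aug_le_of_gen ?_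
    rintro _ ⟨j, rfl⟩
    exact Submodule.subset_span ⟨j, rfl⟩

/-- the polynomial `f` in the operator `φ`, applied to `x` -/
noncomputable def fp (φ : K →* K) (f : ℤ[X]) (x : K) : K :=
  ((List.range (f.natDegree + 1)).map fun i => (φ^[i] x) ^ f.coeff i).prod

theorem iter_mem {φ : K →* K} {S : Subgroup K} (hS : ∀ x ∈ S, φ x ∈ S) (i : ℕ) {x : K}
    (hx : x ∈ S) : φ^[i] x ∈ S := by
  induction i with
  | zero => exact hx
  | succ i ih => rw [Function.iterate_succ_apply']; exact hS _ ih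

theorem fp_mem {φ : K →* K} {S : Subgroup K} (hS : ∀ x ∈ S, φ x ∈ S) (f : ℤ[X]) {x : K}
    (hx : x ∈ S) : fp φ f x ∈ S := by
  refine S.list_prod_mem fun y hy => ?_
  obtain ⟨i, -, rfl⟩ := List.mem_map.1 hy
  exact S.zpow_mem (iter_mem hS i hx) _

theorem AddOn.list_prod {S : Subgroup K} {X : Type} [AddCommGroup X] {π : K → X} (h : AddOn S π)
    (g : ℕ → K) (hg : ∀ i, g i ∈ S) (N : ℕ) :
    π ((List.range N).map g).prod = ∑ i ∈ Finset.range N, π (g i) := by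
  induction N with
  | zero => simpa using h.one
  | succ N ih =>
    rw [List.range_succ, List.map_append, List.prod_append, Finset.sum_range_succ, ← ih,
      List.map_singleton, List.prod_singleton, h _ _ _ (hg N)]
    refine S.list_prod_mem fun y hy => ?_
    obtain ⟨i, -, rfl⟩ := List.mem_map.1 hy
    exact hg i

theorem AddOn.fp {φ : K →* K} {S : Subgroup K} (hS : ∀ x ∈ S, φ x ∈ S) {X : Type}
    [AddCommGroup X] {π : K → X} (h : AddOn S π) (f : ℤ[X]) {x : K} (hx : x ∈ S) :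
    π (fp φ f x) = ∑ i ∈ Finset.range (f.natDegree + 1), f.coeff i • π (φ^[i] x) := by
  unfold LawP.fp
  rw [h.list_prod _ fun i => S.zpow_mem (iter_mem hS i hx) _]
  exact Finset.sum_congr rfl fun i _ => h.zpow (iter_mem hS i hx) _

theorem AddOn.fp_aeval {φ : K →* K} {S : Subgroup K} (hS : ∀ x ∈ S, φ x ∈ S) {X : Type}
    [AddCommGroup X] {π : K → X} (h : AddOn S π) {ψ : Module.End ℤ X}
    (hψ : ∀ x ∈ S, ψ (π x) = π (φ x)) (f : ℤ[X]) {x : K} (hx : x ∈ S) :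
    π (LawP.fp φ f x) = aeval ψ f (π x) := by
  rw [h.fp hS f hx, aeval_eq_sum_range, LinearMap.sum_apply]
  exact Finset.sum_congr rfl fun i _ => by
    rw [LinearMap.smul_apply, (end_pow_apply hS hψ i hx).2]

theorem map_fp {H : Type} [Group H] {φ : K →* K} {ψ : H →* H} {θ : K →* H}
    (hs : ∀ x, ψ (θ x) = θ (φ x)) (f : ℤ[X]) (x : K) : θ (fp φ f x) = fp ψ f (θ x) := by
  unfold fp
  rw [map_list_prod, List.map_map]
  congr 2
  funext i
  simp only [Function.comp, map_zpow, semiconj_iter hs]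

/-- `f(φ)` kills all invariant abelian sections -/
def Wt (φ : K →* K) (f : ℤ[X]) : Prop :=
  ∀ S : Subgroup K, (∀ x ∈ S, φ x ∈ S) → ∀ x ∈ S, fp φ f x ∈ ⁅S, S⁆

theorem Wt.of_inj {H : Type} [Group H] {φ : K →* K} {ψ : H →* H} {f : ℤ[X]} (h : Wt ψ f)
    {θ : K →* H} (hθ : Function.Injective θ) (hs : ∀ x, ψ (θ x) = θ (φ x)) : Wt φ f := by
  intro S hS x hx
  have := h (S.map θ) (by rintro _ ⟨y, hy, rfl⟩; exact ⟨φ y, hS y hy, (hs y).symm⟩) _ ⟨x, hx, rfl⟩
  rw [← map_fp hs, ← Subgroup.map_commutator] at this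
  exact (Subgroup.mem_map_iff_mem hθ).1 this

theorem Wt.aeval_eq_zero {φ : K →* K} {f : ℤ[X]} (hw : Wt φ f) {S T : Subgroup K}
    (hS : ∀ x ∈ S, φ x ∈ S) {X : Type} [AddCommGroup X] {π : K → X} (h : Sec S T π)
    {ψ : Module.End ℤ X} (hψ : ∀ x ∈ S, ψ (π x) = π (φ x)) : aeval ψ f = 0 :=
  LinearMap.ext (h.ext fun x hx => by
    rw [← h.addOn.fp_aeval hS hψ f hx, h.addOn.comm (hw S hS x hx)]; rfl)

end Pool.Agent.LawP
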