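import Pool.Agent.P.MP_ec89a0_al.LP11

/-! Fixed point free automorphisms of nilpotent groups without small primes. -/

namespace Pool.Agent.LawP

open Subgroup Polynomial
open scoped commutatorElement

variable {K : Type} [Group K]

/-- the subgroup generated by the orbit of `x` -/
def og (φ : K →* K) (x : K) : Subgroup K := closure (Set.range fun i => φ^[i] x)

theorem og_inv (φ : K →* K) (x : K) : ∀ g ∈ og φ x, φ g ∈ og φ x := by
  refine closure_inv ?_
  rintro _ ⟨i, rfl⟩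
  exact Subgroup.subset_closure ⟨i + 1, Function.iterate_succ_apply' _ _ _⟩

theorem mem_og (φ : K →* K) (x : K) : x ∈ og φ x := Subgroup.subset_closure ⟨0, rfl⟩

theorem og_le {φ : K →* K} {S : Subgroup K} (hS : ∀ x ∈ S, φ x ∈ S) {x : K} (hx : x ∈ S) :
    og φ x ≤ S := by
  refine (closure_le _).2 ?_
  rintro _ ⟨i, rfl⟩
  exact iter_mem hS i hx

theorem map_og {H : Type} [Group H] {φ : K →* K} {ψ : H →* H} {θ : K →* H}
    (hs : ∀ x, ψ (θ x) = θ (φ x)) (x : K) : (og φ x).map θ = og ψ (θ x) := by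
  unfold og
  rw [MonoidHom.map_closure, ← Set.range_comp]
  congr 2
  funext i
  exact (semiconj_iter hs i x).symm

theorem ds_eq_bot_of_inj {H : Type} [Group H] {θ : K →* H} (hθ : Function.Injective θ) {s : ℕ}
    (h : ds (⊤ : Subgroup H) s = ⊥) : ds (⊤ : Subgroup K) s = ⊥ := by
  rw [← Subgroup.map_eq_bot_iff_of_injective _ hθ, map_ds]
  exact le_bot_iff.1 ((ds_mono le_top s).trans h.le)

theorem ds_eq_bot_of_surj {H : Type} [Group H] {θ : K →* H} (hθ : Function.Surjective θ) {s : ℕ}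
    (h : ds (⊤ : Subgroup K) s = ⊥) : ds (⊤ : Subgroup H) s = ⊥ := by
  rw [← Subgroup.map_top_of_surjective θ hθ, ← map_ds, h, Subgroup.map_bot]

theorem g1_sec {n : ℕ} (hn : 0 < n) {d : ℕ} (hd : 0 < d) (c : ℕ) : ∃ M R : ℕ, R ≠ 0 ∧
    ∀ (K : Type) [Group K] [Group.IsNilpotent K] (φ : K →* K) (q : ℕ) (x : K) (i : ℕ),
      Op φ n q → q.Coprime R → Wt φ (fd d) → fp φ (cyclotomic d ℤ) x ∈ ⁅og φ x, og φ x⁆ →
      (og φ x).lowerCentralSeries c ≤ ds ⊤ i → it (ds ⊤ i) (og φ x) M ≤ ds ⊤ (i + 1) := by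
  obtain ⟨M, R, hR, h⟩ := g1_ring hn hd c
  refine ⟨M, R, hR, fun K _ _ φ q x i hop hq hw hx hc => ?_⟩
  have := ds_normal (⊤ : Subgroup K) i
  have := ds_normal (⊤ : Subgroup K) (i + 1)
  obtain ⟨X, _, π, hπ⟩ := exists_sec (ds (⊤ : Subgroup K) i) (ds ⊤ (i + 1)) le_rfl
  obtain ⟨ρ, hρ⟩ := hπ.exists_rep
  have hi : ∀ j, ∀ y ∈ ds (⊤ : Subgroup K) j, φ y ∈ ds (⊤ : Subgroup K) j :=
    fun j => ds_inv (fun _ _ => Subgroup.mem_top _) j
  obtain ⟨Ψ, hΨ⟩ := hπ.exists_end φ (hi i) (hi (i + 1))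
  refine hπ.it_le hρ (h _ K ρ φ Ψ q x _
    (end_natCast_eq_zero (hπ.smul_eq_zero fun g _ => hop.exp g)) hq
    (hπ.end_pow_eq_one (hi i) hΨ hop.ord) (fun g => ?_) (hw.aeval_eq_zero (hi i) hπ hΨ) rfl hx
    (fun g hg => hπ.rho_eq_one hρ (hc hg)) (hπ.exists_nilJ hρ _))
  refine LinearMap.ext (hπ.ext fun u hu => ?_)
  rw [Module.End.mul_apply, Module.End.mul_apply, hρ g u hu,
    hΨ _ (Subgroup.Normal.conj_mem inferInstance u hu g), hΨ u hu, hρ _ _ (hi i u hu)]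
  simp

theorem eng_mem_it {S J : Subgroup K} {x u : K} (hx : x ∈ J) (hu : u ∈ S) (k : ℕ) :
    eng x k u ∈ it S J k := by
  induction k with
  | zero => exact hu
  | succ k ih =>
    show ⁅x, eng x k u⁆ ∈ ⁅it S J k, J⁆
    rw [Subgroup.commutator_comm]
    exact Subgroup.commutator_mem_commutator hx ih

theorem g1_group {n : ℕ} (hn : 0 < n) {d : ℕ} (hd : 0 < d) (s : ℕ) : ∃ E R : ℕ, R ≠ 0 ∧
    ∀ (K : Type) [Group K] [Group.IsNilpotent K] (φ : K →* K) (q : ℕ) (x : K),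
      Op φ n q → q.Coprime R → Wt φ (fd d) → fp φ (cyclotomic d ℤ) x ∈ ⁅og φ x, og φ x⁆ →
      ds (⊤ : Subgroup K) s = ⊥ → ∀ u, eng x E u = 1 := by
  choose M R hR h using g1_sec hn hd
  refine ⟨s * M (cb M s), R (cb M s) * ∏ i ∈ Finset.range s, R (cb M i),
    mul_ne_zero (hR _) (Finset.prod_ne_zero_iff.2 fun _ _ => hR _), ?_⟩
  intro K _ _ φ q x hop hq hw hx hs
  have hJ : (og φ x).lowerCentralSeries (cb M s) = ⊥ := by
    obtain ⟨ψ, hψ⟩ := exists_restr φ (og φ x) (og_inv φ x)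
    have hinj := (og φ x).subtype_injective
    have htop : og ψ ⟨x, mem_og φ x⟩ = ⊤ := by
      apply Subgroup.map_injective hinj
      rw [map_og hψ, ← MonoidHom.range_eq_map, Subgroup.range_subtype]
      rfl
    have h1 := lcs_cb_le (K := og φ x) (M := M) (s := s) (fun i hi hle => by
      have := h (cb M i) (og φ x) ψ q ⟨x, mem_og φ x⟩ i (hop.of_inj hinj hψ)
        ((Nat.Coprime.coprime_mul_left_right hq).coprime_dvd_right
          (Finset.dvd_prod_of_mem (fun i => R (cb M i)) (Finset.mem_range.2 hi))) (hw.of_inj hinj hψ) (by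
            rw [← Subgroup.mem_map_iff_mem hinj, map_fp hψ, Subgroup.map_commutator, map_og hψ]
            exact hx) (by rw [htop]; exact hle)
      rwa [htop] at this) s le_rfl
    rw [ds_eq_bot_of_inj hinj hs, le_bot_iff] at h1
    rw [← Subgroup.top_subtype_lowerCentralSeries, h1, Subgroup.map_bot]
  have key : ∀ i u, eng x (i * M (cb M s)) u ∈ ds (⊤ : Subgroup K) i := by
    intro i u
    induction i with
    | zero => trivial
    | succ i ih =>
      rw [Nat.succ_mul, add_comm (i * _), eng_add]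
      exact h (cb M s) K φ q x i hop (Nat.Coprime.coprime_mul_right_right hq) hw hx
        (hJ.le.trans bot_le) (eng_mem_it (mem_og φ x) ih _)
  intro u
  have := key s u
  rwa [hs, Subgroup.mem_bot] at this

theorem fd_succ {d : ℕ} (hd : 0 < d) : fd (d + 1) = fd d * cyclotomic (d + 1) ℤ :=
  Finset.prod_Icc_succ_top (by omega) _

theorem bezout_fd (d : ℕ) : ∃ (u v : ℤ[X]) (r : ℤ), r ≠ 0 ∧
    u * cyclotomic (d + 1) ℤ + v * fd d = C r := by
  have h : IsCoprime (cyclotomic (d + 1) ℚ) ((fd d).map (algebraMap ℤ ℚ)) := by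
    rw [fd, Polynomial.map_prod]
    refine IsCoprime.prod_right fun i hi => ?_
    rw [map_cyclotomic]
    exact cyclotomic.isCoprime_rat (by have := (Finset.mem_Icc.1 hi).2; omega)
  obtain ⟨a, b, hab⟩ := h
  obtain ⟨s, hs, ea⟩ := IsLocalization.integerNormalization_spec (nonZeroDivisors ℤ) a
  obtain ⟨t, ht, eb⟩ := IsLocalization.integerNormalization_spec (nonZeroDivisors ℤ) b
  refine ⟨C t * IsLocalization.integerNormalization (nonZeroDivisors ℤ) a,
    C s * IsLocalization.integerNormalization (nonZeroDivisors ℤ) b, s * t,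
    mul_ne_zero (nonZeroDivisors.ne_zero hs) (nonZeroDivisors.ne_zero ht), ?_⟩
  apply Polynomial.map_injective (algebraMap ℤ ℚ) (algebraMap ℤ ℚ).injective_int
  rw [Polynomial.map_add, Polynomial.map_mul, Polynomial.map_mul, Polynomial.map_mul,
    Polynomial.map_mul, ea, eb, map_cyclotomic]
  simp only [zsmul_eq_mul, eq_intCast, Int.cast_mul, Polynomial.map_mul, Polynomial.map_intCast]
  linear_combination ((s : ℚ[X]) * t) * hab

theorem exists_piece {d : ℕ} (hd : 0 < d) : ∃ R : ℕ, R ≠ 0 ∧ ∀ (K : Type) [Group K] [Finite K]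
    (φ : K →* K) (q : ℕ), (∀ g : K, g ^ q = 1) → q.Coprime R → Wt φ (fd (d + 1)) →
    ∀ S : Subgroup K, (∀ x ∈ S, φ x ∈ S) → ∀ y ∈ S, ∃ x ∈ S,
      fp φ (cyclotomic (d + 1) ℤ) x ∈ ⁅og φ x, og φ x⁆ ∧ fp φ (fd d) y * x⁻¹ ∈ ⁅S, S⁆ := by
  obtain ⟨u, v, r, hr, e⟩ := bezout_fd d
  refine ⟨r.natAbs, Int.natAbs_ne_zero.2 hr, fun K _ _ φ q hq hcop hw S hS y hy => ?_⟩
  obtain ⟨X, _, π, hπ⟩ := exists_sec S ⁅S, S⁆ le_rfl
  obtain ⟨ψ, hψ⟩ := hπ.exists_end φ hS (comm_inv hS hS)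
  obtain ⟨a, b, hab⟩ : IsCoprime r (q : ℤ) := by
    rw [Int.isCoprime_iff_gcd_eq_one]
    exact hcop.symm
  have hy' := fp_mem hS (fd d) hy
  have h0 : aeval ψ (cyclotomic (d + 1) ℤ) (π (fp φ (fd d) y)) = 0 := by
    rw [hπ.addOn.fp_aeval hS hψ _ hy, ← Module.End.mul_apply, ← map_mul, mul_comm, ← fd_succ hd,
      hw.aeval_eq_zero hS hπ hψ]
    rfl
  obtain ⟨x, ⟨hx, ex⟩, hmin⟩ := Set.exists_min_image {x | x ∈ S ∧ π x = π (fp φ (fd d) y)}
    (fun x => Nat.card (og φ x)) (Set.toFinite _) ⟨_, hy', rfl⟩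
  have hx' := fp_mem hS (C a * v * fd d) hx
  have ex' : π (fp φ (C a * v * fd d) x) = π (fp φ (fd d) y) := by
    have e1 : C a * v * fd d = C (a * r) - C a * u * cyclotomic (d + 1) ℤ := by
      rw [C_mul, ← e]; ring
    rw [hπ.addOn.fp_aeval hS hψ _ hx, e1, ex, map_sub, map_mul (aeval ψ) (C a * u),
      LinearMap.sub_apply, Module.End.mul_apply, h0, map_zero, sub_zero, aeval_C,
      Module.algebraMap_end_apply]
    exact smul_eq_of_dvd (hπ.smul_eq_zero fun g _ => hq g) ⟨-b, by linear_combination hab⟩ _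
  have hmem := fp_mem (og_inv φ x) (C a * v * fd d) (mem_og φ x)
  have hog : og φ (fp φ (C a * v * fd d) x) = og φ x :=
    Subgroup.eq_of_le_of_card_ge (og_le (og_inv φ x) hmem) (hmin _ ⟨hx', ex'⟩)
  refine ⟨_, hx', ?_, (hπ.eq_iff hy' hx').1 ex'.symm⟩
  rw [hog]
  obtain ⟨X', _, π', hπ'⟩ := exists_sec (og φ x) ⁅og φ x, og φ x⁆ le_rfl
  obtain ⟨ψ', hψ'⟩ := hπ'.exists_end φ (og_inv φ x) (comm_inv (og_inv φ x) (og_inv φ x))
  rw [← hπ'.ker _ (fp_mem (og_inv φ x) _ hmem), hπ'.addOn.fp_aeval (og_inv φ x) hψ' _ hmem,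
    hπ'.addOn.fp_aeval (og_inv φ x) hψ' _ (mem_og φ x), ← Module.End.mul_apply, ← map_mul,
    mul_comm, mul_assoc, ← fd_succ hd, map_mul, hw.aeval_eq_zero (og_inv φ x) hπ' hψ', mul_zero]
  rfl

/-- the values of the derived word on the set `X` -/
def dls (X : Set K) (j : ℕ) : Set K := {g | ∃ f : ℕ → K, (∀ i, f i ∈ X) ∧ dl j f = g}

theorem closure_normal_of_conj {X : Set K} (h : ∀ x ∈ X, ∀ g, g * x * g⁻¹ ∈ X) :
    (closure X).Normal :=
  ⟨fun x hx g => closure_inv (φ := (MulAut.conj g).toMonoidHom)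
    (fun y hy => Subgroup.subset_closure (h y hy g)) x hx⟩

theorem comm_closure_le {X : Set K} {M : Subgroup K} [M.Normal]
    (h : ∀ x ∈ X, ∀ y ∈ X, ⁅x, y⁆ ∈ M) : ⁅closure X, closure X⁆ ≤ M := by
  rw [← QuotientGroup.ker_mk' M, ← Subgroup.map_eq_bot_iff, Subgroup.map_commutator,
    MonoidHom.map_closure, Subgroup.commutator_eq_bot_iff_le_centralizer, closure_le,
    Subgroup.centralizer_closure]
  rintro _ ⟨x, hx, rfl⟩ _ ⟨y, hy, rfl⟩
  have : Commute (QuotientGroup.mk' M y) (QuotientGroup.mk' M x) := by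
    rw [← commutatorElement_eq_one_iff_commute, ← map_commutatorElement, ← MonoidHom.mem_ker,
      QuotientGroup.ker_mk']
    exact h y hy x hx
  exact this.eq

theorem ds_closure_le {X : Set K} (h : ∀ x ∈ X, ∀ g, g * x * g⁻¹ ∈ X) (j : ℕ) :
    ds (closure X) j ≤ closure (dls X j) := by
  induction j with
  | zero => exact Subgroup.closure_mono fun x hx => ⟨fun _ => x, fun _ => hx, rfl⟩
  | succ j ih =>
    have : (closure (dls X (j + 1))).Normal := by
      refine closure_normal_of_conj ?_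
      rintro _ ⟨f, hf, rfl⟩ g
      exact ⟨_, fun i => h _ (hf i) g, (map_dl (MulAut.conj g).toMonoidHom _ f).symm⟩
    refine (Subgroup.commutator_mono ih ih).trans (comm_closure_le ?_)
    rintro _ ⟨f, hf, rfl⟩ _ ⟨g, hg, rfl⟩
    refine Subgroup.subset_closure ⟨fun i => if i % 2 = 0 then f (i / 2) else g (i / 2),
      fun i => by dsimp only; split_ifs; exacts [hf _, hg _], ?_⟩
    show ⁅dl j _, dl j _⁆ = _
    congr 2
    · funext i; simp
    · funext i
      beta_reduce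
      rw [if_neg (by omega), show (2 * i + 1) / 2 = i by omega]

theorem engel_closure {n : ℕ} (hn : 0 < n) (E s : ℕ) : ∃ R : ℕ, R ≠ 0 ∧
    ∀ (K : Type) [Group K] [Group.IsNilpotent K] (φ : K →* K) (q : ℕ),
      Op φ n q → q.Coprime R → Spl φ n → ds (⊤ : Subgroup K) s = ⊥ →
      ds (closure {y : K | ∀ u, eng y E u = 1}) (2 ^ (n - 1) - 1) = ⊥ := by
  obtain ⟨c, hc⟩ := class_of_engel (Fin n × Fin (2 ^ (2 ^ (n - 1) - 1))) E s
  obtain ⟨R, hR, h⟩ := transfer hn c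
  refine ⟨E.factorial * R, mul_ne_zero (Nat.factorial_ne_zero _) hR, ?_⟩
  intro K _ _ φ q hop hq hspl hs
  have hinv : ∀ θ : K →* K, Function.Surjective θ → ∀ y : K, (∀ u, eng y E u = 1) →
      ∀ u, eng (θ y) E u = 1 := by
    intro θ hθ y hy u
    obtain ⟨u, rfl⟩ := hθ u
    rw [← map_eng, hy, map_one]
  have hit : ∀ j, ∀ y : K, (∀ u, eng y E u = 1) → ∀ u, eng (φ^[j] y) E u = 1 := by
    intro j y hy
    induction j with
    | zero => exact hy
    | succ j ih =>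
      rw [Function.iterate_succ_apply']
      exact hinv φ (surj_of_iter hn hop.ord) _ ih
  refine le_bot_iff.1 ((ds_closure_le (fun x hx g => hinv (MulAut.conj g).toMonoidHom
    (MulAut.conj g).surjective x hx) _).trans ((closure_le _).2 ?_))
  rintro _ ⟨f, hf, rfl⟩
  set t := 2 ^ (2 ^ (n - 1) - 1) with ht
  set H := closure (orb φ n t f) with hH
  obtain ⟨ψ, hψ⟩ := exists_restr φ H (orb_inv hop.ord t f)
  have hinj := H.subtype_injective
  let y : Fin n × Fin t → H := fun p =>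
    ⟨φ^[p.1] (f p.2), Subgroup.subset_closure ⟨p.1, p.1.2, p.2, p.2.2, rfl⟩⟩
  have hy : Gn y := by
    apply Subgroup.map_injective hinj
    rw [MonoidHom.map_closure, ← Set.range_comp, ← MonoidHom.range_eq_map, Subgroup.range_subtype]
    refine Eq.trans (congrArg Subgroup.closure ?_) hH.symm
    ext z
    constructor
    · rintro ⟨p, rfl⟩; exact ⟨p.1, p.1.2, p.2, p.2.2, rfl⟩
    · rintro ⟨j, hj, i, hi, rfl⟩; exact ⟨(⟨j, hj⟩, ⟨i, hi⟩), rfl⟩
  have h1 := hc H q (hop.of_inj hinj hψ).exp (Nat.Coprime.coprime_mul_right_right hq) y hy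
    (fun p u => hinj (by rw [map_eng, map_one]; exact hit _ _ (hf _) _)) (ds_eq_bot_of_inj hinj hs)
  classical
  have h2 := h H ψ q (hop.of_inj hinj hψ) (Nat.Coprime.coprime_mul_left_right hq)
    (hspl.of_inj hinj hψ) h1 fun i => if hi : i < t then y (⟨0, hn⟩, ⟨i, hi⟩) else 1
  have h3 := congrArg H.subtype h2
  rw [map_dl, map_one] at h3
  rw [SetLike.mem_coe, Subgroup.mem_bot, ← h3]
  exact dl_congr _ _ _ fun i hi => by rw [dif_pos hi]; rfl

theorem stage {n : ℕ} (hn : 0 < n) (d : ℕ) : ∃ k : ℕ, ∀ s : ℕ, ∃ R : ℕ, R ≠ 0 ∧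
    ∀ (K : Type) [Group K] [Finite K] [Group.IsNilpotent K] (φ : K →* K) (q : ℕ),
      Op φ n q → q.Coprime R → Spl φ n → Wt φ (fd (d + 1)) → ds (⊤ : Subgroup K) s = ⊥ →
      ds (⊤ : Subgroup K) k = ⊥ := by
  induction d with
  | zero =>
    refine ⟨0, fun s => ⟨1, one_ne_zero, fun K _ _ _ φ q _ _ _ hw hs => ?_⟩⟩
    have h1 : (⊤ : Subgroup K) ≤ ⁅(⊤ : Subgroup K), (⊤ : Subgroup K)⁆ := fun x _ => by
      have := hw ⊤ (fun _ _ => Subgroup.mem_top _) x trivial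
      simpa [fd, fp] using this
    obtain ⟨c, hc⟩ := exists_lcs_top K
    exact eq_bot_of_le_comm hc le_rfl h1
  | succ d ih =>
    obtain ⟨k, hk⟩ := ih
    refine ⟨k + (2 ^ (n - 1) - 1), fun s => ?_⟩
    obtain ⟨R₁, hR₁, h₁⟩ := hk s
    obtain ⟨E, R₂, hR₂, h₂⟩ := g1_group hn (Nat.succ_pos (d + 1)) s
    obtain ⟨R₃, hR₃, h₃⟩ := exists_piece (Nat.succ_pos d)
    obtain ⟨R₄, hR₄, h₄⟩ := engel_closure hn E s
    refine ⟨R₁ * R₂ * (R₃ * R₄), mul_ne_zero (mul_ne_zero hR₁ hR₂) (mul_ne_zero hR₃ hR₄), ?_⟩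
    intro K _ _ _ φ q hop hq hspl hw hs
    rw [Nat.coprime_mul_iff_right, Nat.coprime_mul_iff_right, Nat.coprime_mul_iff_right] at hq
    obtain ⟨⟨hq₁, hq₂⟩, hq₃, hq₄⟩ := hq
    have hinv : ∀ θ : K →* K, Function.Surjective θ → ∀ y : K, (∀ u, eng y E u = 1) →
        ∀ u, eng (θ y) E u = 1 := by
      intro θ hθ y hy u
      obtain ⟨u, rfl⟩ := hθ u
      rw [← map_eng, hy, map_one]
    have hN := h₄ K φ q hop hq₄ hspl hs
    set N := closure {y : K | ∀ u, eng y E u = 1} with hNdef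
    have : N.Normal := closure_normal_of_conj fun x hx g => hinv (MulAut.conj g).toMonoidHom
      (MulAut.conj g).surjective x hx
    have hNi : ∀ x ∈ N, φ x ∈ N := closure_inv fun x hx =>
      Subgroup.subset_closure (hinv φ (surj_of_iter hn hop.ord) x hx)
    obtain ⟨ψ, hψ⟩ := exists_quot φ N hNi
    have hsurj := QuotientGroup.mk'_surjective N
    have hw' : Wt ψ (fd (d + 1)) := by
      intro S hS y hy
      obtain ⟨y, rfl⟩ := hsurj y
      obtain ⟨x, -, hx, e⟩ := h₃ K φ q hop.exp hq₃ hw (S.comap (QuotientGroup.mk' N))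
        (fun x hx => by rw [Subgroup.mem_comap, ← hψ]; exact hS _ hx) y hy
      have hxN : x ∈ N := Subgroup.subset_closure (h₂ K φ q x hop hq₂ hw hx hs)
      have h1 := Subgroup.mem_map_of_mem (QuotientGroup.mk' N) e
      rw [Subgroup.map_commutator, Subgroup.map_comap_eq_self_of_surjective hsurj, map_mul, map_inv,
        map_fp hψ, show QuotientGroup.mk' N x = 1 from (QuotientGroup.eq_one_iff x).2 hxN,
        inv_one, mul_one] at h1
      exact h1
    have h1 := h₁ (K ⧸ N) ψ q (hop.of_surj hsurj hψ) hq₁ (hspl.of_surj hsurj hψ) hw'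
      (ds_eq_bot_of_surj hsurj hs)
    rw [← Subgroup.map_top_of_surjective _ hsurj, ← map_ds, Subgroup.map_eq_bot_iff,
      QuotientGroup.ker_mk'] at h1
    rw [ds_add]
    exact le_bot_iff.1 ((ds_mono h1 _).trans hN.le)

theorem Spl.wt {φ : K →* K} {n : ℕ} (hn : 0 < n) (h : Spl φ n) : Wt φ (fd n) := by
  intro S hS x hx
  obtain ⟨X, _, π, hπ⟩ := exists_sec S ⁅S, S⁆ le_rfl
  obtain ⟨ψ, hψ⟩ := hπ.exists_end φ hS (comm_inv hS hS)
  obtain ⟨g, hg⟩ : (∑ i ∈ Finset.range n, (Polynomial.X : ℤ[X]) ^ i) ∣ fd n := by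
    rw [← prod_cyclotomic_eq_geom_sum hn, fd]
    refine Finset.prod_dvd_prod_of_subset _ _ _ fun i hi => ?_
    rw [Finset.mem_erase, Nat.mem_divisors] at hi
    have h1 := Nat.le_of_dvd hn hi.2.1
    have h2 := Nat.pos_of_dvd_of_pos hi.2.1 hn
    rw [Finset.mem_Icc]
    omega
  have h0 : aeval ψ (∑ i ∈ Finset.range n, (Polynomial.X : ℤ[X]) ^ i) (π x) = 0 := by
    rw [← hπ.addOn.one, ← h x, hπ.addOn.list_prod _ fun i => iter_mem hS i hx, map_sum,
      LinearMap.sum_apply]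
    exact Finset.sum_congr rfl fun i _ => by
      rw [map_pow, aeval_X, (end_pow_apply hS hψ i hx).2]
  rw [← hπ.ker _ (fp_mem hS _ hx), hπ.addOn.fp_aeval hS hψ _ hx, hg, mul_comm, map_mul,
    Module.End.mul_apply, h0, map_zero]

/-- bounded derived length for splitting automorphisms, away from small primes -/
theorem spl_bound {n : ℕ} (hn : 0 < n) : ∃ k R : ℕ, R ≠ 0 ∧
    ∀ (K : Type) [Group K] [Finite K] [Group.IsNilpotent K] (φ : K →* K) (q : ℕ),
      Op φ n q → q.Coprime R → Spl φ n → ds (⊤ : Subgroup K) k = ⊥ := by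
  obtain ⟨k, hk⟩ := stage hn (n - 1)
  obtain ⟨R, hR, h⟩ := hk (k + 1)
  refine ⟨k, R, hR, fun K _ _ _ φ q hop hq hspl => ?_⟩
  have := ds_normal (⊤ : Subgroup K) (k + 1)
  have := ds_normal (⊤ : Subgroup K) k
  obtain ⟨ψ, hψ⟩ := exists_quot φ (ds (⊤ : Subgroup K) (k + 1))
    (ds_inv (fun _ _ => Subgroup.mem_top _) _)
  have hsurj := QuotientGroup.mk'_surjective (ds (⊤ : Subgroup K) (k + 1))
  have h1 := h _ ψ q (hop.of_surj hsurj hψ) hq (hspl.of_surj hsurj hψ)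
    (by rw [Nat.sub_add_cancel hn]; exact (hspl.of_surj hsurj hψ).wt hn) (by
      rw [← Subgroup.map_top_of_surjective _ hsurj, ← map_ds, Subgroup.map_eq_bot_iff,
        QuotientGroup.ker_mk'])
  rw [← Subgroup.map_top_of_surjective _ hsurj, ← map_ds, Subgroup.map_eq_bot_iff,
    QuotientGroup.ker_mk'] at h1
  obtain ⟨c, hc⟩ := exists_lcs_top K
  exact eq_bot_of_le_comm hc le_top (h1.trans (Subgroup.commutator_mono le_rfl le_top))

/-- bounded derived length for fixed point free automorphisms, away from small primes -/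
theorem fpf_bound {n : ℕ} (hn : 0 < n) : ∃ k R : ℕ, R ≠ 0 ∧
    ∀ (K : Type) [Group K] [Finite K] [Group.IsNilpotent K] (φ : K →* K) (q : ℕ),
      Op φ n q → q.Coprime R → (∀ x, φ x = x → x = 1) → ds (⊤ : Subgroup K) k = ⊥ := by
  obtain ⟨k, R, hR, h⟩ := spl_bound hn
  exact ⟨k, R, hR, fun K _ _ _ φ q hop hq hf => h K φ q hop hq fun x =>
    MonoidHom.FixedPointFree.prod_pow_eq_one (φ := φ) hf (funext hop.ord) x⟩

end Pool.Agent.LawP
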