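import Pool.Agent.P.MP_ec89a0_al.Step

namespace Pool.Agent.FitW

open Subgroup
open scoped commutatorElement

theorem main_sep_nil {G : Type} [Group G] (π : Fin 2 → G) (A : Subgroup G) : Sep π A [] := by
  intro M₁ M₂ h₁ h₂ hne
  rw [List.suffix_nil] at h₁ h₂
  exact absurd (h₁.trans h₂.symm) hne

theorem main_len_le {ι : Type} [Fintype ι] (L : ι → List Lt) {μ : ℕ}
    (h : ∑ j, 3 ^ (L j).length ≤ μ) :
    Fintype.card ι ≤ μ ∧ ∀ j, (L j).length ≤ μ := by
  constructor
  · refine le_trans ?_ h
    rw [← Finset.card_univ, Finset.card_eq_sum_ones]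
    exact Finset.sum_le_sum fun j _ => Nat.one_le_pow _ _ (by norm_num)
  · intro j
    have h1 : 3 ^ (L j).length ≤ ∑ j, 3 ^ (L j).length :=
      Finset.single_le_sum (f := fun j => 3 ^ (L j).length) (fun _ _ => Nat.zero_le _)
        (Finset.mem_univ j)
    have h2 : (L j).length < 3 ^ (L j).length := Nat.lt_pow_self (by norm_num)
    omega

theorem main_not_le {G : Type} [Group G] {R : ℕ → Subgroup G} (hR : Chain R) {A : Subgroup G}
    {i f j : ℕ} (h : ¬ R i ≤ dser A f) (hij : j + f ≤ i) : ¬ R j ≤ A := fun hj =>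
  h ((hR.antitone hij).trans (hR.le_dser hj f))

/-- main induction -/
theorem main_sep (μ : ℕ) : ∃ h : ℕ, ∀ (G : Type) [Group G] [Finite G] [Group.IsSolvable G]
    (R : ℕ → Subgroup G), Chain R → (∃ π : Fin 2 → G, Gen π) →
    ∀ (ι : Type) [Fintype ι] (A : ι → Subgroup G) (L : ι → List Lt),
    (∑ j, 3 ^ (L j).length ≤ μ) → (∀ j, FreeGroup.IsReduced (L j)) → (∀ j, ¬ R h ≤ A j) →
    ∃ π : Fin 2 → G, Gen π ∧ ∀ j, Sep π (A j) (L j) := by
  induction μ with
  | zero =>
    refine ⟨0, ?_⟩
    intro G _ _ _ R _ ⟨π, hπ⟩ ι _ A L hsum _ _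
    refine ⟨π, hπ, fun j => ?_⟩
    have h0 : Fintype.card ι ≤ 0 := (main_len_le L hsum).1
    have : IsEmpty ι := Fintype.card_eq_zero_iff.mp (Nat.le_zero.mp h0)
    exact this.elim j
  | succ μ ih =>
    obtain ⟨h', ih⟩ := ih
    obtain ⟨f₁, hdown⟩ := step_down (μ + 1)
    obtain ⟨f₂, hprog⟩ := step_prog (μ + 1)
    refine ⟨h' + (f₁ + f₂) + 2, ?_⟩
    intro G _ _ _ R hR hgen ι _ A L hsum hred hA
    classical
    by_cases hall : ∀ j, L j = []
    · obtain ⟨π, hπ⟩ := hgen
      exact ⟨π, hπ, fun j => by rw [hall j]; exact main_sep_nil π _⟩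
    push Not at hall
    obtain ⟨j₀, hj₀⟩ := hall
    obtain ⟨z, L', hL⟩ := List.exists_cons_of_ne_nil hj₀
    obtain ⟨hcard, hlen⟩ := main_len_le L hsum
    have key : ∀ m : ℕ, ∀ A : ι → Subgroup G, (∀ j, R m ≤ A j) →
        ¬ R (h' + (f₁ + f₂) + 2) ≤ A j₀ → (∀ j, ¬ R h' ≤ A j) →
        ∃ π : Fin 2 → G, Gen π ∧ ∀ j, Sep π (A j) (L j) := by
      intro m
      induction m with
      | zero =>
        intro A hm h0 _
        exact absurd ((hR.antitone (Nat.zero_le _)).trans (hm j₀)) h0
      | succ m ihm =>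
        intro A hm h0 h1
        have hmh : h' + (f₁ + f₂) + 2 ≤ m := by
          by_contra hlt
          exact h0 ((hR.antitone (by omega)).trans (hm j₀))
        have hnil : ∀ j, ∃ k, (R m).lowerCentralSeries k ≤ A j := fun j => by
          obtain ⟨k, hk⟩ := hR.nil m
          exact ⟨k, hk.trans (hm j)⟩
        obtain ⟨m₂, rfl⟩ : ∃ m₂, m = m₂ + 2 := ⟨m - 2, by omega⟩
        by_cases hact : R (m₂ + 2) ≤ A j₀
        · obtain ⟨A', hN, heq, hne, himp⟩ := hdown G ι A L hcard hlen (R (m₂ + 2)) (R (m₂ + 1))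
            (hR.normal _) (hR.comm _) hnil
          obtain ⟨π, hπ, hsep⟩ := ihm A' hN (by rw [heq j₀ hact]; exact h0) (fun j => by
            by_cases hj : R (m₂ + 2) ≤ A j
            · rw [heq j hj]; exact h1 j
            · exact main_not_le hR (hne j hj) (by omega))
          exact himp π hπ hsep
        · obtain ⟨A', B, hA', hA0, hB, himp⟩ := hprog G ι A L hcard hlen (R (m₂ + 2))
            (R (m₂ + 1)) (R m₂) (hR.normal _) (hR.normal _) (hR.normal _) (hR.anti _)
            (hR.comm _) (hR.comm _) hnil (hR.nil _) j₀ z L' hL (hL ▸ hred j₀) hact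
          have hredL' : FreeGroup.IsReduced L' := by
            have := hred j₀
            rw [hL] at this
            exact List.IsChain.tail this
          let A₂ : Option ι → Subgroup G := fun o => o.elim B A'
          let L₂ : Option ι → List Lt := fun o => o.elim L' (Function.update L j₀ L')
          have hsum₂ : ∑ o, 3 ^ (L₂ o).length ≤ μ := by
            rw [Fintype.sum_option]
            have e1 : ∑ j, 3 ^ (L j).length =
                3 ^ (L j₀).length + ∑ j ∈ Finset.univ.erase j₀, 3 ^ (L j).length :=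
              (Finset.add_sum_erase _ _ (Finset.mem_univ j₀)).symm
            have e2 : ∑ j, 3 ^ (L₂ (some j)).length =
                3 ^ (L₂ (some j₀)).length +
                  ∑ j ∈ Finset.univ.erase j₀, 3 ^ (L₂ (some j)).length :=
              (Finset.add_sum_erase _ (fun j => 3 ^ (L₂ (some j)).length)
                (Finset.mem_univ j₀)).symm
            have e3 : ∑ j ∈ Finset.univ.erase j₀, 3 ^ (L₂ (some j)).length =
                ∑ j ∈ Finset.univ.erase j₀, 3 ^ (L j).length := by
              refine Finset.sum_congr rfl fun j hj => ?_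
              have : j ≠ j₀ := Finset.ne_of_mem_erase hj
              simp [L₂, Function.update_of_ne this]
            have e4 : (L₂ (some j₀)).length = L'.length := by simp [L₂]
            have e5 : (L₂ none).length = L'.length := by simp [L₂]
            have e6 : (L j₀).length = L'.length + 1 := by rw [hL]; simp
            have e7 : 1 ≤ 3 ^ L'.length := Nat.one_le_pow _ _ (by norm_num)
            rw [e2, e3, e4, e5]
            rw [e1, e6, pow_succ] at hsum
            omega
          obtain ⟨π, hπ, hsep⟩ := ih G R hR hgen (Option ι) A₂ L₂ hsum₂ (by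
              rintro (_ | j)
              · exact hredL'
              · by_cases hj : j = j₀
                · subst hj; simpa [L₂] using hredL'
                · simpa [L₂, Function.update_of_ne hj] using hred j) (by
              rintro (_ | j)
              · exact main_not_le hR hB (by omega)
              · rcases hA' j with hj | hj
                · show ¬ R h' ≤ A' j
                  rw [hj]; exact h1 j
                · exact main_not_le hR hj (by omega))
          refine himp π hπ (fun j hj => ?_) ?_ (hsep none)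
          · simpa [A₂, L₂, Function.update_of_ne hj] using hsep (some j)
          · simpa [A₂, L₂] using hsep (some j₀)
    obtain ⟨m, hm⟩ := hR.fin
    exact key m A (fun j => by rw [hm]; exact bot_le) (hA j₀) fun j hj =>
      hA j ((hR.antitone (by omega)).trans hj)

theorem height_bound (w : FreeGroup (Fin 2)) (hw : w ≠ 1) : ∃ h : ℕ,
    ∀ (G : Type) [Group G] [Finite G] [Group.IsSolvable G],
      (∃ a b : G, Subgroup.closure ({a, b} : Set G) = ⊤) →
      (∀ φ : FreeGroup (Fin 2) →* G, Function.Surjective φ → φ w = 1) →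
      ∃ N : ℕ → Subgroup G, N 0 = ⊤ ∧ N h = ⊥ ∧ (∀ j, (N j).Normal) ∧
        ∀ j, N (j + 1) ≤ N j ∧ ∃ k, (N j).lowerCentralSeries k ≤ N (j + 1) := by
  obtain ⟨h, hh⟩ := main_sep (3 ^ w.toWord.length)
  refine ⟨h, ?_⟩
  intro G _ _ _ ⟨a, b, hab⟩ hdie
  obtain ⟨R, hR⟩ := exists_chain G
  refine ⟨R, hR.top, ?_, hR.normal, fun j => ⟨hR.anti j, hR.nil j⟩⟩
  by_contra hne
  have hgen : ∃ π : Fin 2 → G, Gen π := by
    refine ⟨![a, b], ?_⟩
    unfold Gen
    rw [← hab]
    congr 1
    ext x
    simp [eq_comm, or_comm]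
  obtain ⟨π, hπ, hsep⟩ := hh G R hR hgen Unit (fun _ => ⊥) (fun _ => w.toWord) (by simp)
    (fun _ => FreeGroup.isReduced_toWord) (fun _ hle => hne (le_bot_iff.mp hle))
  have h1 := hsep () [] w.toWord List.nil_suffix (List.suffix_refl _)
    (fun h => hw (FreeGroup.toWord_eq_nil_iff.mp h.symm))
  apply h1
  rw [ev_nil, inv_one, one_mul, Subgroup.mem_bot]
  unfold ev
  rw [FreeGroup.mk_toWord]
  exact hdie _ hπ.surjective

end Pool.Agent.FitW
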