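import Pool.Agent.P.MP_ec89a0_al.LP5
import Pool.Agent.P.MP_ec89a0_al.LP12
import Pool.Agent.P.MP_ec89a0_al.Main

/-! Words whose vanishing on generating pairs produces splitting automorphisms. -/

namespace Pool.Agent.LawP

open Subgroup
open scoped commutatorElement

variable {H : Type} [Group H]

theorem conj_iter (a : H) (k : ℕ) (x : H) :
    (MulAut.conj a).toMonoidHom^[k] x = a ^ k * x * (a ^ k)⁻¹ := by
  induction k with
  | zero => simp
  | succ k ih =>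
    rw [Function.iterate_succ_apply', ih]
    show a * _ * a⁻¹ = _
    group

theorem conj_prod (a x : H) (n : ℕ) :
    ((List.range n).map fun k => a ^ k * x * (a ^ k)⁻¹).prod = (x * a) ^ n * (a ^ n)⁻¹ := by
  induction n with
  | zero => simp
  | succ n ih =>
    rw [List.range_succ, List.map_append, List.prod_append, ih, List.map_singleton,
      List.prod_singleton, pow_succ (x * a), pow_succ a]
    group

theorem ds_subtype (D : Subgroup H) (k : ℕ) : (ds (⊤ : Subgroup D) k).map D.subtype = ds D k := by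
  rw [map_ds, ← MonoidHom.range_eq_map, Subgroup.range_subtype]

theorem num_of_prime {n l : ℕ} (hn : 0 < n) (hl : l.Prime) (hd : n ∣ l - 1) (a : ℕ) :
    ∃ u : ℤ, Num n (l ^ a) u := by
  have := Fact.mk hl
  have hlt : n < l := by
    have h1 := hl.two_le
    have := Nat.le_of_dvd (by omega) hd
    omega
  obtain ⟨g, hg⟩ := IsCyclic.exists_ofOrder_eq_natCard (α := (ZMod l)ˣ)
  rw [Nat.card_eq_fintype_card, ZMod.card_units] at hg
  rw [← hg] at hd
  have ho := orderOf_pow_orderOf_div (orderOf_pos g).ne' hd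
  set u := g ^ (orderOf g / n) with hu
  set v : ℤ := ((u : ZMod l).val : ℤ) with hv
  have hvu : (v : ZMod l) = u := by rw [hv, Int.cast_natCast, ZMod.natCast_zmod_val]
  have hlz : Prime (l : ℤ) := Nat.prime_iff_prime_int.1 hl
  have cop : ∀ z : ℤ, (z : ZMod l) ≠ 0 → IsCoprime z ((l ^ a : ℕ) : ℤ) := by
    intro z hz
    rw [Nat.cast_pow]
    refine IsCoprime.pow_right ((hlz.irreducible.coprime_iff_not_dvd).2 ?_).symm
    rwa [← ZMod.intCast_zmod_eq_zero_iff_dvd]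
  refine ⟨v ^ l ^ a, hn, ?_, ?_, ?_⟩
  · have h1 : (l : ℤ) ∣ v ^ n - 1 := by
      rw [← ZMod.intCast_zmod_eq_zero_iff_dvd]
      push_cast
      rw [hvu, ← Units.val_pow_eq_pow_val, ← ho, pow_orderOf_eq_one, Units.val_one, sub_self]
    have h2 := dvd_sub_pow_of_dvd_sub h1 a
    rw [one_pow, ← pow_mul, mul_comm n, pow_mul] at h2
    rw [Nat.cast_pow]
    exact (pow_dvd_pow _ (Nat.le_succ a)).trans h2
  · intro i hi hin
    apply cop
    push_cast
    rw [ZMod.pow_card_pow, hvu, ← Units.val_pow_eq_pow_val, sub_ne_zero, Ne, Units.val_eq_one]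
    exact pow_ne_one_of_lt_orderOf hi.ne' (ho ▸ hin)
  · apply cop
    rw [Int.cast_natCast, Ne, ZMod.natCast_eq_zero_iff]
    exact Nat.not_dvd_of_pos_of_lt hn hlt

/-- `q` is prime to `R` or a power of a prime that is one modulo `N` -/
def Good (N R q : ℕ) : Prop := q.Coprime R ∨ ∃ p a : ℕ, p.Prime ∧ N ∣ p - 1 ∧ q = p ^ a

theorem Good.mono {N R q N' R' : ℕ} (h : Good N R q) (hN : N' ∣ N) (hR : R' ∣ R) : Good N' R' q := by
  rcases h with h | ⟨p, a, hp, hd, e⟩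
  · exact Or.inl (h.coprime_dvd_right hR)
  · exact Or.inr ⟨p, a, hp, hN.trans hd, e⟩

theorem Good.coprime {N R q n : ℕ} (h : Good N R q) (hN : n ∣ N) (hR : n ∣ R) : q.Coprime n := by
  rcases h with h | ⟨p, a, hp, hd, rfl⟩
  · exact h.coprime_dvd_right hR
  · refine Nat.Coprime.pow_left a (Nat.Coprime.coprime_dvd_right (hN.trans hd) ?_)
    obtain ⟨r, rfl⟩ : ∃ r, p = r + 1 := ⟨p - 1, by have := hp.pos; omega⟩
    simp

theorem fpf_good {n : ℕ} (hn : 0 < n) : ∃ k R : ℕ, R ≠ 0 ∧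
    ∀ (K : Type) [Group K] [Finite K] [Group.IsNilpotent K] (φ : K →* K) (q : ℕ),
      Op φ n q → Good n R q → (∀ x, φ x = x → x = 1) → ds (⊤ : Subgroup K) k = ⊥ := by
  obtain ⟨k, R, hR, h⟩ := fpf_bound hn
  refine ⟨k + (2 ^ (n - 1) - 1), R, hR, fun K _ _ _ φ q hop hq hf => ?_⟩
  rcases hq with hq | ⟨p, a, hp, hd, rfl⟩
  · rw [ds_add, h K φ q hop hq hf]
    exact le_bot_iff.1 (ds_le _ _)
  · obtain ⟨u, hu⟩ := num_of_prime hn hp hd a
    rw [add_comm, ds_add, kreknin_group hu hop hf]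
    exact le_bot_iff.1 (ds_le _ _)

theorem ds_le_pows {n : ℕ} (hn : 0 < n) : ∃ k R : ℕ, R ≠ 0 ∧ ∀ (H : Type) [Group H] [Finite H]
    (D : Subgroup H) [D.Normal] [Group.IsNilpotent D] (q : ℕ) (a : H), (∀ g ∈ D, g ^ q = 1) →
    Good n R q → ds D k ≤ closure {y | ∃ u ∈ D, (u * a) ^ n = y} := by
  obtain ⟨k, R, hR, h'⟩ := fpf_good hn
  have h : ∀ (K : Type) [Group K] [Finite K] [Group.IsNilpotent K] (φ : K →* K) (q : ℕ),
      Op φ n q → Good n (R * n) q → Spl φ n → ds (⊤ : Subgroup K) k = ⊥ :=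
    fun K _ _ _ φ q hop hq hs => h' K φ q hop (hq.mono dvd_rfl (dvd_mul_right _ _))
      (hs.fpf hop.exp (hq.coprime dvd_rfl (dvd_mul_left _ _)).symm)
  refine ⟨k, R * n, mul_ne_zero hR hn.ne', fun H _ _ D hD _ q a hq hcop => ?_⟩
  set A := closure {y | ∃ u ∈ D, (u * a) ^ n = y} with hA
  have hconj : ∀ g : H, g * a * g⁻¹ * a⁻¹ ∈ D → ∀ y ∈ A, g * y * g⁻¹ ∈ A := by
    intro g hg
    refine closure_inv (φ := (MulAut.conj g).toMonoidHom) ?_
    rintro _ ⟨u, hu, rfl⟩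
    refine Subgroup.subset_closure ⟨g * u * g⁻¹ * (g * a * g⁻¹ * a⁻¹),
      D.mul_mem (hD.conj_mem u hu g) hg, ?_⟩
    rw [map_pow]
    congr 1
    show _ = g * (u * a) * g⁻¹
    group
  have hconjD : ∀ g ∈ D, ∀ y ∈ A, g * y * g⁻¹ ∈ A := fun g hg => hconj g (by
    rw [mul_assoc, mul_assoc, ← mul_assoc a]
    exact D.mul_mem hg (hD.conj_mem _ (D.inv_mem hg) a))
  have han : a ^ n ∈ A := Subgroup.subset_closure ⟨1, D.one_mem, by rw [one_mul]⟩
  obtain ⟨φ, hφ⟩ := exists_restr (MulAut.conj a).toMonoidHom D fun x hx => hD.conj_mem x hx a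
  have hφk : ∀ j (x : D), D.subtype (φ^[j] x) = a ^ j * x * (a ^ j)⁻¹ := fun j x => by
    rw [← semiconj_iter hφ, conj_iter]; rfl
  have : (A.comap D.subtype).Normal := ⟨fun x hx g => hconjD g g.2 x hx⟩
  obtain ⟨ψ, hψ⟩ := exists_quot φ (A.comap D.subtype) fun x hx => by
    rw [Subgroup.mem_comap, ← hφ]
    exact hconj a (by simp) _ hx
  have hsurj := QuotientGroup.mk'_surjective (A.comap D.subtype)
  have h1 := h _ ψ q ⟨fun g => by
      obtain ⟨x, rfl⟩ := hsurj g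
      rw [← map_pow, show x ^ q = 1 from Subtype.ext (hq x x.2), map_one], fun g => by
      obtain ⟨x, rfl⟩ := hsurj g
      rw [semiconj_iter hψ, ← mul_inv_eq_one, ← map_inv, ← map_mul, ← MonoidHom.mem_ker,
        QuotientGroup.ker_mk', Subgroup.mem_comap, map_mul, map_inv, hφk, mul_assoc, mul_assoc,
        ← mul_assoc (x : H)]
      exact A.mul_mem han (hconjD x x.2 _ (A.inv_mem han))⟩ hcop fun g => by
    obtain ⟨x, rfl⟩ := hsurj g
    rw [← map_spl hψ, ← MonoidHom.mem_ker, QuotientGroup.ker_mk', Subgroup.mem_comap,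
      map_list_prod, List.map_map]
    have e : (D.subtype ∘ fun k => φ^[k] x) = fun k => a ^ k * x * (a ^ k)⁻¹ :=
      funext fun k => hφk k x
    rw [e, conj_prod]
    exact A.mul_mem (Subgroup.subset_closure ⟨x, x.2, rfl⟩) (A.inv_mem han)
  rw [← Subgroup.map_top_of_surjective _ hsurj, ← map_ds, Subgroup.map_eq_bot_iff,
    QuotientGroup.ker_mk'] at h1
  rw [← ds_subtype]
  exact Subgroup.map_le_iff_le_comap.2 h1

/-- vanishing of `w` on all generating pairs bounds the derived length of normal nilpotent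
subgroups without small primes -/
def Core (w : FreeGroup (Fin 2)) (N : ℕ) : Prop :=
  ∃ k R : ℕ, R ≠ 0 ∧ ∀ (H : Type) [Group H] [Finite H] (P : Subgroup H) [P.Normal] (q c : ℕ),
    (∀ g ∈ P, g ^ q = 1) → Good N R q → P.lowerCentralSeries c = ⊥ →
    (∃ x : Fin 2 → H, Gn x) → (∀ x : Fin 2 → H, Gn x → FreeGroup.lift x w = 1) → ds P k = ⊥

theorem nilpotent_of_le {D P : Subgroup H} {c : ℕ} (hc : P.lowerCentralSeries c = ⊥) (h : D ≤ P) :
    Group.IsNilpotent D :=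
  Subgroup.isNilpotent_of_lowerCentralSeries_eq_bot (n := c)
    (le_bot_iff.1 ((Subgroup.lowerCentralSeries_mono c h).trans hc.le))

theorem core_powers {m n : ℕ} (hm : 0 < m) (hn : 0 < n) :
    Core ⁅FreeGroup.of (0 : Fin 2) ^ m, FreeGroup.of (1 : Fin 2) ^ n⁆ (m * n) := by
  obtain ⟨k₁, R₁, hR₁, h₁⟩ := ds_le_pows hm
  obtain ⟨k₂, R₂, hR₂, h₂⟩ := ds_le_pows hn
  refine ⟨1 + (k₁ + k₂ + 1), R₁ * R₂, mul_ne_zero hR₁ hR₂, ?_⟩
  intro H _ _ P _ q c hq hcop hc ⟨x, hx⟩ hdie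
  have := nilpotent_of_le hc (comm_self_le P)
  have hq' : ∀ g ∈ ⁅P, P⁆, g ^ q = 1 := fun g hg => hq g (comm_self_le P hg)
  have e₁ := h₁ H ⁅P, P⁆ q (x 0) hq' (hcop.mono (dvd_mul_right _ _) (dvd_mul_right _ _))
  have e₂ := h₂ H ⁅P, P⁆ q (x 1) hq' (hcop.mono (dvd_mul_left _ _) (dvd_mul_left _ _))
  rw [ds_add]
  show ⁅ds ⁅P, P⁆ (k₁ + k₂), ds ⁅P, P⁆ (k₁ + k₂)⁆ = ⊥
  have l₁ : ds ⁅P, P⁆ (k₁ + k₂) ≤ ds ⁅P, P⁆ k₁ := by rw [ds_add]; exact ds_le _ _
  have l₂ : ds ⁅P, P⁆ (k₁ + k₂) ≤ ds ⁅P, P⁆ k₂ := by rw [add_comm, ds_add]; exact ds_le _ _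
  refine le_bot_iff.1 ((Subgroup.commutator_mono (l₁.trans e₁) (l₂.trans e₂)).trans (Eq.le ?_))
  rw [Subgroup.commutator_eq_bot_iff_le_centralizer, closure_le, Subgroup.centralizer_closure]
  rintro _ ⟨u, hu, rfl⟩ _ ⟨v, hv, rfl⟩
  have := hdie _ (hx.mul_left hc (u := ![u, v]) (Fin.forall_fin_two.2 ⟨hu, hv⟩))
  rw [map_commutatorElement, map_pow, map_pow, FreeGroup.lift_apply_of, FreeGroup.lift_apply_of,
    commutatorElement_eq_one_iff_commute] at this
  exact this.eq.symm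

theorem norm_apply {S T : Subgroup H} [hS : S.Normal] {X : Type} [AddCommGroup X] {π : H → X}
    (hπ : Sec S T π) {ρ : H →* Module.End ℤ X}
    (hρ : ∀ g, ∀ x ∈ S, ρ g (π x) = π (g * x * g⁻¹)) {d y : H} {n : ℕ} (hd : d ^ n = 1)
    (hy : y ∈ S) (h : (y * d) ^ n = 1) : (∑ i ∈ Finset.range n, ρ d ^ i) (π y) = 0 := by
  have h3 := conj_prod d y n
  rw [h, hd, inv_one, mul_one] at h3
  have h4 := hπ.addOn.list_prod _ (fun i => hS.conj_mem _ hy (d ^ i)) n
  rw [h3, hπ.addOn.one] at h4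
  rw [h4, LinearMap.sum_apply]
  exact Finset.sum_congr rfl fun i _ => by rw [← map_pow, hρ _ _ hy]

theorem norm_mul {R : Type} [Ring R] (ρ : H →* R) {d : H} {n : ℕ} (hd : d ^ n = 1) :
    (∑ i ∈ Finset.range n, ρ d ^ i) * ρ d = ∑ i ∈ Finset.range n, ρ d ^ i := by
  have := geom_sum_mul (ρ d) n
  rw [← map_pow, hd, map_one, sub_self, mul_sub, mul_one, sub_eq_zero] at this
  exact this

theorem sign_all {R : Type} [Ring R] (ρ : H →* R) {N : R} {x : Fin 2 → H} (hx : Gn x)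
    (h0 : N * ρ (x 0) = N ∨ N * ρ (x 0) = -N) (h1 : N * ρ (x 1) = N ∨ N * ρ (x 1) = -N) {g : H}
    {q : ℕ} (hg : g ^ q = 1) (hq : q.Coprime 2) : N * ρ g = N := by
  have hall : ∀ g : H, N * ρ g = N ∨ N * ρ g = -N := by
    intro g
    have hg : g ∈ closure (Set.range x) := by rw [show closure (Set.range x) = ⊤ from hx]; trivial
    induction hg using Subgroup.closure_induction with
    | mem y hy =>
      obtain ⟨i, rfl⟩ := hy
      exact (Fin.forall_fin_two (p := fun i => N * ρ (x i) = N ∨ N * ρ (x i) = -N)).2 ⟨h0, h1⟩ i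
    | one => exact Or.inl (by rw [map_one, mul_one])
    | mul a b _ _ iha ihb =>
      rw [map_mul, ← mul_assoc]
      rcases iha with e | e <;> rcases ihb with e' | e' <;> simp [e, e']
    | inv a _ iha =>
      have e0 : N * ρ a * ρ a⁻¹ = N := by rw [mul_assoc, ← map_mul, mul_inv_cancel, map_one, mul_one]
      rcases iha with e | e
      · exact Or.inl (by rwa [e] at e0)
      · exact Or.inr (by rwa [e, neg_mul, neg_eq_iff_eq_neg] at e0)
  obtain ⟨m, hm⟩ := exists_pow_eq_self_of_coprime (x := g) (n := 2)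
    (hq.symm.coprime_dvd_right (orderOf_dvd_of_pow_eq_one hg))
  rw [← hm, ← pow_mul, mul_comm, pow_mul, pow_two, map_mul, ← mul_assoc]
  rcases hall (g ^ m) with e | e
  · rw [e, e]
  · rw [e, neg_mul, e, neg_neg]

/-- the norm of `d` on abelian sections below the derived subgroup of `P` is invariant under `P` -/
def NormInv (P : Subgroup H) (d : H) (n : ℕ) : Prop :=
  ∀ (S : Subgroup H) [S.Normal] (X : Type) [AddCommGroup X] (π : H → X) (ρ : H →* Module.End ℤ X),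
    S ≤ ⁅P, P⁆ → Sec S ⁅S, S⁆ π → (∀ g, ∀ x ∈ S, ρ g (π x) = π (g * x * g⁻¹)) →
    ∀ g ∈ P, (∑ i ∈ Finset.range n, ρ d ^ i) * ρ g = ∑ i ∈ Finset.range n, ρ d ^ i

theorem NormInv.fixed_mem {P S : Subgroup H} [hS : S.Normal] {d : H} {n q : ℕ} (h : NormInv P d n)
    (hn : n.Coprime q) (hq : ∀ g ∈ P, g ^ q = 1) (hSP : S ≤ ⁅P, P⁆) {z : H} (hz : z ∈ ⁅S, P⁆)
    (hfix : d * z * d⁻¹ = z) : z ∈ ⁅S, S⁆ := by
  obtain ⟨X, _, π, hπ⟩ := exists_sec S ⁅S, S⁆ le_rfl
  obtain ⟨ρ, hρ⟩ := hπ.exists_rep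
  have hall := h S X π ρ hSP hπ hρ
  set N := ∑ i ∈ Finset.range n, ρ d ^ i with hN
  have hle : ⁅S, P⁆ ≤ S := Subgroup.commutator_le_left _ _
  have h6 : N (π z) = 0 := by
    refine hπ.addOn.closure_mem (s := {g | ∃ g₁ ∈ S, ∃ g₂ ∈ P, ⁅g₁, g₂⁆ = g}) hle
      (U := (LinearMap.ker N).toAddSubgroup) ?_ z hz
    rintro _ ⟨y, hy, g, hg, rfl⟩
    show N _ = 0
    rw [← commutatorElement_inv, hπ.addOn.inv (x := ⁅g, y⁆) (eng_mem g 1 hy), hπ.comm_apply hρ g hy,
      map_neg, ← Module.End.mul_apply, mul_sub, hall g hg, mul_one, sub_self]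
    simp
  have h7 : ∀ i, (ρ d ^ i) (π z) = π z := by
    intro i
    induction i with
    | zero => rfl
    | succ i ih => rw [pow_succ, Module.End.mul_apply, hρ _ _ (hle hz), hfix, ih]
  rw [hN, LinearMap.sum_apply, Finset.sum_congr rfl fun i _ => h7 i, Finset.sum_const,
    Finset.card_range] at h6
  rw [← hπ.ker z (hle hz)]
  refine eq_zero_of_coprime (hπ.smul_eq_zero fun g hg => hq g (comm_self_le P (hSP hg)))
    (Nat.isCoprime_iff_coprime.2 hn) ?_
  rw [natCast_zsmul]; exact h6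

theorem normInv_bound {n : ℕ} (hn : 0 < n) : ∃ k R : ℕ, R ≠ 0 ∧
    ∀ (H : Type) [Group H] [Finite H] (P : Subgroup H) [P.Normal] (q c : ℕ) (d : H),
    (∀ g ∈ P, g ^ q = 1) → Good n R q → P.lowerCentralSeries c = ⊥ → d ^ n = 1 →
    NormInv P d n → ds P k = ⊥ := by
  obtain ⟨k, R, hR, h⟩ := fpf_good hn
  refine ⟨2 + k, R * n, mul_ne_zero hR hn.ne', ?_⟩
  intro H _ _ P _ q c d hq hcop hc hd hni
  have hfix : ∀ z ∈ P.lowerCentralSeries 2, d * z * d⁻¹ = z → z = 1 := by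
    intro z hz e
    have : ∀ i, z ∈ P.lowerCentralSeries (i + 2) := by
      intro i
      induction i with
      | zero => exact hz
      | succ i ih =>
        have := lcs_normal P (i + 1)
        have hle : P.lowerCentralSeries (i + 1) ≤ ⁅P, P⁆ :=
          Subgroup.commutator_mono (P.lowerCentralSeries_le_self i) le_rfl
        exact three_subgroups (P.lowerCentralSeries (i + 1)) P
          (Subgroup.commutator_mono le_rfl hle (hni.fixed_mem
            (hcop.coprime dvd_rfl (dvd_mul_left _ _)).symm hq hle ih e))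
    have h1 := P.lowerCentralSeries_antitone (Nat.le_add_right c 2) (this c)
    rwa [hc, Subgroup.mem_bot] at h1
  have hE := lcs_normal P 2
  have hle : P.lowerCentralSeries 2 ≤ P := P.lowerCentralSeries_le_self 2
  have := nilpotent_of_le hc hle
  obtain ⟨φ, hφ⟩ := exists_restr (MulAut.conj d).toMonoidHom (P.lowerCentralSeries 2)
    fun y hy => hE.conj_mem y hy _
  have h1 := h _ φ q ⟨fun g => Subtype.ext (hq g (hle g.2)), fun g => by
      apply (P.lowerCentralSeries 2).subtype_injective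
      rw [← semiconj_iter hφ, conj_iter, hd, one_mul, inv_one, mul_one]⟩
    (hcop.mono dvd_rfl (dvd_mul_right _ _)) fun g hg =>
      Subtype.ext (hfix g g.2 ((hφ g).trans (congrArg _ hg)))
  have h2 := ds_subtype (P.lowerCentralSeries 2) k
  rw [h1, Subgroup.map_bot] at h2
  rw [ds_add]
  refine le_bot_iff.1 ((ds_mono ?_ k).trans h2.ge)
  exact Subgroup.commutator_mono le_rfl (comm_self_le P)

theorem core_surface {n : ℕ} (hn : 0 < n) {e : ℤ} (he : e = 1 ∨ e = -1) :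
    Core ((FreeGroup.of (0 : Fin 2) * FreeGroup.of 1 * FreeGroup.of 0 ^ e *
      (FreeGroup.of 1)⁻¹) ^ n) (Nat.lcm 2 n) := by
  obtain ⟨k, R, hR, h⟩ := normInv_bound hn
  refine ⟨k, R * 2, mul_ne_zero hR two_ne_zero, ?_⟩
  intro H _ _ P _ q c hq hcop hc ⟨x, hx⟩ hdie
  have hdie' : ∀ u ∈ ⁅P, P⁆, ∀ v ∈ ⁅P, P⁆,
      (u * x 0 * (v * x 1) * (u * x 0) ^ e * (v * x 1)⁻¹) ^ n = 1 := fun u hu v hv => by
    have := hdie _ (hx.mul_left hc (u := ![u, v]) (Fin.forall_fin_two.2 ⟨hu, hv⟩))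
    simp only [map_pow, map_mul, map_zpow, map_inv, FreeGroup.lift_apply_of] at this
    exact this
  obtain ⟨d, hd⟩ : ∃ d, d = x 0 * x 1 * x 0 ^ e * (x 1)⁻¹ := ⟨_, rfl⟩
  have hdn : d ^ n = 1 := by
    simpa [hd] using hdie' 1 (Subgroup.one_mem _) 1 (Subgroup.one_mem _)
  refine h H P q c d hq (hcop.mono (Nat.dvd_lcm_right _ _) (dvd_mul_right _ _)) hc hdn ?_
  intro S hS X _ π ρ hSP hπ hρ g hg
  have hNd := norm_mul ρ hdn
  have key : ∀ (u y : H), u ∈ S → (u * (y * u⁻¹ * y⁻¹) * d) ^ n = 1 →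
      ((∑ i ∈ Finset.range n, ρ d ^ i) * ρ y) (π u) = (∑ i ∈ Finset.range n, ρ d ^ i) (π u) := by
    intro u y hu h1
    have h5 := norm_apply hπ hρ hdn (S.mul_mem hu (hS.conj_mem _ (S.inv_mem hu) y)) h1
    rw [hπ.mul _ hu _ (hS.conj_mem _ (S.inv_mem hu) _), ← hρ _ _ (S.inv_mem hu), hπ.addOn.inv hu,
      map_add, map_neg, map_neg, add_neg_eq_zero] at h5
    exact h5.symm
  have ha : (∑ i ∈ Finset.range n, ρ d ^ i) * ρ (x 0) = ∑ i ∈ Finset.range n, ρ d ^ i := by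
    have h1 : (∑ i ∈ Finset.range n, ρ d ^ i) * ρ (d * (x 0)⁻¹) =
        ∑ i ∈ Finset.range n, ρ d ^ i := by
      refine LinearMap.ext (hπ.ext fun u hu => key u _ hu ?_)
      have h2 := hdie' 1 (Subgroup.one_mem _) ((x 0)⁻¹ * u * (x 0)⁻¹⁻¹)
        (hSP (hS.conj_mem u hu _))
      rw [← h2]
      congr 1
      rw [hd, one_mul]
      group
    rw [map_mul, ← mul_assoc, hNd] at h1
    conv_lhs => rw [← h1, mul_assoc, ← map_mul, inv_mul_cancel, map_one, mul_one]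
  refine sign_all ρ hx (Or.inl ha) ?_ (hq g hg)
    (hcop.coprime (Nat.dvd_lcm_left _ _) (dvd_mul_left _ _))
  rcases he with rfl | rfl
  · refine Or.inr (LinearMap.ext (hπ.ext fun u hu => ?_))
    have hv := hS.conj_mem u hu (x 0 * x 1)
    have h5 := norm_apply hπ hρ hdn (S.mul_mem hu hv) (by
      rw [← hdie' u (hSP hu) 1 (Subgroup.one_mem _)]
      congr 1
      rw [hd]
      group)
    rw [hπ.mul _ hu _ hv, ← hρ _ _ hu, map_add, ← Module.End.mul_apply, map_mul, ← mul_assoc, ha,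
      add_comm, add_eq_zero_iff_eq_neg] at h5
    exact h5
  · have h1 : (∑ i ∈ Finset.range n, ρ d ^ i) * ρ (d * x 1) = ∑ i ∈ Finset.range n, ρ d ^ i := by
      refine LinearMap.ext (hπ.ext fun u hu => key u _ hu ?_)
      rw [← hdie' u (hSP hu) 1 (Subgroup.one_mem _)]
      congr 1
      rw [hd]
      group
    rw [map_mul, ← mul_assoc, hNd] at h1
    exact Or.inl h1

theorem Core.of_die {w w' : FreeGroup (Fin 2)} {N : ℕ} (h : Core w' N)
    (hw : ∀ (H : Type) [Group H], (∀ x : Fin 2 → H, Gn x → FreeGroup.lift x w = 1) →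
      ∀ x : Fin 2 → H, Gn x → FreeGroup.lift x w' = 1) : Core w N := by
  obtain ⟨k, R, hR, h⟩ := h
  exact ⟨k, R, hR, fun H _ _ P _ q c hq hcop hc hx hdie => h H P q c hq hcop hc hx (hw H hdie)⟩

theorem core_of_commute {w : FreeGroup (Fin 2)} {k l : ℤ} (hk : k ≠ 0) (hl : l ≠ 0)
    (hw : ∀ (H : Type) [Group H], (∀ x : Fin 2 → H, Gn x → FreeGroup.lift x w = 1) →
      ∀ x : Fin 2 → H, Gn x → Commute (x 0 ^ k) (x 1 ^ l)) : ∃ N, 0 < N ∧ Core w N := by
  refine ⟨_, Nat.mul_pos (Int.natAbs_pos.2 hk) (Int.natAbs_pos.2 hl),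
    (core_powers (Int.natAbs_pos.2 hk) (Int.natAbs_pos.2 hl)).of_die fun H _ hdie x hx => ?_⟩
  rw [map_commutatorElement, map_pow, map_pow, FreeGroup.lift_apply_of, FreeGroup.lift_apply_of,
    commutatorElement_eq_one_iff_commute, ← zpow_natCast, ← zpow_natCast, ← Int.sign_mul_self_eq_natAbs,
    ← Int.sign_mul_self_eq_natAbs, mul_comm k.sign, mul_comm l.sign, zpow_mul, zpow_mul]
  exact (hw H hdie x hx).zpow_zpow _ _

theorem Gn.inv_pair {x : Fin 2 → H} (hx : Gn x) : Gn ![(x 0)⁻¹, x 1] ∧ Gn ![x 0, (x 1)⁻¹] ∧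
    Gn ![(x 0)⁻¹, (x 1)⁻¹] :=
  ⟨hx.of_mem (Fin.forall_fin_two.2 ⟨(Subgroup.inv_mem_iff _).1 (Subgroup.subset_closure ⟨0, rfl⟩),
      Subgroup.subset_closure ⟨1, rfl⟩⟩),
    hx.of_mem (Fin.forall_fin_two.2 ⟨Subgroup.subset_closure ⟨0, rfl⟩,
      (Subgroup.inv_mem_iff _).1 (Subgroup.subset_closure ⟨1, rfl⟩)⟩),
    hx.of_mem (Fin.forall_fin_two.2 ⟨(Subgroup.inv_mem_iff _).1 (Subgroup.subset_closure ⟨0, rfl⟩),
      (Subgroup.inv_mem_iff _).1 (Subgroup.subset_closure ⟨1, rfl⟩)⟩)⟩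

theorem core_four {k l m n : ℤ} (hw : FreeGroup.of (0 : Fin 2) ^ k * FreeGroup.of 1 ^ l *
    FreeGroup.of 0 ^ m * FreeGroup.of 1 ^ n ≠ 1) :
    ∃ N, 0 < N ∧ Core (FreeGroup.of (0 : Fin 2) ^ k * FreeGroup.of 1 ^ l * FreeGroup.of 0 ^ m *
      FreeGroup.of 1 ^ n) N := by
  have ev : ∀ (H : Type) [Group H] (x : Fin 2 → H), FreeGroup.lift x (FreeGroup.of (0 : Fin 2) ^ k *
      FreeGroup.of 1 ^ l * FreeGroup.of 0 ^ m * FreeGroup.of 1 ^ n) =
      x 0 ^ k * x 1 ^ l * x 0 ^ m * x 1 ^ n := fun H _ x => by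
    simp only [map_mul, map_zpow, FreeGroup.lift_apply_of]
  have two : ∀ s t : ℤ, ¬ (s = 0 ∧ t = 0) → (∀ (H : Type) [Group H] (a b : H),
      a ^ k * b ^ l * a ^ m * b ^ n = 1 → a ^ s * b ^ t = 1) →
      ∃ N, 0 < N ∧ Core (FreeGroup.of (0 : Fin 2) ^ k * FreeGroup.of 1 ^ l * FreeGroup.of 0 ^ m *
        FreeGroup.of 1 ^ n) N := by
    intro s t hst h
    by_cases hs : s = 0
    · refine core_of_commute one_ne_zero (fun ht => hst ⟨hs, ht⟩) fun H _ hdie x hx => ?_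
      have := h H _ _ ((ev H x).symm.trans (hdie x hx))
      rw [hs, zpow_zero, one_mul] at this
      rw [this]; exact Commute.one_right _
    · refine core_of_commute hs one_ne_zero fun H _ hdie x hx => ?_
      rw [eq_inv_of_mul_eq_one_left (h H _ _ ((ev H x).symm.trans (hdie x hx)))]
      exact ((Commute.refl (x 1)).zpow_zpow _ _).inv_left
  by_cases hk : k = 0
  · refine two m (n + l) (fun ⟨h1, h2⟩ => hw ?_) fun H _ a b e => ?_
    · rw [hk, h1, eq_neg_of_add_eq_zero_left h2]; group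
    · rw [hk] at e
      calc a ^ m * b ^ (n + l) = (b ^ l)⁻¹ * (a ^ (0 : ℤ) * b ^ l * a ^ m * b ^ n) * b ^ l := by group
        _ = 1 := by rw [e]; group
  by_cases hl : l = 0
  · refine two (k + m) n (fun ⟨h1, h2⟩ => hw ?_) fun H _ a b e => ?_
    · rw [hl, h2, eq_neg_of_add_eq_zero_left h1]; group
    · rw [← e, hl]; group
  refine core_of_commute (mul_ne_zero two_ne_zero hk) (mul_ne_zero two_ne_zero hl)
    fun H _ hdie x hx => ?_
  obtain ⟨h1, h2, h3⟩ := hx.inv_pair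
  have e0 := (ev H _).symm.trans (hdie _ hx)
  have e1 : (x 0)⁻¹ ^ k * x 1 ^ l * (x 0)⁻¹ ^ m * x 1 ^ n = 1 := (ev H _).symm.trans (hdie _ h1)
  have e2 : x 0 ^ k * (x 1)⁻¹ ^ l * x 0 ^ m * (x 1)⁻¹ ^ n = 1 := (ev H _).symm.trans (hdie _ h2)
  have e3 : (x 0)⁻¹ ^ k * (x 1)⁻¹ ^ l * (x 0)⁻¹ ^ m * (x 1)⁻¹ ^ n = 1 :=
    (ev H _).symm.trans (hdie _ h3)
  simp only [inv_zpow] at e1 e2 e3
  rw [mul_comm 2 k, mul_comm 2 l, zpow_mul, zpow_mul, zpow_two, zpow_two]
  generalize x 0 ^ k = A at *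
  generalize x 1 ^ l = B at *
  generalize x 0 ^ m = C at *
  generalize x 1 ^ n = D at *
  have f1 : B⁻¹ * (A * A) * B = C⁻¹ * C⁻¹ := by
    calc B⁻¹ * (A * A) * B = B⁻¹ * A * (A * B * C * D) * (A⁻¹ * B * C⁻¹ * D)⁻¹ * (A⁻¹ * B) *
          (C⁻¹ * C⁻¹) := by group
      _ = _ := by rw [e0, e1]; group
  have f2 : B * (A * A) * B⁻¹ = C⁻¹ * C⁻¹ := by
    calc B * (A * A) * B⁻¹ = B * A * (A * B⁻¹ * C * D⁻¹) * (A⁻¹ * B⁻¹ * C⁻¹ * D⁻¹)⁻¹ *
          (A⁻¹ * B⁻¹) * (C⁻¹ * C⁻¹) := by group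
      _ = _ := by rw [e2, e3]; group
  calc A * A * (B * B) = B * (B⁻¹ * (A * A) * B) * B := by group
    _ = B * B * (A * A) := by rw [f1, ← f2]; group

theorem kills_pgroup {G : Type} [Group G] [Finite G] {p : ℕ} (hp : p.Prime) {V : Subgroup FN}
    (hV : ∀ P : Sylow p G, Kills V P) (θ : G →* H) (hθ : Function.Surjective θ) {K : Type}
    [Group K] (hK : IsPGroup p K) (ι : K →* H) (hι : Function.Injective ι) : Kills V K := by
  have := Fact.mk hp
  have h1 : IsPGroup p ι.range := hK.of_surjective ι.rangeRestrict ι.rangeRestrict_surjective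
  obtain ⟨Q, hQ⟩ := h1.exists_le_sylow
  obtain ⟨P, rfl⟩ := Sylow.mapSurjective_surjective hθ p Q
  refine Kills.of_injective ((hV P).of_surjective (θ.subgroupMap P) (θ.subgroupMap_surjective P))
    (ι.codRestrict _ fun x => hQ ⟨x, rfl⟩) fun x y e => hι (congrArg Subtype.val e)

/-- families of solvable groups -/
theorem survive_of_core {M : ℕ} (w : FreeGroup (Fin 2)) (hw : w ≠ 1) (hcore : Core w M) :
    ∃ R : ℕ, ∀ (G : ℕ → Type) [∀ i, Group (G i)] [∀ i, Finite (G i)] [∀ i, Group.IsSolvable (G i)],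
      (∀ i, ∃ a b : G i, Subgroup.closure ({a, b} : Set (G i)) = ⊤) →
      (∀ v : FreeGroup ℕ, v ≠ 1 → ∃ i, ∃ f : ℕ → G i, FreeGroup.lift f v ≠ 1) →
      (∀ p : ℕ, p.Prime → p ≤ R → ¬ M ∣ p - 1 → ∃ v : FreeGroup ℕ, v ≠ 1 ∧
        ∀ i, ∀ P : Sylow p (G i), ∀ f : ℕ → P, FreeGroup.lift f v = 1) →
      ∃ i, ∃ φ : FreeGroup (Fin 2) →* G i, Function.Surjective φ ∧ φ w ≠ 1 := by
  obtain ⟨k, R, hR, hk⟩ := hcore
  refine ⟨R, fun G _ _ _ hgen hlaw hsyl => ?_⟩
  by_contra hc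
  push Not at hc
  obtain ⟨h, hh⟩ := FitW.height_bound w hw
  obtain ⟨V, hV, hVk⟩ := exists_big_small' G (fun p => p ≤ R ∧ ¬ M ∣ p - 1)
    (fun p hp h => hsyl p hp h.1 h.2) R
  have hU : Big ⁅V, derivedSeries FN k⁆ := hV.comm (big_derived k)
  let W : ℕ → Subgroup FN := fun j => Nat.rec ⊤ (fun _ W => comp ⁅V, derivedSeries FN k⁆ W) j
  have hW : ∀ j, Big (W j) := fun j => by
    induction j with
    | zero => exact big_top
    | succ j ih => exact hU.comp ih
  obtain ⟨u, hu, hu1⟩ := (hW h).exists_ne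
  obtain ⟨i, f, hf⟩ := hlaw u hu1
  obtain ⟨N, hN0, hNh, hNn, hN⟩ := hh (G i) (hgen i) (hc i)
  obtain ⟨x, hx⟩ := gn_of_pair (hgen i)
  have key : ∀ j, W j ≤ (N j).comap (FreeGroup.lift f) := by
    intro j
    induction j with
    | zero => rw [hN0]; exact le_top
    | succ j ih =>
      have := hNn j
      have := hNn (j + 1)
      set θ := QuotientGroup.mk' (N (j + 1)) with hθ
      have hsurj : Function.Surjective θ := QuotientGroup.mk'_surjective _
      have hQ : ((N j).map θ).Normal := (hNn j).map θ hsurj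
      obtain ⟨c, hc'⟩ := (hN j).2
      have hnil : Group.IsNilpotent ((N j).map θ) :=
        Subgroup.isNilpotent_of_lowerCentralSeries_eq_bot (n := c) (by
          rw [← Subgroup.map_lowerCentralSeries, Subgroup.map_eq_bot_iff, QuotientGroup.ker_mk']
          exact hc')
      have hkill : Kills ⁅V, derivedSeries FN k⁆ ((N j).map θ) := by
        refine kills_of_sylow fun p hp P => ?_
        have := Fact.mk hp
        have hinj : Function.Injective (((N j).map θ).subtype.comp (P : Subgroup _).subtype) :=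
          Subtype.val_injective.comp Subtype.val_injective
        by_cases hle : ¬ M ∣ p - 1 ∧ p ≤ R
        · exact (kills_pgroup hp (hVk p hp hle.symm hle.2 i) θ hsurj P.isPGroup' _ hinj).comm_left _
        · refine (kills_derived ?_).comm_right _
          have := P.characteristic_of_normal
            (P.normal_of_normalizerCondition Group.normalizerCondition_of_isNilpotent)
          have hP := P.isPGroup'.map ((N j).map θ).subtype
          obtain ⟨c', hc''⟩ := (Subgroup.isNilpotent_iff_lowerCentralSeries _).1 hP.isNilpotent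
          have h1 := hk _ ((P : Subgroup ((N j).map θ)).map ((N j).map θ).subtype) _ c'
            (fun g hg => congrArg Subtype.val (pow_card_eq_one' (x := (⟨g, hg⟩ :
              (P : Subgroup ((N j).map θ)).map ((N j).map θ).subtype))))
            (by
              by_cases hM : M ∣ p - 1
              · obtain ⟨a, ha⟩ := hP.exists_card_eq
                exact Or.inr ⟨p, a, hp, hM, ha⟩
              · exact Or.inl (coprime_card_of_lt hp hP hR (not_le.1 fun h => hle ⟨hM, h⟩)))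
            hc'' ⟨_, hx.map θ hsurj⟩
            (die_of_surj ⟨x, hx⟩ (fun y hy => hc i _ hy.surj) θ hsurj)
          rw [← ds_top, ← Subgroup.map_eq_bot_iff_of_injective _ hinj, map_ds,
            ← MonoidHom.range_eq_map, MonoidHom.range_comp, Subgroup.range_subtype, h1]
      refine (closure_le _).2 ?_
      rintro _ ⟨v, hv, g, hg, rfl⟩
      have h2 := congrArg ((N j).map θ).subtype (hkill (fun l => ⟨θ (FreeGroup.lift f (g l)),
        Subgroup.mem_map_of_mem θ (ih (hg l))⟩) v hv)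
      rw [map_lift, map_one] at h2
      show FreeGroup.lift f _ ∈ N (j + 1)
      rw [← QuotientGroup.ker_mk' (N (j + 1)), MonoidHom.mem_ker,
        map_lift (FreeGroup.lift f) g, map_lift]
      exact h2
  have := key h hu
  rw [hNh] at this
  exact hf this

theorem surface_ne_one {e : ℤ} (he : e = 1 ∨ e = -1) :
    FreeGroup.of (0 : Fin 2) * FreeGroup.of 1 * FreeGroup.of 0 ^ e * (FreeGroup.of 1)⁻¹ ≠ 1 := by
  intro h
  have := congrArg (FreeGroup.lift ![Equiv.swap (0 : Fin 3) 1, Equiv.swap 1 2]) h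
  simp only [map_mul, map_zpow, map_inv, FreeGroup.lift_apply_of, map_one] at this
  revert this
  rcases he with rfl | rfl
  · rw [zpow_one]; decide
  · rw [zpow_neg_one]; decide

end Pool.Agent.LawP
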