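import Pool.Agent.P.MP_ec89a0_al.LP1

/-! Fox derivatives, the Magnus criterion and the one variable polynomial of a word. -/

namespace Pool.Agent.LawP

open Subgroup Polynomial
open scoped commutatorElement

/-- letters -/
abbrev Let : Type := Fin 2 × Bool

/-- the free group of rank two -/
abbrev F2 : Type := FreeGroup (Fin 2)

theorem mk_true (j : Fin 2) (L : List Let) :
    FreeGroup.mk ((j, true) :: L) = FreeGroup.of j * FreeGroup.mk L := by
  rw [FreeGroup.of, FreeGroup.mul_mk]; rfl

theorem mk_false (j : Fin 2) (L : List Let) :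
    FreeGroup.mk ((j, false) :: L) = (FreeGroup.of j)⁻¹ * FreeGroup.mk L := by
  rw [FreeGroup.of, FreeGroup.inv_mk, FreeGroup.mul_mk]; rfl

section Fox

variable {G : Type} [Group G] {R : Type} [Ring R]

/-- value of a list of letters -/
def evl (x : Fin 2 → G) (L : List Let) : G := FreeGroup.lift x (FreeGroup.mk L)

theorem evl_nil (x : Fin 2 → G) : evl x [] = 1 := by
  unfold evl; rw [← FreeGroup.one_eq_mk, map_one]

theorem evl_true (x : Fin 2 → G) (j : Fin 2) (L : List Let) :
    evl x ((j, true) :: L) = x j * evl x L := by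
  unfold evl; rw [mk_true, map_mul, FreeGroup.lift_apply_of]

theorem evl_false (x : Fin 2 → G) (j : Fin 2) (L : List Let) :
    evl x ((j, false) :: L) = (x j)⁻¹ * evl x L := by
  unfold evl; rw [mk_false, map_mul, map_inv, FreeGroup.lift_apply_of]

/-- Fox derivative in the variable `i`, evaluated in the ring `R` -/
def fx (ρ : G →* R) (x : Fin 2 → G) (i : Fin 2) : List Let → R
  | [] => 0
  | (j, true) :: L => (if j = i then 1 else 0) + ρ (x j) * fx ρ x i L
  | (j, false) :: L => ρ (x j)⁻¹ * (fx ρ x i L - if j = i then 1 else 0)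

theorem chain_rule {S T : Subgroup G} [hS : S.Normal] {X : Type} [AddCommGroup X] {π : G → X}
    (h : Sec S T π) {ρ : G →* Module.End ℤ X}
    (hρ : ∀ g, ∀ x ∈ S, ρ g (π x) = π (g * x * g⁻¹)) (x u : Fin 2 → G) (hu : ∀ j, u j ∈ S)
    (L : List Let) :
    evl (fun j => u j * x j) L * (evl x L)⁻¹ ∈ S ∧
      π (evl (fun j => u j * x j) L * (evl x L)⁻¹) = ∑ i, fx ρ x i L (π (u i)) := by
  induction L with
  | nil => simp [evl_nil, fx, h.addOn.one]
  | cons z L ih =>
    obtain ⟨j, b⟩ := z
    obtain ⟨ih1, ih2⟩ := ih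
    set y := evl (fun j => u j * x j) L * (evl x L)⁻¹ with hy
    have hsum : ∑ i, (if j = i then (1 : Module.End ℤ X) else 0) (π (u i)) = π (u j) := by
      rw [Finset.sum_eq_single j]
      · simp
      · intro i _ hi; rw [if_neg (Ne.symm hi)]; rfl
      · simp
    cases b
    · have e : evl (fun j => u j * x j) ((j, false) :: L) * (evl x ((j, false) :: L))⁻¹ =
          (x j)⁻¹ * ((u j)⁻¹ * y) * (x j)⁻¹⁻¹ := by
        rw [evl_false, evl_false, hy]; group
      have hm : (u j)⁻¹ * y ∈ S := S.mul_mem (S.inv_mem (hu j)) ih1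
      rw [e]
      refine ⟨hS.conj_mem _ hm _, ?_⟩
      rw [← hρ _ _ hm, h.mul _ (S.inv_mem (hu j)) _ ih1, h.addOn.inv (hu j), ih2]
      simp only [fx, Module.End.mul_apply, LinearMap.sub_apply]
      rw [← map_sum, Finset.sum_sub_distrib, hsum]
      congr 1
      abel
    · have e : evl (fun j => u j * x j) ((j, true) :: L) * (evl x ((j, true) :: L))⁻¹ =
          u j * (x j * y * (x j)⁻¹) := by
        rw [evl_true, evl_true, hy]; group
      have hm : x j * y * (x j)⁻¹ ∈ S := hS.conj_mem _ ih1 _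
      rw [e]
      refine ⟨S.mul_mem (hu j) hm, ?_⟩
      rw [h.mul _ (hu j) _ hm, ← hρ _ _ ih1, ih2]
      simp only [fx, Module.End.mul_apply, LinearMap.add_apply]
      rw [Finset.sum_add_distrib, hsum, map_sum]

theorem poly_evl (ρ : G →* R) (m : ℕ) (x : ℕ → Fin 2 → G)
    (h1 : ∀ j, Poly m fun s => ρ (x s j)) (h2 : ∀ j, Poly m fun s => ρ (x s j)⁻¹)
    (L : List Let) : Poly (m * L.length + 1) fun s => ρ (evl (x s) L) := by
  induction L with
  | nil => simpa [evl_nil] using poly_const (1 : R)
  | cons z L ih =>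
    obtain ⟨j, b⟩ := z
    cases b
    · simp only [evl_false, map_mul]
      exact ((h2 j).mul ih).mono (by rw [List.length_cons]; nlinarith)
    · simp only [evl_true, map_mul]
      exact ((h1 j).mul ih).mono (by rw [List.length_cons]; nlinarith)

theorem poly_fx (ρ : G →* R) (m : ℕ) (x : ℕ → Fin 2 → G)
    (h1 : ∀ j, Poly m fun s => ρ (x s j)) (h2 : ∀ j, Poly m fun s => ρ (x s j)⁻¹) (i : Fin 2)
    (L : List Let) : Poly (m * L.length + 1) fun s => fx ρ (x s) i L := by
  induction L with
  | nil => exact poly_zero _ fun _ => rfl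
  | cons z L ih =>
    obtain ⟨j, b⟩ := z
    cases b
    · simp only [fx, sub_eq_add_neg]
      exact ((h2 j).mul (ih.add ((poly_const _).mono (by omega)))).mono
        (by rw [List.length_cons]; nlinarith)
    · simp only [fx]
      exact ((poly_const _).mono (by omega)).add
        (((h1 j).mul ih).mono (by rw [List.length_cons]; nlinarith))

end Fox

section Magnus

/-- lattice points -/
abbrev Z2 : Type := Fin 2 → ℤ

/-- unit vectors -/
def uv (j : Fin 2) : Z2 := Pi.single j 1

/-- endpoint of the path of a list of letters -/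
def ab : List Let → Z2
  | [] => 0
  | (j, true) :: L => uv j + ab L
  | (j, false) :: L => -uv j + ab L

/-- the edges of direction `i` used by the path that starts at `q` -/
noncomputable def ch (i : Fin 2) : Z2 → List Let → (Z2 →₀ ℤ)
  | _, [] => 0
  | q, (j, true) :: L => (if j = i then Finsupp.single q 1 else 0) + ch i (q + uv j) L
  | q, (j, false) :: L => ch i (q - uv j) L - if j = i then Finsupp.single (q - uv j) 1 else 0

/-- transversal -/
def tr (q : Z2) : F2 := FreeGroup.of 0 ^ q 0 * FreeGroup.of 1 ^ q 1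

theorem of_tr_add (q q' : Z2) :
    Abelianization.of (tr (q + q')) = Abelianization.of (tr q) * Abelianization.of (tr q') := by
  simp only [tr, map_mul, map_zpow, Pi.add_apply, zpow_add]
  exact mul_mul_mul_comm _ _ _ _

theorem tr_zero : tr 0 = 1 := by simp [tr]

theorem tr_uv (j : Fin 2) : tr (uv j) = FreeGroup.of j := by
  fin_cases j <;> simp [tr, uv]

theorem of_tr_neg (q : Z2) : Abelianization.of (tr (-q)) = (Abelianization.of (tr q))⁻¹ := by
  rw [eq_inv_iff_mul_eq_one, ← of_tr_add, neg_add_cancel, tr_zero, map_one]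

theorem of_mk (L : List Let) :
    Abelianization.of (FreeGroup.mk L) = Abelianization.of (tr (ab L)) := by
  induction L with
  | nil => rw [← FreeGroup.one_eq_mk, ab, tr_zero]
  | cons z L ih =>
    obtain ⟨j, b⟩ := z
    cases b
    · rw [mk_false, ab, of_tr_add, of_tr_neg, tr_uv, map_mul, map_inv, ih]
    · rw [mk_true, ab, of_tr_add, tr_uv, map_mul, ih]

theorem path_mem (q : Z2) (L : List Let) :
    tr q * FreeGroup.mk L * (tr (q + ab L))⁻¹ ∈ commutator F2 := by
  rw [← Abelianization.ker_of, MonoidHom.mem_ker, map_mul, map_mul, map_inv, of_mk, of_tr_add,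
    mul_inv_cancel]

theorem edge_mem (q : Z2) (j : Fin 2) :
    tr q * FreeGroup.of j * (tr (q + uv j))⁻¹ ∈ commutator F2 := by
  rw [← Abelianization.ker_of, MonoidHom.mem_ker, map_mul, map_mul, map_inv, of_tr_add, tr_uv,
    mul_inv_cancel]

theorem sum_ite_single {X : Type} [AddCommGroup X] (θ : Fin 2 → Z2 → X) (j : Fin 2) (q : Z2) :
    ∑ i, Finsupp.linearCombination ℤ (θ i) (if j = i then Finsupp.single q 1 else 0) = θ j q := by
  rw [Finset.sum_eq_single j]
  · simp
  · intro i _ hi; rw [if_neg (Ne.symm hi), map_zero]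
  · simp

theorem magnus_path {X : Type} [AddCommGroup X] {π : F2 → X} (h : AddOn (commutator F2) π)
    (L : List Let) : ∀ q : Z2, π (tr q * FreeGroup.mk L * (tr (q + ab L))⁻¹) =
      ∑ i, Finsupp.linearCombination ℤ
        (fun q' => π (tr q' * FreeGroup.of i * (tr (q' + uv i))⁻¹)) (ch i q L) := by
  induction L with
  | nil => intro q; simp [ch, ab, ← FreeGroup.one_eq_mk, h.one]
  | cons z L ih =>
    intro q
    obtain ⟨j, b⟩ := z
    cases b
    · have e : tr q * FreeGroup.mk ((j, false) :: L) * (tr (q + ab ((j, false) :: L)))⁻¹ =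
          (tr (q - uv j) * FreeGroup.of j * (tr (q - uv j + uv j))⁻¹)⁻¹ *
            (tr (q - uv j) * FreeGroup.mk L * (tr (q - uv j + ab L))⁻¹) := by
        rw [mk_false, ab, sub_add_cancel, ← add_assoc, ← sub_eq_add_neg]; group
      rw [e, h _ (inv_mem (edge_mem _ _)) _ (path_mem _ _), h.inv (edge_mem _ _), ih]
      simp only [ch, map_sub]
      rw [Finset.sum_sub_distrib,
        sum_ite_single (fun i q' => π (tr q' * FreeGroup.of i * (tr (q' + uv i))⁻¹))]
      abel
    · have e : tr q * FreeGroup.mk ((j, true) :: L) * (tr (q + ab ((j, true) :: L)))⁻¹ =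
          (tr q * FreeGroup.of j * (tr (q + uv j))⁻¹) *
            (tr (q + uv j) * FreeGroup.mk L * (tr (q + uv j + ab L))⁻¹) := by
        rw [mk_true, ab, ← add_assoc]; group
      rw [e, h _ (edge_mem _ _) _ (path_mem _ _), ih]
      simp only [ch, map_add]
      rw [Finset.sum_add_distrib,
        sum_ite_single (fun i q' => π (tr q' * FreeGroup.of i * (tr (q' + uv i))⁻¹))]

theorem ch_aug (i : Fin 2) (L : List Let) :
    ∀ q, Finsupp.linearCombination ℤ (fun _ => (1 : ℤ)) (ch i q L) = ab L i := by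
  induction L with
  | nil => intro q; simp [ch, ab]
  | cons z L ih =>
    intro q
    obtain ⟨j, b⟩ := z
    cases b
    · simp only [ch, ab, map_sub, ih, Pi.add_apply, Pi.neg_apply, uv, Pi.single_apply]
      by_cases hji : j = i
      · subst hji; simp; ring
      · rw [if_neg hji, if_neg (Ne.symm hji)]; simp
    · simp only [ch, ab, map_add, ih, Pi.add_apply, uv, Pi.single_apply]
      by_cases hji : j = i
      · subst hji; simp
      · rw [if_neg hji, if_neg (Ne.symm hji)]; simp

theorem magnus (L : List Let) (h : ∀ i, ch i 0 L = 0) : FreeGroup.mk L ∈ derivedSeries F2 2 := by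
  obtain ⟨X, _, π, hπ⟩ := exists_sec (commutator F2) ⁅commutator F2, commutator F2⁆ le_rfl
  have h0 : ab L = 0 := by
    funext i
    rw [← ch_aug i L 0, h i, map_zero]; rfl
  have h1 := magnus_path hπ.addOn L 0
  have h2 := path_mem 0 L
  simp only [h, map_zero, Finset.sum_const_zero] at h1
  rw [h0, add_zero, tr_zero, one_mul, inv_one, mul_one] at h1 h2
  exact (hπ.ker _ h2).1 h1

/-- the linear form of the substitution `y = x ^ j` -/
def lam (j : ℕ) (q : Z2) : ℤ := q 0 + j * q 1

theorem fx_cyclic {G : Type} [Group G] {R : Type} [Ring R] (ρ : G →* R) (a : G) (j : ℕ)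
    (i : Fin 2) (L : List Let) : ∀ q : Z2, ρ (a ^ lam j q) * fx ρ ![a, a ^ j] i L =
      Finsupp.linearCombination ℤ (fun q' => ρ (a ^ lam j q')) (ch i q L) := by
  have hx : ∀ (k : Fin 2) (q : Z2), a ^ lam j q * ![a, a ^ j] k = a ^ lam j (q + uv k) := by
    intro k q
    fin_cases k
    · simp [lam, uv, ← zpow_add_one]; congr 1; ring
    · simp only [lam, uv, Fin.mk_one, Matrix.cons_val_one, Matrix.cons_val_fin_one]
      rw [← zpow_natCast, ← zpow_add]
      congr 1
      simp
      ring
  induction L with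
  | nil => intro q; simp [fx, ch]
  | cons z L ih =>
    intro q
    obtain ⟨k, b⟩ := z
    cases b
    · have e : a ^ lam j q * (![a, a ^ j] k)⁻¹ = a ^ lam j (q - uv k) := by
        rw [mul_inv_eq_iff_eq_mul, hx, sub_add_cancel]
      simp only [fx, ch, map_sub]
      rw [← mul_assoc, ← map_mul, e, mul_sub, ih]
      congr 1
      split_ifs <;> simp
    · simp only [fx, ch, map_add]
      rw [mul_add, ← mul_assoc, ← map_mul, hx, ih]
      congr 1
      split_ifs <;> simp

theorem exists_lam (c : Z2 →₀ ℤ) : ∃ j : ℕ, Set.InjOn (lam j) c.support := by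
  obtain ⟨B, hB⟩ := (c.support.finite_toSet.image fun q => (q 0).natAbs).bddAbove
  refine ⟨2 * B + 1, fun q hq q' hq' e => ?_⟩
  have h1 : (q 0).natAbs ≤ B := hB ⟨q, hq, rfl⟩
  have h2 : (q' 0).natAbs ≤ B := hB ⟨q', hq', rfl⟩
  unfold lam at e
  push_cast at e
  have h3 : q 1 = q' 1 := by
    rcases lt_trichotomy (q 1) (q' 1) with h | h | h
    · have : (2 * (B : ℤ) + 1) * (q' 1 - q 1) ≥ 2 * B + 1 := by nlinarith
      rw [mul_sub] at this
      omega
    · exact h
    · have : (2 * (B : ℤ) + 1) * (q 1 - q' 1) ≥ 2 * B + 1 := by nlinarith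
      rw [mul_sub] at this
      omega
  funext k
  fin_cases k
  · rw [h3] at e; simpa using e
  · exact h3

/-- the one variable polynomial of a word outside the second derived subgroup -/
theorem exists_poly (L : List Let) (hL : FreeGroup.mk L ∉ derivedSeries F2 2) :
    ∃ (i : Fin 2) (j : ℕ) (f : ℤ[X]), f ≠ 0 ∧ ∀ (G : Type) [Group G] (R : Type) [Ring R]
      (ρ : G →* R) (a : G), fx ρ ![a, a ^ j] i L = 0 → aeval (ρ a) f = 0 := by
  classical
  have : ∃ i, ch i 0 L ≠ 0 := by
    by_contra hc
    push Not at hc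
    exact hL (magnus L hc)
  obtain ⟨i, hi⟩ := this
  set c := ch i 0 L with hc
  obtain ⟨j, hj⟩ := exists_lam c
  obtain ⟨N, hN⟩ := (c.support.finite_toSet.image fun q => (lam j q).natAbs).bddAbove
  have hpos : ∀ q ∈ c.support, 0 ≤ lam j q + N := fun q hq => by
    have : (lam j q).natAbs ≤ N := hN ⟨q, hq, rfl⟩
    omega
  refine ⟨i, j, ∑ q ∈ c.support, monomial (lam j q + N).toNat (c q), ?_, ?_⟩
  · obtain ⟨q₀, hq₀⟩ := Finsupp.support_nonempty_iff.2 hi
    intro e
    have := congrArg (fun f : ℤ[X] => f.coeff (lam j q₀ + N).toNat) e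
    simp only [finsetSum_coeff, coeff_monomial, coeff_zero] at this
    rw [Finset.sum_eq_single q₀] at this
    · rw [if_pos rfl] at this
      exact Finsupp.mem_support_iff.1 hq₀ this
    · intro q hq hne
      rw [if_neg]
      intro e'
      have h1 := hpos q hq
      have h2 := hpos q₀ hq₀
      exact hne (hj hq hq₀ (by omega))
    · intro h; exact absurd hq₀ h
  · intro G _ R _ ρ a h0
    have h1 := fx_cyclic ρ a j i L 0
    rw [h0, mul_zero, ← hc, Finsupp.linearCombination_apply, Finsupp.sum] at h1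
    have h2 := congrArg (fun r => r * ρ (a ^ N)) h1
    simp only [zero_mul, Finset.sum_mul] at h2
    rw [map_sum, h2]
    refine Finset.sum_congr rfl fun q hq => ?_
    rw [aeval_monomial, smul_mul_assoc, ← map_mul, ← map_pow, ← zpow_natCast a N, ← zpow_add,
      ← zpow_natCast, Int.toNat_of_nonneg (hpos q hq), zsmul_eq_mul]
    simp

end Magnus

end Pool.Agent.LawP
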