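import Pool.Agent.P.MP_ec89a0_al.LP1

/-! Group theoretic lemmas: iterated commutators, three subgroups, non-generators. -/

namespace Pool.Agent.LawP

open Subgroup Polynomial
open scoped commutatorElement

variable {G : Type} [Group G]

/-- iterated commutator subgroup `[S, J, ..., J]` -/
def it (S J : Subgroup G) : ℕ → Subgroup G
  | 0 => S
  | k + 1 => ⁅it S J k, J⁆

theorem it_normal (S J : Subgroup G) [hS : S.Normal] [J.Normal] (k : ℕ) : (it S J k).Normal := by
  induction k with
  | zero => exact hS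
  | succ k ih => exact Subgroup.commutator_normal _ _

theorem it_le (S J : Subgroup G) [hS : S.Normal] (k : ℕ) : it S J k ≤ S := by
  induction k with
  | zero => exact le_rfl
  | succ k ih => exact (Subgroup.commutator_mono ih le_rfl).trans (Subgroup.commutator_le_left _ _)

theorem it_le_lcs {S J P : Subgroup G} (hS : S ≤ P) (hJ : J ≤ P) (k : ℕ) :
    it S J k ≤ P.lowerCentralSeries k := by
  induction k with
  | zero => exact hS
  | succ k ih => exact Subgroup.commutator_mono ih hJ

theorem lcs_add_le_it {S J : Subgroup G} {c : ℕ} (h : J.lowerCentralSeries c ≤ S) (k : ℕ) :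
    J.lowerCentralSeries (c + k) ≤ it S J k := by
  induction k with
  | zero => exact h
  | succ k ih => exact Subgroup.commutator_mono ih le_rfl

theorem lcs_normal (P : Subgroup G) [hP : P.Normal] (k : ℕ) : (P.lowerCentralSeries k).Normal := by
  induction k with
  | zero => exact hP
  | succ k ih => exact Subgroup.commutator_normal _ _

theorem exists_lcs_top (G : Type) [Group G] [h : Group.IsNilpotent G] :
    ∃ c, (⊤ : Subgroup G).lowerCentralSeries c = ⊥ :=
  Subgroup.nilpotent_iff_lowerCentralSeries.1 h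

theorem eq_bot_of_le_comm {N P : Subgroup G} {c : ℕ} (hc : P.lowerCentralSeries c = ⊥)
    (hN : N ≤ P) (h : N ≤ ⁅N, P⁆) : N = ⊥ := by
  have : ∀ k, N ≤ P.lowerCentralSeries k := by
    intro k
    induction k with
    | zero => exact hN
    | succ k ih => exact h.trans (Subgroup.commutator_mono ih le_rfl)
  exact le_bot_iff.1 ((this c).trans hc.le)

theorem three_subgroups (N W : Subgroup G) [N.Normal] [W.Normal] :
    ⁅N, ⁅W, W⁆⁆ ≤ ⁅⁅N, W⁆, W⁆ := by
  set M := ⁅⁅N, W⁆, W⁆ with hM
  have h1 : ⁅⁅N.map (QuotientGroup.mk' M), W.map (QuotientGroup.mk' M)⁆,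
      W.map (QuotientGroup.mk' M)⁆ = ⊥ := by
    rw [← Subgroup.map_commutator, ← Subgroup.map_commutator, Subgroup.map_eq_bot_iff,
      QuotientGroup.ker_mk']
  have h2 := Subgroup.commutator_commutator_eq_bot_of_rotate
    (H₁ := W.map (QuotientGroup.mk' M)) (H₂ := W.map (QuotientGroup.mk' M))
    (H₃ := N.map (QuotientGroup.mk' M))
    (by rw [Subgroup.commutator_comm (W.map _) (N.map _)]; exact h1) h1
  rw [← Subgroup.map_commutator, ← Subgroup.map_commutator, Subgroup.map_eq_bot_iff,
    QuotientGroup.ker_mk'] at h2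
  rw [Subgroup.commutator_comm]
  exact h2

theorem comm_congr {H : Type} [Group H] {a b y g : H} (hy' : Commute y b)
    (hg : Commute g a) (hyg : Commute y g) : ⁅a * y, b * g⁆ = ⁅a, b⁆ := by
  have e1 : b * g * (y⁻¹ * a⁻¹) = y⁻¹ * (b * g * a⁻¹) := by
    rw [← mul_assoc, ← (hy'.mul_right hyg).inv_left.eq, mul_assoc]
  have e2 : g * a⁻¹ * g⁻¹ = a⁻¹ := by rw [hg.inv_right.eq, mul_inv_cancel_right]
  rw [commutatorElement_def, commutatorElement_def, mul_inv_rev, mul_inv_rev,
    mul_assoc (a * y), e1]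
  calc a * y * (y⁻¹ * (b * g * a⁻¹)) * (g⁻¹ * b⁻¹) = a * b * (g * a⁻¹ * g⁻¹) * b⁻¹ := by group
    _ = a * b * a⁻¹ * b⁻¹ := by rw [e2]

/-- the derived subgroup of a nilpotent normal subgroup consists of non-generators -/
theorem eq_top_of_sup_comm {P H : Subgroup G} [P.Normal] {c : ℕ}
    (hc : P.lowerCentralSeries c = ⊥) (h : H ⊔ ⁅P, P⁆ = ⊤) : H = ⊤ := by
  have key : ∀ k, H ⊔ P.lowerCentralSeries (k + 1) = ⊤ := by
    intro k
    induction k with
    | zero => exact h
    | succ k ih =>
      have := lcs_normal P (k + 1)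
      have := lcs_normal P (k + 2)
      set M := P.lowerCentralSeries (k + 2) with hM
      have hle : P.lowerCentralSeries (k + 1) ≤ P.lowerCentralSeries k :=
        P.lowerCentralSeries_antitone (Nat.le_succ k)
      have hleP : P.lowerCentralSeries k ≤ P := P.lowerCentralSeries_le_self k
      have dec : ∀ y : G, ∃ a ∈ H, ∃ z ∈ P.lowerCentralSeries (k + 1), a * z = y := by
        intro y
        have : y ∈ ((H ⊔ P.lowerCentralSeries (k + 1) : Subgroup G) : Set G) := by
          rw [ih]; trivial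
        rw [Subgroup.mul_normal] at this
        exact this
      have hcen : ∀ z ∈ P.lowerCentralSeries (k + 1), ∀ g ∈ P,
          Commute (QuotientGroup.mk' M z) (QuotientGroup.mk' M g) := by
        intro z hz g hg
        rw [← commutatorElement_eq_one_iff_commute, ← map_commutatorElement, ← MonoidHom.mem_ker,
          QuotientGroup.ker_mk']
        exact Subgroup.commutator_mem_commutator hz hg
      rw [eq_top_iff, ← ih, sup_le_iff]
      refine ⟨le_sup_left, ?_⟩
      rw [Subgroup.lowerCentralSeries_succ, Subgroup.commutator_le]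
      intro y hy g hg
      obtain ⟨a, ha, z, hz, rfl⟩ := dec y
      obtain ⟨b, hb, t, ht, rfl⟩ := dec g
      have haP : a ∈ P := by
        have := P.mul_mem (hleP hy) (P.inv_mem (hleP (hle hz)))
        simpa using this
      have hbP : b ∈ P := by
        have := P.mul_mem hg (P.inv_mem (hleP (hle ht)))
        simpa using this
      have e : QuotientGroup.mk' M ⁅a * z, b * t⁆ = QuotientGroup.mk' M ⁅a, b⁆ := by
        rw [map_commutatorElement, map_commutatorElement, map_mul, map_mul]
        exact comm_congr (hcen z hz b hbP) (hcen t ht a haP)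
          (hcen z hz t (hleP (hle ht)))
      have e2 : ⁅a, b⁆⁻¹ * ⁅a * z, b * t⁆ ∈ M := by
        rw [← QuotientGroup.ker_mk' M, MonoidHom.mem_ker, map_mul, map_inv, e, inv_mul_cancel]
      have e3 : ⁅a, b⁆ ∈ H :=
        H.mul_mem (H.mul_mem (H.mul_mem ha hb) (H.inv_mem ha)) (H.inv_mem hb)
      have := Subgroup.mul_mem _ (Subgroup.mem_sup_left e3 : _ ∈ H ⊔ M) (Subgroup.mem_sup_right e2)
      rwa [mul_inv_cancel_left] at this
  have h1 := key c
  have h2 : P.lowerCentralSeries (c + 1) = ⊥ :=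
    le_bot_iff.1 ((P.lowerCentralSeries_antitone (Nat.le_succ c)).trans hc.le)
  rwa [h2, sup_bot_eq] at h1

/-- the family generates the group -/
def Gn {ι : Type} (x : ι → G) : Prop := closure (Set.range x) = ⊤

theorem Gn.surj {ι : Type} {x : ι → G} (h : Gn x) : Function.Surjective (FreeGroup.lift x) := by
  rw [← MonoidHom.range_eq_top, FreeGroup.range_lift_eq_closure]; exact h

theorem Gn.of_mem {ι κ : Type} {x : ι → G} {y : κ → G} (h : Gn x)
    (hy : ∀ i, x i ∈ closure (Set.range y)) : Gn y := by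
  unfold Gn at *
  rw [eq_top_iff, ← h, closure_le]
  rintro _ ⟨i, rfl⟩
  exact hy i

theorem Gn.mul_left {ι : Type} {x : ι → G} (h : Gn x) {P : Subgroup G} [P.Normal] {c : ℕ}
    (hc : P.lowerCentralSeries c = ⊥) {u : ι → G} (hu : ∀ i, u i ∈ ⁅P, P⁆) :
    Gn fun i => u i * x i := by
  refine eq_top_of_sup_comm hc ?_
  rw [eq_top_iff, ← h, closure_le]
  rintro _ ⟨i, rfl⟩
  have := Subgroup.mul_mem _ (Subgroup.mem_sup_right (Subgroup.inv_mem _ (hu i)) :
    _ ∈ closure (Set.range fun i => u i * x i) ⊔ ⁅P, P⁆)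
    (Subgroup.mem_sup_left (subset_closure ⟨i, rfl⟩))
  simpa using this

theorem mem_of_pow_mem {H : Subgroup G} {b : G} {q s : ℕ} (hq : b ^ q = 1) (hs : s.Coprime q)
    (h : b ^ s ∈ H) : b ∈ H := by
  obtain ⟨m, hm⟩ := exists_pow_eq_self_of_coprime (x := b) (n := s)
    (hs.coprime_dvd_right (orderOf_dvd_of_pow_eq_one hq))
  rw [← hm]
  exact H.pow_mem h m

theorem isUnit_intCast {R : Type} [Ring R] {q : ℕ} (hq : (q : R) = 0) {z : ℤ}
    (h : IsCoprime z (q : ℤ)) : IsUnit (z : R) := by
  obtain ⟨a, b, hab⟩ := h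
  have e : ((a * z + b * q : ℤ) : R) = 1 := by rw [hab, Int.cast_one]
  rw [Int.cast_add, Int.cast_mul, Int.cast_mul, Int.cast_natCast, hq, mul_zero, add_zero] at e
  exact ⟨⟨z, a, by rw [← e]; exact (Int.cast_commute z _).eq, e⟩, rfl⟩

theorem end_natCast_eq_zero {X : Type} [AddCommGroup X] {q : ℕ} (h : ∀ v : X, q • v = 0) :
    (q : Module.End ℤ X) = 0 := by
  ext v
  simpa using h v

theorem isUnit_aeval {R : Type} [Ring R] {a : R} (ha : IsNilpotent (a - 1)) (f : ℤ[X])
    (hf : IsUnit ((f.eval 1 : ℤ) : R)) : IsUnit (aeval a f) := by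
  obtain ⟨g, hg⟩ : X - C 1 ∣ f - C (f.eval 1) := X_sub_C_dvd_sub_C_eval
  have e : aeval a f = ((f.eval 1 : ℤ) : R) + (a - 1) * aeval a g := by
    have := congrArg (aeval a) hg
    rw [map_sub, map_mul, map_sub, aeval_X, aeval_C, aeval_C] at this
    simp only [algebraMap_int_eq, eq_intCast, Int.cast_one] at this
    rw [← this]; abel
  have hc : Commute (a - 1) (aeval a g) := by
    have := (Commute.all (X - C 1 : ℤ[X]) g).map (aeval a)
    simpa using this
  rw [e]
  exact (hc.isNilpotent_mul_right ha).isUnit_add_left_of_commute hf (Int.commute_cast _ _)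

end Pool.Agent.LawP
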