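import Pool.Agent.P.MP_ec89a0_al.LP0
import Pool.Agent.P.MP_ec89a0_al.LP2
import Pool.Agent.P.MP_ec89a0_al.LP3

/-! Words outside the second derived subgroup on nilpotent groups without small primes. -/

namespace Pool.Agent.LawP

open Subgroup Polynomial
open scoped commutatorElement

variable {G : Type} [Group G]

theorem fox_vanish {c : ℕ} (hc : (⊤ : Subgroup G).lowerCentralSeries c = ⊥) {L : List Let}
    (hdie : ∀ x : Fin 2 → G, Gn x → evl x L = 1) {S T : Subgroup G} [S.Normal]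
    (hS : S ≤ commutator G) {X : Type} [AddCommGroup X] {π : G → X} (h : Sec S T π)
    {ρ : G →* Module.End ℤ X} (hρ : ∀ g, ∀ x ∈ S, ρ g (π x) = π (g * x * g⁻¹))
    {x : Fin 2 → G} (hx : Gn x) (i : Fin 2) : fx ρ x i L = 0 := by
  refine LinearMap.ext (h.ext fun v hv => ?_)
  have hu : ∀ j, (Pi.mulSingle i v : Fin 2 → G) j ∈ S := by
    intro j
    by_cases hj : j = i
    · subst hj; simpa using hv
    · rw [Pi.mulSingle_eq_of_ne hj]; exact S.one_mem
  have h1 := (chain_rule h hρ x _ hu L).2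
  rw [hdie x hx, hdie _ (hx.mul_left hc fun j => hS (hu j)), inv_one, mul_one, h.addOn.one,
    Finset.sum_eq_single i] at h1
  · rw [Pi.mulSingle_eq_same] at h1
    exact h1.symm
  · intro j _ hj
    rw [Pi.mulSingle_eq_of_ne hj, h.addOn.one, map_zero]
  · simp

theorem gn_twist {a b : G} (h : Gn ![a, b]) {q s : ℕ} (hq : b ^ q = 1) (hs : s.Coprime q)
    (j : ℕ) : Gn ![a, a ^ j * b ^ s] := by
  have ha : a ∈ closure (Set.range ![a, a ^ j * b ^ s]) := subset_closure ⟨0, rfl⟩
  have hb : a ^ j * b ^ s ∈ closure (Set.range ![a, a ^ j * b ^ s]) := subset_closure ⟨1, rfl⟩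
  refine h.of_mem fun i => ?_
  fin_cases i
  · exact ha
  · refine mem_of_pow_mem hq hs ?_
    have := Subgroup.mul_mem _ (Subgroup.inv_mem _ (Subgroup.pow_mem _ ha j)) hb
    simpa using this

theorem gn_swap {a b : G} (h : Gn ![a, b]) : Gn ![b, a] := by
  refine h.of_mem fun i => ?_
  fin_cases i
  · exact subset_closure ⟨1, rfl⟩
  · exact subset_closure ⟨0, rfl⟩

theorem coprime_of_le {q D R s : ℕ} (h : q.Coprime (D.factorial * R)) (h1 : 1 ≤ s) (h2 : s ≤ D) :
    s.Coprime q :=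
  (h.symm.coprime_dvd_left ((Nat.dvd_factorial h1 h2).mul_right R))

theorem nil_step {R : Type} [Ring R] (ρ : G →* R) {L : List Let} {i : Fin 2} {j r q : ℕ}
    {f₁ : ℤ[X]}
    (hf : ∀ a : G, fx ρ ![a, a ^ j] i L = 0 → aeval (ρ a) ((X - C 1) ^ r * f₁) = 0)
    (hq : ∀ g : G, g ^ q = 1) (hqR : (q : R) = 0)
    (hcop : q.Coprime (((r + 2) * L.length + 1).factorial * (f₁.eval 1).natAbs))
    (hfox : ∀ x : Fin 2 → G, Gn x → fx ρ x i L = 0)
    (hnil : ∀ a b : G, Gn ![a, b] → (ρ a - 1) ^ (r + 1) = 0) {a b : G} (hab : Gn ![a, b]) :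
    (ρ a - 1) ^ r = 0 := by
  have hb := hnil b a (gn_swap hab)
  have hp := poly_fx ρ (r + 2) (fun s => ![a, a ^ j * b ^ s]) (by
      intro k
      fin_cases k
      · exact (poly_const (ρ a)).mono (by omega)
      · simp only [Fin.mk_one, Matrix.cons_val_one, Matrix.cons_val_fin_one, map_mul, map_pow]
        exact ((poly_const _).mul (poly_pow hb)).mono (by omega)) (by
      intro k
      fin_cases k
      · exact (poly_const (ρ a⁻¹)).mono (by omega)
      · simp only [Fin.mk_one, Matrix.cons_val_one, Matrix.cons_val_fin_one, mul_inv_rev,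
          ← inv_pow, map_mul, map_pow]
        exact ((poly_pow (inv_sub_one_pow ρ hb)).mul (poly_const _)).mono (by omega)) i L
  have h0 := hp.eq_zero fun s h1 h2 => hfox _ (gn_twist hab (hq b) (coprime_of_le hcop h1 h2) j)
  simp only [pow_zero, mul_one] at h0
  have h1 := hf a h0
  have hu : IsUnit (aeval (ρ a) f₁) := by
    refine isUnit_aeval ⟨_, hnil a b hab⟩ f₁ (isUnit_intCast hqR ?_)
    rw [Int.isCoprime_iff_gcd_eq_one]
    exact (Nat.Coprime.coprime_mul_left_right hcop).symm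
  rw [map_mul, map_pow, map_sub, aeval_X, aeval_C] at h1
  simpa using hu.mul_left_eq_zero.1 h1

theorem core_metabelian (w : F2) (hw : w ∉ derivedSeries F2 2) : ∃ R : ℕ, R ≠ 0 ∧
    ∀ (G : Type) [Group G] [Group.IsNilpotent G] (q : ℕ), (∀ g : G, g ^ q = 1) → q.Coprime R →
      (∃ x : Fin 2 → G, Gn x) → (∀ x : Fin 2 → G, Gn x → FreeGroup.lift x w = 1) →
      ⁅⁅vals w (commutator G), vals w (commutator G)⁆, vals w (commutator G)⁆ = ⊥ := by
  obtain ⟨L, rfl⟩ : ∃ L, FreeGroup.mk L = w := ⟨w.toWord, FreeGroup.mk_toWord⟩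
  obtain ⟨i, j, f, hf0, hf⟩ := exists_poly L hw
  obtain ⟨f₁, hf₁, hnd⟩ := exists_eq_pow_rootMultiplicity_mul_and_not_dvd f hf0 1
  set r := f.rootMultiplicity 1 with hr
  have he : f₁.eval 1 ≠ 0 := fun e => hnd (dvd_iff_isRoot.2 e)
  refine ⟨((r + 2) * L.length + 1).factorial * (f₁.eval 1).natAbs,
    mul_ne_zero (Nat.factorial_ne_zero _) (Int.natAbs_ne_zero.2 he), ?_⟩
  intro G _ _ q hq hcop ⟨x, hx⟩ hdie
  obtain ⟨c, hc⟩ := exists_lcs_top G
  have hW := vals_normal (FreeGroup.mk L) (commutator G)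
  set W := vals (FreeGroup.mk L) (commutator G) with hWdef
  set S := ⁅W, W⁆ with hSdef
  set T := ⁅S, S⁆ with hTdef
  have hS : S ≤ commutator G := Subgroup.commutator_mono le_top le_top
  have nil : ∀ k, k ≤ c → ∀ a b : G, Gn ![a, b] → ∀ u ∈ it S ⊤ (c - k), eng a r u ∈ T := by
    intro k
    induction k with
    | zero =>
      intro _ a b _ u hu
      have h1 : u ∈ (⊥ : Subgroup G) := by
        rw [← hc]; exact it_le_lcs le_top le_top c hu
      exact (bot_le : (⊥ : Subgroup G) ≤ T) (eng_mem a r h1)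
    | succ k ih =>
      intro hk a b hab
      have hn := it_normal S ⊤ (c - (k + 1))
      have hle := it_le S ⊤ (c - (k + 1))
      obtain ⟨X, _, π, hπ⟩ := exists_sec (it S ⊤ (c - (k + 1))) T
        (Subgroup.commutator_mono hle hle)
      obtain ⟨ρ, hρ⟩ := hπ.exists_rep
      rw [← hπ.pow_eq_zero_iff hρ]
      refine nil_step ρ (fun a h0 => by rw [← hf₁]; exact hf G _ ρ a h0) hq
        (end_natCast_eq_zero (hπ.smul_eq_zero fun g _ => hq g)) hcop
        (fun x hx => fox_vanish hc hdie (hle.trans hS) hπ hρ hx i) ?_ hab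
      intro a b hab
      rw [hπ.pow_eq_zero_iff hρ]
      intro u hu
      rw [eng_succ']
      refine ih (by omega) a b hab _ ?_
      have e : c - k = c - (k + 1) + 1 := by omega
      rw [e]
      show ⁅a, u⁆ ∈ ⁅it S ⊤ (c - (k + 1)), ⊤⁆
      rw [Subgroup.commutator_comm]
      exact Subgroup.commutator_mem_commutator trivial hu
  have nil0 := nil c le_rfl
  rw [Nat.sub_self] at nil0
  obtain ⟨X, _, π, hπ⟩ := exists_sec S T le_rfl
  obtain ⟨ρ, hρ⟩ := hπ.exists_rep
  have hx' : Gn ![x 0, x 1] := hx.of_mem fun k => by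
    fin_cases k
    · exact subset_closure ⟨0, rfl⟩
    · exact subset_closure ⟨1, rfl⟩
  have hxn : ∀ k, (ρ (x k) - 1) ^ r = 0 := by
    intro k
    rw [hπ.pow_eq_zero_iff hρ]
    fin_cases k
    · exact nil0 _ _ hx'
    · exact nil0 _ _ (gn_swap hx')
  have hker : W ≤ ρ.ker := by
    rw [hWdef]
    unfold vals
    rw [closure_le]
    rintro _ ⟨g, hg, rfl⟩
    have hp := poly_evl ρ (r + 2) (fun s k => g k * x k ^ s) (by
      intro k
      simp only [map_mul, map_pow]
      exact ((poly_const _).mul (poly_pow (hxn k))).mono (by omega)) (by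
      intro k
      simp only [mul_inv_rev, ← inv_pow, map_mul, map_pow]
      exact ((poly_pow (inv_sub_one_pow ρ (hxn k))).mul (poly_const _)).mono (by omega)) L
    have h0 := (hp.add ((poly_const (-1)).mono (by omega))).eq_zero fun s h1 h2 => by
      have hs : Gn fun k => x k ^ s := hx.of_mem fun k =>
        mem_of_pow_mem (hq _) (coprime_of_le hcop h1 h2) (subset_closure ⟨k, rfl⟩)
      have := hdie _ (hs.mul_left hc hg)
      show ρ (FreeGroup.lift _ _) + -1 = 0
      rw [this, map_one, add_neg_cancel]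
    simp only [pow_zero, mul_one] at h0
    exact add_neg_eq_zero.1 h0
  have h1 : ⁅S, W⁆ ≤ T := by
    rw [Subgroup.commutator_comm, Subgroup.commutator_le]
    intro y hy u hu
    have hm : ⁅y, u⁆ ∈ S := eng_mem y 1 hu
    rw [← hπ.ker _ hm, hπ.comm_apply hρ y hu, show ρ y = 1 from hker hy, sub_self]
    rfl
  have h2 : T ≤ ⁅⁅S, W⁆, W⁆ := three_subgroups S W
  exact eq_bot_of_le_comm hc le_top
    ((h1.trans h2).trans (Subgroup.commutator_mono le_rfl le_top))

end Pool.Agent.LawP
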