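import Pool.Agent.P.MP_ec89a0_al.LP0
import Pool.Agent.P.MP_ec89a0_al.LP3
import Pool.Agent.P.MP_ec89a0_al.Gasch

/-! Passing to quotients; common laws for small primes. -/

namespace Pool.Agent.LawP

open Subgroup
open scoped commutatorElement

theorem gn_of_pair {G : Type} [Group G] (h : ∃ a b : G, closure ({a, b} : Set G) = ⊤) :
    ∃ x : Fin 2 → G, Gn x := by
  obtain ⟨a, b, hab⟩ := h
  refine ⟨![a, b], ?_⟩
  unfold Gn
  rw [← hab]
  congr 1
  ext x
  simp [eq_comm, or_comm]

theorem Gn.map {G H ι : Type} [Group G] [Group H] {x : ι → G} (h : Gn x) (θ : G →* H)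
    (hθ : Function.Surjective θ) : Gn fun i => θ (x i) := by
  have := congrArg (Subgroup.map θ) h
  rw [MonoidHom.map_closure, ← Set.range_comp, Subgroup.map_top_of_surjective θ hθ] at this
  exact this

theorem die_of_surj {G H : Type} [Group G] [Finite G] [Group H] {w : FreeGroup (Fin 2)}
    (h2 : ∃ x : Fin 2 → G, Gn x) (hdie : ∀ x : Fin 2 → G, Gn x → FreeGroup.lift x w = 1)
    (θ : G →* H) (hθ : Function.Surjective θ) (y : Fin 2 → H) (hy : Gn y) :
    FreeGroup.lift y w = 1 := by
  choose π hπ using fun j : Fin 2 => hθ (y j)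
  have hsup : closure (Set.range π) ⊔ θ.ker = ⊤ := by
    have h1 : (closure (Set.range π)).map θ = ⊤ := by
      rw [MonoidHom.map_closure, ← Set.range_comp]
      have : θ ∘ π = y := funext hπ
      rw [this]; exact hy
    have h2 := congrArg (Subgroup.comap θ) h1
    rwa [Subgroup.comap_map_eq, Subgroup.comap_top] at h2
  obtain ⟨π', hπ', hcong⟩ := FitW.gaschuetz θ.ker h2 π hsup
  have h3 : (fun j => θ (π' j)) = y := by
    funext j
    have := hcong j
    rw [MonoidHom.mem_ker, map_mul, map_inv, mul_inv_eq_one] at this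
    rw [this, hπ j]
  rw [← h3, ← map_lift, hdie π' hπ', map_one]

/-- a Sylow subgroup of a finite nilpotent group is a quotient -/
theorem exists_surj_sylow {H : Type} [Group H] [Finite H] [hH : Group.IsNilpotent H] {p : ℕ}
    (hp : p.Prime) (P : Sylow p H) : ∃ θ : H →* P, Function.Surjective θ := by
  classical
  by_cases hd : p ∈ (Nat.card H).primeFactors
  · obtain ⟨e⟩ := ((Group.isNilpotent_of_finite_tfae (G := H)).out 0 4).1 hH
    refine ⟨((Pi.evalMonoidHom _ P).comp (Pi.evalMonoidHom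
      (fun p : (Nat.card H).primeFactors => ∀ P : Sylow p H, (P : Subgroup H)) ⟨p, hd⟩)).comp
      e.symm.toMonoidHom, ?_⟩
    exact ((Function.surjective_eval _).comp (Function.surjective_eval _)).comp e.symm.surjective
  · have := Fact.mk hp
    refine ⟨1, fun y => ⟨1, ?_⟩⟩
    obtain ⟨k, hk⟩ := P.isPGroup'.exists_card_eq
    have h1 : Nat.card P ∣ Nat.card H := Subgroup.card_subgroup_dvd_card _
    rcases k with _ | k
    · have : Subsingleton P := (Nat.card_eq_one_iff_unique.1 (by simpa using hk)).1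
      exact Subsingleton.elim _ _
    · exfalso
      apply hd
      rw [Nat.mem_primeFactors]
      exact ⟨hp, (dvd_pow_self p (Nat.succ_ne_zero k)).trans (hk ▸ h1), Nat.card_pos.ne'⟩

/-- one big subgroup for the Sylow subgroups at all small primes -/
theorem exists_big_small' (G : ℕ → Type) [∀ i, Group (G i)] (T : ℕ → Prop)
    (hsyl : ∀ p : ℕ, p.Prime → T p → ∃ v : FreeGroup ℕ, v ≠ 1 ∧
      ∀ i, ∀ P : Sylow p (G i), ∀ f : ℕ → P, FreeGroup.lift f v = 1) (R : ℕ) :
    ∃ V, Big V ∧ ∀ p : ℕ, p.Prime → T p → p ≤ R → ∀ i, ∀ P : Sylow p (G i), Kills V P := by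
  classical
  choose v hv hv' using hsyl
  obtain ⟨V, hV, h⟩ := exists_big_le
    (fun p => if hp : p.Prime ∧ T p then vals (v p hp.1 hp.2) ⊤ else ⊤)
    (fun p => by
      by_cases hp : p.Prime ∧ T p
      · simp only [dif_pos hp]; exact Big.vals (hv p hp.1 hp.2) big_top
      · simp only [dif_neg hp]; exact big_top) (R + 1)
  refine ⟨V, hV, fun p hp hT hle i P => h p (by omega) _ ?_⟩
  simp only [dif_pos (And.intro hp hT)]
  exact kills_vals (hv' p hp hT i P)

theorem coprime_card_of_lt {H : Type} [Group H] [Finite H] {p R : ℕ} (hp : p.Prime)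
    (hH : IsPGroup p H) (hR : R ≠ 0) (hlt : R < p) : (Nat.card H).Coprime R := by
  have := Fact.mk hp
  obtain ⟨k, hk⟩ := hH.exists_card_eq
  rw [hk]
  exact Nat.Coprime.pow_left k ((Nat.Prime.coprime_iff_not_dvd hp).2
    (Nat.not_dvd_of_pos_of_lt (Nat.pos_of_ne_zero hR) hlt))

end Pool.Agent.LawP
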