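import Pool.Agent.P.MP_ec89a0_al.LP3

/-! Eigen-elements of an automorphism of a nilpotent group of finite exponent. -/

namespace Pool.Agent.LawP

open Subgroup Finset
open scoped commutatorElement

section Ab

variable {X : Type} [AddCommGroup X]

/-- the operator `Σ ζ^i ψ^(t-1-i)` -/
noncomputable def gs (ψ : Module.End ℤ X) (ζ : ℤ) (t : ℕ) : Module.End ℤ X :=
  ∑ i ∈ range t, (ζ : Module.End ℤ X) ^ i * ψ ^ (t - 1 - i)

theorem gs_succ (ψ : Module.End ℤ X) (ζ : ℤ) (t : ℕ) :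
    gs ψ ζ (t + 1) = (ζ : Module.End ℤ X) ^ t + ψ * gs ψ ζ t :=
  (Int.cast_commute ζ ψ).geom_sum₂_succ_eq

theorem mul_gs (ψ : Module.End ℤ X) (ζ : ℤ) (t : ℕ) :
    ((ζ : Module.End ℤ X) - ψ) * gs ψ ζ t = (ζ : Module.End ℤ X) ^ t - ψ ^ t :=
  (Int.cast_commute ζ ψ).mul_geom_sum₂ t

theorem commute_gs (ψ : Module.End ℤ X) (ζ : ℤ) (t : ℕ) : Commute ψ (gs ψ ζ t) :=
  Commute.sum_right _ _ _ fun _ _ =>
    ((Int.commute_cast ψ ζ).pow_right _).mul_right ((Commute.refl ψ).pow_right _)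

theorem castpow_apply (ζ : ℤ) (i : ℕ) (v : X) :
    ((ζ : Module.End ℤ X) ^ i) v = ζ ^ i • v := by
  rw [← Int.cast_pow]; rfl

theorem mem_of_coprime {m : ℕ} (hm : ∀ v : X, m • v = 0) {U : AddSubgroup X} {c : ℤ}
    (hc : IsCoprime c (m : ℤ)) {v : X} (h : c • v ∈ U) : v ∈ U := by
  obtain ⟨a, b, hab⟩ := hc
  have : v = a • c • v := by
    have h1 : (a * c + b * m) • v = v := by rw [hab, one_smul]
    rw [add_smul, mul_smul, mul_smul, natCast_zsmul, hm, smul_zero, add_zero] at h1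
    exact h1.symm
  rw [this]
  exact U.zsmul_mem h a

theorem eq_zero_of_coprime {m : ℕ} (hm : ∀ v : X, m • v = 0) {c : ℤ}
    (hc : IsCoprime c (m : ℤ)) {v : X} (h : c • v = 0) : v = 0 :=
  mem_of_coprime hm (U := ⊥) hc h

theorem smul_eq_of_dvd {m : ℕ} (hm : ∀ v : X, m • v = 0) {a : ℤ} (h : (m : ℤ) ∣ a - 1) (v : X) :
    a • v = v := by
  obtain ⟨k, hk⟩ := h
  have : a = 1 + k * m := by linear_combination hk
  rw [this, add_smul, one_smul, mul_smul, natCast_zsmul, hm, smul_zero, add_zero]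

theorem pow_mem_inv {ψ : Module.End ℤ X} {U : AddSubgroup X} (hU : ∀ v ∈ U, ψ v ∈ U) (k : ℕ)
    {v : X} (hv : v ∈ U) : (ψ ^ k) v ∈ U := by
  induction k with
  | zero => exact hv
  | succ k ih => rw [pow_succ', Module.End.mul_apply]; exact hU _ ih

theorem gs_mem {ψ : Module.End ℤ X} {U : AddSubgroup X} (hU : ∀ v ∈ U, ψ v ∈ U) (ζ : ℤ) (t : ℕ)
    {v : X} (hv : v ∈ U) : gs ψ ζ t v ∈ U := by
  unfold gs
  rw [LinearMap.sum_apply]
  refine U.sum_mem fun i _ => ?_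
  rw [Module.End.mul_apply, castpow_apply]
  exact U.zsmul_mem (pow_mem_inv hU _ hv) _

theorem coprime_of_dvd_pow_sub_one {m n : ℕ} (hn : 0 < n) {ζ : ℤ} (h : (m : ℤ) ∣ ζ ^ n - 1) :
    IsCoprime ζ (m : ℤ) := by
  obtain ⟨k, hk⟩ := h
  obtain ⟨n, rfl⟩ : ∃ n', n = n' + 1 := ⟨n - 1, by omega⟩
  exact ⟨ζ ^ n, -k, by rw [pow_succ] at hk; linear_combination hk⟩

theorem mem_of_gs {m n : ℕ} (hm : ∀ v : X, m • v = 0) (hn : 0 < n)
    (hnm : IsCoprime (n : ℤ) (m : ℤ)) {ζ : ℤ} (hζ : (m : ℤ) ∣ ζ ^ n - 1)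
    {ψ : Module.End ℤ X} {U : AddSubgroup X} (hU : ∀ v ∈ U, ψ v ∈ U) {z : X}
    (h1 : ψ z - ζ • z ∈ U) (h2 : gs ψ ζ n z ∈ U) : z ∈ U := by
  have hk : ∀ k : ℕ, (ψ ^ k) z - ζ ^ k • z ∈ U := by
    intro k
    induction k with
    | zero => simp
    | succ k ih =>
      have := U.add_mem (hU _ ih) (U.zsmul_mem h1 (ζ ^ k))
      convert this using 1
      rw [pow_succ', Module.End.mul_apply, map_sub, map_zsmul, smul_sub, smul_smul, ← pow_succ]
      abel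
  have h3 : gs ψ ζ n z - ((n : ℤ) * ζ ^ (n - 1)) • z ∈ U := by
    have : ((n : ℤ) * ζ ^ (n - 1)) • z = ∑ i ∈ range n, ζ ^ i • ζ ^ (n - 1 - i) • z := by
      rw [Finset.sum_congr rfl (g := fun _ => ζ ^ (n - 1) • z)]
      · rw [Finset.sum_const, card_range, mul_smul, natCast_zsmul]
      · intro i hi
        rw [smul_smul, ← pow_add]
        congr 2
        have := mem_range.1 hi
        omega
    rw [this]
    unfold gs
    rw [LinearMap.sum_apply, ← Finset.sum_sub_distrib]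
    refine U.sum_mem fun i _ => ?_
    rw [Module.End.mul_apply, castpow_apply, ← smul_sub]
    exact U.zsmul_mem (hk _) _
  have h4 := U.sub_mem h2 h3
  rw [sub_sub_cancel] at h4
  exact mem_of_coprime hm (hnm.mul_left (coprime_of_dvd_pow_sub_one hn hζ).pow_left) h4

theorem gs_eigen {m n : ℕ} (hm : ∀ v : X, m • v = 0) {ζ : ℤ} (hζ : (m : ℤ) ∣ ζ ^ n - 1)
    {ψ : Module.End ℤ X} (hψ : ψ ^ n = 1) (v : X) : ψ (gs ψ ζ n v) = ζ • gs ψ ζ n v := by
  have := congrArg (fun f : Module.End ℤ X => f v) (mul_gs ψ ζ n)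
  simp only [hψ, Module.End.mul_apply, LinearMap.sub_apply, castpow_apply,
    Module.End.one_apply, smul_eq_of_dvd hm hζ, sub_self] at this
  exact (sub_eq_zero.1 this).symm

theorem gs_eq_zero {m n : ℕ} (hm : ∀ v : X, m • v = 0) {ζ μ : ℤ} (hζ : (m : ℤ) ∣ ζ ^ n - 1)
    {ψ : Module.End ℤ X} (hψ : ψ ^ n = 1) (hc : IsCoprime (μ - ζ) (m : ℤ)) {v : X}
    (hv : ψ v = μ • v) : gs ψ ζ n v = 0 := by
  refine eq_zero_of_coprime hm hc ?_
  have h1 := gs_eigen hm hζ hψ v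
  have h2 : ψ (gs ψ ζ n v) = μ • gs ψ ζ n v := by
    rw [← Module.End.mul_apply, (commute_gs ψ ζ n).eq, Module.End.mul_apply, hv, map_zsmul]
  rw [sub_smul, ← h1, ← h2, sub_self]

end Ab

/-- `l` is a primitive `n`-th root of unity modulo every prime factor of `m` -/
structure Num (n m : ℕ) (l : ℤ) : Prop where
  pos : 0 < n
  pow : (m : ℤ) ∣ l ^ n - 1
  unit : ∀ i, 0 < i → i < n → IsCoprime (l ^ i - 1) (m : ℤ)
  cop : IsCoprime (n : ℤ) (m : ℤ)

theorem Num.pow_pow {n m : ℕ} {l : ℤ} (h : Num n m l) (j : ℕ) : (m : ℤ) ∣ (l ^ j) ^ n - 1 := by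
  rw [← pow_mul, mul_comm, pow_mul]
  exact h.pow.trans (by simpa using sub_dvd_pow_sub_pow (l ^ n) 1 j)

theorem Num.cop_lt {n m : ℕ} {l : ℤ} (h : Num n m l) {a b : ℕ} (hab : b < a) (hn : a < b + n) :
    IsCoprime (l ^ a - l ^ b) (m : ℤ) := by
  obtain ⟨d, rfl⟩ : ∃ d, a = b + d := ⟨a - b, by omega⟩
  have : l ^ (b + d) - l ^ b = l ^ b * (l ^ d - 1) := by ring
  rw [this]
  exact (coprime_of_dvd_pow_sub_one h.pos h.pow).pow_left.mul_left
    (h.unit d (by omega) (by omega))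

theorem Num.cop_diff {n m : ℕ} {l : ℤ} (h : Num n m l) {a k : ℕ} (hk : k < n) (ha : a < 2 * n)
    (h1 : a ≠ k) (h2 : a ≠ k + n) : IsCoprime (l ^ a - l ^ k) (m : ℤ) := by
  have low : ∀ a, a < k + n → a ≠ k → IsCoprime (l ^ a - l ^ k) (m : ℤ) := by
    intro a ha hne
    rcases lt_or_gt_of_ne hne with hlt | hlt
    · have := (h.cop_lt hlt (by omega)).neg_left
      rwa [neg_sub] at this
    · exact h.cop_lt hlt ha
  rcases lt_or_gt_of_ne h2 with hlt | hlt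
  · exact low a hlt h1
  · obtain ⟨d, rfl⟩ : ∃ d, a = d + n := ⟨a - n, by omega⟩
    obtain ⟨c, hc⟩ := h.pow
    have e : l ^ (d + n) - l ^ k = (l ^ d - l ^ k) + (m : ℤ) * (c * l ^ d) := by
      rw [pow_add]; linear_combination l ^ d * hc
    rw [e]
    exact (low d (by omega) (by omega)).add_mul_left_left _

theorem mem_of_eigen {X : Type} [AddCommGroup X] {n m : ℕ} {l : ℤ} (h : Num n m l)
    (hm : ∀ v : X, m • v = 0) {ψ : Module.End ℤ X} (hψ : ψ ^ n = 1) {U : AddSubgroup X}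
    (hU : ∀ i, i < n → ∀ v, ψ v = l ^ i • v → v ∈ U) (v : X) : v ∈ U := by
  refine mem_of_coprime hm h.cop ?_
  have key : ∑ j ∈ range n, l ^ j • gs ψ (l ^ j) n v = (n : ℤ) • v := by
    unfold gs
    simp only [LinearMap.sum_apply, Module.End.mul_apply, castpow_apply, Finset.smul_sum,
      smul_smul]
    rw [Finset.sum_comm]
    simp only [← Finset.sum_smul]
    obtain ⟨n', rfl⟩ : ∃ n', n = n' + 1 := ⟨n - 1, by have := h.pos; omega⟩
    rw [Finset.sum_range_succ, Finset.sum_eq_zero, zero_add]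
    · rw [Nat.add_sub_cancel, Nat.sub_self, pow_zero, Module.End.one_apply, Finset.sum_smul,
        Finset.sum_congr rfl (g := fun _ => v)]
      · rw [Finset.sum_const, card_range, natCast_zsmul]
      · intro j _
        rw [← pow_succ']
        exact smul_eq_of_dvd hm (h.pow_pow j) v
    · intro i hi
      have hi' := mem_range.1 hi
      refine eq_zero_of_coprime hm (h.unit (i + 1) (by omega) (by omega)) ?_
      have e : ∑ j ∈ range (n' + 1), l ^ j * (l ^ j) ^ i =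
          ∑ j ∈ range (n' + 1), (l ^ (i + 1)) ^ j :=
        Finset.sum_congr rfl fun j _ => by ring
      rw [smul_smul, e, mul_geom_sum, sub_smul, smul_eq_of_dvd hm (h.pow_pow _), one_smul,
        sub_self]
  rw [← key]
  exact U.sum_mem fun j hj =>
    U.zsmul_mem (hU j (mem_range.1 hj) _ (gs_eigen hm (h.pow_pow j) hψ v)) _

section Grp

variable {K : Type} [Group K]

/-- exponent dividing `m`, operator of order dividing `n` -/
structure Op (φ : K →* K) (n m : ℕ) : Prop where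
  exp : ∀ g : K, g ^ m = 1
  ord : ∀ x, φ^[n] x = x

theorem semiconj_iter {H : Type} [Group H] {φ : K →* K} {ψ : H →* H} {θ : K →* H}
    (h : ∀ x, ψ (θ x) = θ (φ x)) (t : ℕ) (x : K) : ψ^[t] (θ x) = θ (φ^[t] x) := by
  induction t with
  | zero => rfl
  | succ t ih => rw [Function.iterate_succ_apply', Function.iterate_succ_apply', ih, h]

theorem Op.of_surj {H : Type} [Group H] {φ : K →* K} {ψ : H →* H} {n m : ℕ} (h : Op φ n m)
    {θ : K →* H} (hθ : Function.Surjective θ) (hs : ∀ x, ψ (θ x) = θ (φ x)) : Op ψ n m := by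
  constructor
  · intro g; obtain ⟨x, rfl⟩ := hθ g; rw [← map_pow, h.exp, map_one]
  · intro g; obtain ⟨x, rfl⟩ := hθ g; rw [semiconj_iter hs, h.ord]

theorem Op.of_inj {H : Type} [Group H] {φ : K →* K} {ψ : H →* H} {n m : ℕ} (h : Op ψ n m)
    {θ : K →* H} (hθ : Function.Injective θ) (hs : ∀ x, ψ (θ x) = θ (φ x)) : Op φ n m := by
  constructor
  · intro g; apply hθ; rw [map_pow, h.exp, map_one]
  · intro g; apply hθ; rw [← semiconj_iter hs, h.ord]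

theorem surj_of_iter {φ : K →* K} {n : ℕ} (hn : 0 < n) (h : ∀ x, φ^[n] x = x) :
    Function.Surjective φ := by
  obtain ⟨n, rfl⟩ : ∃ n', n = n' + 1 := ⟨n - 1, by omega⟩
  intro x
  exact ⟨φ^[n] x, by rw [← Function.iterate_succ_apply' φ, h]⟩

theorem exists_quot (φ : K →* K) (N : Subgroup K) [N.Normal] (hN : ∀ x ∈ N, φ x ∈ N) :
    ∃ ψ : K ⧸ N →* K ⧸ N, ∀ x, ψ (QuotientGroup.mk' N x) = QuotientGroup.mk' N (φ x) :=
  ⟨QuotientGroup.map N N φ hN, fun _ => rfl⟩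

theorem exists_restr (φ : K →* K) (S : Subgroup K) (hS : ∀ x ∈ S, φ x ∈ S) :
    ∃ ψ : S →* S, ∀ x, φ (S.subtype x) = S.subtype (ψ x) :=
  ⟨(φ.comp S.subtype).codRestrict S fun x => hS x x.2, fun _ => rfl⟩

theorem end_pow_apply {S : Subgroup K} {X : Type} [AddCommGroup X] {π : K → X} {φ : K →* K}
    {ψ : Module.End ℤ X} (hS : ∀ x ∈ S, φ x ∈ S) (hψ : ∀ x ∈ S, ψ (π x) = π (φ x)) (t : ℕ)
    {x : K} (hx : x ∈ S) : φ^[t] x ∈ S ∧ (ψ ^ t) (π x) = π (φ^[t] x) := by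
  induction t with
  | zero => exact ⟨hx, rfl⟩
  | succ t ih =>
    rw [Function.iterate_succ_apply', pow_succ', Module.End.mul_apply, ih.2]
    exact ⟨hS _ ih.1, hψ _ ih.1⟩

theorem Sec.end_pow_eq_one {S T : Subgroup K} {X : Type} [AddCommGroup X] {π : K → X}
    (h : Sec S T π) {φ : K →* K} {ψ : Module.End ℤ X} (hS : ∀ x ∈ S, φ x ∈ S)
    (hψ : ∀ x ∈ S, ψ (π x) = π (φ x)) {n : ℕ} (hn : ∀ x, φ^[n] x = x) : ψ ^ n = 1 :=
  LinearMap.ext (h.ext fun x hx => by rw [(end_pow_apply hS hψ n hx).2, hn]; rfl)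

theorem zpow_eq_self {m : ℕ} (hm : ∀ g : K, g ^ m = 1) {a : ℤ} (h : (m : ℤ) ∣ a - 1) (x : K) :
    x ^ a = x := by
  obtain ⟨k, hk⟩ := h
  have : a = 1 + m * k := by linear_combination hk
  rw [this, zpow_add, zpow_one, zpow_mul, zpow_natCast, hm, one_zpow, mul_one]

theorem lift_central {φ : K →* K} {n m : ℕ} (hop : Op φ n m) (hn : 0 < n)
    (hnm : IsCoprime (n : ℤ) (m : ℤ)) {ζ : ℤ} (hζ : (m : ℤ) ∣ ζ ^ n - 1) {S : Subgroup K}
    (hS : ∀ x ∈ S, φ x ∈ S) (hc : S ≤ center K) {x : K} (hx : (x ^ ζ)⁻¹ * φ x ∈ S) :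
    ∃ y ∈ S, φ (x * y) = (x * y) ^ ζ := by
  have hcomm : ∀ y ∈ S, ∀ g : K, Commute g y := fun y hy g => Subgroup.mem_center_iff.1 (hc hy) g
  obtain ⟨X, _, π, hπ⟩ := exists_sec S ⊥ (by
    rw [Subgroup.commutator_le]
    intro a _ b hb
    exact commutatorElement_eq_one_iff_commute.2 (hcomm b hb a))
  obtain ⟨ψ, hψ⟩ := hπ.exists_end φ hS (fun y hy => by
    rw [Subgroup.mem_bot] at hy ⊢; rw [hy, map_one])
  have hm := hπ.smul_eq_zero fun g _ => hop.exp g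
  set z := (x ^ ζ)⁻¹ * φ x with hz
  have hφx : φ x = x ^ ζ * z := by rw [hz, mul_inv_cancel_left]
  have key : ∀ t : ℕ, ∃ y ∈ S, φ^[t] x = x ^ ζ ^ t * y ∧ π y = gs ψ ζ t (π z) := by
    intro t
    induction t with
    | zero => exact ⟨1, S.one_mem, by simp, by simp [gs, hπ.addOn.one]⟩
    | succ t ih =>
      obtain ⟨y, hy, e1, e2⟩ := ih
      refine ⟨z ^ ζ ^ t * φ y, S.mul_mem (S.zpow_mem hx _) (hS y hy), ?_, ?_⟩
      · rw [Function.iterate_succ_apply', e1, map_mul, map_zpow, hφx,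
          (hcomm z hx _).mul_zpow, ← zpow_mul, ← pow_succ', mul_assoc]
      · rw [hπ.mul _ (S.zpow_mem hx _) _ (hS y hy), hπ.addOn.zpow hx, ← hψ y hy, e2, gs_succ,
          LinearMap.add_apply, castpow_apply, Module.End.mul_apply]
  obtain ⟨y₀, hy₀, e1, e2⟩ := key n
  rw [hop.ord, zpow_eq_self hop.exp hζ, left_eq_mul] at e1
  rw [e1, hπ.addOn.one] at e2
  have hmem : π z ∈ (LinearMap.range (ψ - (ζ : Module.End ℤ X))).toAddSubgroup := by
    refine mem_of_gs hm hn hnm hζ (ψ := ψ) ?_ ⟨π z, rfl⟩ (by rw [← e2]; exact AddSubgroup.zero_mem _)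
    rintro _ ⟨v, rfl⟩
    refine ⟨ψ v, ?_⟩
    rw [← Module.End.mul_apply, ← Module.End.mul_apply]
    congr 1
    exact ((Commute.refl ψ).sub_left (Int.cast_commute ζ ψ)).eq
  obtain ⟨v, hv⟩ := hmem
  obtain ⟨y, hy, rfl⟩ := hπ.surj v
  refine ⟨y⁻¹, S.inv_mem hy, ?_⟩
  have h1 : π (z * φ y⁻¹) = π (y⁻¹ ^ ζ) := by
    rw [hπ.mul _ hx _ (hS _ (S.inv_mem hy)), ← hψ _ (S.inv_mem hy),
      hπ.addOn.zpow (S.inv_mem hy), hπ.addOn.inv hy, ← hv, map_neg]
    show ψ (π y) - ζ • π y + _ = _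
    rw [smul_neg]; abel
  rw [hπ.eq_iff (S.mul_mem hx (hS _ (S.inv_mem hy))) (S.zpow_mem (S.inv_mem hy) _),
    Subgroup.mem_bot, mul_inv_eq_one] at h1
  rw [map_mul, hφx, mul_assoc, h1, (hcomm _ (S.inv_mem hy) x).mul_zpow]

theorem center_inv {φ : K →* K} (hφ : Function.Surjective φ) : ∀ x ∈ center K, φ x ∈ center K := by
  intro x hx
  rw [Subgroup.mem_center_iff] at hx ⊢
  intro g
  obtain ⟨g, rfl⟩ := hφ g
  rw [← map_mul, hx, map_mul]

/-- eigen-elements lift through invariant normal subgroups -/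
theorem lift_eigen {n m : ℕ} (hn : 0 < n) (hnm : IsCoprime (n : ℤ) (m : ℤ)) {ζ : ℤ}
    (hζ : (m : ℤ) ∣ ζ ^ n - 1) (K : Type) [Group K] [Group.IsNilpotent K] :
    ∀ (φ : K →* K), Op φ n m → ∀ (N : Subgroup K), N.Normal → (∀ x ∈ N, φ x ∈ N) →
      ∀ x : K, (x ^ ζ)⁻¹ * φ x ∈ N → ∃ y ∈ N, φ (x * y) = (x * y) ^ ζ := by
  refine Group.nilpotent_center_quotient_ind (P := fun K _ _ => ∀ (φ : K →* K), Op φ n m →
    ∀ (N : Subgroup K), N.Normal → (∀ x ∈ N, φ x ∈ N) →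
      ∀ x : K, (x ^ ζ)⁻¹ * φ x ∈ N → ∃ y ∈ N, φ (x * y) = (x * y) ^ ζ) K ?_ ?_
  · intro K _ _ φ _ N _ _ x _
    exact ⟨1, N.one_mem, Subsingleton.elim _ _⟩
  · intro K _ _ ih φ hop N hN hinv x hx
    have hZ := center_inv (surj_of_iter hn hop.ord)
    obtain ⟨ψ, hψ⟩ := exists_quot φ (center K) hZ
    have hs := QuotientGroup.mk'_surjective (center K)
    obtain ⟨_, ⟨ν, hν, rfl⟩, e⟩ := ih ψ (hop.of_surj hs hψ) (N.map (QuotientGroup.mk' _))
      (hN.map _ hs) (by rintro _ ⟨y, hy, rfl⟩; exact ⟨φ y, hinv y hy, (hψ y).symm⟩)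
      (QuotientGroup.mk' _ x) ⟨_, hx, by rw [map_mul, map_inv, map_zpow, hψ]⟩
    have h1 : ((x * ν) ^ ζ)⁻¹ * φ (x * ν) ∈ center K := by
      rw [← QuotientGroup.ker_mk' (center K), MonoidHom.mem_ker, map_mul, map_inv, map_zpow,
        ← hψ, map_mul, e, inv_mul_cancel]
    have h2 : ((x * ν) ^ ζ)⁻¹ * φ (x * ν) ∈ N := by
      have a1 : QuotientGroup.mk' N ν = 1 := (QuotientGroup.eq_one_iff _).2 hν
      have a2 : QuotientGroup.mk' N (φ ν) = 1 := (QuotientGroup.eq_one_iff _).2 (hinv ν hν)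
      have a3 : QuotientGroup.mk' N ((x ^ ζ)⁻¹ * φ x) = 1 := (QuotientGroup.eq_one_iff _).2 hx
      rw [← QuotientGroup.ker_mk' N, MonoidHom.mem_ker, ← a3]
      simp only [map_mul, map_inv, map_zpow, a1, a2, mul_one]
    obtain ⟨y, hy, e'⟩ := lift_central hop hn hnm hζ (S := center K ⊓ N)
      (fun y hy => ⟨hZ y hy.1, hinv y hy.2⟩) inf_le_left ⟨h1, h2⟩
    exact ⟨ν * y, N.mul_mem hν hy.2, by rwa [← mul_assoc]⟩

end Grp

end Pool.Agent.LawP
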