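import Pool.Agent.P.MP_ec89a0_al.LP6

/-! Kreknin's argument for nilpotent groups whose exponent admits the roots of unity. -/

namespace Pool.Agent.LawP

open Subgroup
open scoped commutatorElement

variable {K : Type} [Group K]

/-- eigen-elements inside `H` with weight in `[k, n)` -/
def eigS (φ : K →* K) (l : ℤ) (n k : ℕ) (H : Subgroup K) : Set K :=
  {x | x ∈ H ∧ ∃ j, k ≤ j ∧ j < n ∧ φ x = x ^ l ^ j}

theorem closure_eigS_le (φ : K →* K) (l : ℤ) (n k : ℕ) (H : Subgroup K) :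
    closure (eigS φ l n k H) ≤ H := (closure_le _).2 fun _ hx => hx.1

theorem closure_inv {φ : K →* K} {s : Set K} (h : ∀ x ∈ s, φ x ∈ closure s) :
    ∀ x ∈ closure s, φ x ∈ closure s := by
  have : closure s ≤ (closure s).comap φ := (closure_le _).2 h
  exact this

theorem closure_eigS_inv (φ : K →* K) (l : ℤ) (n k : ℕ) (H : Subgroup K) :
    ∀ x ∈ closure (eigS φ l n k H), φ x ∈ closure (eigS φ l n k H) := by
  refine closure_inv fun x hx => ?_
  obtain ⟨j, _, _, e⟩ := hx.2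
  rw [e]
  exact Subgroup.zpow_mem _ (subset_closure hx) _

theorem comm_inv {φ : K →* K} {A B : Subgroup K} (hA : ∀ x ∈ A, φ x ∈ A) (hB : ∀ x ∈ B, φ x ∈ B) :
    ∀ x ∈ ⁅A, B⁆, φ x ∈ ⁅A, B⁆ := by
  have : ⁅A, B⁆ ≤ (⁅A, B⁆).comap φ := by
    rw [Subgroup.commutator_le]
    intro a ha b hb
    rw [Subgroup.mem_comap, map_commutatorElement]
    exact Subgroup.commutator_mem_commutator (hA a ha) (hB b hb)
  exact this

theorem lcs_inv {φ : K →* K} {A : Subgroup K} (hA : ∀ x ∈ A, φ x ∈ A) (k : ℕ) :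
    ∀ x ∈ A.lowerCentralSeries k, φ x ∈ A.lowerCentralSeries k := by
  induction k with
  | zero => exact hA
  | succ k ih => exact comm_inv ih hA

/-- the image of a subgroup of `S` in the section -/
def AddOn.img {S : Subgroup K} {X : Type} [AddCommGroup X] {π : K → X} (h : AddOn S π)
    (C : Subgroup K) (hC : C ≤ S) : AddSubgroup X where
  carrier := {v | ∃ x ∈ C, π x = v}
  zero_mem' := ⟨1, C.one_mem, h.one⟩
  add_mem' := by
    rintro _ _ ⟨x, hx, rfl⟩ ⟨y, hy, rfl⟩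
    exact ⟨x * y, C.mul_mem hx hy, h x (hC hx) y (hC hy)⟩
  neg_mem' := by
    rintro _ ⟨x, hx, rfl⟩
    exact ⟨x⁻¹, C.inv_mem hx, h.inv (hC hx)⟩

theorem AddOn.closure_mem {S : Subgroup K} {X : Type} [AddCommGroup X] {π : K → X} (h : AddOn S π)
    {s : Set K} (hs : closure s ≤ S) {U : AddSubgroup X} (hU : ∀ x ∈ s, π x ∈ U) :
    ∀ x ∈ closure s, π x ∈ U := by
  intro x hx
  induction hx using Subgroup.closure_induction with
  | mem y hy => exact hU y hy
  | one => rw [h.one]; exact U.zero_mem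
  | mul a b ha hb iha ihb => rw [h a (hs ha) b (hs hb)]; exact U.add_mem iha ihb
  | inv a ha iha => rw [h.inv (hs ha)]; exact U.neg_mem iha

theorem decomp [Group.IsNilpotent K] {φ : K →* K} {n m : ℕ} {l : ℤ} (hnum : Num n m l)
    (hop : Op φ n m) {Γ N : Subgroup K} [hN : N.Normal] (hΓ : ∀ x ∈ Γ, φ x ∈ Γ)
    (hNi : ∀ x ∈ N, φ x ∈ N) (hle : N ≤ Γ) (hab : ⁅Γ, Γ⁆ ≤ N) {y : K} (hy : y ∈ Γ) :
    ∃ c ∈ closure (eigS φ l n 0 Γ), y * c⁻¹ ∈ N := by
  obtain ⟨X, _, π, hπ⟩ := exists_sec Γ N hab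
  obtain ⟨ψ, hψ⟩ := hπ.exists_end φ hΓ hNi
  have hm := hπ.smul_eq_zero fun g _ => hop.exp g
  have := mem_of_eigen hnum hm (hπ.end_pow_eq_one hΓ hψ hop.ord)
    (U := hπ.addOn.img _ (closure_eigS_le φ l n 0 Γ)) (by
      intro i hi v hv
      obtain ⟨x, hx, rfl⟩ := hπ.surj v
      rw [hψ x hx, ← hπ.addOn.zpow hx, hπ.eq_iff (hΓ x hx) (Γ.zpow_mem hx _)] at hv
      have hv' : (x ^ l ^ i)⁻¹ * φ x ∈ N := hN.mem_comm hv
      obtain ⟨ν, hν, e⟩ := lift_eigen hnum.pos hnum.cop (hnum.pow_pow i) K φ hop N hN hNi x hv'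
      refine ⟨x * ν, subset_closure ⟨Γ.mul_mem hx (hle hν), i, Nat.zero_le _, hi, e⟩, ?_⟩
      rw [hπ.mul x hx ν (hle hν), (hπ.ker ν (hle hν)).2 hν, add_zero]) (π y)
  obtain ⟨c, hc, e⟩ := this
  exact ⟨c, hc, (hπ.eq_iff hy (closure_eigS_le φ l n 0 Γ hc)).1 e.symm⟩

theorem fpf_quot [Group.IsNilpotent K] {φ : K →* K} {n m : ℕ} (hn : 0 < n)
    (hnm : IsCoprime (n : ℤ) (m : ℤ)) (hop : Op φ n m) (hf : ∀ x, φ x = x → x = 1)
    {N : Subgroup K} [hN : N.Normal] (hNi : ∀ x ∈ N, φ x ∈ N) {ψ : K ⧸ N →* K ⧸ N}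
    (hψ : ∀ x, ψ (QuotientGroup.mk' N x) = QuotientGroup.mk' N (φ x)) :
    ∀ x, ψ x = x → x = 1 := by
  intro x hx
  obtain ⟨x, rfl⟩ := QuotientGroup.mk'_surjective N x
  have h1 : (x ^ (1 : ℤ))⁻¹ * φ x ∈ N := by
    rw [← QuotientGroup.ker_mk' N, MonoidHom.mem_ker, zpow_one, map_mul, map_inv, ← hψ, hx,
      inv_mul_cancel]
  obtain ⟨ν, hν, e⟩ := lift_eigen hn hnm (ζ := 1) (by simp) K φ hop N hN hNi x h1
  rw [zpow_one] at e
  have h2 := hf _ e
  rw [mul_eq_one_iff_eq_inv] at h2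
  rw [h2]
  exact (QuotientGroup.eq_one_iff _).2 (N.inv_mem hν)

theorem comm_mul_right {y g h : K} (hc : ⁅y, h⁆ ∈ center K) : ⁅y, g * h⁆ = ⁅y, g⁆ * ⁅y, h⁆ := by
  have e := Subgroup.mem_center_iff.1 hc g
  calc ⁅y, g * h⁆ = ⁅y, g⁆ * (g * ⁅y, h⁆) * g⁻¹ := by simp only [commutatorElement_def]; group
    _ = ⁅y, g⁆ * ⁅y, h⁆ := by rw [e]; group

theorem comm_mul_left {y y' g : K} (hc : ⁅y', g⁆ ∈ center K) :
    ⁅y * y', g⁆ = ⁅y, g⁆ * ⁅y', g⁆ := by
  have e := Subgroup.mem_center_iff.1 hc y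
  have e2 := Subgroup.mem_center_iff.1 hc ⁅y, g⁆
  calc ⁅y * y', g⁆ = (y * ⁅y', g⁆) * y⁻¹ * ⁅y, g⁆ := by simp only [commutatorElement_def]; group
    _ = ⁅y', g⁆ * ⁅y, g⁆ := by rw [e]; group
    _ = ⁅y, g⁆ * ⁅y', g⁆ := e2.symm

theorem central_part [Group.IsNilpotent K] {φ : K →* K} {n m : ℕ} {l : ℤ} (hnum : Num n m l)
    (hop : Op φ n m) (hf : ∀ x, φ x = x → x = 1) {k : ℕ} (hk : k < n)
    (hgen : closure (eigS φ l n k ⊤) = ⊤) {Γ : Subgroup K} [Γ.Normal] (hΓ : ∀ x ∈ Γ, φ x ∈ Γ)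
    (hc : ⁅Γ, (⊤ : Subgroup K)⁆ ≤ center K) {z : K} (hz : z ∈ ⁅Γ, (⊤ : Subgroup K)⁆)
    (hzz : φ z * (z ^ l ^ k)⁻¹ ∈ closure (eigS φ l n (k + 1) ⊤)) :
    z ∈ closure (eigS φ l n (k + 1) ⊤) := by
  set N := ⁅Γ, (⊤ : Subgroup K)⁆ with hNdef
  set Kp := closure (eigS φ l n (k + 1) ⊤) with hKp
  have hNi : ∀ x ∈ N, φ x ∈ N := comm_inv hΓ fun _ _ => trivial
  obtain ⟨X, _, π, hπ⟩ := exists_sec N ⊥ (by
    rw [Subgroup.commutator_le]
    intro a _ b hb
    exact commutatorElement_eq_one_iff_commute.2 (Subgroup.mem_center_iff.1 (hc hb) a))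
  obtain ⟨ψ, hψ⟩ := hπ.exists_end φ hNi (fun y hy => by
    rw [Subgroup.mem_bot] at hy ⊢; rw [hy, map_one])
  have hm := hπ.smul_eq_zero fun g _ => hop.exp g
  have hψn := hπ.end_pow_eq_one hNi hψ hop.ord
  set U := hπ.addOn.img (N ⊓ Kp) inf_le_left with hU
  have hUi : ∀ v ∈ U, ψ v ∈ U := by
    rintro _ ⟨x, hx, rfl⟩
    exact ⟨φ x, ⟨hNi x hx.1, closure_eigS_inv φ l n (k + 1) ⊤ x hx.2⟩, (hψ x hx.1).symm⟩
  have hmem : ∀ y ∈ Γ, ∀ g : K, ⁅y, g⁆ ∈ N := fun y hy g =>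
    Subgroup.commutator_mem_commutator hy trivial
  have hB1 : ∀ y ∈ Γ, AddOn ⊤ fun g => π ⁅y, g⁆ := fun y hy g _ h _ => by
    show π ⁅y, g * h⁆ = π ⁅y, g⁆ + π ⁅y, h⁆
    rw [comm_mul_right (hc (hmem y hy h)), hπ.mul _ (hmem y hy g) _ (hmem y hy h)]
  have hB2 : ∀ g : K, AddOn Γ fun y => π ⁅y, g⁆ := fun g y hy y' hy' => by
    show π ⁅y * y', g⁆ = π ⁅y, g⁆ + π ⁅y', g⁆
    rw [comm_mul_left (hc (hmem y' hy' g)), hπ.mul _ (hmem y hy g) _ (hmem y' hy' g)]
  set T : AddSubgroup X := U.comap (gs ψ (l ^ k) n).toAddMonoidHom with hT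
  have base : ∀ g ∈ eigS φ l n k ⊤, ∀ y ∈ eigS φ l n 0 Γ, π ⁅y, g⁆ ∈ T := by
    rintro g ⟨-, j, hj1, hj2, ej⟩ y ⟨hy, i, -, hi2, ei⟩
    show gs ψ (l ^ k) n (π ⁅y, g⁆) ∈ U
    by_cases h1 : i + j = k
    · obtain rfl : i = 0 := by omega
      rw [pow_zero, zpow_one] at ei
      rw [hf y ei, commutatorElement_one_left, hπ.addOn.one, map_zero]
      exact U.zero_mem
    by_cases h2 : i + j = k + n
    · refine gs_mem hUi _ _ ⟨_, ⟨hmem y hy g, ?_⟩, rfl⟩
      have a1 : y ∈ Kp := subset_closure ⟨trivial, i, by omega, hi2, ei⟩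
      have a2 : g ∈ Kp := subset_closure ⟨trivial, j, by omega, hj2, ej⟩
      exact Kp.mul_mem (Kp.mul_mem (Kp.mul_mem a1 a2) (Kp.inv_mem a1)) (Kp.inv_mem a2)
    · rw [gs_eq_zero hm (hnum.pow_pow k) hψn (hnum.cop_diff hk (by omega) h1 h2)]
      · exact U.zero_mem
      · have b1 := (hB2 (g ^ l ^ j)).zpow hy (l ^ i)
        have b2 := (hB1 y hy).zpow (x := g) trivial (l ^ j)
        rw [hψ _ (hmem y hy g), map_commutatorElement, ei, ej, b1, b2, smul_smul, ← pow_add]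
  have step1 : ∀ g ∈ eigS φ l n k ⊤, ∀ y ∈ Γ, π ⁅y, g⁆ ∈ T := by
    intro g hg y hy
    obtain ⟨c, hc1, hc2⟩ := decomp hnum hop hΓ hNi (Subgroup.commutator_le_left _ _)
      (Subgroup.commutator_mono le_rfl le_top) hy
    have h1 := (hB2 g).closure_mem (closure_eigS_le φ l n 0 Γ) (base g hg) c hc1
    have h2 := hB2 g _ (Subgroup.commutator_le_left _ _ hc2) c (closure_eigS_le φ l n 0 Γ hc1)
    simp only [inv_mul_cancel_right] at h2
    have h3 : ⁅y * c⁻¹, g⁆ = 1 :=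
      commutatorElement_eq_one_iff_commute.2 (Subgroup.mem_center_iff.1 (hc hc2) g).symm
    rw [h2, h3, hπ.addOn.one, zero_add]
    exact h1
  have step2 : ∀ y ∈ Γ, ∀ g : K, π ⁅y, g⁆ ∈ T := fun y hy g =>
    (hB1 y hy).closure_mem le_top (fun g hg => step1 g hg y hy) g (by rw [hgen]; trivial)
  have step3 : π z ∈ T := by
    refine hπ.addOn.closure_mem (s := {g | ∃ g₁ ∈ Γ, ∃ g₂ ∈ (⊤ : Subgroup K), ⁅g₁, g₂⁆ = g})
      le_rfl ?_ z hz
    rintro _ ⟨y, hy, g, -, rfl⟩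
    exact step2 y hy g
  have hfin : π z ∈ U := by
    refine mem_of_gs hm hnum.pos hnum.cop (hnum.pow_pow k) hUi ?_ step3
    refine ⟨_, ⟨N.mul_mem (hNi z hz) (N.inv_mem (N.zpow_mem hz _)), hzz⟩, ?_⟩
    rw [hπ.mul _ (hNi z hz) _ (N.inv_mem (N.zpow_mem hz _)), hπ.addOn.inv (N.zpow_mem hz _),
      hπ.addOn.zpow hz, hψ z hz, sub_eq_add_neg]
  obtain ⟨x, hx, e⟩ := hfin
  rw [hπ.eq_iff hx.1 hz, Subgroup.mem_bot, mul_inv_eq_one] at e
  rw [← e]
  exact hx.2

theorem kreknin_a {n m : ℕ} {l : ℤ} (hnum : Num n m l) {k : ℕ} (hk : k < n) (c : ℕ) :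
    ∀ (K : Type) [Group K] (φ : K →* K), Op φ n m → (∀ x, φ x = x → x = 1) →
      (⊤ : Subgroup K).lowerCentralSeries (c + 1) = ⊥ → closure (eigS φ l n k ⊤) = ⊤ →
      ∀ d ∈ commutator K, φ d = d ^ l ^ k → d ∈ closure (eigS φ l n (k + 1) ⊤) := by
  induction c with
  | zero =>
    intro K _ φ _ _ hc _ d hd _
    have : d ∈ (⊥ : Subgroup K) := by rw [← hc]; exact hd
    exact (bot_le : (⊥ : Subgroup K) ≤ _) this
  | succ c ih =>
    intro K _ φ hop hf hc hgen d hd hdk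
    have : Group.IsNilpotent K := Subgroup.nilpotent_iff_lowerCentralSeries.2 ⟨_, hc⟩
    have hΓn := lcs_normal (⊤ : Subgroup K) c
    have hNn := lcs_normal (⊤ : Subgroup K) (c + 1)
    set N := (⊤ : Subgroup K).lowerCentralSeries (c + 1) with hN
    have hNi : ∀ x ∈ N, φ x ∈ N := lcs_inv (fun _ _ => Subgroup.mem_top _) _
    have hcen : N ≤ center K := by
      intro z hz
      rw [Subgroup.mem_center_iff]
      intro g
      have : ⁅z, g⁆ ∈ (⊥ : Subgroup K) := by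
        rw [← hc]; exact Subgroup.commutator_mem_commutator hz trivial
      exact (commutatorElement_eq_one_iff_commute.1 this).symm
    obtain ⟨ψ, hψ⟩ := exists_quot φ N hNi
    have hs := QuotientGroup.mk'_surjective N
    have h1 := ih (K ⧸ N) ψ (hop.of_surj hs hψ) (fpf_quot hnum.pos hnum.cop hop hf hNi hψ)
      (by
        rw [← Subgroup.map_top_of_surjective _ hs, ← Subgroup.map_lowerCentralSeries,
          Subgroup.map_eq_bot_iff, QuotientGroup.ker_mk'])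
      (by
        have e := congrArg (Subgroup.map (QuotientGroup.mk' N)) hgen
        rw [Subgroup.map_top_of_surjective _ hs, MonoidHom.map_closure] at e
        rw [eq_top_iff]
        refine e.ge.trans (Subgroup.closure_mono ?_)
        rintro _ ⟨x, ⟨-, j, hj1, hj2, e⟩, rfl⟩
        exact ⟨trivial, j, hj1, hj2, by rw [hψ, e, map_zpow]⟩)
      (QuotientGroup.mk' N d) (map_derivedSeries_le_derivedSeries _ 1 ⟨d, hd, rfl⟩)
      (by rw [hψ, hdk, map_zpow])
    have h2 : closure (eigS ψ l n (k + 1) ⊤) ≤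
        (closure (eigS φ l n (k + 1) ⊤)).map (QuotientGroup.mk' N) := by
      rw [closure_le]
      rintro x ⟨-, j, hj1, hj2, e⟩
      obtain ⟨x, rfl⟩ := hs x
      obtain ⟨ν, hν, e'⟩ := lift_eigen hnum.pos hnum.cop (hnum.pow_pow j) K φ hop N hNn hNi x (by
        rw [← QuotientGroup.ker_mk' N, MonoidHom.mem_ker, map_mul, map_inv, map_zpow, ← hψ, e,
          inv_mul_cancel])
      refine ⟨x * ν, subset_closure ⟨trivial, j, hj1, hj2, e'⟩, ?_⟩
      rw [map_mul, show QuotientGroup.mk' N ν = 1 from (QuotientGroup.eq_one_iff _).2 hν, mul_one]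
    obtain ⟨κ, hκ, e⟩ := h2 h1
    have hz : κ⁻¹ * d ∈ N := by
      rw [← QuotientGroup.ker_mk' N, MonoidHom.mem_ker, map_mul, map_inv, e, inv_mul_cancel]
    set z := κ⁻¹ * d with hzdef
    have hd' : d = κ * z := by rw [hzdef, mul_inv_cancel_left]
    have h3 : φ z * (z ^ l ^ k)⁻¹ = (φ κ)⁻¹ * κ ^ l ^ k := by
      have hcm : Commute κ z := Subgroup.mem_center_iff.1 (hcen hz) κ
      rw [hd', map_mul, hcm.mul_zpow] at hdk
      rw [mul_inv_eq_iff_eq_mul, mul_assoc, ← hdk, inv_mul_cancel_left]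
    have h4 := central_part hnum hop hf hk hgen (Γ := (⊤ : Subgroup K).lowerCentralSeries c)
      (lcs_inv (fun _ _ => Subgroup.mem_top _) _) hcen hz (by
        rw [h3]
        exact Subgroup.mul_mem _ (Subgroup.inv_mem _ (closure_eigS_inv φ l n (k + 1) ⊤ κ hκ))
          (Subgroup.zpow_mem _ hκ _))
    rw [hd']
    exact Subgroup.mul_mem _ hκ h4

/-- derived series of a subgroup inside the ambient group -/
def ds (H : Subgroup K) : ℕ → Subgroup K
  | 0 => H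
  | k + 1 => ⁅ds H k, ds H k⁆

theorem ds_add (H : Subgroup K) (a b : ℕ) : ds H (a + b) = ds (ds H a) b := by
  induction b with
  | zero => rfl
  | succ b ih => show ⁅ds H (a + b), ds H (a + b)⁆ = ⁅_, _⁆; rw [ih]

theorem ds_mono {H H' : Subgroup K} (h : H ≤ H') (k : ℕ) : ds H k ≤ ds H' k := by
  induction k with
  | zero => exact h
  | succ k ih => exact Subgroup.commutator_mono ih ih

theorem comm_self_le (H : Subgroup K) : ⁅H, H⁆ ≤ H := by
  rw [Subgroup.commutator_le]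
  intro a ha b hb
  exact H.mul_mem (H.mul_mem (H.mul_mem ha hb) (H.inv_mem ha)) (H.inv_mem hb)

theorem ds_le (H : Subgroup K) (k : ℕ) : ds H k ≤ H := by
  induction k with
  | zero => exact le_rfl
  | succ k ih => exact (comm_self_le _).trans ih

theorem ds_inv {φ : K →* K} {H : Subgroup K} (h : ∀ x ∈ H, φ x ∈ H) (k : ℕ) :
    ∀ x ∈ ds H k, φ x ∈ ds H k := by
  induction k with
  | zero => exact h
  | succ k ih => exact comm_inv ih ih

theorem ds_normal (H : Subgroup K) [hH : H.Normal] (k : ℕ) : (ds H k).Normal := by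
  induction k with
  | zero => exact hH
  | succ k ih => exact Subgroup.commutator_normal _ _

theorem map_ds {G : Type} [Group G] (θ : K →* G) (H : Subgroup K) (k : ℕ) :
    (ds H k).map θ = ds (H.map θ) k := by
  induction k with
  | zero => rfl
  | succ k ih => show (⁅ds H k, ds H k⁆).map θ = ⁅_, _⁆; rw [Subgroup.map_commutator, ih]

theorem ds_top (k : ℕ) : ds (⊤ : Subgroup K) k = derivedSeries K k := by
  induction k with
  | zero => rfl
  | succ k ih => show ⁅ds ⊤ k, ds ⊤ k⁆ = _; rw [ih, derivedSeries_succ]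

theorem map_closure_eigS {φ : K →* K} {S : Subgroup K} {ψ : S →* S}
    (hψ : ∀ x, φ (S.subtype x) = S.subtype (ψ x)) (l : ℤ) (n k : ℕ) :
    (closure (eigS ψ l n k ⊤)).map S.subtype = closure (eigS φ l n k S) := by
  rw [MonoidHom.map_closure]
  congr 1
  ext x
  constructor
  · rintro ⟨y, ⟨-, j, h1, h2, e⟩, rfl⟩
    exact ⟨y.2, j, h1, h2, by rw [hψ, e, map_zpow]⟩
  · rintro ⟨hx, j, h1, h2, e⟩
    refine ⟨⟨x, hx⟩, ⟨trivial, j, h1, h2, ?_⟩, rfl⟩
    apply S.subtype_injective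
    rw [← hψ, map_zpow]
    exact e

theorem kreknin_b [Group.IsNilpotent K] {φ : K →* K} {n m : ℕ} {l : ℤ} (hnum : Num n m l)
    (hop : Op φ n m) (hf : ∀ x, φ x = x → x = 1) (k : ℕ) : k < n →
    ∀ H : Subgroup K, (∀ x ∈ H, φ x ∈ H) → ds H (2 ^ k - 1) ≤ closure (eigS φ l n (k + 1) H) := by
  have fpf : ∀ {S : Subgroup K} {ψ : S →* S}, (∀ x, φ (S.subtype x) = S.subtype (ψ x)) →
      ∀ x, ψ x = x → x = 1 := by
    intro S ψ hψ x hx
    apply S.subtype_injective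
    rw [map_one]
    exact hf _ (by rw [hψ, hx])
  induction k with
  | zero =>
    intro _ H hH
    obtain ⟨ψ, hψ⟩ := exists_restr φ H hH
    obtain ⟨c, hc⟩ := exists_lcs_top H
    have h1 : closure (eigS ψ l n 1 ⊤) = ⊤ := by
      refine eq_top_of_sup_comm hc ?_
      rw [eq_top_iff]
      intro y _
      obtain ⟨c, hc1, hc2⟩ := decomp hnum (hop.of_inj H.subtype_injective hψ) (Γ := ⊤)
        (N := ⁅⊤, ⊤⁆) (fun _ _ => trivial) (comm_inv (fun _ _ => trivial) fun _ _ => trivial)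
        le_top le_rfl (y := y) trivial
      have hle : closure (eigS ψ l n 0 ⊤) ≤ closure (eigS ψ l n 1 ⊤) := by
        rw [closure_le]
        rintro x ⟨-, j, -, h2, e⟩
        rcases Nat.eq_zero_or_pos j with rfl | hj
        · rw [pow_zero, zpow_one] at e
          rw [fpf hψ x e]
          exact Subgroup.one_mem _
        · exact subset_closure ⟨trivial, j, hj, h2, e⟩
      have := Subgroup.mul_mem _ (Subgroup.mem_sup_right hc2 :
        _ ∈ closure (eigS ψ l n 1 ⊤) ⊔ ⁅⊤, ⊤⁆) (Subgroup.mem_sup_left (hle hc1))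
      rwa [inv_mul_cancel_right] at this
    rw [← map_closure_eigS hψ, h1, ← MonoidHom.range_eq_map, Subgroup.range_subtype]
    exact le_rfl
  | succ k ih =>
    intro hk H hH
    have hpos : 0 < 2 ^ k := Nat.pos_of_ne_zero (by positivity)
    have e1 : 2 ^ (k + 1) - 1 = 2 ^ k + (2 ^ k - 1) := by omega
    rw [e1, ds_add]
    refine (ih (by omega) _ (ds_inv hH _)).trans ?_
    rw [closure_le]
    rintro x ⟨hx, j, h1, h2, e⟩
    rcases h1.eq_or_lt with rfl | hj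
    · set L := closure (eigS φ l n (k + 1) H) with hL
      have hLi := closure_eigS_inv φ l n (k + 1) H
      have hx' : x ∈ ⁅L, L⁆ := by
        have e2 : 2 ^ k = (2 ^ k - 1) + 1 := by omega
        rw [e2] at hx
        exact Subgroup.commutator_mono (ih (by omega) H hH) (ih (by omega) H hH) hx
      obtain ⟨ψ, hψ⟩ := exists_restr φ L hLi
      obtain ⟨c, hc⟩ := exists_lcs_top L
      rw [← Subgroup.map_subtype_commutator] at hx'
      obtain ⟨y, hy, rfl⟩ := hx'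
      have h3 := kreknin_a hnum h2 c L ψ (hop.of_inj L.subtype_injective hψ) (fpf hψ)
        (le_bot_iff.1 ((Subgroup.lowerCentralSeries_antitone _ (Nat.le_succ c)).trans hc.le))
        (by
          apply Subgroup.map_injective L.subtype_injective
          rw [map_closure_eigS hψ, ← MonoidHom.range_eq_map, Subgroup.range_subtype]
          refine le_antisymm (closure_eigS_le _ _ _ _ _) ?_
          rw [hL]
          exact Subgroup.closure_mono fun z hz => ⟨subset_closure hz, hz.2⟩)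
        y hy (by
          apply L.subtype_injective
          rw [← hψ, map_zpow]
          exact e)
      have h4 := Subgroup.mem_map_of_mem L.subtype h3
      rw [map_closure_eigS hψ] at h4
      have h5 : eigS φ l n (k + 1 + 1) L ⊆ eigS φ l n (k + 1 + 1) H :=
        fun z hz => ⟨closure_eigS_le φ l n (k + 1) H hz.1, hz.2⟩
      exact Subgroup.closure_mono h5 h4
    · exact subset_closure ⟨ds_le H _ hx, j, hj, h2, e⟩

theorem kreknin_group [Group.IsNilpotent K] {φ : K →* K} {n m : ℕ} {l : ℤ} (hnum : Num n m l)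
    (hop : Op φ n m) (hf : ∀ x, φ x = x → x = 1) : ds (⊤ : Subgroup K) (2 ^ (n - 1) - 1) = ⊥ := by
  have hn := hnum.pos
  have := kreknin_b hnum hop hf (n - 1) (by omega) ⊤ fun _ _ => trivial
  refine le_bot_iff.1 (this.trans ?_)
  rw [closure_le]
  rintro x ⟨-, j, h1, h2, -⟩
  omega

end Pool.Agent.LawP
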