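import Pool.Agent.P.MP_ec89a0_al.LP7

/-! Transfer from primes congruent to one to all large primes, for bounded class. -/

namespace Pool.Agent.LawP

open Subgroup
open scoped commutatorElement

variable {K : Type} [Group K]

theorem eq_one_of_coprime {x : K} {a b : ℕ} (ha : x ^ a = 1) (hb : x ^ b = 1) (h : a.Coprime b) :
    x = 1 := by
  have := pow_gcd_eq_one.2 ⟨ha, hb⟩
  rwa [h, pow_one] at this

theorem comm_pow_left {y g : K} (hc : ⁅y, g⁆ ∈ center K) (k : ℕ) : ⁅y ^ k, g⁆ = ⁅y, g⁆ ^ k := by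
  induction k with
  | zero => simp
  | succ k ih => rw [pow_succ, comm_mul_left hc, ih, pow_succ]

theorem comm_pow_right {y g : K} (hc : ⁅y, g⁆ ∈ center K) (k : ℕ) : ⁅y, g ^ k⁆ = ⁅y, g⁆ ^ k := by
  induction k with
  | zero => simp
  | succ k ih => rw [pow_succ, comm_mul_right hc, ih, pow_succ]

/-- central elements killed by `m` -/
def cenTor (K : Type) [Group K] (m : ℕ) : Subgroup K where
  carrier := {z | z ∈ center K ∧ z ^ m = 1}
  one_mem' := ⟨Subgroup.one_mem _, one_pow m⟩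
  mul_mem' := fun {a b} ha hb => ⟨Subgroup.mul_mem _ ha.1 hb.1, by
    rw [(show Commute a b from Subgroup.mem_center_iff.1 hb.1 a).mul_pow, ha.2, hb.2, mul_one]⟩
  inv_mem' := fun {a} ha => ⟨Subgroup.inv_mem _ ha.1, by rw [inv_pow, ha.2, inv_one]⟩

theorem lcs_le_center {c : ℕ} (hc : (⊤ : Subgroup K).lowerCentralSeries (c + 1) = ⊥) :
    (⊤ : Subgroup K).lowerCentralSeries c ≤ center K := by
  intro z hz
  rw [Subgroup.mem_center_iff]
  intro g
  have : ⁅z, g⁆ ∈ (⊥ : Subgroup K) := by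
    rw [← hc]; exact Subgroup.commutator_mem_commutator hz trivial
  exact (commutatorElement_eq_one_iff_commute.1 this).symm

theorem exp_of_gen (m c : ℕ) : ∀ (K : Type) [Group K] (s : Set K), closure s = ⊤ →
    (∀ g ∈ s, g ^ m = 1) → (⊤ : Subgroup K).lowerCentralSeries c = ⊥ → ∀ g : K, g ^ m ^ c = 1 := by
  induction c with
  | zero =>
    intro K _ s _ _ hc g
    have : g ∈ (⊥ : Subgroup K) := by rw [← hc]; trivial
    rw [pow_zero, pow_one]; exact this
  | succ c ih =>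
    intro K _ s hs hm hc g
    have hNn := lcs_normal (⊤ : Subgroup K) c
    have hcen := lcs_le_center hc
    have hN : (⊤ : Subgroup K).lowerCentralSeries c ≤ cenTor K m := by
      rcases c with _ | c
      · show ⊤ ≤ _
        rw [← hs, closure_le]
        exact fun g hg => ⟨hcen trivial, hm g hg⟩
      · rw [Subgroup.lowerCentralSeries_succ, Subgroup.commutator_le]
        intro y hy g _
        have hy' : ∀ h : K, ⁅y, h⁆ ∈ center K := fun h =>
          hcen (Subgroup.commutator_mem_commutator hy trivial)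
        have hg : g ∈ closure s := by rw [hs]; trivial
        induction hg using Subgroup.closure_induction with
        | mem x hx => exact ⟨hy' x, by rw [← comm_pow_right (hy' x), hm x hx]; simp⟩
        | one => rw [commutatorElement_one_right]; exact Subgroup.one_mem _
        | mul a b _ _ ha hb =>
          rw [comm_mul_right (hy' b)]; exact Subgroup.mul_mem _ (ha trivial) (hb trivial)
        | inv a _ ha =>
          have e := comm_mul_right (g := a) (hy' a⁻¹)
          rw [mul_inv_cancel, commutatorElement_one_right, eq_comm, mul_eq_one_iff_inv_eq] at e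
          rw [← e]; exact Subgroup.inv_mem _ (ha trivial)
    set N := (⊤ : Subgroup K).lowerCentralSeries c with hNdef
    have hsj := QuotientGroup.mk'_surjective N
    have h1 := ih (K ⧸ N) (QuotientGroup.mk' N '' s)
      (by rw [← MonoidHom.map_closure, hs, Subgroup.map_top_of_surjective _ hsj])
      (by rintro _ ⟨x, hx, rfl⟩; rw [← map_pow, hm x hx, map_one])
      (by
        rw [← Subgroup.map_top_of_surjective _ hsj, ← Subgroup.map_lowerCentralSeries,
          Subgroup.map_eq_bot_iff, QuotientGroup.ker_mk'])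
      (QuotientGroup.mk' N g)
    rw [← map_pow, ← MonoidHom.mem_ker, QuotientGroup.ker_mk'] at h1
    rw [pow_succ, pow_mul]
    exact (hN h1).2

theorem pow_pow_of_le {x : K} {l a b : ℕ} (h : x ^ l ^ a = 1) (hab : a ≤ b) : x ^ l ^ b = 1 := by
  obtain ⟨d, rfl⟩ := Nat.exists_eq_add_of_le hab
  rw [pow_add, pow_mul, h, one_pow]

theorem exists_unif {s : Set K} (hs : s.Finite) {l : ℕ} (F : K → K)
    (h : ∀ g ∈ s, ∃ a, F g ^ l ^ a = 1) : ∃ a, ∀ g ∈ s, F g ^ l ^ a = 1 := by
  choose! a ha using h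
  obtain ⟨B, hB⟩ := (hs.image a).bddAbove
  exact ⟨B, fun g hg => pow_pow_of_le (ha g hg) (hB ⟨g, hg, rfl⟩)⟩

theorem torsion_of_center (l : ℕ) (K : Type) [Group K] [Group.IsNilpotent K] :
    ∀ s : Set K, s.Finite → closure s = ⊤ → (∀ z ∈ center K, ∃ a, z ^ l ^ a = 1) →
      ∀ g : K, ∃ a, g ^ l ^ a = 1 := by
  refine Group.nilpotent_center_quotient_ind (P := fun K _ _ => ∀ s : Set K, s.Finite →
    closure s = ⊤ → (∀ z ∈ center K, ∃ a, z ^ l ^ a = 1) → ∀ g : K, ∃ a, g ^ l ^ a = 1) K ?_ ?_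
  · intro K _ _ _ _ _ _ g
    exact ⟨0, Subsingleton.elim _ _⟩
  · intro K _ _ ih s hfin hs hz g
    have hsj := QuotientGroup.mk'_surjective (center K)
    obtain ⟨a, ha⟩ := ih (QuotientGroup.mk' _ '' s) (hfin.image _)
      (by rw [← MonoidHom.map_closure, hs, Subgroup.map_top_of_surjective _ hsj]) (by
        intro x hx
        obtain ⟨x, rfl⟩ := hsj x
        have h1 : ∀ h : K, ⁅x, h⁆ ∈ center K := fun h => by
          rw [← QuotientGroup.ker_mk' (center K), MonoidHom.mem_ker, map_commutatorElement]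
          exact commutatorElement_eq_one_iff_commute.2
            (Subgroup.mem_center_iff.1 hx _).symm
        obtain ⟨a, ha⟩ := exists_unif hfin (l := l) (fun h => ⁅x, h⁆) fun h _ => hz _ (h1 h)
        refine ⟨a, ?_⟩
        rw [← map_pow, ← MonoidHom.mem_ker, QuotientGroup.ker_mk', Subgroup.mem_center_iff]
        have h2 : closure s ≤ centralizer {x ^ l ^ a} := by
          rw [closure_le]
          intro h hh
          rw [SetLike.mem_coe, Subgroup.mem_centralizer_singleton_iff]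
          have := ha h hh
          rw [← comm_pow_left (h1 h)] at this
          exact (commutatorElement_eq_one_iff_commute.1 this).symm
        intro h
        exact Subgroup.mem_centralizer_singleton_iff.1 (h2 (by rw [hs]; trivial)))
      (QuotientGroup.mk' _ g)
    rw [← map_pow, ← MonoidHom.mem_ker, QuotientGroup.ker_mk'] at ha
    obtain ⟨b, hb⟩ := hz _ ha
    exact ⟨a + b, by rw [pow_add, pow_mul, hb]⟩

theorem normal_of_le_center {N : Subgroup K} (h : N ≤ center K) : N.Normal :=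
  ⟨fun x hx g => by rw [Subgroup.mem_center_iff.1 (h hx) g, mul_inv_cancel_right]; exact hx⟩

theorem resid_central [Group.IsNilpotent K] {l : ℕ} (hl : l.Prime) {s : Set K} (hfin : s.Finite)
    (hs : closure s = ⊤) {z : K} (hz : z ∈ center K) (hinf : ∀ r, 0 < r → z ^ r ≠ 1) :
    ∃ N : Subgroup K, N.Normal ∧ z ∉ N ∧ ∃ a, ∀ g : K, g ^ l ^ a ∈ N := by
  obtain ⟨M, -, hM⟩ := zorn_le_nonempty₀ {M : Subgroup K | M.Normal ∧ z ^ l ∈ M ∧ z ∉ M} (by
      intro c hc hch y hy
      have hd : DirectedOn (· ≤ ·) c := hch.directedOn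
      refine ⟨sSup c, ⟨⟨fun x hx g => ?_⟩, le_sSup hy (hc hy).2.1, ?_⟩, fun _ h => le_sSup h⟩
      · obtain ⟨M, hM, hx⟩ := (Subgroup.mem_sSup_of_directedOn ⟨y, hy⟩ hd).1 hx
        exact le_sSup hM ((hc hM).1.conj_mem x hx g)
      · intro h
        obtain ⟨M, hM, hx⟩ := (Subgroup.mem_sSup_of_directedOn ⟨y, hy⟩ hd).1 h
        exact (hc hM).2.2 hx) (zpowers (z ^ l)) (by
      refine ⟨normal_of_le_center (Subgroup.zpowers_le.2 (Subgroup.pow_mem _ hz l)),
        Subgroup.mem_zpowers _, ?_⟩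
      rintro ⟨k, hk⟩
      have hno : ¬ IsOfFinOrder z := fun h => by
        obtain ⟨r, hr, e⟩ := isOfFinOrder_iff_pow_eq_one.1 h
        exact hinf r hr e
      have h1 : z ^ ((l : ℤ) * k) = z ^ (1 : ℤ) := by
        rw [zpow_mul, zpow_natCast, zpow_one]; exact hk
      have h2 := injective_zpow_iff_not_isOfFinOrder.2 hno h1
      have h3 : (l : ℤ) ∣ 1 := ⟨k, h2.symm⟩
      exact hl.not_dvd_one (Int.natCast_dvd_natCast.1 h3))
  obtain ⟨hMn, hzl, hzM⟩ := hM.prop
  have hsj := QuotientGroup.mk'_surjective M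
  have hz1 : QuotientGroup.mk' M z ≠ 1 := fun e => hzM ((QuotientGroup.eq_one_iff _).1 e)
  have hz2 : QuotientGroup.mk' M z ^ l = 1 := by
    rw [← map_pow]; exact (QuotientGroup.eq_one_iff _).2 hzl
  have mono : ∀ y ∈ center (K ⧸ M), y ≠ 1 → QuotientGroup.mk' M z ∈ zpowers y := by
    intro y hy hy1
    by_contra hc
    have hn : (zpowers y).Normal := normal_of_le_center (Subgroup.zpowers_le.2 hy)
    have hle : M ≤ (zpowers y).comap (QuotientGroup.mk' M) := fun x hx => by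
      rw [Subgroup.mem_comap, show QuotientGroup.mk' M x = 1 from (QuotientGroup.eq_one_iff _).2 hx]
      exact Subgroup.one_mem _
    have h1 := hM.le_of_ge (y := (zpowers y).comap (QuotientGroup.mk' M))
      ⟨hn.comap _, hle hzl, hc⟩ hle
    obtain ⟨y, rfl⟩ := hsj y
    exact hy1 ((QuotientGroup.eq_one_iff _).2 (h1 (Subgroup.mem_zpowers _)))
  have tor : ∀ y ∈ center (K ⧸ M), ∃ a, y ^ l ^ a = 1 := by
    intro y hy
    by_cases hy1 : y = 1
    · exact ⟨0, by rw [hy1, one_pow]⟩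
    obtain ⟨k, hk⟩ := mono y hy hy1
    have hk' : y ^ k = QuotientGroup.mk' M z := hk
    have hk0 : k ≠ 0 := by rintro rfl; exact hz1 (by rw [← hk', zpow_zero])
    have hfo : IsOfFinOrder y := isOfFinOrder_iff_zpow_eq_one.2
      ⟨k * l, mul_ne_zero hk0 (by exact_mod_cast hl.ne_zero), by
        rw [zpow_mul, hk', zpow_natCast, hz2]⟩
    obtain ⟨a, o, ho, e⟩ := Nat.exists_eq_pow_mul_and_not_dvd hfo.orderOf_pos.ne' l hl.ne_one
    refine ⟨a, ?_⟩
    by_contra hne
    obtain ⟨j, hj⟩ := mono _ (Subgroup.pow_mem _ hy _) hne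
    have hj' : (y ^ l ^ a) ^ j = QuotientGroup.mk' M z := hj
    have h1 : (y ^ l ^ a) ^ o = 1 := by rw [← pow_mul, ← e, pow_orderOf_eq_one]
    have h2 : QuotientGroup.mk' M z ^ o = 1 := by
      rw [← hj', ← zpow_natCast, ← zpow_mul, mul_comm, zpow_mul, zpow_natCast, h1, one_zpow]
    exact hz1 (eq_one_of_coprime hz2 h2 ((Nat.Prime.coprime_iff_not_dvd hl).2 ho))
  have hgen : closure (QuotientGroup.mk' M '' s) = ⊤ := by
    rw [← MonoidHom.map_closure, hs, Subgroup.map_top_of_surjective _ hsj]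
  have h1 := torsion_of_center l (K ⧸ M) _ (hfin.image _) hgen tor
  obtain ⟨a, ha⟩ := exists_unif (hfin.image (QuotientGroup.mk' M)) (l := l) id fun g _ => h1 g
  obtain ⟨c, hc⟩ := exists_lcs_top (K ⧸ M)
  refine ⟨M, hMn, hzM, a * c, fun g => ?_⟩
  have := exp_of_gen (l ^ a) c _ _ hgen ha hc (QuotientGroup.mk' M g)
  rwa [← pow_mul, ← map_pow, ← MonoidHom.mem_ker, QuotientGroup.ker_mk'] at this

theorem resid {l : ℕ} (hl : l.Prime) (K : Type) [Group K] [Group.IsNilpotent K] :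
    ∀ s : Set K, s.Finite → closure s = ⊤ → ∀ δ : K, (∀ r, 0 < r → δ ^ r ≠ 1) →
      ∃ N : Subgroup K, N.Normal ∧ δ ∉ N ∧ ∃ a, ∀ g : K, g ^ l ^ a ∈ N := by
  refine Group.nilpotent_center_quotient_ind (P := fun K _ _ => ∀ s : Set K, s.Finite →
    closure s = ⊤ → ∀ δ : K, (∀ r, 0 < r → δ ^ r ≠ 1) →
      ∃ N : Subgroup K, N.Normal ∧ δ ∉ N ∧ ∃ a, ∀ g : K, g ^ l ^ a ∈ N) K ?_ ?_
  · intro K _ _ _ _ _ δ h
    exact absurd (Subsingleton.elim _ _) (h 1 one_pos)
  · intro K _ _ ih s hfin hs δ hδ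
    have hsj := QuotientGroup.mk'_surjective (center K)
    by_cases h : ∀ r, 0 < r → QuotientGroup.mk' (center K) δ ^ r ≠ 1
    · obtain ⟨N, hN, h1, a, ha⟩ := ih (QuotientGroup.mk' _ '' s) (hfin.image _)
        (by rw [← MonoidHom.map_closure, hs, Subgroup.map_top_of_surjective _ hsj]) _ h
      exact ⟨N.comap (QuotientGroup.mk' _), hN.comap _, h1, a, fun g => by
        rw [Subgroup.mem_comap, map_pow]; exact ha _⟩
    · push Not at h
      obtain ⟨r, hr, e⟩ := h
      rw [← map_pow, ← MonoidHom.mem_ker, QuotientGroup.ker_mk'] at e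
      obtain ⟨N, hN, h1, h2⟩ := resid_central hl hfin hs e fun t ht => by
        rw [← pow_mul]; exact hδ _ (Nat.mul_pos hr ht)
      exact ⟨N, hN, fun hm => h1 (N.pow_mem hm r), h2⟩

theorem exists_num {n : ℕ} (hn : 0 < n) : ∃ l : ℕ, l.Prime ∧ ∀ a, ∃ u : ℤ, Num n (l ^ a) u := by
  obtain ⟨l, hl, hlt, hmod⟩ := Nat.exists_prime_gt_modEq_one n hn.ne'
  have := Fact.mk hl
  refine ⟨l, hl, fun a => ?_⟩
  obtain ⟨g, hg⟩ := IsCyclic.exists_ofOrder_eq_natCard (α := (ZMod l)ˣ)
  rw [Nat.card_eq_fintype_card, ZMod.card_units] at hg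
  have hd : n ∣ orderOf g := by
    rw [hg]; exact (Nat.modEq_iff_dvd' hl.one_le).1 hmod.symm
  have ho := orderOf_pow_orderOf_div (orderOf_pos g).ne' hd
  set u := g ^ (orderOf g / n) with hu
  set v : ℤ := ((u : ZMod l).val : ℤ) with hv
  have hvu : (v : ZMod l) = u := by rw [hv, Int.cast_natCast, ZMod.natCast_zmod_val]
  have hlz : Prime (l : ℤ) := Nat.prime_iff_prime_int.1 hl
  have cop : ∀ z : ℤ, (z : ZMod l) ≠ 0 → IsCoprime z ((l ^ a : ℕ) : ℤ) := by
    intro z hz
    rw [Nat.cast_pow]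
    refine IsCoprime.pow_right ((hlz.irreducible.coprime_iff_not_dvd).2 ?_).symm
    rwa [← ZMod.intCast_zmod_eq_zero_iff_dvd]
  refine ⟨v ^ l ^ a, hn, ?_, ?_, ?_⟩
  · have h1 : (l : ℤ) ∣ v ^ n - 1 := by
      rw [← ZMod.intCast_zmod_eq_zero_iff_dvd]
      push_cast
      rw [hvu, ← Units.val_pow_eq_pow_val, ← ho, pow_orderOf_eq_one, Units.val_one, sub_self]
    have h2 := dvd_sub_pow_of_dvd_sub h1 a
    rw [one_pow, ← pow_mul, mul_comm n, pow_mul] at h2
    rw [Nat.cast_pow]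
    exact (pow_dvd_pow _ (Nat.le_succ a)).trans h2
  · intro i hi hin
    apply cop
    push_cast
    rw [ZMod.pow_card_pow, hvu, ← Units.val_pow_eq_pow_val, sub_ne_zero, Ne, Units.val_eq_one]
    exact pow_ne_one_of_lt_orderOf hi.ne' (ho ▸ hin)
  · apply cop
    rw [Int.cast_natCast, Ne, ZMod.natCast_eq_zero_iff]
    exact Nat.not_dvd_of_pos_of_lt hn hlt

/-- the splitting identity -/
def Spl (φ : K →* K) (n : ℕ) : Prop := ∀ x, ((List.range n).map fun k => φ^[k] x).prod = 1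

theorem map_spl {H : Type} [Group H] {φ : K →* K} {ψ : H →* H} {θ : K →* H}
    (hs : ∀ x, ψ (θ x) = θ (φ x)) (n : ℕ) (x : K) :
    θ ((List.range n).map fun k => φ^[k] x).prod =
      ((List.range n).map fun k => ψ^[k] (θ x)).prod := by
  rw [map_list_prod, List.map_map]
  congr 2
  funext k
  exact (semiconj_iter hs k x).symm

theorem Spl.of_surj {H : Type} [Group H] {φ : K →* K} {ψ : H →* H} {n : ℕ} (h : Spl φ n)
    {θ : K →* H} (hθ : Function.Surjective θ) (hs : ∀ x, ψ (θ x) = θ (φ x)) : Spl ψ n := by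
  intro g
  obtain ⟨x, rfl⟩ := hθ g
  rw [← map_spl hs, h x, map_one]

theorem Spl.of_inj {H : Type} [Group H] {φ : K →* K} {ψ : H →* H} {n : ℕ} (h : Spl ψ n)
    {θ : K →* H} (hθ : Function.Injective θ) (hs : ∀ x, ψ (θ x) = θ (φ x)) : Spl φ n := by
  intro g
  apply hθ
  rw [map_spl hs, h, map_one]

theorem Spl.fpf {φ : K →* K} {n m : ℕ} (h : Spl φ n) (hm : ∀ g : K, g ^ m = 1)
    (hc : n.Coprime m) (x : K) (hx : φ x = x) : x = 1 := by
  have h1 := h x
  have : ((List.range n).map fun k => φ^[k] x) = List.replicate n x := by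
    rw [List.eq_replicate_iff]
    refine ⟨by simp, fun y hy => ?_⟩
    obtain ⟨k, -, rfl⟩ := List.mem_map.1 hy
    exact Function.iterate_fixed hx k
  rw [this, List.prod_replicate] at h1
  exact eq_one_of_coprime h1 (hm x) hc

/-- the word of the derived series -/
def dl : ℕ → (ℕ → K) → K
  | 0, f => f 0
  | k + 1, f => ⁅dl k fun i => f (2 * i), dl k fun i => f (2 * i + 1)⁆

theorem dl_mem {S : Subgroup K} (k : ℕ) : ∀ f : ℕ → K, (∀ i, i < 2 ^ k → f i ∈ S) →
    dl k f ∈ ds S k := by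
  induction k with
  | zero => intro f h; exact h 0 one_pos
  | succ k ih =>
    intro f h
    exact Subgroup.commutator_mem_commutator
      (ih _ fun i hi => h _ (by rw [pow_succ]; omega))
      (ih _ fun i hi => h _ (by rw [pow_succ]; omega))

theorem map_dl {H : Type} [Group H] (θ : K →* H) (k : ℕ) : ∀ f : ℕ → K,
    θ (dl k f) = dl k fun i => θ (f i) := by
  induction k with
  | zero => intro f; rfl
  | succ k ih => intro f; show θ ⁅_, _⁆ = ⁅_, _⁆; rw [map_commutatorElement, ih, ih]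

theorem dl_congr (k : ℕ) : ∀ f g : ℕ → K, (∀ i, i < 2 ^ k → f i = g i) → dl k f = dl k g := by
  induction k with
  | zero => intro f g h; exact h 0 one_pos
  | succ k ih =>
    intro f g h
    show ⁅dl k _, dl k _⁆ = ⁅dl k _, dl k _⁆
    rw [ih _ (fun i => g (2 * i)) fun i hi => h _ (by rw [pow_succ]; omega),
      ih (fun i => f (2 * i + 1)) (fun i => g (2 * i + 1))
        fun i hi => h _ (by rw [pow_succ]; omega)]

/-- orbits of the first `t` members of a sequence -/
def orb (φ : K →* K) (n t : ℕ) (f : ℕ → K) : Set K := {x | ∃ j < n, ∃ i < t, φ^[j] (f i) = x}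

theorem orb_finite (φ : K →* K) (n t : ℕ) (f : ℕ → K) : (orb φ n t f).Finite := by
  refine (((Set.finite_lt_nat n).prod (Set.finite_lt_nat t)).image
    fun p : ℕ × ℕ => φ^[p.1] (f p.2)).subset ?_
  rintro _ ⟨j, hj, i, hi, rfl⟩
  exact ⟨(j, i), ⟨hj, hi⟩, rfl⟩

theorem orb_inv {φ : K →* K} {n : ℕ} (h : ∀ x, φ^[n] x = x) (t : ℕ) (f : ℕ → K) :
    ∀ x ∈ closure (orb φ n t f), φ x ∈ closure (orb φ n t f) := by
  refine closure_inv ?_
  rintro _ ⟨j, hj, i, hi, rfl⟩
  apply Subgroup.subset_closure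
  rw [← Function.iterate_succ_apply' φ]
  rcases Nat.lt_or_eq_of_le (Nat.succ_le_of_lt hj) with h1 | h1
  · exact ⟨j + 1, h1, i, hi, rfl⟩
  · exact ⟨0, by omega, i, hi, by rw [h1, h]; rfl⟩

theorem fg_torsion [Group.IsNilpotent K] {φ : K →* K} {n : ℕ} (hn : 0 < n)
    (hord : ∀ x, φ^[n] x = x) (hspl : Spl φ n) {s : Set K} (hfin : s.Finite)
    (hs : closure s = ⊤) {δ : K} (hδ : δ ∈ ds (⊤ : Subgroup K) (2 ^ (n - 1) - 1)) :
    ∃ r, 0 < r ∧ δ ^ r = 1 := by
  by_contra hc
  push Not at hc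
  obtain ⟨l, hl, hnum⟩ := exists_num hn
  obtain ⟨N, hN, h1, a, ha⟩ := resid hl K s hfin hs δ hc
  obtain ⟨u, hu⟩ := hnum a
  let N' : Subgroup K :=
    { carrier := {x | ∀ i, φ^[i] x ∈ N}
      one_mem' := fun i => by rw [iterate_map_one]; exact N.one_mem
      mul_mem' := fun ha hb i => by rw [iterate_map_mul]; exact N.mul_mem (ha i) (hb i)
      inv_mem' := fun ha i => by rw [iterate_map_inv]; exact N.inv_mem (ha i) }
  have hN' : N'.Normal := ⟨fun x hx g i => by
    rw [iterate_map_mul, iterate_map_mul, iterate_map_inv]; exact hN.conj_mem _ (hx i) _⟩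
  have hi : ∀ x ∈ N', φ x ∈ N' := fun x hx i => hx (i + 1)
  obtain ⟨ψ, hψ⟩ := exists_quot φ N' hi
  have hsj := QuotientGroup.mk'_surjective N'
  have hop : Op ψ n (l ^ a) := by
    constructor
    · intro g
      obtain ⟨g, rfl⟩ := hsj g
      rw [← map_pow]
      exact (QuotientGroup.eq_one_iff _).2 fun i => by rw [iterate_map_pow]; exact ha _
    · intro g
      obtain ⟨g, rfl⟩ := hsj g
      rw [semiconj_iter hψ, hord]
  have h2 := kreknin_group hu hop ((hspl.of_surj hsj hψ).fpf hop.exp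
    (Nat.isCoprime_iff_coprime.1 hu.cop))
  have h3 := Subgroup.mem_map_of_mem (QuotientGroup.mk' N') hδ
  rw [map_ds, Subgroup.map_top_of_surjective _ hsj, h2, Subgroup.mem_bot] at h3
  exact h1 (((QuotientGroup.eq_one_iff _).1 h3 : δ ∈ N') 0)

theorem transfer {n : ℕ} (hn : 0 < n) (c : ℕ) : ∃ R : ℕ, R ≠ 0 ∧
    ∀ (H : Type) [Group H] (φ : H →* H) (q : ℕ), Op φ n q → q.Coprime R → Spl φ n →
      (⊤ : Subgroup H).lowerCentralSeries c = ⊥ → ∀ f : ℕ → H, dl (2 ^ (n - 1) - 1) f = 1 := by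
  by_contra hc
  have hc' : ∀ r : ℕ, ∃ (H : Type) (_ : Group H) (φ : H →* H) (q : ℕ), Op φ n q ∧
      q.Coprime (r + 1).factorial ∧ Spl φ n ∧ (⊤ : Subgroup H).lowerCentralSeries c = ⊥ ∧
      ∃ f : ℕ → H, dl (2 ^ (n - 1) - 1) f ≠ 1 := by
    intro r
    by_contra h
    refine hc ⟨(r + 1).factorial, Nat.factorial_ne_zero _, fun H _ φ q h1 h2 h3 h4 f => ?_⟩
    by_contra h5
    exact h ⟨H, _, φ, q, h1, h2, h3, h4, f, h5⟩
  choose H inst φ q hop hcop hspl hlcs f hf using hc'
  set k := 2 ^ (n - 1) - 1 with hk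
  let Φ : (∀ r, H r) →* (∀ r, H r) := MonoidHom.pi fun r => (φ r).comp (Pi.evalMonoidHom H r)
  have hΦ : ∀ r x, φ r (Pi.evalMonoidHom H r x) = Pi.evalMonoidHom H r (Φ x) := fun _ _ => rfl
  have hord : ∀ x, Φ^[n] x = x := fun x => funext fun r =>
    (semiconj_iter (hΦ r) n x).symm.trans ((hop r).ord _)
  have hsp : Spl Φ n := fun x => funext fun r => (map_spl (hΦ r) n x).trans (hspl r _)
  have hl : (⊤ : Subgroup (∀ r, H r)).lowerCentralSeries c = ⊥ := by
    rw [Subgroup.eq_bot_iff_forall]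
    intro x hx
    funext r
    have := Subgroup.mem_map_of_mem (Pi.evalMonoidHom H r) hx
    rw [Subgroup.map_lowerCentralSeries] at this
    exact (hlcs r).le (Subgroup.lowerCentralSeries_mono c le_top this)
  have : Group.IsNilpotent (∀ r, H r) := Subgroup.nilpotent_iff_lowerCentralSeries.2 ⟨c, hl⟩
  let F : ℕ → ∀ r, H r := fun i r => f r i
  set Γ := closure (orb Φ n (2 ^ k) F) with hΓ
  obtain ⟨ψ, hψ⟩ := exists_restr Φ Γ (orb_inv hord _ F)
  have h1 : dl k F ∈ ds Γ k := dl_mem k F fun i hi => subset_closure ⟨0, hn, i, hi, rfl⟩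
  have h2 : ds Γ k = (ds (⊤ : Subgroup Γ) k).map Γ.subtype := by
    rw [map_ds, ← MonoidHom.range_eq_map, Subgroup.range_subtype]
  rw [h2] at h1
  obtain ⟨δ, hδ, e⟩ := h1
  obtain ⟨r, hr, h3⟩ := fg_torsion hn
    (fun x => Γ.subtype_injective (by rw [← semiconj_iter hψ, hord]))
    (hsp.of_inj Γ.subtype_injective hψ)
    ((orb_finite Φ n (2 ^ k) F).preimage Subtype.val_injective.injOn)
    Subgroup.closure_closure_coe_preimage hδ
  have h4 := congrArg (fun x => Pi.evalMonoidHom H r (Γ.subtype x)) h3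
  simp only [map_pow, map_one] at h4
  rw [e, map_dl] at h4
  refine hf r (eq_one_of_coprime h4 ((hop r).exp _) ?_)
  exact ((hcop r).coprime_dvd_right (Nat.dvd_factorial hr (Nat.le_succ r))).symm

end Pool.Agent.LawP
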