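import Pool.Agent.P.MP_ec89a0_al.Basic

namespace Pool.Agent.FitW

open Subgroup
open scoped commutatorElement

variable {G : Type} [Group G]

theorem Level_lcs_normal (N : Subgroup G) [hN : N.Normal] (k : ℕ) :
    (N.lowerCentralSeries k).Normal := by
  induction k with
  | zero => exact hN
  | succ k ih =>
    rw [Subgroup.lowerCentralSeries_succ]
    infer_instance

theorem Level_lcs_le (N : Subgroup G) (k : ℕ) : N.lowerCentralSeries k ≤ N :=
  N.lowerCentralSeries_antitone (Nat.zero_le k)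

theorem Level_sup_comm (K L N : Subgroup G) [K.Normal] : ⁅K ⊔ L, N⁆ ≤ K ⊔ ⁅L, N⁆ := by
  refine commutator_le.2 fun g hg n hn => ?_
  obtain ⟨x, hx, y, hy, rfl⟩ := mem_sup_of_normal_left.1 hg
  rw [commutatorElement_mul_left_eq_conj_mul]
  have h1 : x ∈ K ⊔ ⁅L, N⁆ := mem_sup_left hx
  have h2 : ⁅y, n⁆ ∈ K ⊔ ⁅L, N⁆ := mem_sup_right (commutator_mem_commutator hy hn)
  have h3 : ⁅x, n⁆ ∈ K ⊔ ⁅L, N⁆ :=
    mem_sup_left (commutator_le_left K N (commutator_mem_commutator hx hn))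
  exact mul_mem (mul_mem (mul_mem h1 h2) (inv_mem h1)) h3

/-- choice of a chief factor on which the point stabiliser `A` is seen -/
theorem level_one [Finite G] (A N : Subgroup G) [N.Normal] (k : ℕ)
    (hk : N.lowerCentralSeries k ≤ A) (hN : ¬ N ≤ A) :
    ∃ K Q : Subgroup G, K.Normal ∧ Q.Normal ∧ K ≤ Q ∧ Q ≤ N ∧ ⁅N, N⁆ ≤ K ∧ ¬ Q ≤ A ⊔ K ∧
      ∀ U : Subgroup G, U.Normal → K ≤ U → U ≤ Q → U = K ∨ U = Q := by
  obtain ⟨K, ⟨hKn, hK1, hK2, hK3⟩, hKmax⟩ := Set.Finite.exists_maximal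
    (Set.toFinite {K : Subgroup G | K.Normal ∧ N.lowerCentralSeries k ≤ K ∧ K ≤ N ∧ ¬ N ≤ A ⊔ K})
    ⟨N.lowerCentralSeries k, Level_lcs_normal N k, le_rfl, Level_lcs_le N k,
      fun h => hN (h.trans (sup_le le_rfl hk))⟩
  have hKN : K < N := lt_of_le_of_ne hK2 fun h => hK3 (h ▸ le_sup_right)
  obtain ⟨Q, ⟨hQn, hQ1, hQ2⟩, hQmin⟩ := Set.Finite.exists_minimal
    (Set.toFinite {Q : Subgroup G | Q.Normal ∧ K < Q ∧ Q ≤ N}) ⟨N, inferInstance, hKN, le_rfl⟩
  have hchief : ∀ U : Subgroup G, U.Normal → K ≤ U → U ≤ Q → U = K ∨ U = Q := by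
    intro U hU h1 h2
    rcases h1.eq_or_lt with h | h
    · exact Or.inl h.symm
    · exact Or.inr (le_antisymm h2 (hQmin ⟨hU, h, h2.trans hQ2⟩ h2))
  have hNQ : N ≤ A ⊔ Q := by
    by_contra h
    exact hQ1.not_ge (hKmax ⟨hQn, hK1.trans hQ1.le, hQ2, h⟩ hQ1.le)
  have hQN : ⁅Q, N⁆ ≤ K := by
    rcases hchief (K ⊔ ⁅Q, N⁆) inferInstance le_sup_left
      (sup_le hQ1.le (commutator_le_left Q N)) with h | h
    · exact le_sup_right.trans h.le
    · exfalso
      have h1 : ∀ i, Q ≤ K ⊔ N.lowerCentralSeries i := by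
        intro i
        induction i with
        | zero => exact hQ2.trans le_sup_right
        | succ i ih =>
          refine h.ge.trans (sup_le le_sup_left ?_)
          exact (commutator_mono ih le_rfl).trans (Level_sup_comm K _ N)
      exact hQ1.not_ge ((h1 k).trans (sup_le le_rfl hK1))
  have hNN : ⁅N, N⁆ ≤ A ⊔ K := by
    refine commutator_le.2 fun n hn n' hn' => ?_
    obtain ⟨a, ha, q, hq, rfl⟩ := mem_sup_of_normal_right.1 (hNQ hn)
    obtain ⟨a', ha', q', hq', rfl⟩ := mem_sup_of_normal_right.1 (hNQ hn')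
    have haN : a ∈ N := (mul_mem_cancel_right (hQ2 hq)).1 hn
    have h1 : a ∈ A ⊔ K := mem_sup_left ha
    have h2 : a' ∈ A ⊔ K := mem_sup_left ha'
    have h3 : ⁅q, a' * q'⁆ ∈ A ⊔ K := mem_sup_right (hQN (commutator_mem_commutator hq hn'))
    have h4 : ⁅a, q'⁆ ∈ A ⊔ K := by
      rw [← commutatorElement_inv]
      exact inv_mem (mem_sup_right (hQN (commutator_mem_commutator hq' haN)))
    have h5 : ⁅a, a'⁆ ∈ A ⊔ K := by
      rw [commutatorElement_def]
      exact mul_mem (mul_mem (mul_mem h1 h2) (inv_mem h1)) (inv_mem h2)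
    rw [commutatorElement_mul_left_eq_conj_mul, commutatorElement_mul_right_eq_mul_conj a]
    exact mul_mem (mul_mem (mul_mem h1 h3) (inv_mem h1))
      (mul_mem (mul_mem (mul_mem h5 h2) h4) (inv_mem h2))
  refine ⟨K, Q, hKn, hQn, hQ1.le, hQ2, ?_, fun h => hK3 (hNQ.trans (sup_le le_sup_left h)), hchief⟩
  refine le_sup_right.trans (hKmax (y := K ⊔ ⁅N, N⁆) ⟨inferInstance, hK1.trans le_sup_left,
    sup_le hK2 (commutator_le_left N N), fun h => hK3 (h.trans ?_)⟩ le_sup_left)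
  exact sup_le le_sup_left (sup_le le_sup_right hNN)

/-- an endomorphism that is onto modulo `U` is injective modulo `U` -/
theorem Level_inj {X : Type} [AddCommGroup X] [Finite X] (φ : X →+ X) (U W : AddSubgroup X)
    (hU : ∀ x ∈ U, φ x ∈ U) (hW : ∀ x ∈ W, φ x ∈ W) (hs : W ≤ U ⊔ W.map φ) {v : X} (hv : v ∈ W)
    (h : φ v ∈ U) : v ∈ U := by
  let ψ : X ⧸ U →+ X ⧸ U := QuotientAddGroup.map U U φ fun x hx => hU x hx
  have hψ : ∀ x : X, ψ (x : X ⧸ U) = (φ x : X ⧸ U) := fun x => rfl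
  let S : Set (X ⧸ U) := (fun x : X => (x : X ⧸ U)) '' W
  have h1 : Set.MapsTo ψ S S := by
    rintro _ ⟨x, hx, rfl⟩
    exact ⟨φ x, hW x hx, rfl⟩
  have h2 : Set.SurjOn ψ S S := by
    rintro _ ⟨x, hx, rfl⟩
    obtain ⟨u, hu, _, ⟨y, hy, rfl⟩, rfl⟩ := AddSubgroup.mem_sup.1 (hs hx)
    refine ⟨(y : X ⧸ U), ⟨y, hy, rfl⟩, ?_⟩
    rw [hψ]
    show _ = ((u + φ y : X) : X ⧸ U)
    rw [QuotientAddGroup.mk_add, (QuotientAddGroup.eq_zero_iff u).2 hu, zero_add]
  have h3 := (((Set.toFinite S).surjOn_iff_bijOn_of_mapsTo h1).1 h2).injOn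
  refine (QuotientAddGroup.eq_zero_iff v).1 (h3 ⟨v, hv, rfl⟩ ⟨0, W.zero_mem, rfl⟩ ?_)
  rw [map_zero, hψ]
  exact (QuotientAddGroup.eq_zero_iff _).2 h

theorem Level_pair {X : Type} [AddCommGroup X] [Finite X] [DistribMulAction G X] (T : Subgroup G)
    (k : ℕ) (hk : ∀ g ∈ T.lowerCentralSeries k, ∀ x : X, g • x = x) (n : ℕ) :
    ∀ U W : AddSubgroup X, (W : Set X).ncard - (U : Set X).ncard ≤ n → U ≤ W →
      (∀ t ∈ T, ∀ x ∈ U, t • x ∈ U) → (∀ t ∈ T, ∀ x ∈ W, t • x ∈ W) →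
      W ≤ U ⊔ AddSubgroup.closure {v : X | ∃ t ∈ T, ∃ x ∈ W, v = t • x - x} →
      ∀ v ∈ W, (∀ t ∈ T, t • v - v ∈ U) → v ∈ U := by
  classical
  induction n using Nat.strong_induction_on with
  | _ n ih =>
  intro U W hn hUW hU hW hc v hv hfix
  have hex : ∃ j, ∀ g ∈ T.lowerCentralSeries j, ∀ x ∈ W, g • x - x ∈ U :=
    ⟨k, fun g hg x _ => by rw [hk g hg, sub_self]; exact U.zero_mem⟩
  have hspec := Nat.find_spec hex
  rcases hj : Nat.find hex with _ | j
  · rw [hj] at hspec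
    refine (hc.trans (sup_le le_rfl ((AddSubgroup.closure_le _).2 ?_))) hv
    rintro _ ⟨t, ht, x, hx, rfl⟩
    exact hspec t ht x hx
  rw [hj] at hspec
  have hlt := Nat.find_min hex (m := j) (by omega)
  push Not at hlt
  obtain ⟨z, hz, x0, hx0, hzx⟩ := hlt
  have hzT : z ∈ T := Level_lcs_le T j hz
  let φ : X →+ X := DistribSMul.toAddMonoidHom X z - AddMonoidHom.id X
  have hφ : ∀ x, φ x = z • x - x := fun x => rfl
  have hφU : ∀ x ∈ U, φ x ∈ U := fun x hx => sub_mem (hU z hzT x hx) hx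
  have hφW : ∀ x ∈ W, φ x ∈ W := fun x hx => sub_mem (hW z hzT x hx) hx
  have hcomm : ∀ t ∈ T, ∀ x ∈ W, φ (t • x) - t • φ x ∈ U := by
    intro t ht x hx
    have h1 := hspec ⁅z, t⁆ (commutator_mem_commutator hz ht) (t • z • x)
      (hW t ht _ (hW z hzT x hx))
    have h2 : ⁅z, t⁆ • t • z • x = z • t • x := by
      rw [smul_smul, smul_smul, smul_smul, commutatorElement_def]
      congr 1
      group
    have h3 : φ (t • x) - t • φ x = z • t • x - t • z • x := by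
      rw [hφ, hφ, smul_sub]
      abel
    rw [h3, ← h2]
    exact h1
  set W' := U ⊔ W.map φ with hW'
  have hW'W : W' ≤ W := sup_le hUW (by
    rintro _ ⟨x, hx, rfl⟩
    exact hφW x hx)
  have hmem : ∀ x ∈ W, φ x ∈ W' := fun x hx => AddSubgroup.mem_sup_right ⟨x, hx, rfl⟩
  have hUW' : U < W' := lt_of_le_of_ne le_sup_left fun h => hzx (h ▸ hmem x0 hx0)
  rcases hW'W.eq_or_lt with h | h
  · exact Level_inj φ U W hφU hφW h.ge hv (hfix z hzT)
  have hinv : ∀ t ∈ T, ∀ x ∈ W', t • x ∈ W' := by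
    intro t ht x hx
    obtain ⟨u, hu, _, ⟨y, hy, rfl⟩, rfl⟩ := AddSubgroup.mem_sup.1 hx
    have h1 : t • (u + φ y) = t • u + (φ (t • y) - (φ (t • y) - t • φ y)) := by
      rw [smul_add]
      abel
    rw [h1]
    exact add_mem (hUW'.le (hU t ht u hu))
      (sub_mem (hmem _ (hW t ht y hy)) (hUW'.le (hcomm t ht y hy)))
  have c1 : (U : Set X).ncard < (W' : Set X).ncard :=
    Set.ncard_lt_ncard (SetLike.coe_ssubset_coe.2 hUW') (Set.toFinite _)
  have c2 : (W' : Set X).ncard < (W : Set X).ncard :=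
    Set.ncard_lt_ncard (SetLike.coe_ssubset_coe.2 h) (Set.toFinite _)
  have hv' : v ∈ W' := ih (n - 1) (by omega) W' W (by omega) hW'W hinv hW
    (hc.trans (sup_le_sup_right hUW'.le _)) v hv fun t ht => hUW'.le (hfix t ht)
  refine ih (n - 1) (by omega) U W' (by omega) hUW'.le hU hinv ?_ v hv' hfix
  refine sup_le le_sup_left ?_
  rw [AddSubgroup.map_le_iff_le_comap]
  refine hc.trans (sup_le (fun x hx => AddSubgroup.mem_sup_left (hφU x hx))
    ((AddSubgroup.closure_le _).2 ?_))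
  rintro _ ⟨t, ht, x, hx, rfl⟩
  rw [SetLike.mem_coe, AddSubgroup.mem_comap]
  have h1 : φ (t • x - x) = (φ (t • x) - t • φ x) + (t • φ x - φ x) := by
    rw [map_sub]
    abel
  rw [h1]
  exact add_mem (AddSubgroup.mem_sup_left (hcomm t ht x hx))
    (AddSubgroup.mem_sup_right (AddSubgroup.subset_closure ⟨t, ht, φ x, hmem x hx, rfl⟩))

/-- a group acting through a nilpotent quotient with `[X, T] = X` has no fixed points -/
theorem no_fixed {X : Type} [AddCommGroup X] [Finite X] [DistribMulAction G X] (T : Subgroup G)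
    (k : ℕ) (hk : ∀ g ∈ T.lowerCentralSeries k, ∀ x : X, g • x = x) (hT : Mov X T) (v : X)
    (hv : ∀ t ∈ T, t • v = v) : v = 0 := by
  refine AddSubgroup.mem_bot.1 (Level_pair T k hk _ ⊥ ⊤ le_rfl bot_le (fun t _ x hx => ?_)
    (fun _ _ _ _ => AddSubgroup.mem_top _) ?_ v (AddSubgroup.mem_top _) fun t ht => ?_)
  · rw [AddSubgroup.mem_bot.1 hx, smul_zero]
    exact AddSubgroup.zero_mem _
  · refine le_trans (hT.ge.trans (AddSubgroup.closure_mono ?_)) le_sup_right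
    rintro _ ⟨t, ht, x, rfl⟩
    exact ⟨t, ht, x, AddSubgroup.mem_top _, rfl⟩
  · rw [hv t ht, sub_self]
    exact AddSubgroup.zero_mem _

theorem Level_iter_normal (T : Subgroup G) [T.Normal] (V : Subgroup G) [hV : V.Normal] (j : ℕ) :
    ((fun V : Subgroup G => ⁅V, T⁆)^[j] V).Normal := by
  induction j with
  | zero => exact hV
  | succ j ih =>
    rw [Function.iterate_succ_apply']
    infer_instance

/-- the three subgroups lemma modulo a normal subgroup -/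
theorem Level_three (H₁ H₂ H₃ M : Subgroup G) [M.Normal] (h1 : ⁅⁅H₂, H₃⁆, H₁⁆ ≤ M)
    (h2 : ⁅⁅H₃, H₁⁆, H₂⁆ ≤ M) : ⁅⁅H₁, H₂⁆, H₃⁆ ≤ M := by
  have key : ∀ H : Subgroup G, H ≤ M ↔ H.map (QuotientGroup.mk' M) = ⊥ := fun H => by
    rw [Subgroup.map_eq_bot_iff, QuotientGroup.ker_mk']
  rw [key, map_commutator, map_commutator] at h1 h2 ⊢
  exact commutator_commutator_eq_bot_of_rotate h1 h2

/-- a hypercentral normal subgroup is centralised by `P = [P, T]` -/
theorem hyp_comm (U P T : Subgroup G) [U.Normal] [P.Normal] [T.Normal] (hP : ⁅P, T⁆ = P)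
    (k : ℕ) (hk : (fun V : Subgroup G => ⁅V, T⁆)^[k] U = ⊥) : ⁅U, P⁆ = ⊥ := by
  have key : ∀ (j : ℕ) (V : Subgroup G), V.Normal →
      ⁅V, P⁆ ≤ (fun V : Subgroup G => ⁅V, T⁆)^[j] V := by
    intro j
    induction j with
    | zero => exact fun V _ => commutator_le_left V P
    | succ j ih =>
      intro V hV
      have := Level_iter_normal T V (j + 1)
      have h := Level_three P T V ((fun V : Subgroup G => ⁅V, T⁆)^[j + 1] V)
        (by
          rw [commutator_comm T V, Function.iterate_succ_apply]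
          exact ih _ inferInstance)
        (by
          rw [Function.iterate_succ_apply']
          exact commutator_mono (ih V hV) le_rfl)
      rwa [hP, commutator_comm] at h
  exact le_bot_iff.1 ((key k U inferInstance).trans hk.le)

/-- a minimal normal subgroup with `[Q, T] = Q` -/
theorem exists_min_mov [Finite G] (P T : Subgroup G) [P.Normal] [T.Normal] (hP : ⁅P, T⁆ = P)
    (hne : P ≠ ⊥) :
    ∃ Q : Subgroup G, Q.Normal ∧ Q ≤ P ∧ Q ≠ ⊥ ∧ ⁅Q, T⁆ = Q ∧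
      (∀ U : Subgroup G, U.Normal → U < Q → ⁅U, T⁆ = U → U = ⊥) ∧
      ∀ U : Subgroup G, U.Normal → U < Q → ⁅U, Q⁆ = ⊥ := by
  obtain ⟨Q, ⟨hQn, hQ1, hQ2, hQ3⟩, hQmin⟩ := Set.Finite.exists_minimal
    (Set.toFinite {Q : Subgroup G | Q.Normal ∧ Q ≤ P ∧ Q ≠ ⊥ ∧ ⁅Q, T⁆ = Q})
    ⟨P, inferInstance, le_rfl, hne, hP⟩
  have h1 : ∀ U : Subgroup G, U.Normal → U < Q → ⁅U, T⁆ = U → U = ⊥ := by
    intro U hU hlt he
    by_contra h
    exact hlt.not_ge (hQmin ⟨hU, hlt.le.trans hQ1, h, he⟩ hlt.le)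
  refine ⟨Q, hQn, hQ1, hQ2, hQ3, h1, fun U hU hlt => ?_⟩
  obtain ⟨_, ⟨k, rfl⟩, hmin⟩ := Set.Finite.exists_minimal
    (Set.toFinite (Set.range fun j => (fun V : Subgroup G => ⁅V, T⁆)^[j] U)) ⟨_, 0, rfl⟩
  have hn := Level_iter_normal T U k
  have hle : ∀ j, (fun V : Subgroup G => ⁅V, T⁆)^[j] U ≤ U := by
    intro j
    induction j with
    | zero => exact le_rfl
    | succ j ih =>
      have := Level_iter_normal T U j
      rw [Function.iterate_succ_apply']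
      exact (commutator_le_left _ T).trans ih
  refine hyp_comm U Q T hQ3 k (h1 _ hn ((hle k).trans_lt hlt) ?_)
  refine le_antisymm (commutator_le_left _ T) (hmin ⟨k + 1, ?_⟩ (commutator_le_left _ T))
  exact Function.iterate_succ_apply' _ _ _

end Pool.Agent.FitW
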