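import Pool.Agent.P.MP_ec89a0_al.Defs

namespace Pool.Agent.FitW

open Subgroup
open scoped commutatorElement

variable {G : Type} [Group G]

theorem ev_nil (π : Fin 2 → G) : ev π [] = 1 := by
  simp [ev]

theorem ev_cons_true (π : Fin 2 → G) (j : Fin 2) (L : List Lt) :
    ev π ((j, true) :: L) = π j * ev π L := by
  simp [ev]

theorem ev_cons_false (π : Fin 2 → G) (j : Fin 2) (L : List Lt) :
    ev π ((j, false) :: L) = (π j)⁻¹ * ev π L := by
  simp [ev]

theorem ev_append (π : Fin 2 → G) (L M : List Lt) : ev π (L ++ M) = ev π L * ev π M := by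
  unfold ev
  rw [← FreeGroup.mul_mk, map_mul]

theorem ev_conj (π : Fin 2 → G) (g : G) (L : List Lt) :
    ev (fun j => g⁻¹ * π j * g) L = g⁻¹ * ev π L * g := by
  induction L with
  | nil => simp [ev_nil]
  | cons z L ih =>
    obtain ⟨j, b⟩ := z
    cases b
    · rw [ev_cons_false, ev_cons_false, ih]; group
    · rw [ev_cons_true, ev_cons_true, ih]; group

theorem Gen.conj {π : Fin 2 → G} (h : Gen π) (g : G) : Gen (fun j => g⁻¹ * π j * g) := by
  unfold Gen at *
  rw [eq_top_iff]
  intro x _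
  have hx : g * x * g⁻¹ ∈ Subgroup.closure (Set.range π) := by rw [h]; trivial
  have key : ∀ y ∈ Subgroup.closure (Set.range π),
      g⁻¹ * y * g ∈ Subgroup.closure (Set.range (fun j => g⁻¹ * π j * g)) := by
    intro y hy
    induction hy using Subgroup.closure_induction with
    | mem y hy =>
      obtain ⟨j, rfl⟩ := hy
      exact Subgroup.subset_closure ⟨j, rfl⟩
    | one => simp
    | mul a b _ _ ha hb =>
      have : g⁻¹ * (a * b) * g = (g⁻¹ * a * g) * (g⁻¹ * b * g) := by group
      rw [this]; exact Subgroup.mul_mem _ ha hb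
    | inv a _ ha =>
      have : g⁻¹ * a⁻¹ * g = (g⁻¹ * a * g)⁻¹ := by group
      rw [this]; exact Subgroup.inv_mem _ ha
  have := key _ hx
  have e : g⁻¹ * (g * x * g⁻¹) * g = x := by group
  rwa [e] at this

theorem ev_mem_closure (π : Fin 2 → G) (L : List Lt) :
    ev π L ∈ Subgroup.closure (Set.range π) := by
  induction L with
  | nil => rw [ev_nil]; exact Subgroup.one_mem _
  | cons z L ih =>
    obtain ⟨j, b⟩ := z
    have hj : π j ∈ Subgroup.closure (Set.range π) := Subgroup.subset_closure ⟨j, rfl⟩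
    cases b
    · rw [ev_cons_false]; exact Subgroup.mul_mem _ (Subgroup.inv_mem _ hj) ih
    · rw [ev_cons_true]; exact Subgroup.mul_mem _ hj ih

theorem exists_ev_of_mem {π : Fin 2 → G} {g : G} (hg : g ∈ Subgroup.closure (Set.range π)) :
    ∃ L : List Lt, ev π L = g := by
  rw [← FreeGroup.range_lift_eq_closure] at hg
  obtain ⟨w, rfl⟩ := hg
  refine ⟨w.toWord, ?_⟩
  unfold ev
  rw [FreeGroup.mk_toWord]

theorem ev_congr {π π' : Fin 2 → G} (Q : Subgroup G) [hQ : Q.Normal]
    (h : ∀ j, π' j * (π j)⁻¹ ∈ Q) (L : List Lt) : ev π' L * (ev π L)⁻¹ ∈ Q := by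
  induction L with
  | nil => simp [ev_nil]
  | cons z L ih =>
    obtain ⟨j, b⟩ := z
    cases b
    · rw [ev_cons_false, ev_cons_false]
      have e : (π' j)⁻¹ * ev π' L * ((π j)⁻¹ * ev π L)⁻¹ =
          (π j)⁻¹ * ((π' j * (π j)⁻¹)⁻¹ * (ev π' L * (ev π L)⁻¹)) * ((π j)⁻¹)⁻¹ := by group
      rw [e]
      exact hQ.conj_mem _ (Q.mul_mem (Q.inv_mem (h j)) ih) _
    · rw [ev_cons_true, ev_cons_true]
      have e : π' j * ev π' L * (π j * ev π L)⁻¹ =
          (π' j * (π j)⁻¹) * (π j * (ev π' L * (ev π L)⁻¹) * (π j)⁻¹) := by group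
      rw [e]
      exact Q.mul_mem (h j) (hQ.conj_mem _ ih _)

theorem Gen.surjective {π : Fin 2 → G} (h : Gen π) :
    Function.Surjective (FreeGroup.lift π) := by
  rw [← MonoidHom.range_eq_top, FreeGroup.range_lift_eq_closure]
  exact h

section Count

variable [Finite G]

theorem cnt_mono (N : Subgroup G) {P P' : G → Prop} (h : ∀ y ∈ N, P y → P' y) :
    cnt N P ≤ cnt N P' := by
  unfold cnt
  exact Set.ncard_le_ncard (fun y hy => ⟨hy.1, h y hy.1 hy.2⟩) (Set.toFinite _)

theorem words_cnt_true (N : Subgroup G) : cnt N (fun _ => True) = Nat.card N := by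
  unfold cnt
  have : {y : G | y ∈ N ∧ True} = (N : Set G) := by ext y; simp
  rw [this]
  rfl

theorem cnt_true (N : Subgroup G) : cnt N (fun _ => True) = Nat.card N :=
  words_cnt_true N

theorem cnt_or_le (N : Subgroup G) (P P' : G → Prop) :
    cnt N (fun y => P y ∨ P' y) ≤ cnt N P + cnt N P' := by
  unfold cnt
  have : {y : G | y ∈ N ∧ (P y ∨ P' y)} = {y : G | y ∈ N ∧ P y} ∪ {y : G | y ∈ N ∧ P' y} := by
    ext y; simp only [Set.mem_setOf_eq, Set.mem_union]; tauto
  rw [this]
  exact Set.ncard_union_le _ _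

theorem cnt_add_le (N : Subgroup G) {P P' : G → Prop} (h : ∀ y ∈ N, ¬ (P y ∧ P' y)) :
    cnt N P + cnt N P' ≤ Nat.card N := by
  rw [← cnt_true N]
  unfold cnt
  rw [← Set.ncard_union_eq]
  · exact Set.ncard_le_ncard (by
      rintro y (hy | hy)
      · exact ⟨hy.1, trivial⟩
      · exact ⟨hy.1, trivial⟩) (Set.toFinite _)
  · rw [Set.disjoint_left]
    intro y hy hy'
    exact h y hy.1 ⟨hy.2, hy'.2⟩

theorem cnt_mul_left (N : Subgroup G) (P : G → Prop) {k : G} (hk : k ∈ N) :
    cnt N (fun y => P (k * y)) = cnt N P := by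
  unfold cnt
  rw [← Set.ncard_image_of_injective {y : G | y ∈ N ∧ P (k * y)} (mul_right_injective k)]
  congr 1
  ext y
  simp only [Set.mem_image, Set.mem_setOf_eq]
  constructor
  · rintro ⟨x, ⟨hx, hP⟩, rfl⟩
    exact ⟨N.mul_mem hk hx, hP⟩
  · rintro ⟨hy, hP⟩
    exact ⟨k⁻¹ * y, ⟨N.mul_mem (N.inv_mem hk) hy, by simpa using hP⟩, by simp⟩

theorem cnt_mul_right (N : Subgroup G) (P : G → Prop) {k : G} (hk : k ∈ N) :
    cnt N (fun y => P (y * k)) = cnt N P := by
  unfold cnt
  rw [← Set.ncard_image_of_injective {y : G | y ∈ N ∧ P (y * k)} (mul_left_injective k)]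
  congr 1
  ext y
  simp only [Set.mem_image, Set.mem_setOf_eq]
  constructor
  · rintro ⟨x, ⟨hx, hP⟩, rfl⟩
    exact ⟨N.mul_mem hx hk, hP⟩
  · rintro ⟨hy, hP⟩
    exact ⟨y * k⁻¹, ⟨N.mul_mem hy (N.inv_mem hk), by simpa using hP⟩, by simp⟩

/-- union bound -/
theorem cnt_exists_le {α : Type} (N : Subgroup G) (D : Finset α) (P : α → G → Prop) (n : ℕ)
    (h : ∀ d ∈ D, n * cnt N (P d) ≤ Nat.card N) :
    n * cnt N (fun y => ∃ d ∈ D, P d y) ≤ D.card * Nat.card N := by
  classical
  induction D using Finset.induction_on with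
  | empty => simp [cnt]
  | insert a D ha ih =>
    have h1 : cnt N (fun y => ∃ d ∈ insert a D, P d y) ≤
        cnt N (P a) + cnt N (fun y => ∃ d ∈ D, P d y) := by
      refine le_trans (cnt_mono N ?_) (cnt_or_le N (P a) (fun y => ∃ d ∈ D, P d y))
      rintro y _ ⟨d, hd, hP⟩
      rcases Finset.mem_insert.1 hd with rfl | hd
      · exact Or.inl hP
      · exact Or.inr ⟨d, hd, hP⟩
    have h2 := h a (Finset.mem_insert_self _ _)
    have h3 := ih (fun d hd => h d (Finset.mem_insert_of_mem hd))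
    rw [Finset.card_insert_of_notMem ha]
    calc n * cnt N (fun y => ∃ d ∈ insert a D, P d y)
        ≤ n * (cnt N (P a) + cnt N (fun y => ∃ d ∈ D, P d y)) := Nat.mul_le_mul_left _ h1
      _ = n * cnt N (P a) + n * cnt N (fun y => ∃ d ∈ D, P d y) := by ring
      _ ≤ Nat.card N + D.card * Nat.card N := Nat.add_le_add h2 h3
      _ = (D.card + 1) * Nat.card N := by ring

theorem exists_not_of_cnt_lt (N : Subgroup G) (P : G → Prop) (h : cnt N P < Nat.card N) :
    ∃ y ∈ N, ¬ P y := by
  by_contra hc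
  push Not at hc
  have := cnt_mono N (P := fun _ => True) (P' := P) (fun y hy _ => hc y hy)
  rw [cnt_true] at this
  omega

theorem words_cnt_eq_card (N : Subgroup G) (P : G → Prop) [Fintype G] [DecidablePred P]
    [DecidablePred (· ∈ N)] :
    cnt N P = (Finset.univ.filter (fun y => y ∈ N ∧ P y)).card := by
  unfold cnt
  rw [← Set.ncard_coe_finset]
  congr 1
  ext y; simp

/-- counting through a homomorphism -/
theorem cnt_comap {H : Type} [Group H] (f : G →* H) (N : Subgroup G) (P : H → Prop) :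
    cnt N (fun y => P (f y)) = Nat.card (N ⊓ f.ker : Subgroup G) * cnt (N.map f) P := by
  classical
  haveI := Fintype.ofFinite G
  have hfin : {z : H | z ∈ N.map f ∧ P z}.Finite := by
    refine (Set.finite_range f).subset ?_
    rintro z ⟨⟨x, _, rfl⟩, _⟩
    exact ⟨x, rfl⟩
  have h2 : cnt (N.map f) P = hfin.toFinset.card := by
    unfold cnt
    rw [Set.ncard_eq_toFinset_card _ hfin]
  rw [words_cnt_eq_card, h2]
  rw [Finset.card_eq_sum_card_fiberwise (f := fun y => f y) (t := hfin.toFinset)]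
  · rw [mul_comm, ← smul_eq_mul, ← Finset.sum_const]
    refine Finset.sum_congr rfl ?_
    intro z hz
    rw [Set.Finite.mem_toFinset] at hz
    obtain ⟨⟨x, hx, rfl⟩, hP⟩ := hz
    rw [← cnt_true, words_cnt_eq_card]
    symm
    refine Finset.card_bij (fun k _ => x * k) ?_ ?_ ?_
    · intro k hk
      simp only [Finset.mem_filter, Finset.mem_univ, true_and, and_true, Subgroup.mem_inf,
        MonoidHom.mem_ker] at hk ⊢
      have : f (x * k) = f x := by rw [map_mul, hk.2, mul_one]
      exact ⟨⟨N.mul_mem hx hk.1, by rw [this]; exact hP⟩, this⟩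
    · intro a _ b _ hab
      exact mul_left_cancel hab
    · intro y hy
      simp only [Finset.mem_filter, Finset.mem_univ, true_and] at hy
      refine ⟨x⁻¹ * y, ?_, by simp⟩
      simp only [Finset.mem_filter, Finset.mem_univ, true_and, and_true, Subgroup.mem_inf,
        MonoidHom.mem_ker]
      exact ⟨N.mul_mem (N.inv_mem hx) hy.1.1, by rw [map_mul, map_inv, hy.2]; simp⟩
  · intro y hy
    simp only [Finset.coe_filter, Finset.mem_univ, true_and, Set.mem_setOf_eq] at hy
    simp only [Set.Finite.coe_toFinset, Set.mem_setOf_eq]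
    exact ⟨⟨y, hy.1, rfl⟩, hy.2⟩

/-- double counting: every point of `A` sees a `1 / b` share of `E` in its coset of `Q` -/
theorem cnt_le_mul_of_cover (N Q : Subgroup G) (hQ : Q ≤ N) (A E : G → Prop) (b : ℕ)
    (h : ∀ y ∈ N, A y → ∃ H : Finset G, (∀ a ∈ H, a ∈ Q) ∧ H.card ≤ b ∧
      ∀ q ∈ Q, ∃ a ∈ H, E (y * a⁻¹ * q)) :
    cnt N A ≤ b * cnt N E := by
  classical
  haveI := Fintype.ofFinite G
  have hpos : 0 < Nat.card Q := Nat.card_pos
  -- local bound
  have h1 : ∀ y ∈ N, A y → Nat.card Q ≤ b * cnt Q (fun q => E (y * q)) := by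
    intro y hy hA
    obtain ⟨H, hHQ, hHb, hH⟩ := h y hy hA
    have e1 : cnt Q (fun _ => True) ≤ cnt Q (fun q => ∃ a ∈ H, E (y * (a⁻¹ * q))) := by
      refine cnt_mono Q ?_
      intro q hq _
      obtain ⟨a, ha, hE⟩ := hH q hq
      exact ⟨a, ha, by rwa [← mul_assoc]⟩
    have e2 : ∀ D : Finset G, (∀ a ∈ D, a ∈ Q) →
        cnt Q (fun q => ∃ a ∈ D, E (y * (a⁻¹ * q))) ≤ D.card * cnt Q (fun q => E (y * q)) := by
      intro D
      induction D using Finset.induction_on with
      | empty => intro _; simp [cnt]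
      | insert a D ha ih =>
        intro hD
        have i1 : cnt Q (fun q => ∃ d ∈ insert a D, E (y * (d⁻¹ * q))) ≤
            cnt Q (fun q => E (y * (a⁻¹ * q))) + cnt Q (fun q => ∃ d ∈ D, E (y * (d⁻¹ * q))) := by
          refine le_trans (cnt_mono Q ?_) (cnt_or_le Q _ _)
          rintro q _ ⟨d, hd, hP⟩
          rcases Finset.mem_insert.1 hd with rfl | hd
          · exact Or.inl hP
          · exact Or.inr ⟨d, hd, hP⟩
        have i2 : cnt Q (fun q => E (y * (a⁻¹ * q))) = cnt Q (fun q => E (y * q)) :=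
          cnt_mul_left Q (fun q => E (y * q)) (Q.inv_mem (hD a (Finset.mem_insert_self _ _)))
        have i3 := ih (fun d hd => hD d (Finset.mem_insert_of_mem hd))
        rw [Finset.card_insert_of_notMem ha]
        rw [i2] at i1
        calc _ ≤ _ := i1
          _ ≤ cnt Q (fun q => E (y * q)) + D.card * cnt Q (fun q => E (y * q)) :=
            Nat.add_le_add_left i3 _
          _ = (D.card + 1) * cnt Q (fun q => E (y * q)) := by ring
    rw [cnt_true] at e1
    exact e1.trans ((e2 H hHQ).trans (Nat.mul_le_mul_right _ hHb))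
  -- double counting
  set NF := Finset.univ.filter (fun y : G => y ∈ N) with hNF
  set QF := Finset.univ.filter (fun y : G => y ∈ Q) with hQF
  have c1 : ∀ (K : Subgroup G) (P : G → Prop),
      cnt K P = ∑ y ∈ Finset.univ.filter (fun y : G => y ∈ K), if P y then 1 else 0 := by
    intro K P
    rw [words_cnt_eq_card, ← Finset.filter_filter, Finset.card_filter]
  have hQc : QF.card = Nat.card Q := by
    rw [← cnt_true, words_cnt_eq_card]
    congr 1
    ext y; simp [hQF]
  have h2 : ∑ y ∈ NF, cnt Q (fun q => E (y * q)) = Nat.card Q * cnt N E := by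
    simp only [c1 Q]
    rw [Finset.sum_comm]
    rw [← hQc, ← smul_eq_mul, ← Finset.sum_const]
    refine Finset.sum_congr rfl ?_
    intro q hq
    have hq' : q ∈ Q := by simpa [hQF] using hq
    rw [← cnt_mul_right N E (hQ hq'), c1 N]
  have h3 : Nat.card Q * cnt N A ≤ b * ∑ y ∈ NF, cnt Q (fun q => E (y * q)) := by
    rw [c1 N A, Finset.mul_sum, Finset.mul_sum]
    refine Finset.sum_le_sum ?_
    intro y hy
    have hy' : y ∈ N := by simpa [hNF] using hy
    by_cases hA : A y
    · simpa [hA] using h1 y hy' hA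
    · simp [hA]
  rw [h2] at h3
  have h4 : Nat.card Q * cnt N A ≤ Nat.card Q * (b * cnt N E) := by
    calc _ ≤ _ := h3
      _ = _ := by ring
  exact Nat.le_of_mul_le_mul_left h4 hpos

end Count

end Pool.Agent.FitW
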