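import Pool.Agent.P.MP_ec89a0_al.Basic
import Pool.Agent.P.MP_ec89a0_al.Words
import Pool.Agent.P.MP_ec89a0_al.Gasch

namespace Pool.Agent.FitW

open Subgroup
open scoped commutatorElement

variable {G : Type} [Group G] {X : Type} [AddCommGroup X] [DistribMulAction G X]

theorem fox_add (π : Fin 2 → G) (i : Fin 2) (L : List Lt) (x x' : X) :
    fox π i L (x + x') = fox π i L x + fox π i L x' := by
  induction L with
  | nil => simp [fox]
  | cons a L ih =>
    obtain ⟨j, b⟩ := a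
    cases b
    · simp only [fox, ih]
      rw [← smul_add]
      congr 1
      split_ifs <;> abel
    · simp only [fox, ih, smul_add]
      split_ifs <;> abel

theorem fox_zero (π : Fin 2 → G) (i : Fin 2) (L : List Lt) : fox π i L (0 : X) = 0 := by
  have := fox_add π i L (0 : X) 0
  rw [add_zero] at this
  exact left_eq_add.1 this

theorem fox_neg (π : Fin 2 → G) (i : Fin 2) (L : List Lt) (x : X) :
    fox π i L (-x) = -fox π i L x := by
  have := fox_add π i L x (-x)
  rw [add_neg_cancel, fox_zero] at this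
  exact (neg_eq_of_add_eq_zero_right this.symm).symm

/-- the Fox derivative computes the change of a word value in an abelian section -/
theorem sect_ev {Q K : Subgroup G} [Q.Normal] {p : G → X} (h : IsSect Q K p)
    {π π' : Fin 2 → G} (i : Fin 2) (x : X) (hQ : ∀ j, π' j * (π j)⁻¹ ∈ Q)
    (hp : ∀ j, p (π' j * (π j)⁻¹) = if j = i then x else 0) (L : List Lt) :
    p (ev π' L * (ev π L)⁻¹) = fox π i L x := by
  induction L with
  | nil => simp [fox, ev_nil, h.one]
  | cons a L ih =>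
    obtain ⟨j, b⟩ := a
    have hd := ev_congr Q hQ L
    cases b
    · have e : ev π' ((j, false) :: L) * (ev π ((j, false) :: L))⁻¹ =
          (π j)⁻¹ * ((π' j * (π j)⁻¹)⁻¹ * (ev π' L * (ev π L)⁻¹)) * ((π j)⁻¹)⁻¹ := by
        rw [ev_cons_false, ev_cons_false]
        group
      rw [e, h.conj _ _ (Q.mul_mem (Q.inv_mem (hQ j)) hd), h.mul _ (Q.inv_mem (hQ j)) _ hd,
        h.inv (hQ j), hp, ih]
      simp only [fox]
      rw [neg_add_eq_sub]
    · have e : ev π' ((j, true) :: L) * (ev π ((j, true) :: L))⁻¹ =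
          (π' j * (π j)⁻¹) * (π j * (ev π' L * (ev π L)⁻¹) * (π j)⁻¹) := by
        rw [ev_cons_true, ev_cons_true]
        group
      rw [e, h.mul _ (hQ j) _ (Normal.conj_mem inferInstance _ hd _), h.conj _ _ hd, hp, ih]
      simp only [fox]

/-- the changes of one generator along a chief factor that keep a generating pair span a subgroup
of index at most two -/
theorem exists_lifts [Finite G] {Q K : Subgroup G} [Q.Normal] [K.Normal] (hle : K ≤ Q)
    (hab : ⁅Q, Q⁆ ≤ K) (hmin : ∀ U : Subgroup G, U.Normal → K ≤ U → U ≤ Q → U = K ∨ U = Q)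
    {p : G → X} (h : IsSect Q K p) {π : Fin 2 → G} (hπ : Gen π) (i : Fin 2) :
    ∃ S : Set X, Idx2 (AddSubgroup.closure S) ∧ ∀ x ∈ S, ∃ π' : Fin 2 → G, Gen π' ∧
      (∀ j, π' j * (π j)⁻¹ ∈ Q) ∧ ∀ L : List Lt, p (ev π' L * (ev π L)⁻¹) = fox π i L x := by
  refine ⟨{x | ∃ π' : Fin 2 → G, Gen π' ∧ (∀ j, π' j * (π j)⁻¹ ∈ Q) ∧
    ∀ L : List Lt, p (ev π' L * (ev π L)⁻¹) = fox π i L x}, ?_, fun x hx => hx⟩
  by_cases hQK : Q ≤ K
  · intro x x' hx _
    obtain ⟨u, hu, rfl⟩ := h.surj x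
    rw [(h.ker u hu).2 (hQK hu)] at hx
    exact absurd (AddSubgroup.zero_mem _) hx
  obtain ⟨u0, hu0, hu0K⟩ := SetLike.not_le_iff_exists.1 hQK
  obtain ⟨r, hr⟩ := exists_ev_of_mem (π := π) (g := u0) (by rw [hπ]; trivial)
  have key : ∀ x : X, (¬ ∃ π' : Fin 2 → G, Gen π' ∧ (∀ j, π' j * (π j)⁻¹ ∈ Q) ∧
      ∀ L : List Lt, p (ev π' L * (ev π L)⁻¹) = fox π i L x) → fox π i r x + p u0 = 0 := by
    intro x hx
    obtain ⟨u, hu, hux⟩ := h.surj x
    obtain ⟨ρ, hρ⟩ : ∃ ρ : Fin 2 → G, ∀ j, ρ j * (π j)⁻¹ = if j = i then u else 1 :=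
      ⟨fun j => (if j = i then u else 1) * π j, fun j => by simp⟩
    have hρQ : ∀ j, ρ j * (π j)⁻¹ ∈ Q := by
      intro j
      rw [hρ]
      split_ifs
      exacts [hu, Q.one_mem]
    have hρp : ∀ j, p (ρ j * (π j)⁻¹) = if j = i then x else 0 := by
      intro j
      rw [hρ]
      split_ifs
      exacts [hux, h.one]
    set J : Subgroup G := Subgroup.closure (Set.range ρ) ⊔ K with hJ
    have hKJ : K ≤ J := le_sup_right
    have hne : J ≠ ⊤ := by
      intro htop
      obtain ⟨π', g1, g2⟩ := gaschuetz K ⟨π, hπ⟩ ρ htop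
      have e : ∀ j, π' j * (π j)⁻¹ = (π' j * (ρ j)⁻¹) * (ρ j * (π j)⁻¹) := fun j => by group
      have g3 : ∀ j, π' j * (π j)⁻¹ ∈ Q := fun j => by
        rw [e]
        exact Q.mul_mem (hle (g2 j)) (hρQ j)
      refine hx ⟨π', g1, g3, sect_ev h i x g3 fun j => ?_⟩
      rw [e, h.mul _ (hle (g2 j)) _ (hρQ j), (h.ker _ (hle (g2 j))).2 (g2 j), zero_add, hρp]
    have hJQ : J ⊔ Q = ⊤ := by
      rw [eq_top_iff, ← show Subgroup.closure (Set.range π) = ⊤ from hπ, Subgroup.closure_le]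
      rintro _ ⟨j, rfl⟩
      have e : π j = (ρ j * (π j)⁻¹)⁻¹ * ρ j := by group
      rw [SetLike.mem_coe, e]
      exact (J ⊔ Q).mul_mem (mem_sup_right (Q.inv_mem (hρQ j)))
        (mem_sup_left (mem_sup_left (Subgroup.subset_closure ⟨j, rfl⟩)))
    have hN : (J ⊓ Q).Normal := by
      refine ⟨fun n hn g => ?_⟩
      have hg : g ∈ J ⊔ Q := by rw [hJQ]; trivial
      obtain ⟨a, ha, q, hq, rfl⟩ := mem_sup_of_normal_right.1 hg
      have hc : ⁅q, n⁆ ∈ K := hab (commutator_mem_commutator hq hn.2)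
      have e : a * q * n * (a * q)⁻¹ = a * (⁅q, n⁆ * n) * a⁻¹ := by
        rw [commutatorElement_def]
        group
      rw [e]
      exact ⟨J.mul_mem (J.mul_mem ha (J.mul_mem (hKJ hc) hn.1)) (J.inv_mem ha),
        Normal.conj_mem inferInstance _ (Q.mul_mem (hle hc) hn.2) _⟩
    have hK : J ⊓ Q = K := by
      refine (hmin _ hN (le_inf hKJ hle) inf_le_right).resolve_right fun hq => hne ?_
      rw [← hJQ]
      exact (sup_eq_left.2 (inf_eq_right.1 hq)).symm
    have hd := ev_congr Q hρQ r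
    have e : ev ρ r = (ev ρ r * (ev π r)⁻¹) * u0 := by rw [← hr]; group
    have hmQ : ev ρ r ∈ Q := by
      rw [e]
      exact Q.mul_mem hd hu0
    have hmK : ev ρ r ∈ K := by
      rw [← hK]
      exact ⟨mem_sup_left (ev_mem_closure ρ r), hmQ⟩
    have h0 := (h.ker _ hmQ).2 hmK
    rwa [e, h.mul _ hd _ hu0, sect_ev h i x hρQ hρp] at h0
  intro x x' hx hx'
  have k1 := key x fun hs => hx (AddSubgroup.subset_closure hs)
  have k2 := key x' fun hs => hx' (AddSubgroup.subset_closure hs)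
  refine AddSubgroup.subset_closure (by_contra fun hs => ?_)
  have k3 := key (x - x') hs
  rw [sub_eq_add_neg, fox_add, fox_neg, add_right_cancel (k1.trans k2.symm), add_neg_cancel,
    zero_add] at k3
  exact hu0K ((h.ker _ hu0).1 k3)

end Pool.Agent.FitW
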