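import Pool.Agent.P.MP_ec89a0_al.Cop

namespace Pool.Agent.FitW

open Subgroup
open scoped commutatorElement Pointwise

section Rank

variable {Γ : Type} [Group Γ] (V : Type) [AddCommGroup V] [DistribMulAction Γ V]

/-- number of values of `t - 1` -/
noncomputable def refl_rk (t : Γ) : ℕ := Set.ncard (Set.range fun v : V => t • v - v)

variable {V}

theorem refl_rk_mul [Finite V] (s t : Γ) : refl_rk V (s * t) ≤ refl_rk V s * refl_rk V t := by
  unfold refl_rk
  rw [← Set.ncard_prod]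
  refine le_trans (Set.ncard_le_ncard ?_ (Set.toFinite _))
    (Set.ncard_image_le (f := fun p : V × V => p.1 + p.2) (Set.toFinite _))
  rintro _ ⟨v, rfl⟩
  exact ⟨(s • t • v - t • v, t • v - v), ⟨⟨t • v, rfl⟩, ⟨v, rfl⟩⟩, by simp [mul_smul]⟩

theorem refl_rk_conj [Finite V] (g t : Γ) : refl_rk V (g * t * g⁻¹) ≤ refl_rk V t := by
  unfold refl_rk
  refine le_trans (Set.ncard_le_ncard ?_ (Set.toFinite _))
    (Set.ncard_image_le (f := fun v : V => g • v) (Set.toFinite _))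
  rintro _ ⟨v, rfl⟩
  exact ⟨_, ⟨g⁻¹ • v, rfl⟩, by simp [mul_smul, smul_sub]⟩

theorem refl_rk_inv [Finite V] (t : Γ) : refl_rk V t⁻¹ ≤ refl_rk V t := by
  unfold refl_rk
  refine le_trans (Set.ncard_le_ncard ?_ (Set.toFinite _))
    (Set.ncard_image_le (f := fun v : V => -v) (Set.toFinite _))
  rintro _ ⟨v, rfl⟩
  exact ⟨_, ⟨t⁻¹ • v, rfl⟩, by simp⟩

theorem refl_rk_comm_right [Finite V] (y t : Γ) : refl_rk V ⁅y, t⁆ ≤ refl_rk V t * refl_rk V t := by
  rw [commutatorElement_def]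
  exact (refl_rk_mul _ _).trans (Nat.mul_le_mul (refl_rk_conj _ _) (refl_rk_inv _))

theorem refl_rk_comm_left [Finite V] (e z : Γ) : refl_rk V ⁅e, z⁆ ≤ refl_rk V e * refl_rk V e := by
  rw [commutatorElement_def, show e * z * e⁻¹ * z⁻¹ = e * (z * e⁻¹ * z⁻¹) by group]
  exact (refl_rk_mul _ _).trans (Nat.mul_le_mul le_rfl ((refl_rk_conj _ _).trans (refl_rk_inv _)))

/-- the fixed points of one element -/
def refl_fix (t : Γ) : AddSubgroup V where
  carrier := {v | t • v = v}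
  add_mem' := fun {a b} ha hb => by
    simp only [Set.mem_ofPred_eq] at ha hb ⊢; rw [smul_add, ha, hb]
  zero_mem' := smul_zero t
  neg_mem' := fun {a} ha => by
    simp only [Set.mem_ofPred_eq] at ha ⊢; rw [smul_neg, ha]

theorem refl_fix_ne_top (hf : Faith Γ V) {t : Γ} (ht : t ≠ 1) : (refl_fix t : AddSubgroup V) ≠ ⊤ := by
  intro h
  exact ht (hf t fun x => (h ▸ AddSubgroup.mem_top x : x ∈ (refl_fix t : AddSubgroup V)))

theorem refl_central [Finite V] (hs : SimpleMod Γ V) (hf : Faith Γ V) {t : Γ}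
    (hc : t ∈ center Γ) (ht : t ≠ 1) : Nat.card V ≤ refl_rk V t := by
  have h1 : (refl_fix t : AddSubgroup V) = ⊥ := by
    refine (hs _ fun g x hx => ?_).resolve_right (refl_fix_ne_top hf ht)
    change t • x = x at hx
    change t • g • x = g • x
    rw [← mul_smul, ← mem_center_iff.1 hc g, mul_smul, hx]
  have h2 : Function.Injective fun v : V => t • v - v := by
    intro a b hab
    have : a - b ∈ (refl_fix t : AddSubgroup V) := by
      change t • (a - b) = a - b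
      simp only at hab
      rw [smul_sub, sub_eq_sub_iff_sub_eq_sub, hab]
    rw [h1, AddSubgroup.mem_bot] at this
    exact sub_eq_zero.1 this
  unfold refl_rk
  rw [← Set.image_univ, Set.ncard_image_of_injective _ h2, Set.ncard_univ]

end Rank

/-- the imprimitive case -/
theorem refl_blocks {Γ V : Type} [Group Γ] [Finite Γ] [Group.IsSolvable Γ]
    [AddCommGroup V] [Finite V] [DistribMulAction Γ V] (hs : SimpleMod Γ V)
    (S : Set Γ) (hS : Subgroup.closure S = ⊤) {n m : ℕ} (hn : ∀ t ∈ S, refl_rk V t ≤ n)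
    (E η : Subgroup Γ) [hE : E.Normal] (hc : ∀ e ∈ E, ∀ e' ∈ E, e * e' = e' * e) (hη : η ≤ E)
    (hinj : ∀ e ∈ E, e ∉ η → ∀ x : V, (∀ e' ∈ η, e' • x = x) → e • x = x → x = 0)
    {v0 : V} (hv0 : ∀ e ∈ η, e • v0 = v0) (hv : v0 ≠ 0)
    (hm : Set.ncard {x : V | ∀ e ∈ η, e • x = x} ≤ m) :
    Nat.card V ≤ (m + 1) ^ (max 1 (2 * (2 * n))) := by
  classical
  set W : Set V := {x : V | ∀ e ∈ η, e • x = x} with hW
  have mem : ∀ (g : Γ) (v : V), v ∈ g • W ↔ ∀ e ∈ η, (g * e * g⁻¹) • v = v := by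
    intro g v
    rw [Set.mem_smul_set_iff_inv_smul_mem]
    refine forall₂_congr fun e _ => ?_
    rw [mul_smul, mul_smul, smul_eq_iff_eq_inv_smul g]
  have orb : ∀ ω : MulAction.orbit Γ W, ∃ g : Γ, (ω : Set V) = g • W := fun ω => by
    obtain ⟨g, hg⟩ := ω.2
    exact ⟨g, hg.symm⟩
  have hsub : ∀ ω : MulAction.orbit Γ W, ∀ e ∈ E, ∀ v ∈ (ω : Set V), e • v - v ∈ (ω : Set V) := by
    intro ω e he v hvω
    obtain ⟨g, hg⟩ := orb ω
    rw [hg, mem] at hvω ⊢
    intro x hx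
    rw [smul_sub, ← mul_smul, hc _ (hE.conj_mem _ (hη hx) g) _ he, mul_smul, hvω x hx]
  have sep : ∀ ω1 ω2 : MulAction.orbit Γ W, ω1 ≠ ω2 → ∃ e ∈ E, (∀ v ∈ (ω2 : Set V), e • v - v = 0) ∧
      ∀ v ∈ (ω1 : Set V), e • v - v = 0 → v = 0 := by
    intro ω1 ω2 hne
    obtain ⟨g1, h1⟩ := orb ω1
    obtain ⟨g2, h2⟩ := orb ω2
    by_contra hcon
    apply hne
    apply Subtype.ext
    apply Set.eq_of_subset_of_ncard_le
    · intro v hv1
      rw [h2, mem]
      intro x hx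
      have hxE : g2 * x * g2⁻¹ ∈ E := hE.conj_mem _ (hη hx) g2
      have hx' : g1⁻¹ * (g2 * x * g2⁻¹) * g1⁻¹⁻¹ ∈ E := hE.conj_mem _ hxE g1⁻¹
      by_cases hin : g1⁻¹ * (g2 * x * g2⁻¹) * g1⁻¹⁻¹ ∈ η
      · rw [h1, mem] at hv1
        have := hv1 _ hin
        rwa [show g1 * (g1⁻¹ * (g2 * x * g2⁻¹) * g1⁻¹⁻¹) * g1⁻¹ = g2 * x * g2⁻¹ by group] at this
      · exfalso
        apply hcon
        refine ⟨_, hxE, fun w hw => ?_, fun w hw h0 => ?_⟩
        · rw [h2, mem] at hw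
          rw [hw x hx, sub_self]
        · rw [h1, Set.mem_smul_set_iff_inv_smul_mem] at hw
          have := hinj _ hx' hin (g1⁻¹ • w) hw (by
            rw [mul_smul, mul_smul, inv_inv, smul_inv_smul, sub_eq_zero.1 h0])
          exact (smul_eq_zero_iff_eq g1⁻¹).1 this
    · rw [h1, h2, Set.ncard_smul_set, Set.ncard_smul_set]
    · exact Set.toFinite _
  have hex : ∀ ω : MulAction.orbit Γ W, ∃ v ∈ (ω : Set V), v ≠ 0 := by
    intro ω
    obtain ⟨g, hg⟩ := orb ω
    exact ⟨g • v0, hg ▸ Set.smul_mem_smul_set hv0, fun h => hv ((smul_eq_zero_iff_eq g).1 h)⟩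
  choose vv hvv hvv0 using hex
  have act : ∀ (t : Γ) (ω : MulAction.orbit Γ W) (v : V), v ∈ (ω : Set V) →
      t • v ∈ ((t • ω : MulAction.orbit Γ W) : Set V) := fun t ω v h => Set.smul_mem_smul_set h
  have hsupp : ∀ t ∈ S, Set.ncard {ω : MulAction.orbit Γ W | t • ω ≠ ω} ≤ 2 * n := by
    intro t ht
    have := Fintype.ofFinite (MulAction.orbit Γ W)
    have key : ∀ ω1 ω2 : MulAction.orbit Γ W, t • ω1 ≠ ω1 →
        t • vv ω1 - vv ω1 = t • vv ω2 - vv ω2 → ω2 = ω1 ∨ ω2 = t⁻¹ • ω1 := by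
      intro ω1 ω2 hm1 heq
      by_contra hcon
      rw [not_or] at hcon
      obtain ⟨e1, he1, a1, b1⟩ := sep ω1 (t • ω1) hm1.symm
      obtain ⟨e2, he2, a2, b2⟩ := sep ω1 (t • ω2) (fun h => hcon.2 (by rw [h, inv_smul_smul]))
      obtain ⟨e3, he3, a3, b3⟩ := sep ω1 ω2 (fun h => hcon.1 h.symm)
      have hv1 : vv ω1 = t • vv ω1 - t • vv ω2 + vv ω2 := by
        rw [sub_eq_sub_iff_sub_eq_sub] at heq
        rw [heq]; abel
      let D : Γ → V →+ V := fun e => DistribSMul.toAddMonoidHom V e - AddMonoidHom.id V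
      have hD : ∀ e v, D e v = e • v - v := fun e v => rfl
      have z : D e1 (D e2 (D e3 (vv ω1))) = 0 := by
        rw [hv1]
        simp only [map_add, map_sub]
        have z1 : D e1 (D e2 (D e3 (t • vv ω1))) = 0 :=
          a1 _ (hsub _ _ he2 _ (hsub _ _ he3 _ (act t _ _ (hvv ω1))))
        have z2 : D e2 (D e3 (t • vv ω2)) = 0 := a2 _ (hsub _ _ he3 _ (act t _ _ (hvv ω2)))
        have z3 : D e3 (vv ω2) = 0 := a3 _ (hvv ω2)
        rw [z1, z2, z3]
        simp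
      have y1 := b1 _ (hsub _ _ he2 _ (hsub _ _ he3 _ (hvv ω1))) z
      have y2 := b2 _ (hsub _ _ he3 _ (hvv ω1)) y1
      exact hvv0 ω1 (b3 _ (hvv ω1) y2)
    set T : Finset (MulAction.orbit Γ W) := Finset.univ.filter fun ω => t • ω ≠ ω with hT
    have e1 : {ω : MulAction.orbit Γ W | t • ω ≠ ω} = (T : Set (MulAction.orbit Γ W)) := by
      ext ω; simp [hT]
    rw [e1, Set.ncard_coe_finset]
    refine (Finset.card_le_mul_card_image (f := fun ω => t • vv ω - vv ω) T 2 ?_).trans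
      (Nat.mul_le_mul_left 2 (le_trans ?_ (hn t ht)))
    · intro a ha
      obtain ⟨ω1, h1, rfl⟩ := Finset.mem_image.1 ha
      refine le_trans (Finset.card_le_card (t := {ω1, t⁻¹ • ω1}) fun ω2 h2 => ?_) Finset.card_le_two
      have := key ω1 ω2 (Finset.mem_filter.1 h1).2 (Finset.mem_filter.1 h2).2.symm
      simpa using this
    · rw [← Set.ncard_coe_finset]
      refine Set.ncard_le_ncard (fun a ha => ?_) (Set.toFinite _)
      obtain ⟨ω1, _, rfl⟩ := Finset.mem_image.1 (Finset.mem_coe.1 ha)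
      exact ⟨vv ω1, rfl⟩
  have hΩ := perm_card_le S hS (2 * n) hsupp
  have := Fintype.ofFinite (MulAction.orbit Γ W)
  have cl : ∀ ω : MulAction.orbit Γ W, (0 : V) ∈ (ω : Set V) ∧
      (∀ a ∈ (ω : Set V), ∀ b ∈ (ω : Set V), a + b ∈ (ω : Set V)) ∧
      ∀ a ∈ (ω : Set V), -a ∈ (ω : Set V) := by
    intro ω
    obtain ⟨g, hg⟩ := orb ω
    simp only [hg, mem]
    exact ⟨fun e _ => smul_zero _, fun a ha b hb e he => by rw [smul_add, ha e he, hb e he],
      fun a ha e he => by rw [smul_neg, ha e he]⟩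
  let U : AddSubgroup V :=
    { carrier := {v | ∃ f : MulAction.orbit Γ W → V, (∀ ω : MulAction.orbit Γ W, f ω ∈ (ω : Set V)) ∧ ∑ ω, f ω = v}
      add_mem' := by
        rintro _ _ ⟨f, hf, rfl⟩ ⟨f', hf', rfl⟩
        exact ⟨f + f', fun ω => (cl ω).2.1 _ (hf ω) _ (hf' ω), by simp [Finset.sum_add_distrib]⟩
      zero_mem' := ⟨0, fun ω => (cl ω).1, by simp⟩
      neg_mem' := by
        rintro _ ⟨f, hf, rfl⟩
        exact ⟨-f, fun ω => (cl ω).2.2 _ (hf ω), by simp⟩ }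
  have hU : U = ⊤ := by
    refine (hs U ?_).resolve_left fun h => ?_
    · rintro g _ ⟨f, hf, rfl⟩
      refine ⟨fun ω => g • f (g⁻¹ • ω), fun ω => ?_, ?_⟩
      · have := act g _ _ (hf (g⁻¹ • ω))
        rwa [smul_inv_smul] at this
      · rw [Finset.smul_sum]
        exact Equiv.sum_comp (MulAction.toPerm g⁻¹) (fun ω => g • f ω)
    · let ω0 : MulAction.orbit Γ W := ⟨W, MulAction.mem_orbit_self W⟩
      have : v0 ∈ U := ⟨Pi.single ω0 v0, fun ω => by
        by_cases h0 : ω = ω0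
        · rw [h0, Pi.single_eq_same]; exact hv0
        · rw [Pi.single_eq_of_ne h0]; exact (cl ω).1, by simp⟩
      rw [h, AddSubgroup.mem_bot] at this
      exact hv this
  have hsurj : Function.Surjective
      fun f : (ω : MulAction.orbit Γ W) → (ω : Set V) => ∑ ω, (f ω : V) := by
    intro v
    obtain ⟨f, hf, rfl⟩ : v ∈ U := hU ▸ AddSubgroup.mem_top v
    exact ⟨fun ω => ⟨f ω, hf ω⟩, rfl⟩
  refine (Nat.card_le_card_of_surjective _ hsurj).trans ?_
  rw [Nat.card_pi]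
  refine (Finset.prod_le_pow_card _ _ (m + 1) fun ω _ => ?_).trans ?_
  · obtain ⟨g, hg⟩ := orb ω
    rw [Nat.card_coe_set_eq, hg, Set.ncard_smul_set]
    omega
  · rw [Finset.card_univ, ← Nat.card_eq_fintype_card]
    exact Nat.pow_le_pow_right (by omega) hΩ

/-- a faithful simple module of a nontrivial finite solvable group generated by elements `t` with
`|[V, t]| ≤ n` has bounded order -/
theorem card_le_of_small (n : ℕ) : ∃ g : ℕ, ∀ (Γ V : Type) [Group Γ] [Finite Γ] [Group.IsSolvable Γ]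
    [AddCommGroup V] [Finite V] [DistribMulAction Γ V], SimpleMod Γ V → Faith Γ V →
    ∀ S : Set Γ, Subgroup.closure S = ⊤ →
    (∀ t ∈ S, Set.ncard (Set.range fun v : V => t • v - v) ≤ n) →
    (∀ t : Γ, t = 1) ∨ Nat.card V ≤ g := by
  refine ⟨n + n * n + n * n * (n * n) + (n * n + 1) ^ (max 1 (2 * (2 * n))), ?_⟩
  intro Γ V _ _ _ _ _ _ hs hf S hS hn
  replace hn : ∀ t ∈ S, refl_rk V t ≤ n := hn
  by_cases htriv : ∀ t : Γ, t = 1
  · exact Or.inl htriv
  right
  by_cases hab : (⊤ : Subgroup Γ) ≤ center Γ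
  · have : ∃ t ∈ S, t ≠ 1 := by
      by_contra h
      push Not at h
      apply htriv
      intro t
      have h1 : Subgroup.closure S ≤ ⊥ := (closure_le _).2 fun x hx => h x hx
      exact mem_bot.1 (h1 (hS ▸ mem_top t))
    obtain ⟨t, ht, ht1⟩ := this
    have := (refl_central hs hf (hab (mem_top t)) ht1).trans (hn t ht)
    omega
  obtain ⟨N, hN⟩ := exists_minimal_of_wellFoundedLT
    (fun N : Subgroup Γ => N.Normal ∧ ¬ N ≤ center Γ) ⟨⊤, inferInstance, hab⟩
  obtain ⟨hNn, hNc⟩ := hN.prop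
  have small : ∀ M : Subgroup Γ, M.Normal → M ≤ N → M ≠ N → M ≤ center Γ := by
    intro M h1 h2 h3
    by_contra h4
    exact h3 (le_antisymm h2 (hN.le_of_le ⟨h1, h4⟩ h2))
  have hN0 : N ≠ ⊥ := fun h => hNc (h ▸ bot_le)
  have hlt := Group.IsSolvable.commutator_lt_of_ne_bot hN0
  have hcc : ⁅N, N⁆ ≤ center Γ := small _ inferInstance hlt.le hlt.ne
  obtain ⟨y, hy, t, ht, hyt⟩ : ∃ y ∈ N, ∃ t ∈ S, ⁅y, t⁆ ≠ 1 := by
    by_contra h
    push Not at h
    apply hNc
    intro y hy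
    have h1 : Subgroup.closure S ≤ centralizer {y} := (closure_le _).2 fun x hx => by
      rw [SetLike.mem_coe, mem_centralizer_singleton_iff]
      exact (commutatorElement_eq_one_iff_mul_comm.1 (h y hy x hx)).symm
    rw [mem_center_iff]
    intro g
    exact mem_centralizer_singleton_iff.1 (h1 (hS ▸ mem_top g))
  set e := ⁅y, t⁆ with he
  have hy' : t * y⁻¹ * t⁻¹ ∈ N := hNn.conj_mem _ (N.inv_mem hy) t
  have he' : e = y * (t * y⁻¹ * t⁻¹) := by rw [he, commutatorElement_def]; group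
  have heN : e ∈ N := he' ▸ N.mul_mem hy hy'
  have hrk : refl_rk V e ≤ n * n :=
    (refl_rk_comm_right y t).trans (Nat.mul_le_mul (hn t ht) (hn t ht))
  by_cases hec : e ∈ center Γ
  · have := (refl_central hs hf hec hyt).trans hrk
    omega
  by_cases hz : ∃ z ∈ N, ⁅e, z⁆ ≠ 1
  · obtain ⟨z, hz, hz1⟩ := hz
    have := (refl_central hs hf (hcc (commutator_mem_commutator heN hz)) hz1).trans
      ((refl_rk_comm_left e z).trans (Nat.mul_le_mul hrk hrk))
    omega
  push Not at hz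
  have hcomm : ∀ a ∈ N, ∀ b ∈ N, a * b = b * a := by
    have h1 : N ⊓ centralizer (N : Set Γ) = N := by
      by_contra h
      apply hec
      refine small _ inferInstance inf_le_left h (Subgroup.mem_inf.2 ⟨heN, ?_⟩)
      rw [mem_centralizer_iff]
      exact fun z hz' => (commutatorElement_eq_one_iff_mul_comm.1 (hz z hz')).symm
    intro a ha b hb
    have h2 : b ∈ N ⊓ centralizer (N : Set Γ) := h1.symm ▸ hb
    exact mem_centralizer_iff.1 h2.2 a ha
  obtain ⟨r, hr, hrd⟩ := Nat.exists_prime_and_dvd (n := Nat.card N) (by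
    rw [Ne, Subgroup.card_eq_one]; exact hN0)
  have := Fact.mk hr
  let M : Subgroup Γ :=
    { carrier := {x | ∃ a ∈ N, a ^ r = x}
      mul_mem' := by
        rintro _ _ ⟨a, ha, rfl⟩ ⟨b, hb, rfl⟩
        exact ⟨a * b, N.mul_mem ha hb, Commute.mul_pow (hcomm a ha b hb) r⟩
      one_mem' := ⟨1, N.one_mem, one_pow r⟩
      inv_mem' := by
        rintro _ ⟨a, ha, rfl⟩
        exact ⟨a⁻¹, N.inv_mem ha, inv_pow a r⟩ }
  have hM : M ≤ center Γ := by
    refine small M ⟨?_⟩ ?_ fun h => ?_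
    · rintro _ ⟨a, ha, rfl⟩ g
      exact ⟨g * a * g⁻¹, hNn.conj_mem a ha g, conj_pow⟩
    · rintro _ ⟨a, ha, rfl⟩
      exact N.pow_mem ha r
    · have hsurj : Function.Surjective fun a : N => a ^ r := by
        intro b
        have hb : (b : Γ) ∈ M := by rw [h]; exact b.2
        obtain ⟨a, ha, hab⟩ := hb
        exact ⟨⟨a, ha⟩, Subtype.ext hab⟩
      obtain ⟨x, hx⟩ := exists_prime_orderOf_dvd_card' r hrd
      have h1 : x = 1 := Finite.injective_iff_surjective.2 hsurj (by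
        simp only [one_pow]; rw [← hx]; exact pow_orderOf_eq_one x)
      rw [h1, orderOf_one] at hx
      exact hr.one_lt.ne hx
  have her : e ^ r = 1 := by
    have h1 := mem_center_iff.1 (hM ⟨y, hy, rfl⟩) t
    rw [he', Commute.mul_pow (hcomm _ hy _ hy') r, conj_pow, inv_pow, ← mul_assoc, ← mul_assoc, ← h1]
    group
  let E : Subgroup Γ :=
    { carrier := {x | x ∈ N ∧ x ^ r = 1}
      mul_mem' := fun {a b} ha hb => ⟨N.mul_mem ha.1 hb.1, by
        rw [Commute.mul_pow (hcomm a ha.1 b hb.1) r, ha.2, hb.2, one_mul]⟩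
      one_mem' := ⟨N.one_mem, one_pow r⟩
      inv_mem' := fun {a} ha => ⟨N.inv_mem ha.1, by rw [inv_pow, ha.2, inv_one]⟩ }
  have hEn : E.Normal := ⟨fun a ha g => ⟨hNn.conj_mem a ha.1 g, by
    rw [conj_pow, ha.2, mul_one, mul_inv_cancel]⟩⟩
  have heE : e ∈ E := ⟨heN, her⟩
  have hEc : ∀ a ∈ E, ∀ b ∈ E, a * b = b * a := fun a ha b hb => hcomm a ha.1 b hb.1
  obtain ⟨h0, hr0⟩ := cop_zero hs hf E (fun h => hyt (mem_bot.1 (h ▸ heE))) hr fun a ha => ha.2
  obtain ⟨η, hη, ⟨x, hx, hxY⟩, hinj, -⟩ := cop_eta E hEc hr (fun a ha => ha.2) h0 hr0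
    (refl_fix e : AddSubgroup V) (refl_fix_ne_top hf hyt)
  have heη : e ∉ η := fun h => hxY (hx e h)
  have hm : Set.ncard {x : V | ∀ e ∈ η, e • x = x} ≤ n * n := by
    refine le_trans (Set.ncard_le_ncard_of_injOn (t := Set.range fun v : V => e • v - v)
      (fun v => e • v - v) (fun a _ => ⟨a, rfl⟩)
      (fun a ha b hb hab => ?_) (Set.toFinite _)) hrk
    refine sub_eq_zero.1 (hinj e heE heη (a - b) (fun e' he' => by
      rw [smul_sub, ha e' he', hb e' he']) ?_)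
    simp only at hab
    rw [smul_sub, sub_eq_sub_iff_sub_eq_sub, hab]
  have := refl_blocks hs S hS hn E η hEc hη hinj hx
    (fun h => hxY (h ▸ AddSubgroup.zero_mem _)) hm
  omega

end Pool.Agent.FitW
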