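import Pool.Agent.P.MP_ec89a0_al.Basic
import Pool.Agent.P.MP_ec89a0_al.Refl

namespace Pool.Agent.FitW

open Subgroup
open scoped commutatorElement

theorem state_inv {G X : Type} [Group G] [Finite G] [AddCommGroup X] [DistribMulAction G X]
    (Y : AddSubgroup X) {g : G} (hg : ∀ x ∈ Y, g • x ∈ Y) : ∀ x ∈ Y, g⁻¹ • x ∈ Y := by
  have hp : ∀ k : ℕ, ∀ x ∈ Y, g ^ k • x ∈ Y := by
    intro k
    induction k with
    | zero => intro x hx; simpa using hx
    | succ k ih => intro x hx; rw [pow_succ, mul_smul]; exact ih _ (hg x hx)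
  have h1 : g⁻¹ = g ^ (orderOf g - 1) := by
    have h0 : 0 < orderOf g := orderOf_pos g
    rw [inv_eq_iff_mul_eq_one, ← pow_succ', Nat.sub_add_cancel h0, pow_orderOf_eq_one]
  rw [h1]
  exact hp _

theorem state_stab {G X : Type} [Group G] [Finite G] [AddCommGroup X] [DistribMulAction G X]
    (Y : AddSubgroup X) (n : ℕ) :
    ∀ m ∈ Subgroup.closure {t : G | Small Y n t}, ∀ x ∈ Y, m • x ∈ Y := by
  intro m hm
  induction hm using Subgroup.closure_induction with
  | mem t ht => exact ht.1
  | one => intro x hx; simpa using hx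
  | mul a b _ _ ha hb => intro x hx; rw [mul_smul]; exact ha _ (hb x hx)
  | inv a _ ha => exact state_inv Y ha

theorem state_quot {G X : Type} [Group G] [AddCommGroup X] [DistribMulAction G X]
    (M : Subgroup G) (Y : AddSubgroup X) (h : ∀ m ∈ M, ∀ x ∈ Y, m • x ∈ Y) :
    ∃ φ : M →* Equiv.Perm (X ⧸ Y), ∀ (m : M) (x : X),
      φ m (QuotientAddGroup.mk x) = QuotientAddGroup.mk ((m : G) • x) := by
  let F : M → (X ⧸ Y →+ X ⧸ Y) := fun m =>
    QuotientAddGroup.map Y Y (DistribSMul.toAddMonoidHom X (m : G)) (fun x hx => h m m.2 x hx)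
  have hF : ∀ (m : M) (x : X),
      F m (QuotientAddGroup.mk x) = QuotientAddGroup.mk ((m : G) • x) := fun m x => rfl
  let act : MulAction M (X ⧸ Y) :=
    { smul := fun m v => F m v
      one_smul := by
        intro v
        obtain ⟨x, rfl⟩ := QuotientAddGroup.mk_surjective v
        change F 1 (QuotientAddGroup.mk x) = QuotientAddGroup.mk x
        rw [hF, Subgroup.coe_one, one_smul]
      mul_smul := by
        intro a b v
        obtain ⟨x, rfl⟩ := QuotientAddGroup.mk_surjective v
        change F (a * b) (QuotientAddGroup.mk x) = F a (F b (QuotientAddGroup.mk x))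
        rw [hF, hF, hF, Subgroup.coe_mul, mul_smul] }
  exact ⟨MulAction.toPermHom M (X ⧸ Y), fun m x => hF m x⟩

/-- state lemma: the subgroup generated by small elements cannot contain, deep in its derived
series, a subgroup `T` with `[X, T] = X` -/
theorem state_lemma (n : ℕ) : ∃ f : ℕ, ∀ (G X : Type) [Group G] [Finite G] [Group.IsSolvable G]
    [AddCommGroup X] [Finite X] [DistribMulAction G X] (Y : AddSubgroup X), Y ≠ ⊤ →
    ∀ T : Subgroup G, Mov X T → ¬ T ≤ dser (Subgroup.closure {t : G | Small Y n t}) f := by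
  classical
  obtain ⟨g, hg⟩ := card_le_of_small n
  refine ⟨g.factorial, ?_⟩
  intro G X _ _ _ _ _ _ Y hY T hT hle
  have hst := state_stab (G := G) Y n
  set M : Subgroup G := Subgroup.closure {t : G | Small Y n t} with hM
  obtain ⟨Y2, hYY2, hmax⟩ := Finite.exists_le_maximal
    (p := fun U : AddSubgroup X => U ≠ ⊤ ∧ ∀ m ∈ M, ∀ x ∈ U, m • x ∈ U) (a := Y) ⟨hY, hst⟩
  obtain ⟨hne, hinv⟩ := hmax.prop
  obtain ⟨φ, hφ⟩ := state_quot M Y2 hinv
  let act : DistribMulAction φ.range (X ⧸ Y2) :=
    { (inferInstance : MulAction φ.range (X ⧸ Y2)) with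
      smul_zero := by
        rintro ⟨_, m, rfl⟩
        change φ m (QuotientAddGroup.mk 0) = QuotientAddGroup.mk 0
        rw [hφ, smul_zero]
      smul_add := by
        rintro ⟨_, m, rfl⟩ v w
        obtain ⟨x, rfl⟩ := QuotientAddGroup.mk_surjective v
        obtain ⟨y, rfl⟩ := QuotientAddGroup.mk_surjective w
        change φ m (QuotientAddGroup.mk (x + y)) =
          φ m (QuotientAddGroup.mk x) + φ m (QuotientAddGroup.mk y)
        rw [hφ, hφ, hφ, smul_add, QuotientAddGroup.mk_add] }
  have hsm : ∀ (m : M) (x : X), φ.rangeRestrict m • (QuotientAddGroup.mk x : X ⧸ Y2) =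
      QuotientAddGroup.mk ((m : G) • x) := fun m x => hφ m x
  have : Group.IsSolvable φ.range :=
    Group.isSolvable_of_surjective (f := φ.rangeRestrict) φ.rangeRestrict_surjective
  have hsimple : SimpleMod φ.range (X ⧸ Y2) := by
    intro U hU
    by_cases htop : U = ⊤
    · exact Or.inr htop
    · left
      have h1 : U.comap (QuotientAddGroup.mk' Y2) ≠ ⊤ := by
        intro h
        apply htop
        rw [eq_top_iff]
        intro v _
        obtain ⟨x, rfl⟩ := QuotientAddGroup.mk_surjective v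
        have : x ∈ U.comap (QuotientAddGroup.mk' Y2) := by rw [h]; trivial
        exact this
      have h2 : ∀ m ∈ M, ∀ x ∈ U.comap (QuotientAddGroup.mk' Y2),
          m • x ∈ U.comap (QuotientAddGroup.mk' Y2) := by
        intro m hm x hx
        have h3 := hU (φ.rangeRestrict ⟨m, hm⟩) _ hx
        change φ.rangeRestrict ⟨m, hm⟩ • (QuotientAddGroup.mk x : X ⧸ Y2) ∈ U at h3
        rw [hsm] at h3
        exact h3
      have h3 : Y2 ≤ U.comap (QuotientAddGroup.mk' Y2) := by
        intro x hx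
        change (QuotientAddGroup.mk x : X ⧸ Y2) ∈ U
        rw [(QuotientAddGroup.eq_zero_iff x).mpr hx]
        exact U.zero_mem
      have h4 := hmax.le_of_ge ⟨h1, h2⟩ h3
      rw [eq_bot_iff]
      intro v hv
      obtain ⟨x, rfl⟩ := QuotientAddGroup.mk_surjective v
      exact (QuotientAddGroup.eq_zero_iff x).mpr (h4 hv)
  have hfaith : Faith φ.range (X ⧸ Y2) := by
    intro γ hγ
    apply Subtype.ext
    ext v
    exact hγ v
  have hgen : Subgroup.closure (φ.rangeRestrict ''
      (((↑) : M → G) ⁻¹' {t : G | Small Y n t})) = ⊤ := by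
    rw [← MonoidHom.map_closure, Subgroup.closure_closure_coe_preimage, ← MonoidHom.range_eq_map,
      MonoidHom.range_eq_top]
    exact φ.rangeRestrict_surjective
  have hrk : ∀ t ∈ φ.rangeRestrict '' (((↑) : M → G) ⁻¹' {t : G | Small Y n t}),
      Set.ncard (Set.range fun v : X ⧸ Y2 => t • v - v) ≤ n := by
    rintro _ ⟨m, ⟨-, F, hF, hx⟩, rfl⟩
    have h1 : (Set.range fun v : X ⧸ Y2 => φ.rangeRestrict m • v - v) ⊆
        ((F.image fun x : X => (QuotientAddGroup.mk x : X ⧸ Y2) : Finset (X ⧸ Y2)) : Set _) := by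
      rintro _ ⟨v, rfl⟩
      obtain ⟨x, rfl⟩ := QuotientAddGroup.mk_surjective v
      obtain ⟨a, ha, h2⟩ := hx x
      simp only [Finset.coe_image, Set.mem_image, Finset.mem_coe]
      refine ⟨a, ha, ?_⟩
      rw [hsm, ← QuotientAddGroup.mk_sub, eq_comm, ← sub_eq_zero, ← QuotientAddGroup.mk_sub]
      exact (QuotientAddGroup.eq_zero_iff _).mpr (hYY2 h2)
    calc _ ≤ _ := Set.ncard_le_ncard h1 (Finset.finite_toSet _)
      _ ≤ F.card := by rw [Set.ncard_coe_finset]; exact Finset.card_image_le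
      _ ≤ n := hF
  have hcard : Nat.card φ.range ≤ g.factorial := by
    rcases hg φ.range (X ⧸ Y2) hsimple hfaith _ hgen hrk with h | h
    · have : Subsingleton φ.range := ⟨fun a b => by rw [h a, h b]⟩
      exact (Finite.card_le_one_iff_subsingleton.mpr inferInstance).trans (Nat.factorial_pos g)
    · calc Nat.card φ.range ≤ Nat.card (Equiv.Perm (X ⧸ Y2)) := Subgroup.card_le_card_group _
        _ = (Nat.card (X ⧸ Y2)).factorial := Nat.card_perm
        _ ≤ g.factorial := Nat.factorial_le h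
  have hbot := dser_eq_bot φ.range hcard
  apply hne
  rw [eq_top_iff, ← hT, AddSubgroup.closure_le]
  rintro _ ⟨t, ht, x, rfl⟩
  have h1 : t ∈ (dser (⊤ : Subgroup M) g.factorial).map M.subtype := by
    rw [map_dser, ← MonoidHom.range_eq_map, Subgroup.range_subtype]
    exact hle ht
  obtain ⟨m, hm, rfl⟩ := h1
  have h2 : φ m ∈ (dser (⊤ : Subgroup M) g.factorial).map φ := ⟨m, hm, rfl⟩
  rw [map_dser, ← MonoidHom.range_eq_map, hbot, Subgroup.mem_bot] at h2
  have h3 := hφ m x
  rw [h2] at h3
  have h4 : (QuotientAddGroup.mk ((m : G) • x - x) : X ⧸ Y2) = 0 := by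
    rw [QuotientAddGroup.mk_sub, ← h3]
    simp
  exact (QuotientAddGroup.eq_zero_iff _).mp h4

end Pool.Agent.FitW
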