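import Pool.Agent.P.MP_ec89a0_al.Words
import Pool.Agent.P.MP_ec89a0_al.State
import Pool.Agent.P.MP_ec89a0_al.Level

namespace Pool.Agent.FitW

open Subgroup
open scoped commutatorElement

theorem mono_cnt_zero {G : Type} [Group G] (N : Subgroup G) {P : G → Prop}
    (h : ∀ y ∈ N, ¬ P y) : cnt N P = 0 := by
  have h1 : {y : G | y ∈ N ∧ P y} = ∅ :=
    Set.eq_empty_iff_forall_notMem.2 fun y hy => h y hy.1 hy.2
  rw [cnt, h1, Set.ncard_empty]

theorem mono_count {G X : Type} [Group G] [Finite G] [AddCommGroup X] [DistribMulAction G X]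
    {N K : Subgroup G} {p : G → X} (h : IsSect N K p) (Y : AddSubgroup X) {n : ℕ} {t : G}
    (ht : ∀ x ∈ Y, t • x ∈ Y) (hs : ¬ Small Y n t) :
    n * cnt N (fun y => t • p y - p y ∈ Y) ≤ Nat.card N := by
  classical
  let H : Subgroup N :=
    { carrier := {y | t • p y - p y ∈ Y}
      one_mem' := by
        show t • p 1 - p 1 ∈ Y
        rw [h.one, smul_zero, sub_zero]
        exact Y.zero_mem
      mul_mem' := fun {a b} ha hb => by
        show t • p (a * b) - p (a * b) ∈ Y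
        rw [h.mul _ a.2 _ b.2, smul_add, add_sub_add_comm]
        exact Y.add_mem ha hb
      inv_mem' := fun {a} ha => by
        show t • p (a : G)⁻¹ - p (a : G)⁻¹ ∈ Y
        rw [h.inv a.2, smul_neg, neg_sub_neg, ← neg_sub]
        exact Y.neg_mem ha }
  have h1 : cnt N (fun y => t • p y - p y ∈ Y) = Nat.card H := by
    have h2 : {y : G | y ∈ N ∧ t • p y - p y ∈ Y} = Subtype.val '' (H : Set N) := by
      ext y
      exact ⟨fun hy => ⟨⟨y, hy.1⟩, hy.2, rfl⟩, fun ⟨z, hz, e⟩ => e ▸ ⟨z.2, hz⟩⟩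
    rw [cnt, h2, Set.ncard_image_of_injective _ Subtype.val_injective]
    rfl
  have h3 : n ≤ H.index := by
    by_contra h4
    have := Fintype.ofFinite (N ⧸ H)
    refine hs ⟨ht, Finset.univ.image fun q : N ⧸ H => t • p q.out - p q.out, ?_, fun x => ?_⟩
    · refine Finset.card_image_le.trans ?_
      rw [Finset.card_univ, ← Nat.card_eq_fintype_card]
      exact (not_le.1 h4).le
    · obtain ⟨u, hu, rfl⟩ := h.surj x
      refine ⟨_, Finset.mem_image_of_mem _ (Finset.mem_univ (QuotientGroup.mk ⟨u, hu⟩)), ?_⟩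
      generalize hq : (QuotientGroup.mk ⟨u, hu⟩ : N ⧸ H) = q
      have h5 : q.out⁻¹ * ⟨u, hu⟩ ∈ H := QuotientGroup.eq.1 (by rw [hq]; exact q.out_eq)
      have h6 : t • p ((q.out : G)⁻¹ * u) - p ((q.out : G)⁻¹ * u) ∈ Y := h5
      rw [h.mul _ (N.inv_mem q.out.2) _ hu, h.inv q.out.2, smul_add, smul_neg] at h6
      have h7 : t • p u - p u - (t • p q.out - p q.out) =
          -(t • p q.out) + t • p u - (-p q.out + p u) := by abel
      rw [h7]
      exact h6
  rw [h1, ← H.card_mul_index, mul_comm]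
  exact Nat.mul_le_mul_left _ h3

/-- coarsening of a point stabiliser across one nilpotent layer -/
theorem mono_lemma (n : ℕ) : ∃ f : ℕ, ∀ (G : Type) [Group G] [Finite G] [Group.IsSolvable G]
    (A N T : Subgroup G), N.Normal → ⁅N, T⁆ = N → (∃ k, N.lowerCentralSeries k ≤ A) →
    ∃ A' : Subgroup G, N ≤ A' ∧
      (∀ t : G, t ∉ A' → n * cnt N (fun y => y⁻¹ * t * y ∈ A) ≤ Nat.card N) ∧
      (N ≤ A → A' = A) ∧ (¬ N ≤ A → ¬ T ≤ dser A' f) := by
  obtain ⟨f, hf⟩ := state_lemma (max n 1)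
  refine ⟨f, fun G _ _ _ A N T hN hT ⟨k, hk⟩ => ?_⟩
  by_cases hA : N ≤ A
  · refine ⟨A, hA, fun t ht => ?_, fun _ => rfl, fun h => absurd hA h⟩
    rw [mono_cnt_zero N, mul_zero]
    · exact Nat.zero_le _
    · intro y hy h1
      have h2 := A.mul_mem (A.mul_mem (hA hy) h1) (A.inv_mem (hA hy))
      rw [show y * (y⁻¹ * t * y) * y⁻¹ = t by group] at h2
      exact ht h2
  obtain ⟨K, Q, hK, -, hKQ, hQN, hNK, hQ, -⟩ := level_one A N k hk hA
  obtain ⟨X, _, _, _, p, hp⟩ := exists_sect N K (hKQ.trans hQN) hNK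
  obtain ⟨Y, hY1, hY2, hY3⟩ := hp.exists_image (A ⊔ K) le_sup_right
  have hNA : N ≤ Subgroup.closure {t : G | Small Y (max n 1) t} := by
    intro g hg
    have h1 : ∀ x : X, g • x = x :=
      hp.smul_eq fun u hu => hNK (Subgroup.commutator_mem_commutator hg hu)
    refine Subgroup.subset_closure ⟨fun x hx => by rwa [h1], {0}, ?_, fun x => ⟨0, ?_, ?_⟩⟩
    · rw [Finset.card_singleton]
      exact le_max_right _ _
    · exact Finset.mem_singleton_self _
    · rw [h1, sub_self, sub_zero]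
      exact Y.zero_mem
  refine ⟨_, hNA, fun t ht => ?_, fun h => absurd h hA,
    fun _ => hf G X Y (hY3 fun h => hQ (hQN.trans h)) T (hp.mov hT)⟩
  by_cases h0 : ∃ y₀ ∈ N, y₀⁻¹ * t * y₀ ∈ A
  · obtain ⟨y₀, hy₀, h1⟩ := h0
    have h2 : y₀⁻¹ * t * y₀ ∈ A ⊔ K := Subgroup.mem_sup_left h1
    have h3 : ¬ Small Y (max n 1) (y₀⁻¹ * t * y₀) := by
      intro h
      have h4 := mul_mem (mul_mem (hNA hy₀) (Subgroup.subset_closure h)) (inv_mem (hNA hy₀))
      rw [show y₀ * (y₀⁻¹ * t * y₀) * y₀⁻¹ = t by group] at h4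
      exact ht h4
    refine le_trans (Nat.mul_le_mul (le_max_left n 1) ?_) (mono_count hp Y (hY2 _ h2) h3)
    rw [← cnt_mul_left N _ hy₀]
    refine cnt_mono N fun z hz h5 => ?_
    generalize hs : y₀⁻¹ * t * y₀ = s at h2
    have h6 : z⁻¹ * (s * z * s⁻¹) ∈ A ⊔ K := by
      have h7 := mul_mem (Subgroup.mem_sup_left h5 : _ ∈ A ⊔ K) (inv_mem h2)
      rwa [show (y₀ * z)⁻¹ * t * (y₀ * z) * s⁻¹ = z⁻¹ * (s * z * s⁻¹) by
        rw [← hs]
        group] at h7
    have h8 := hN.conj_mem z hz s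
    have h9 := (hY1 _ (N.mul_mem (N.inv_mem hz) h8)).2 h6
    rwa [hp.mul _ (N.inv_mem hz) _ h8, hp.inv hz, hp.conj s z hz, neg_add_eq_sub] at h9
  · rw [mono_cnt_zero N fun y hy h1 => h0 ⟨y, hy, h1⟩, mul_zero]
    exact Nat.zero_le _

end Pool.Agent.FitW
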