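import Pool.Agent.P.MP_ec89a0_al.TwoF

namespace Pool.Agent.FitW

open Subgroup
open scoped commutatorElement

/-- every action factors through a faithful one -/
theorem two_exists_faith (G X : Type) [Group G] [AddCommGroup X] [DistribMulAction G X] :
    ∃ (H : Type) (_ : Group H) (_ : DistribMulAction H X) (φ : G →* H),
      Function.Surjective φ ∧ Faith H X ∧ ∀ (g : G) (x : X), φ g • x = g • x := by
  refine ⟨(DistribMulAction.toModuleAut ℤ X : G →* X ≃ₗ[ℤ] X).range, inferInstance, inferInstance,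
    MonoidHom.rangeRestrict _, MonoidHom.rangeRestrict_surjective _, ?_, ?_⟩
  · intro g hg
    apply Subtype.ext
    apply LinearEquiv.ext
    intro x
    exact hg x
  · intro g x
    rfl

theorem two_opSum {G H X : Type} [Group G] [Group H] [AddCommGroup X] [DistribMulAction G X]
    [DistribMulAction H X] (φ : G →* H) (hφ : ∀ (g : G) (x : X), φ g • x = g • x)
    (T : List (ℤ × G)) (x : X) :
    opSum (T.map fun a => (a.1, φ a.2)) x = opSum T x := by
  unfold opSum
  rw [List.map_map]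
  congr 2
  apply List.map_congr_left
  intro a _
  simp only [Function.comp, hφ]

/-- level two -/
theorem level_two (l : ℕ) : ∃ b f : ℕ, ∀ (G X : Type) [Group G] [Finite G] [Group.IsSolvable G]
    [AddCommGroup X] [Finite X] [DistribMulAction G X], SimpleMod G X →
    ∀ Y : AddSubgroup X, Y ≠ ⊤ → ∀ P T' : Subgroup G, P.Normal → T'.Normal → ⁅P, T'⁆ = P →
    (∃ t ∈ P, ∃ x : X, t • x ≠ x) →
    ∃ B : Subgroup G, (∀ g : G, (∀ x : X, g • x = x) → g ∈ B) ∧ ¬ T' ≤ dser B f ∧
      ∀ T : List (ℤ × G), T.length ≤ l → ∀ U : AddSubgroup X, Idx2 U →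
        cnt P (fun y => ∀ a ∈ T, y⁻¹ * a.2 * y ∉ B) ≤
          b * cnt P (fun y => ∃ x ∈ U, y⁻¹ • opSum T x ∉ Y) := by
  obtain ⟨b, f, hbf⟩ := level_two_faith l
  refine ⟨b, f, ?_⟩
  intro G X _ _ _ _ _ _ hS Y hY P T' hP hT' hPT hne
  obtain ⟨H, _, _, φ, hsurj, hF, hφ⟩ := two_exists_faith G X
  have : Finite H := Finite.of_surjective φ hsurj
  have : Group.IsSolvable H := Group.isSolvable_of_surjective hsurj
  have hSH : SimpleMod H X := by
    intro U hU
    apply hS U
    intro g x hx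
    rw [← hφ]
    exact hU _ x hx
  have hcomm : ⁅P.map φ, T'.map φ⁆ = P.map φ := by
    rw [← Subgroup.map_commutator, hPT]
  have hne' : P.map φ ≠ ⊥ := by
    obtain ⟨t, ht, x, hx⟩ := hne
    intro hb
    have h1 : φ t ∈ P.map φ := Subgroup.mem_map_of_mem φ ht
    rw [hb, Subgroup.mem_bot] at h1
    apply hx
    rw [← hφ, h1, one_smul]
  obtain ⟨B, hB1, hB2⟩ := hbf H X hSH hF Y hY (P.map φ) (T'.map φ) (hP.map φ hsurj)
    (hT'.map φ hsurj) hcomm hne'
  refine ⟨B.comap φ, ?_, ?_, ?_⟩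
  · intro g hg
    have h1 : φ g = 1 := hF _ fun x => by rw [hφ, hg]
    rw [Subgroup.mem_comap, h1]
    exact B.one_mem
  · intro hle
    apply hB1
    have h1 := Subgroup.map_mono (f := φ) hle
    rwa [map_dser, Subgroup.map_comap_eq_self_of_surjective hsurj] at h1
  · intro T hT U hU
    have h1 := hB2 (T.map fun a => (a.1, φ a.2)) (by simpa using hT) U hU
    have e1 : (fun y : G => ∀ a ∈ T, y⁻¹ * a.2 * y ∉ B.comap φ) =
        fun y : G => (fun z : H => ∀ a ∈ T.map (fun a => (a.1, φ a.2)), z⁻¹ * a.2 * z ∉ B) (φ y) := by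
      funext y
      apply propext
      constructor
      · intro h a ha
        obtain ⟨a', ha', rfl⟩ := List.mem_map.1 ha
        have h2 := h a' ha'
        rwa [Subgroup.mem_comap, map_mul, map_mul, map_inv] at h2
      · intro h a ha
        have h2 := h _ (List.mem_map.2 ⟨a, ha, rfl⟩)
        rwa [Subgroup.mem_comap, map_mul, map_mul, map_inv]
    have e2 : (fun y : G => ∃ x ∈ U, y⁻¹ • opSum T x ∉ Y) =
        fun y : G => (fun z : H => ∃ x ∈ U,
          z⁻¹ • opSum (T.map fun a => (a.1, φ a.2)) x ∉ Y) (φ y) := by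
      funext y
      simp only [two_opSum φ hφ, ← map_inv, hφ]
    have c1 := cnt_comap φ P
      (fun z : H => ∀ a ∈ T.map (fun a => (a.1, φ a.2)), z⁻¹ * a.2 * z ∉ B)
    have c2 := cnt_comap φ P
      (fun z : H => ∃ x ∈ U, z⁻¹ • opSum (T.map fun a => (a.1, φ a.2)) x ∉ Y)
    rw [e1, e2]
    refine (c1.le.trans ?_).trans (Nat.mul_le_mul_left b c2.ge)
    rw [Nat.mul_left_comm]
    exact Nat.mul_le_mul_left _ h1

end Pool.Agent.FitW
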