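import Pool.Agent.P.MP_ec89a0_al.Lift
import Pool.Agent.P.MP_ec89a0_al.FoxExp
import Pool.Agent.P.MP_ec89a0_al.Two

namespace Pool.Agent.FitW

open Subgroup
open scoped commutatorElement

theorem NewPair_triv {G : Type} [Group G] {X : Type} [AddCommGroup X] [DistribMulAction G X]
    {Q K N : Subgroup G} [Q.Normal] {p : G → X} (h : IsSect Q K p) (hQN : Q ≤ N)
    (hNN : ⁅N, N⁆ ≤ K) {g : G} (hg : g ∈ N) (x : X) : g • x = x :=
  h.smul_eq (fun _ hu => hNN (Subgroup.commutator_mem_commutator hg (hQN hu))) x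

theorem NewPair_moves {G : Type} [Group G] [Finite G] {X : Type} [AddCommGroup X]
    [DistribMulAction G X] {Q K N P : Subgroup G} [Q.Normal] [K.Normal] [N.Normal] {p : G → X}
    (h : IsSect Q K p) (hKQ : K ≤ Q) (hQN : Q ≤ N) (hNN : ⁅N, N⁆ ≤ K) (hQK : ¬ Q ≤ K)
    (hNP : ⁅N, P⁆ = N) {k : ℕ} (hk : P.lowerCentralSeries k ≤ N) :
    ∃ t ∈ P, ∃ x : X, t • x ≠ x := by
  by_contra hcon
  push Not at hcon
  obtain ⟨X', i1, i2, i3, p', h'⟩ := exists_sect N K (hKQ.trans hQN) hNN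
  obtain ⟨u, huQ, huK⟩ := SetLike.not_le_iff_exists.1 hQK
  have huN : u ∈ N := hQN huQ
  have hv : p' u = 0 := by
    refine no_fixed P k (fun g hg x => NewPair_triv h' le_rfl hNN (hk hg) x) (h'.mov hNP) (p' u) ?_
    intro t ht
    have hc : t * u * t⁻¹ ∈ Q := Subgroup.Normal.conj_mem inferInstance u huQ t
    have h1 : p (t * u * t⁻¹ * u⁻¹) = 0 := by
      rw [h.mul _ hc _ (Q.inv_mem huQ), h.conj t u huQ, hcon t ht, h.inv huQ, add_neg_cancel]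
    have h2 : t * u * t⁻¹ * u⁻¹ ∈ K := (h.ker _ (Q.mul_mem hc (Q.inv_mem huQ))).1 h1
    have h3 : p' (t * u * t⁻¹ * u⁻¹) = 0 := (h'.ker _ (hQN (hKQ h2))).2 h2
    rw [h'.mul _ (hQN hc) _ (N.inv_mem huN), h'.conj t u huN, h'.inv huN] at h3
    exact add_neg_eq_zero.1 h3
  exact huK ((h'.ker u huN).1 hv)

theorem NewPair_excl {G : Type} [Group G] {X : Type} [AddCommGroup X] [DistribMulAction G X]
    {Q K A : Subgroup G} [Q.Normal] {p : G → X} (h : IsSect Q K p) {Y : AddSubgroup X}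
    (hY : ∀ u ∈ Q, u ∈ A → p u ∈ Y) (hYA : ∀ a ∈ A, ∀ x ∈ Y, a • x ∈ Y) {τ τ' c : G}
    (hm : τ' * τ⁻¹ ∈ Q) (h1 : c⁻¹ * τ * c ∈ A) (h2 : c⁻¹ * τ' * c ∈ A) :
    (c⁻¹ * τ⁻¹) • p (τ' * τ⁻¹) ∈ Y := by
  have hc : c⁻¹ * (τ' * τ⁻¹) * c⁻¹⁻¹ ∈ Q := Subgroup.Normal.conj_mem inferInstance _ hm c⁻¹
  have hA : c⁻¹ * (τ' * τ⁻¹) * c⁻¹⁻¹ ∈ A := by
    have e : c⁻¹ * (τ' * τ⁻¹) * c⁻¹⁻¹ = (c⁻¹ * τ' * c) * (c⁻¹ * τ * c)⁻¹ := by group
    rw [e]
    exact A.mul_mem h2 (A.inv_mem h1)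
  have h3 := hY _ hc hA
  rw [h.conj c⁻¹ _ hm] at h3
  have h4 := hYA _ (A.inv_mem h1) _ h3
  rw [← mul_smul] at h4
  have e : (c⁻¹ * τ * c)⁻¹ * c⁻¹ = c⁻¹ * τ⁻¹ := by group
  rwa [e] at h4

/-- separation of one new pair of positions: for a `1 / b` share of the base points `y` there is a
second generating pair such that the new pair is separated for one of the two pairs -/
theorem new_pair (l : ℕ) : ∃ b f : ℕ, ∀ (G : Type) [Group G] [Finite G] [Group.IsSolvable G]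
    (A N P T' : Subgroup G), N.Normal → P.Normal → T'.Normal → ⁅N, P⁆ = N → ⁅P, T'⁆ = P →
    (∃ k, N.lowerCentralSeries k ≤ A) → (∃ k, P.lowerCentralSeries k ≤ N) → ¬ N ≤ A →
    ∃ B : Subgroup G, N ≤ B ∧ ¬ T' ≤ dser B f ∧
      ∀ π : Fin 2 → G, Gen π → ∀ (z : Lt) (t M₀ : List Lt), t.length ≤ l →
        FreeGroup.IsReduced (z :: (t ++ M₀)) →
        cnt P (fun y => ∀ M : List Lt, M <:+ (t ++ M₀) → M ≠ t ++ M₀ →
            y⁻¹ * ((ev π M)⁻¹ * ev π (t ++ M₀)) * y ∉ B) ≤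
          b * cnt P (fun y => ∃ π' : Fin 2 → G, Gen π' ∧ (∀ j, π' j * (π j)⁻¹ ∈ N) ∧
            2 * cnt N (fun u => (y * u)⁻¹ * ((ev π' M₀)⁻¹ * ev π' (z :: (t ++ M₀))) * (y * u)
              ∈ A) ≤ Nat.card N) := by
  obtain ⟨b, f, h2⟩ := level_two l
  refine ⟨b, f, ?_⟩
  intro G _ _ _ A N P T' hN hP hT hNP hPT ⟨k, hk⟩ ⟨k', hk'⟩ hNA
  obtain ⟨K, Q, hK, hQ, hKQ, hQN, hNN, hQA, hmin⟩ := level_one A N k hk hNA
  have hQQ : ⁅Q, Q⁆ ≤ K := (Subgroup.commutator_mono hQN hQN).trans hNN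
  obtain ⟨X, i1, i2, i3, p, hs⟩ := exists_sect Q K hKQ hQQ
  obtain ⟨Y, hY, hYA, hYt⟩ := hs.exists_image (A ⊔ K) le_sup_right
  have hQK : ¬ Q ≤ K := fun h => hQA (h.trans le_sup_right)
  obtain ⟨B, hB1, hB2, hB3⟩ := h2 G X (hs.simple hKQ hmin) Y (hYt hQA) P T' hP hT hPT
    (NewPair_moves hs hKQ hQN hNN hQK hNP hk')
  refine ⟨B, fun g hg => hB1 g (NewPair_triv hs hQN hNN hg), hB2, ?_⟩
  intro π hπ z t M₀ ht hred
  obtain ⟨S, hS, hS'⟩ := exists_lifts hKQ hQQ hmin hs hπ z.1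
  obtain ⟨T, β, ε, hε, hTl, hTa, hfox⟩ := fox_expand (X := X) π z t M₀ hred
  let U : AddSubgroup X := (AddSubgroup.closure S).comap (DistribSMul.toAddMonoidHom X β)
  have hU : ∀ x, x ∈ U ↔ β • x ∈ AddSubgroup.closure S := fun x => Iff.rfl
  have hUi : Idx2 U := by
    intro x x' hx hx'
    rw [hU] at hx hx' ⊢
    rw [smul_sub]
    exact hS _ _ hx hx'
  refine le_trans (cnt_mono P ?_) ((hB3 T (hTl.trans ht) U hUi).trans
    (Nat.mul_le_mul_left b (cnt_mono P ?_)))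
  · intro y _ hy a ha
    obtain ⟨M, hM1, hM2, hM3⟩ := hTa a ha
    rw [hM3]
    exact hy M hM1 hM2
  · rintro y _ ⟨x, hxU, hx⟩
    have hex : ∃ x₀ ∈ S, y⁻¹ • (ev π (z :: (t ++ M₀)))⁻¹ • fox π z.1 (z :: t) x₀ ∉ Y := by
      by_contra hcon
      push Not at hcon
      have hall : ∀ v ∈ AddSubgroup.closure S,
          y⁻¹ • (ev π (z :: (t ++ M₀)))⁻¹ • fox π z.1 (z :: t) v ∈ Y := by
        intro v hv
        induction hv using AddSubgroup.closure_induction with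
        | mem v hv => exact hcon v hv
        | zero => rw [fox_zero, smul_zero, smul_zero]; exact Y.zero_mem
        | add v w _ _ h1 h2 => rw [fox_add, smul_add, smul_add]; exact Y.add_mem h1 h2
        | neg v _ h1 => rw [fox_neg, smul_neg, smul_neg]; exact Y.neg_mem h1
      have h1 := hall _ ((hU x).1 hxU)
      rw [hfox] at h1
      rcases hε with rfl | rfl
      · rw [one_smul] at h1
        exact hx h1
      · rw [neg_one_smul, smul_neg] at h1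
        exact hx (by simpa using Y.neg_mem h1)
    obtain ⟨x₀, hx₀, hx₀'⟩ := hex
    obtain ⟨π', hπ', hc, hp⟩ := hS' x₀ hx₀
    have hm₀ : ev π' M₀ * (ev π M₀)⁻¹ ∈ Q := ev_congr Q hc M₀
    have hm : ev π' (z :: t) * (ev π (z :: t))⁻¹ ∈ Q := ev_congr Q hc (z :: t)
    have e1 : ev π (z :: (t ++ M₀)) = ev π (z :: t) * ev π M₀ := by
      rw [← List.cons_append, ev_append]
    have e2 : ev π' (z :: (t ++ M₀)) = ev π' (z :: t) * ev π' M₀ := by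
      rw [← List.cons_append, ev_append]
    have hκ : (ev π M₀ * y)⁻¹ * (ev π' M₀ * (ev π M₀)⁻¹)⁻¹ * (ev π M₀ * y)⁻¹⁻¹ ∈ N :=
      hN.conj_mem _ (N.inv_mem (hQN hm₀)) _
    have hadd := cnt_add_le N
      (P := fun u => (y * u)⁻¹ * ((ev π M₀)⁻¹ * ev π (z :: (t ++ M₀))) * (y * u) ∈ A)
      (P' := fun u => (fun u' => (y * u')⁻¹ * ((ev π' M₀)⁻¹ * ev π' (z :: (t ++ M₀))) * (y * u') ∈ A)
        (((ev π M₀ * y)⁻¹ * (ev π' M₀ * (ev π M₀)⁻¹)⁻¹ * (ev π M₀ * y)⁻¹⁻¹) * u)) (by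
      rintro u hu ⟨b1, b2⟩
      beta_reduce at b2
      rw [e1] at b1
      rw [e2] at b2
      have b1' : (ev π M₀ * (y * u))⁻¹ * ev π (z :: t) * (ev π M₀ * (y * u)) ∈ A := by
        have e : (ev π M₀ * (y * u))⁻¹ * ev π (z :: t) * (ev π M₀ * (y * u)) =
            (y * u)⁻¹ * ((ev π M₀)⁻¹ * (ev π (z :: t) * ev π M₀)) * (y * u) := by group
        rw [e]; exact b1
      have b2' : (ev π M₀ * (y * u))⁻¹ * ev π' (z :: t) * (ev π M₀ * (y * u)) ∈ A := by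
        have e : (ev π M₀ * (y * u))⁻¹ * ev π' (z :: t) * (ev π M₀ * (y * u)) =
            (y * ((ev π M₀ * y)⁻¹ * (ev π' M₀ * (ev π M₀)⁻¹)⁻¹ * (ev π M₀ * y)⁻¹⁻¹ * u))⁻¹ *
              ((ev π' M₀)⁻¹ * (ev π' (z :: t) * ev π' M₀)) *
              (y * ((ev π M₀ * y)⁻¹ * (ev π' M₀ * (ev π M₀)⁻¹)⁻¹ * (ev π M₀ * y)⁻¹⁻¹ * u)) := by
          group
        rw [e]; exact b2
      have h5 := NewPair_excl (A := A ⊔ K) hs (fun v hv hvA => (hY v hv).2 hvA) hYA hm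
        (Subgroup.mem_sup_left b1') (Subgroup.mem_sup_left b2')
      rw [hp] at h5
      apply hx₀'
      have e : (ev π M₀ * (y * u))⁻¹ * (ev π (z :: t))⁻¹ =
          u⁻¹ * (y⁻¹ * (ev π (z :: (t ++ M₀)))⁻¹) := by rw [e1]; group
      rw [e, mul_smul, NewPair_triv hs hQN hNN (N.inv_mem hu), mul_smul] at h5
      exact h5)
    rw [cnt_mul_left N (fun u' => (y * u')⁻¹ * ((ev π' M₀)⁻¹ * ev π' (z :: (t ++ M₀))) * (y * u') ∈ A)
      hκ] at hadd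
    by_cases hle : 2 * cnt N (fun u => (y * u)⁻¹ * ((ev π M₀)⁻¹ * ev π (z :: (t ++ M₀))) * (y * u)
        ∈ A) ≤ Nat.card N
    · exact ⟨π, hπ, fun j => by rw [mul_inv_cancel]; exact N.one_mem, hle⟩
    · exact ⟨π', hπ', fun j => hQN (hc j), by omega⟩

end Pool.Agent.FitW
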