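import Pool.Agent.P.MP_ec89a0_al.Mono
import Pool.Agent.P.MP_ec89a0_al.NewPair

namespace Pool.Agent.FitW

open Subgroup
open scoped commutatorElement

theorem step_triples {ι : Type} [Fintype ι] (L : ι → List Lt) {μ : ℕ} (hc : Fintype.card ι ≤ μ)
    (hl : ∀ j, (L j).length ≤ μ) :
    ∃ D : Finset (ι × List Lt × List Lt), D.card ≤ μ * (μ + 1) ^ 2 ∧
      ∀ j M₁ M₂, M₁ <:+ L j → M₂ <:+ L j → (j, M₁, M₂) ∈ D := by
  classical
  refine ⟨Finset.univ.biUnion fun j =>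
    ((L j).tails.toFinset ×ˢ (L j).tails.toFinset).image fun p => (j, p), ?_, ?_⟩
  · refine le_trans Finset.card_biUnion_le ?_
    have : ∀ j ∈ (Finset.univ : Finset ι),
        (((L j).tails.toFinset ×ˢ (L j).tails.toFinset).image fun p => (j, p)).card ≤
          (μ + 1) ^ 2 := by
      intro j _
      refine le_trans Finset.card_image_le ?_
      rw [Finset.card_product, sq]
      have h1 : (L j).tails.toFinset.card ≤ μ + 1 := by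
        refine le_trans (List.toFinset_card_le _) ?_
        rw [List.length_tails]
        exact Nat.succ_le_succ (hl j)
      exact Nat.mul_le_mul h1 h1
    refine le_trans (Finset.sum_le_card_nsmul _ _ _ this) ?_
    rw [Finset.card_univ, smul_eq_mul]
    exact Nat.mul_le_mul_right _ hc
  · intro j M₁ M₂ h₁ h₂
    simp only [Finset.mem_biUnion, Finset.mem_univ, true_and, Finset.mem_image,
      Finset.mem_product, List.mem_toFinset, List.mem_tails]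
    exact ⟨j, (M₁, M₂), ⟨h₁, h₂⟩, rfl⟩

theorem step_cnt_false {G : Type} [Group G] (N : Subgroup G) {P : G → Prop} (h : ∀ y, ¬ P y) :
    cnt N P = 0 := by
  unfold cnt
  have : {y : G | y ∈ N ∧ P y} = ∅ := by
    ext y
    simp [h y]
  rw [this, Set.ncard_empty]

theorem step_avoid {G : Type} [Group G] [Finite G] {α : Type} (N : Subgroup G) (D : Finset α)
    (A A' : α → Subgroup G) (τ : α → G) (n : ℕ)
    (h : ∀ d, ∀ t : G, t ∉ A' d → n * cnt N (fun y => y⁻¹ * t * y ∈ A d) ≤ Nat.card N) :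
    n * cnt N (fun y => ∃ d ∈ D, τ d ∉ A' d ∧ y⁻¹ * τ d * y ∈ A d) ≤ D.card * Nat.card N := by
  refine cnt_exists_le N D (fun d y => τ d ∉ A' d ∧ y⁻¹ * τ d * y ∈ A d) n fun d _ => ?_
  by_cases hd : τ d ∈ A' d
  · rw [step_cnt_false N fun y hy => hy.1 hd]
    simp
  · exact le_trans (Nat.mul_le_mul_left _ (cnt_mono N fun y _ hy => hy.2)) (h d _ hd)

theorem step_conj_ev {G : Type} [Group G] (π : Fin 2 → G) (g : G) (M₁ M₂ : List Lt) :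
    (ev (fun j => g⁻¹ * π j * g) M₁)⁻¹ * ev (fun j => g⁻¹ * π j * g) M₂ =
      g⁻¹ * ((ev π M₁)⁻¹ * ev π M₂) * g := by
  rw [ev_conj, ev_conj]
  group

/-- one layer down without progress -/
theorem step_down (μ : ℕ) : ∃ f : ℕ, ∀ (G : Type) [Group G] [Finite G] [Group.IsSolvable G]
    (ι : Type) [Fintype ι] (A : ι → Subgroup G) (L : ι → List Lt), Fintype.card ι ≤ μ →
    (∀ j, (L j).length ≤ μ) → ∀ N T : Subgroup G, N.Normal → ⁅N, T⁆ = N →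
    (∀ j, ∃ k, N.lowerCentralSeries k ≤ A j) →
    ∃ A' : ι → Subgroup G, (∀ j, N ≤ A' j) ∧ (∀ j, N ≤ A j → A' j = A j) ∧
      (∀ j, ¬ N ≤ A j → ¬ T ≤ dser (A' j) f) ∧
      ∀ π : Fin 2 → G, Gen π → (∀ j, Sep π (A' j) (L j)) →
        ∃ π' : Fin 2 → G, Gen π' ∧ ∀ j, Sep π' (A j) (L j) := by
  obtain ⟨f, hf⟩ := mono_lemma (μ * (μ + 1) ^ 2 + 1)
  refine ⟨f, ?_⟩
  intro G _ _ _ ι _ A L hc hl N T hN hNT hnil
  choose A' h1 h2 h3 h4 using fun j => hf G (A j) N T hN hNT (hnil j)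
  refine ⟨A', h1, h3, h4, ?_⟩
  intro π hπ hsep
  obtain ⟨D, hD, hmem⟩ := step_triples L hc hl
  have hb := step_avoid N D (fun d => A d.1) (fun d => A' d.1)
    (fun d => (ev π d.2.1)⁻¹ * ev π d.2.2) _ (fun d => h2 d.1)
  have hpos : 0 < Nat.card N := Nat.card_pos
  obtain ⟨y, _, hy⟩ := exists_not_of_cnt_lt N (fun y => ∃ d ∈ D,
      (ev π d.2.1)⁻¹ * ev π d.2.2 ∉ A' d.1 ∧ y⁻¹ * ((ev π d.2.1)⁻¹ * ev π d.2.2) * y ∈ A d.1) (by
    by_contra hge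
    push Not at hge
    have := Nat.mul_le_mul_left (μ * (μ + 1) ^ 2 + 1) hge
    have h5 := Nat.mul_le_mul_right (Nat.card N) hD
    nlinarith)
  refine ⟨_, hπ.conj y, fun j M₁ M₂ h₁ h₂ hne hmemA => hy ⟨(j, M₁, M₂), hmem j M₁ M₂ h₁ h₂,
    hsep j M₁ M₂ h₁ h₂ hne, ?_⟩⟩
  rwa [step_conj_ev] at hmemA

theorem step_congr_not_mem {G : Type} [Group G] {π π' : Fin 2 → G} {N A : Subgroup G} [N.Normal]
    (hNA : N ≤ A) (h : ∀ j, π' j * (π j)⁻¹ ∈ N) (y : G) (M₁ M₂ : List Lt)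
    (hn : y⁻¹ * ((ev π M₁)⁻¹ * ev π M₂) * y ∉ A) :
    y⁻¹ * ((ev π' M₁)⁻¹ * ev π' M₂) * y ∉ A := by
  intro hm
  apply hn
  have h₁ := ev_congr N h M₁
  have h₂ := ev_congr N h M₂
  have e : y⁻¹ * ((ev π M₁)⁻¹ * ev π M₂) * y =
      (y⁻¹ * (ev π M₁)⁻¹ * (ev π' M₁ * (ev π M₁)⁻¹)⁻¹⁻¹ * (y⁻¹ * (ev π M₁)⁻¹)⁻¹) *
        (y⁻¹ * ((ev π' M₁)⁻¹ * ev π' M₂) * y) *
        ((y⁻¹ * (ev π' M₂)⁻¹) * (ev π' M₂ * (ev π M₂)⁻¹)⁻¹ * (y⁻¹ * (ev π' M₂)⁻¹)⁻¹) := by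
    group
  rw [e]
  refine A.mul_mem (A.mul_mem (hNA ?_) hm) (hNA ?_)
  · exact (inferInstance : N.Normal).conj_mem _ (N.inv_mem (N.inv_mem h₁)) _
  · exact (inferInstance : N.Normal).conj_mem _ (N.inv_mem h₂) _

/-- two layers down with progress at the state `j₀` -/
theorem step_prog (μ : ℕ) : ∃ f : ℕ, ∀ (G : Type) [Group G] [Finite G] [Group.IsSolvable G]
    (ι : Type) [Fintype ι] (A : ι → Subgroup G) (L : ι → List Lt), Fintype.card ι ≤ μ →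
    (∀ j, (L j).length ≤ μ) → ∀ N P T : Subgroup G, N.Normal → P.Normal → T.Normal → P ≤ T →
    ⁅N, P⁆ = N → ⁅P, T⁆ = P → (∀ j, ∃ k, N.lowerCentralSeries k ≤ A j) →
    (∃ k, P.lowerCentralSeries k ≤ N) →
    ∀ (j₀ : ι) (z : Lt) (L' : List Lt), L j₀ = z :: L' → FreeGroup.IsReduced (z :: L') →
    ¬ N ≤ A j₀ →
    ∃ (A' : ι → Subgroup G) (B : Subgroup G), (∀ j, A' j = A j ∨ ¬ T ≤ dser (A' j) f) ∧
      ¬ T ≤ dser (A' j₀) f ∧ ¬ T ≤ dser B f ∧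
      ∀ π : Fin 2 → G, Gen π → (∀ j, j ≠ j₀ → Sep π (A' j) (L j)) → Sep π (A' j₀) L' →
        Sep π B L' → ∃ π' : Fin 2 → G, Gen π' ∧ ∀ j, Sep π' (A j) (L j) := by
  obtain ⟨b, f₁, hnew⟩ := new_pair μ
  set K₀ := μ * (μ + 1) ^ 2 with hK₀
  obtain ⟨f₂, hmono⟩ := mono_lemma ((b + 2) * K₀ + (μ + 1) + 1)
  set n := (b + 2) * K₀ + (μ + 1) + 1 with hn
  refine ⟨f₁ + f₂, ?_⟩
  intro G _ _ _ ι _ A L hc hl N P T hN hP hT hPT hNP hPT' hnil hnilP j₀ z L' hL hred hact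
  classical
  obtain ⟨kP, hkP⟩ := hnilP
  choose A₁ a1 a2 a3 a4 using fun j => hmono G (A j) N P hN hNP (hnil j)
  choose A₂ b1 b2 b3 b4 using fun j => hmono G (A₁ j) P T hP hPT' ⟨kP, hkP.trans (a1 j)⟩
  obtain ⟨B, hNB, hBT, hB⟩ := hnew G (A j₀) N P T hN hP hT hNP hPT' (hnil j₀) ⟨kP, hkP⟩ hact
  obtain ⟨B', c1, c2, c3, c4⟩ := hmono G B P T hP hPT' ⟨kP, hkP.trans hNB⟩
  have up : ∀ j, ¬ N ≤ A j → ¬ T ≤ dser (A₂ j) (f₁ + f₂) := by
    intro j hj hle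
    have hle' : T ≤ dser (A₂ j) f₂ := hle.trans (dser_anti _ (Nat.le_add_left _ _))
    by_cases hp : P ≤ A₁ j
    · rw [b3 j hp] at hle'
      exact a4 j hj (hPT.trans hle')
    · exact b4 j hp hle'
  refine ⟨A₂, B', fun j => ?_, up j₀ hact, ?_, ?_⟩
  · by_cases hj : N ≤ A j
    · by_cases hp : P ≤ A₁ j
      · left; rw [b3 j hp, a3 j hj]
      · right; exact fun hle => b4 j hp (hle.trans (dser_anti _ (Nat.le_add_left _ _)))
    · exact Or.inr (up j hj)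
  · intro hle
    by_cases hp : P ≤ B
    · rw [c3 hp] at hle
      exact hBT (hle.trans (dser_anti _ (Nat.le_add_right _ _)))
    · exact c4 hp (hle.trans (dser_anti _ (Nat.le_add_left _ _)))
  intro π hπ hsep hsep0 hsepB
  obtain ⟨D, hD, hmem⟩ := step_triples L hc hl
  rw [← hK₀] at hD
  -- the exceptional tail
  obtain ⟨M₀, hM₀, hexc⟩ : ∃ M₀, M₀ <:+ L' ∧ ∀ M, M <:+ L' → M ≠ M₀ →
      (ev π M)⁻¹ * ev π (z :: L') ∉ A₂ j₀ := by
    by_cases hex : ∃ M, M <:+ L' ∧ (ev π M)⁻¹ * ev π (z :: L') ∈ A₂ j₀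
    · obtain ⟨M₀, h0, h1⟩ := hex
      refine ⟨M₀, h0, fun M hM hne hm => hsep0 M M₀ hM h0 hne ?_⟩
      have := (A₂ j₀).mul_mem hm ((A₂ j₀).inv_mem h1)
      convert this using 1
      group
    · exact ⟨L', List.suffix_refl _, fun M hM _ hm => hex ⟨M, hM, hm⟩⟩
  obtain ⟨t, ht⟩ := hM₀
  subst ht
  have hlen : (t ++ M₀).length ≤ μ := by
    have := hl j₀
    rw [hL, List.length_cons] at this
    omega
  have htl : t.length ≤ μ := le_trans (by simp) hlen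
  have hcount := hB π hπ z t M₀ htl hred
  have hbadP := step_avoid P D (fun d => A₁ d.1) (fun d => A₂ d.1)
    (fun d => (ev π d.2.1)⁻¹ * ev π d.2.2) n (fun d => b2 d.1)
  have hbadB := step_avoid P (t ++ M₀).tails.toFinset (fun _ => B) (fun _ => B')
    (fun M => (ev π M)⁻¹ * ev π (t ++ M₀)) n (fun _ => c2)
  have htails : (t ++ M₀).tails.toFinset.card ≤ μ + 1 := by
    refine le_trans (List.toFinset_card_le _) ?_
    rw [List.length_tails]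
    exact Nat.succ_le_succ hlen
  have hposP : 0 < Nat.card P := Nat.card_pos
  have hposN : 0 < Nat.card N := Nat.card_pos
  obtain ⟨y, hyP, ⟨π', hπ', hcong, hhalf⟩, hyold⟩ : ∃ y ∈ P, (∃ π' : Fin 2 → G, Gen π' ∧
      (∀ j, π' j * (π j)⁻¹ ∈ N) ∧
      2 * cnt N (fun u => (y * u)⁻¹ * ((ev π' M₀)⁻¹ * ev π' (z :: (t ++ M₀))) * (y * u)
        ∈ A j₀) ≤ Nat.card N) ∧ ¬ ∃ d ∈ D, (ev π d.2.1)⁻¹ * ev π d.2.2 ∉ A₂ d.1 ∧
          y⁻¹ * ((ev π d.2.1)⁻¹ * ev π d.2.2) * y ∈ A₁ d.1 := by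
    by_contra hcon
    have h1 := cnt_mono P (P := fun y => ∃ π' : Fin 2 → G, Gen π' ∧
      (∀ j, π' j * (π j)⁻¹ ∈ N) ∧
      2 * cnt N (fun u => (y * u)⁻¹ * ((ev π' M₀)⁻¹ * ev π' (z :: (t ++ M₀))) * (y * u)
        ∈ A j₀) ≤ Nat.card N) (P' := fun y => ∃ d ∈ D, (ev π d.2.1)⁻¹ * ev π d.2.2 ∉ A₂ d.1 ∧
          y⁻¹ * ((ev π d.2.1)⁻¹ * ev π d.2.2) * y ∈ A₁ d.1) (fun y hy hE => by
        by_contra hno
        exact hcon ⟨y, hy, hE, hno⟩)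
    have h2 : Nat.card P ≤ cnt P (fun y => (∀ M : List Lt, M <:+ (t ++ M₀) → M ≠ t ++ M₀ →
        y⁻¹ * ((ev π M)⁻¹ * ev π (t ++ M₀)) * y ∉ B) ∨
        ∃ M ∈ (t ++ M₀).tails.toFinset, (ev π M)⁻¹ * ev π (t ++ M₀) ∉ B' ∧
          y⁻¹ * ((ev π M)⁻¹ * ev π (t ++ M₀)) * y ∈ B) := by
      rw [← cnt_true]
      refine cnt_mono P fun y _ _ => ?_
      by_contra hno
      rw [not_or] at hno
      apply hno.1
      intro M hM hne hm
      exact hno.2 ⟨M, List.mem_toFinset.mpr ((List.mem_tails _ _).mpr hM), hsepB M _ hM (List.suffix_refl _) hne, hm⟩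
    have h3 := le_trans h2 (cnt_or_le P _ _)
    have h4 := le_trans hcount (Nat.mul_le_mul_left b h1)
    have h5 := Nat.mul_le_mul_right (Nat.card P) hD
    have h6 := Nat.mul_le_mul_right (Nat.card P) htails
    have h7 := Nat.mul_le_mul_left n (le_trans h3 (Nat.add_le_add_right h4 _))
    have h8 := Nat.mul_le_mul_left b (le_trans hbadP h5)
    have h9 := le_trans hbadB h6
    rw [Nat.mul_add, ← Nat.mul_assoc, Nat.mul_comm n b, Nat.mul_assoc] at h7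
    have h10 : n * Nat.card P ≤ b * (K₀ * Nat.card P) + (μ + 1) * Nat.card P := by omega
    rw [hn] at h10
    nlinarith
  have hbadN := step_avoid N D (fun d => A d.1) (fun d => A₁ d.1)
    (fun d => y⁻¹ * ((ev π' d.2.1)⁻¹ * ev π' d.2.2) * y) n (fun d => a2 d.1)
  obtain ⟨u, _, hu⟩ := exists_not_of_cnt_lt N (fun u =>
      ((y * u)⁻¹ * ((ev π' M₀)⁻¹ * ev π' (z :: (t ++ M₀))) * (y * u) ∈ A j₀) ∨
      ∃ d ∈ D, y⁻¹ * ((ev π' d.2.1)⁻¹ * ev π' d.2.2) * y ∉ A₁ d.1 ∧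
        u⁻¹ * (y⁻¹ * ((ev π' d.2.1)⁻¹ * ev π' d.2.2) * y) * u ∈ A d.1) (by
    refine lt_of_le_of_lt (cnt_or_le N _ _) ?_
    have h5 := le_trans hbadN (Nat.mul_le_mul_right (Nat.card N) hD)
    by_contra hge
    push Not at hge
    have h6 := Nat.mul_le_mul_left (2 * n) hge
    have h7 := Nat.mul_le_mul_left n hhalf
    have h8 : 2 * K₀ + 1 ≤ n := by rw [hn]; nlinarith
    have h9 := Nat.mul_le_mul_right (Nat.card N) h8
    nlinarith)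
  rw [not_or] at hu
  have hold : ∀ j M₁ M₂, M₁ <:+ L j → M₂ <:+ L j → (ev π M₁)⁻¹ * ev π M₂ ∉ A₂ j →
      (y * u)⁻¹ * ((ev π' M₁)⁻¹ * ev π' M₂) * (y * u) ∉ A j := by
    intro j M₁ M₂ h₁ h₂ hA₂ hm
    have hd := hmem j M₁ M₂ h₁ h₂
    have h1 : y⁻¹ * ((ev π M₁)⁻¹ * ev π M₂) * y ∉ A₁ j := fun h => hyold ⟨(j, M₁, M₂), hd, hA₂, h⟩
    refine hu.2 ⟨(j, M₁, M₂), hd, step_congr_not_mem (a1 j) hcong y M₁ M₂ h1, ?_⟩
    convert hm using 1
    group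
  refine ⟨_, hπ'.conj (y * u), fun j M₁ M₂ h₁ h₂ hne => ?_⟩
  rw [step_conj_ev]
  by_cases hj : j = j₀
  · subst hj
    have top : ∀ M, M <:+ t ++ M₀ →
        (y * u)⁻¹ * ((ev π' M)⁻¹ * ev π' (z :: (t ++ M₀))) * (y * u) ∉ A j := by
      intro M hM
      by_cases hM0 : M = M₀
      · rw [hM0]; exact hu.1
      · exact hold j M _ (by rw [hL]; exact hM.trans (List.suffix_cons _ _))
          (by rw [hL]) (hexc M hM hM0)
    have h₁' := h₁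
    have h₂' := h₂
    rw [hL, List.suffix_cons_iff] at h₁' h₂'
    rcases h₁' with h₁' | h₁' <;> rcases h₂' with h₂' | h₂'
    · exact absurd (h₁'.trans h₂'.symm) hne
    · intro hm
      apply top M₂ h₂'
      have := (A j).inv_mem hm
      rw [h₁'] at this
      convert this using 1
      group
    · rw [h₂']; exact top M₁ h₁'
    · exact hold j M₁ M₂ h₁ h₂ (hsep0 M₁ M₂ h₁' h₂' hne)
  · exact hold j M₁ M₂ h₁ h₂ (hsep j hj M₁ M₂ h₁ h₂ hne)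

end Pool.Agent.FitW
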