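import Pool.Agent.P.MP_ec89a0_al.Words
import Pool.Agent.P.MP_ec89a0_al.State
import Pool.Agent.P.MP_ec89a0_al.Level
import Pool.Agent.P.MP_ec89a0_al.Cop
import Pool.Agent.P.MP_ec89a0_al.Indep

namespace Pool.Agent.FitW

open Subgroup
open scoped commutatorElement

section Aux

variable {G : Type} [Group G] {X : Type} [AddCommGroup X] [DistribMulAction G X]

theorem twoF_opSum_conj (T : List (ℤ × G)) (y : G) (x : X) :
    opSum (T.map fun a => (a.1, y⁻¹ * a.2 * y)) x = y⁻¹ • opSum T (y • x) := by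
  unfold opSum
  rw [smul_add, inv_smul_smul]
  congr 1
  induction T with
  | nil => simp
  | cons a T ih =>
    simp only [List.map_cons, List.sum_cons, smul_add]
    rw [ih, mul_smul, mul_smul, smul_comm y⁻¹ a.1]

/-- the counting step -/
theorem twoF_count [Finite G] {l b n : ℕ} (Q E η : Subgroup G)
    (hc : ∀ e ∈ E, ∀ q ∈ Q, e * q = q * e) (hη : η ≤ E)
    (hind : ∀ T : List (ℤ × G), T.length ≤ l →
      (∀ a ∈ T, (∃ e ∈ E, e ∉ η ∧ a.2⁻¹ * e * a.2 ∈ η) ∨ Big Q η n a.2) →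
      ∀ U : AddSubgroup X, Idx2 U →
      ∃ H : Finset G, (∀ a ∈ H, a ∈ Q) ∧ H.card ≤ b ∧ ∀ S : AddSubgroup X,
        (∀ a ∈ H, ∀ x ∈ U, a • opSum T x ∈ S) → ∀ w : X, (∀ e ∈ η, e • w = w) → w ∈ S)
    (Y : AddSubgroup X) (w₀ : X) (hw : ∀ e ∈ η, e • w₀ = w₀) (hwY : w₀ ∉ Y)
    (P B : Subgroup G) (hQP : Q ≤ P)
    (hB : ∀ s : G, s ∉ B → (∃ e ∈ E, e ∉ η ∧ s⁻¹ * e * s ∈ η) ∨ Big Q η n s)
    (T : List (ℤ × G)) (hT : T.length ≤ l) (U : AddSubgroup X) (hU : Idx2 U) :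
    cnt P (fun y => ∀ a ∈ T, y⁻¹ * a.2 * y ∉ B) ≤
      b * cnt P (fun y => ∃ x ∈ U, y⁻¹ • opSum T x ∉ Y) := by
  refine cnt_le_mul_of_cover P Q hQP _ _ b ?_
  intro y _ hy
  have hU' : Idx2 (U.comap (DistribMulAction.toAddMonoidHom X y)) := by
    intro x x' hx hx'
    have := hU (y • x) (y • x') hx hx'
    rw [← smul_sub] at this
    exact this
  obtain ⟨H, hH, hHc, hS⟩ := hind (T.map fun a => (a.1, y⁻¹ * a.2 * y))
    (by simpa using hT)
    (by
      intro a ha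
      obtain ⟨a', ha', rfl⟩ := List.mem_map.1 ha
      exact hB _ (hy a' ha')) _ hU'
  refine ⟨H, hH, hHc, ?_⟩
  intro q hq
  by_contra hcon
  push Not at hcon
  have := hS (Y.comap (DistribMulAction.toAddMonoidHom X q⁻¹)) ?_ (q • w₀) ?_
  · apply hwY
    have h2 : q⁻¹ • q • w₀ ∈ Y := this
    rwa [inv_smul_smul] at h2
  · intro a ha x hx
    have h3 := hcon a ha (y • x) hx
    show q⁻¹ • a • opSum _ x ∈ Y
    rw [twoF_opSum_conj]
    simpa [mul_smul] using h3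
  · intro e he
    rw [← mul_smul, hc e (hη he) q hq, mul_smul, hw e he]

/-- a prime dividing the order of a nontrivial finite group -/
theorem twoF_prime (A : Type) [Group A] [Finite A] [Nontrivial A] :
    ∃ r : ℕ, r.Prime ∧ ∃ x : A, x ≠ 1 ∧ x ^ r = 1 := by
  have h1 : Nat.card A ≠ 1 := (Finite.one_lt_card (α := A)).ne'
  obtain ⟨r, hr, hd⟩ := Nat.exists_prime_and_dvd h1
  haveI := Fact.mk hr
  obtain ⟨x, hx⟩ := exists_prime_orderOf_dvd_card' (G := A) r hd
  refine ⟨r, hr, x, ?_, ?_⟩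
  · rintro rfl
    rw [orderOf_one] at hx
    exact hr.one_lt.ne hx
  · rw [← hx]; exact pow_orderOf_eq_one x

/-- abelian case: the minimal subgroup has prime exponent -/
theorem twoF_exp_ab [Finite G] (Q T : Subgroup G) [hQ : Q.Normal] (hne : Q ≠ ⊥)
    (hc : ∀ x ∈ Q, ∀ y ∈ Q, x * y = y * x) (hT : ⁅Q, T⁆ = Q)
    (hmin : ∀ U : Subgroup G, U.Normal → U < Q → ⁅U, T⁆ = U → U = ⊥) :
    ∃ r : ℕ, r.Prime ∧ ∀ e ∈ Q, e ^ r = 1 := by
  haveI : Nontrivial Q := (Subgroup.nontrivial_iff_ne_bot Q).2 hne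
  obtain ⟨r, hr, x₀, hx₀, hx₀r⟩ := twoF_prime Q
  refine ⟨r, hr, ?_⟩
  let U : Subgroup G :=
    { carrier := {g | ∃ x ∈ Q, x ^ r = g}
      one_mem' := ⟨1, Q.one_mem, one_pow r⟩
      mul_mem' := by
        rintro _ _ ⟨x, hx, rfl⟩ ⟨y, hy, rfl⟩
        exact ⟨x * y, Q.mul_mem hx hy, Commute.mul_pow (hc x hx y hy) r⟩
      inv_mem' := by
        rintro _ ⟨x, hx, rfl⟩
        exact ⟨x⁻¹, Q.inv_mem hx, inv_pow x r⟩ }
  have hUn : U.Normal := ⟨by
    rintro _ ⟨x, hx, rfl⟩ g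
    exact ⟨g * x * g⁻¹, hQ.conj_mem x hx g, conj_pow⟩⟩
  have hUQ : U ≤ Q := by
    rintro _ ⟨x, hx, rfl⟩
    exact Q.pow_mem hx r
  have hUne : U ≠ Q := by
    intro h
    have hsurj : Function.Surjective (fun x : Q => x ^ r) := by
      intro y
      have hy : (y : G) ∈ U := h.ge y.2
      obtain ⟨x, hx, hxy⟩ := hy
      exact ⟨⟨x, hx⟩, Subtype.ext hxy⟩
    have hinj := Finite.injective_iff_surjective.2 hsurj
    apply hx₀
    apply hinj
    simp [hx₀r]
  have hUT : ⁅U, T⁆ = U := by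
    apply le_antisymm
    · exact Subgroup.commutator_le_left U T
    · rintro _ ⟨x, hx, rfl⟩
      have hx' : x ∈ ⁅Q, T⁆ := by rw [hT]; exact hx
      have key : ∀ x ∈ ⁅Q, T⁆, x ∈ Q ∧ x ^ r ∈ ⁅U, T⁆ := by
        intro x hx
        rw [Subgroup.commutator_def] at hx
        induction hx using Subgroup.closure_induction with
        | mem x hx =>
          obtain ⟨q, hq, t, ht, rfl⟩ := hx
          have h1 : t * q⁻¹ * t⁻¹ ∈ Q := hQ.conj_mem _ (Q.inv_mem hq) t
          have h2 : ⁅q, t⁆ = q * (t * q⁻¹ * t⁻¹) := by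
            rw [commutatorElement_def]; group
          refine ⟨h2 ▸ Q.mul_mem hq h1, ?_⟩
          have h3 : ⁅q, t⁆ ^ r = ⁅q ^ r, t⁆ := by
            rw [h2, Commute.mul_pow (hc _ hq _ h1), conj_pow, commutatorElement_def, inv_pow]
            group
          rw [h3]
          exact Subgroup.commutator_mem_commutator ⟨q, hq, rfl⟩ ht
        | one => exact ⟨Q.one_mem, by simp⟩
        | mul x y _ _ ihx ihy =>
          refine ⟨Q.mul_mem ihx.1 ihy.1, ?_⟩
          rw [Commute.mul_pow (hc _ ihx.1 _ ihy.1)]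
          exact Subgroup.mul_mem _ ihx.2 ihy.2
        | inv x _ ih =>
          refine ⟨Q.inv_mem ih.1, ?_⟩
          rw [inv_pow]
          exact Subgroup.inv_mem _ ih.2
      exact (key x hx').2
  have hbot := hmin U hUn (lt_of_le_of_ne hUQ hUne) hUT
  intro e he
  have : e ^ r ∈ U := ⟨e, he, rfl⟩
  rw [hbot] at this
  exact this

/-- commutators of elements normalising `η` centralise `E` modulo `η` -/
theorem twoF_cyc (E η : Subgroup G) [hE : E.Normal] (hη : η ≤ E)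
    (hc : ∀ x ∈ E, ∀ y ∈ E, x * y = y * x) (e₀ : G) (he₀ : e₀ ∈ E)
    (hgen : ∀ e ∈ E, ∃ k : ℕ, (e₀ ^ k)⁻¹ * e ∈ η) :
    ∀ c ∈ ⁅Subgroup.normalizer (η : Set G), Subgroup.normalizer (η : Set G)⁆,
      ∀ e ∈ E, ⁅e, c⁆ ∈ η := by
  have symm : ∀ {x y : G}, x⁻¹ * y ∈ η → y⁻¹ * x ∈ η := by
    intro x y h
    simpa using η.inv_mem h
  have trans : ∀ {x y z : G}, x⁻¹ * y ∈ η → y⁻¹ * z ∈ η → x⁻¹ * z ∈ η := by
    intro x y z h h'
    simpa [mul_assoc] using η.mul_mem h h'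
  have pw : ∀ {x y : G} (k : ℕ), x ∈ E → y ∈ E → x⁻¹ * y ∈ η → (x ^ k)⁻¹ * y ^ k ∈ η := by
    intro x y k hx hy h
    rw [← inv_pow, ← Commute.mul_pow (hc _ (E.inv_mem hx) _ hy)]
    exact η.pow_mem h k
  have cj : ∀ {x y g : G}, g ∈ Subgroup.normalizer (η : Set G) → x⁻¹ * y ∈ η →
      (g * x * g⁻¹)⁻¹ * (g * y * g⁻¹) ∈ η := by
    intro x y g hg h
    have := (Subgroup.mem_normalizer_iff.1 hg _).1 h
    have e : (g * x * g⁻¹)⁻¹ * (g * y * g⁻¹) = g * (x⁻¹ * y) * g⁻¹ := by group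
    rw [e]; exact this
  have act : ∀ g ∈ Subgroup.normalizer (η : Set G), ∃ k : ℕ, ∀ e ∈ E,
      (e ^ k)⁻¹ * (g * e * g⁻¹) ∈ η := by
    intro g hg
    obtain ⟨k, hk⟩ := hgen _ (hE.conj_mem e₀ he₀ g)
    refine ⟨k, fun e he => ?_⟩
    obtain ⟨j, hj⟩ := hgen e he
    have h1 : ((e₀ ^ j) ^ k)⁻¹ * e ^ k ∈ η := pw k (E.pow_mem he₀ j) he hj
    have h2 : ((e₀ ^ k) ^ j)⁻¹ * (g * e₀ * g⁻¹) ^ j ∈ η :=
      pw j (E.pow_mem he₀ k) (hE.conj_mem e₀ he₀ g) hk
    have h3 := cj hg hj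
    rw [conj_pow] at h2
    rw [← pow_mul, mul_comm j k, pow_mul] at h1
    exact trans (symm h1) (trans h2 h3)
  have two : ∀ g ∈ Subgroup.normalizer (η : Set G), ∀ h ∈ Subgroup.normalizer (η : Set G),
      ∀ e ∈ E, (g * h * e * (g * h)⁻¹)⁻¹ * (h * g * e * (h * g)⁻¹) ∈ η := by
    have one : ∀ g ∈ Subgroup.normalizer (η : Set G), ∀ h ∈ Subgroup.normalizer (η : Set G),
        ∀ k m : ℕ, (∀ e ∈ E, (e ^ k)⁻¹ * (g * e * g⁻¹) ∈ η) →
        (∀ e ∈ E, (e ^ m)⁻¹ * (h * e * h⁻¹) ∈ η) →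
        ∀ e ∈ E, (e ^ (m * k))⁻¹ * (g * h * e * (g * h)⁻¹) ∈ η := by
      intro g hg h _ k m hk hm e he
      have h1 := cj hg (hm e he)
      have h2 := hk _ (E.pow_mem he m)
      rw [← pow_mul] at h2
      have h3 := trans h2 h1
      have e1 : g * (h * e * h⁻¹) * g⁻¹ = g * h * e * (g * h)⁻¹ := by group
      rwa [e1] at h3
    intro g hg h hh e he
    obtain ⟨k, hk⟩ := act g hg
    obtain ⟨m, hm⟩ := act h hh
    have h1 := one g hg h hh k m hk hm e he
    have h2 := one h hh g hg m k hm hk e he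
    rw [mul_comm k m] at h2
    exact trans (symm h1) h2
  have main : ∀ c ∈ ⁅Subgroup.normalizer (η : Set G), Subgroup.normalizer (η : Set G)⁆,
      c ∈ Subgroup.normalizer (η : Set G) ∧ ∀ e ∈ E, (c * e * c⁻¹)⁻¹ * e ∈ η := by
    intro c hc'
    rw [Subgroup.commutator_def] at hc'
    induction hc' using Subgroup.closure_induction with
    | mem x hx =>
      obtain ⟨g, hg, h, hh, rfl⟩ := hx
      refine ⟨?_, fun e he => ?_⟩
      · rw [commutatorElement_def]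
        exact Subgroup.mul_mem _ (Subgroup.mul_mem _ (Subgroup.mul_mem _ hg hh)
          (Subgroup.inv_mem _ hg)) (Subgroup.inv_mem _ hh)
      · have := two g hg h hh ((h * g)⁻¹ * e * (h * g)⁻¹⁻¹) (hE.conj_mem e he _)
        convert this using 1
        rw [commutatorElement_def]; group
    | one => exact ⟨Subgroup.one_mem _, fun e _ => by simp⟩
    | mul x y _ _ ihx ihy =>
      refine ⟨Subgroup.mul_mem _ ihx.1 ihy.1, fun e he => ?_⟩
      have h1 := cj ihx.1 (ihy.2 e he)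
      have h2 := trans h1 (ihx.2 e he)
      convert h2 using 2
      group
    | inv x _ ih =>
      refine ⟨Subgroup.inv_mem _ ih.1, fun e he => ?_⟩
      have h1 := symm (ih.2 _ (hE.conj_mem e he x⁻¹))
      convert h1 using 2
      group
  intro c hc' e he
  have h1 := (main c hc').2 e he
  have h2 : ⁅e, c⁆ = (c * e * c⁻¹)⁻¹ * e := by
    rw [hc _ (E.inv_mem (hE.conj_mem e he c)) _ he, commutatorElement_def]
    group
  rw [h2]; exact h1

theorem twoF_comm_mul {x y q : G} (h : Commute x ⁅y, q⁆) : ⁅x * y, q⁆ = ⁅y, q⁆ * ⁅x, q⁆ := by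
  have e : ⁅x * y, q⁆ = x * ⁅y, q⁆ * x⁻¹ * ⁅x, q⁆ := by
    simp only [commutatorElement_def]; group
  rw [e, h.eq]; group

theorem twoF_comm_pow {x q : G} (h : Commute x ⁅x, q⁆) (k : ℕ) : ⁅x ^ k, q⁆ = ⁅x, q⁆ ^ k := by
  induction k with
  | zero => simp
  | succ k ih =>
    rw [pow_succ', twoF_comm_mul, ih, pow_succ]
    rw [ih]
    exact h.pow_right k

theorem twoF_p_pow {Q K : Subgroup G} {p : G → X} (h : IsSect Q K p) {x : G} (hx : x ∈ Q)
    (k : ℕ) : p (x ^ k) = k • p x := by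
  induction k with
  | zero => simpa using h.one
  | succ k ih => rw [pow_succ, h.mul _ (Q.pow_mem hx k) _ hx, ih, succ_nsmul]

/-- a nontrivial finite simple module is killed by a prime -/
theorem twoF_kill [Finite X] (hs : SimpleMod G X) (hX : ∃ x : X, x ≠ 0) :
    ∃ r : ℕ, r.Prime ∧ ∀ x : X, r • x = 0 := by
  obtain ⟨v, hv⟩ := hX
  haveI : Nontrivial (Multiplicative X) := ⟨⟨Multiplicative.ofAdd v, 1, hv⟩⟩
  obtain ⟨r, hr, x₀, hx₀, hx₀r⟩ := twoF_prime (Multiplicative X)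
  refine ⟨r, hr, ?_⟩
  have := hs (nsmulAddMonoidHom (α := X) r).ker (by
    intro g x hx
    have hx' : r • x = 0 := hx
    show r • g • x = 0
    rw [smul_comm, hx', smul_zero])
  rcases this with h | h
  · exfalso
    apply hx₀
    have h1 : Multiplicative.toAdd x₀ ∈ (nsmulAddMonoidHom (α := X) r).ker := hx₀r
    rw [h] at h1
    exact h1
  · intro x
    have h1 : x ∈ (nsmulAddMonoidHom (α := X) r).ker := by rw [h]; trivial
    exact h1

end Aux

/-- level two for a faithful module -/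
theorem level_two_faith (l : ℕ) : ∃ b f : ℕ, ∀ (G X : Type) [Group G] [Finite G] [Group.IsSolvable G]
    [AddCommGroup X] [Finite X] [DistribMulAction G X], SimpleMod G X → Faith G X →
    ∀ Y : AddSubgroup X, Y ≠ ⊤ → ∀ P T' : Subgroup G, P.Normal → T'.Normal → ⁅P, T'⁆ = P →
    P ≠ ⊥ → ∃ B : Subgroup G, ¬ T' ≤ dser B f ∧
      ∀ T : List (ℤ × G), T.length ≤ l → ∀ U : AddSubgroup X, Idx2 U →
        cnt P (fun y => ∀ a ∈ T, y⁻¹ * a.2 * y ∉ B) ≤
          b * cnt P (fun y => ∃ x ∈ U, y⁻¹ • opSum T x ∉ Y) := by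
  obtain ⟨b, n, hind⟩ := indep_lemma l
  obtain ⟨f, hstate⟩ := state_lemma n
  refine ⟨b, f + 1, ?_⟩
  intro G X _ _ _ _ _ _ hs hf Y hY P T' hP hT' hPT hne
  classical
  obtain ⟨Q, hQ, hQP, hQne, hQT, hmin, hcen⟩ := exists_min_mov P T' hPT hne
  have hlt : ⁅Q, Q⁆ < Q := Group.IsSolvable.commutator_lt_of_ne_bot hQne
  by_cases hab : ⁅Q, Q⁆ = ⊥
  · -- abelian case
    have hc : ∀ x ∈ Q, ∀ y ∈ Q, x * y = y * x := by
      intro x hx y hy
      have h1 : ⁅x, y⁆ ∈ ⁅Q, Q⁆ := Subgroup.commutator_mem_commutator hx hy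
      rw [hab] at h1
      exact (commutatorElement_eq_one_iff_commute.1 h1).eq
    obtain ⟨r, hr, hexp⟩ := twoF_exp_ab Q T' hQne hc hQT hmin
    obtain ⟨h0, hr0⟩ := cop_zero hs hf Q hQne hr hexp
    obtain ⟨η, hη, ⟨w₀, hw, hwY⟩, hfix, e₀, he₀, he₀η, hgen⟩ :=
      cop_eta Q hc hr hexp h0 hr0 Y hY
    refine ⟨Subgroup.normalizer (η : Set G), ?_, ?_⟩
    · intro hle
      have h1 : T' ≤ ⁅Subgroup.normalizer (η : Set G), Subgroup.normalizer (η : Set G)⁆ :=
        hle.trans (dser_anti (Subgroup.normalizer (η : Set G)) (Nat.le_add_left 1 f))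
      have h2 : ⁅Q, T'⁆ ≤ η := by
        rw [Subgroup.commutator_le]
        intro e he t ht
        exact twoF_cyc Q η hη hc e₀ he₀ hgen t (h1 ht) e he
      rw [hQT] at h2
      exact he₀η (h2 he₀)
    · refine twoF_count Q Q η hc hη
        (hind G X Q Q η hQ le_rfl hη hc hlt.le hfix ⟨e₀, he₀, he₀η⟩) Y w₀ hw hwY P _ hQP ?_
      intro s hsB
      left
      by_contra hcon
      apply hsB
      apply Subgroup.mem_normalizer_fintype
      intro x hx
      by_contra hx'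
      refine hcon ⟨s * x * s⁻¹, hQ.conj_mem x (hη hx) s, hx', ?_⟩
      simpa [mul_assoc] using hx
  · -- nonabelian case
    set Z : Subgroup G := Q ⊓ Subgroup.centralizer (Q : Set G) with hZdef
    haveI hZn : Z.Normal := inferInstance
    have hZ : ∀ z, z ∈ Z ↔ z ∈ Q ∧ ∀ q ∈ Q, q * z = z * q := by
      intro z
      rw [hZdef, Subgroup.mem_inf, Subgroup.mem_centralizer_iff]
      rfl
    have hZQ : Z ≤ Q := inf_le_left
    have hsub : ∀ U : Subgroup G, U.Normal → U < Q → U ≤ Z := by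
      intro U hU hUQ
      exact le_inf hUQ.le (Subgroup.commutator_eq_bot_iff_le_centralizer.1 (hcen U hU hUQ))
    have hQZ : ⁅Q, Q⁆ ≤ Z := hsub _ inferInstance hlt
    have hcomm : ∀ x ∈ Q, ∀ y ∈ Q, ∀ q ∈ Q, Commute x ⁅y, q⁆ := fun x hx y hy q hq =>
      ((hZ _).1 (hQZ (Subgroup.commutator_mem_commutator hy hq))).2 x hx
    have hZc : ∀ z ∈ Z, ∀ q ∈ Q, ⁅z, q⁆ = 1 := fun z hz q hq =>
      commutatorElement_eq_one_iff_commute.2 (((hZ z).1 hz).2 q hq).symm
    have hnot : ¬ Q ≤ Z := by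
      intro h
      apply hab
      rw [eq_bot_iff, Subgroup.commutator_le]
      intro x hx y hy
      rw [hZc x (h hx) y hy]
      exact Subgroup.one_mem _
    obtain ⟨X', _, _, _, p, hp⟩ := exists_sect Q Z hZQ hQZ
    have hsimple : SimpleMod G X' := hp.simple hZQ (by
      intro U hU hZU hUQ
      by_cases h : U = Q
      · exact Or.inr h
      · exact Or.inl (le_antisymm (hsub U hU (lt_of_le_of_ne hUQ h)) hZU))
    obtain ⟨r, hr, hkill⟩ := twoF_kill hsimple (by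
      obtain ⟨x, hx, hxZ⟩ := SetLike.not_le_iff_exists.1 hnot
      exact ⟨p x, fun h => hxZ ((hp.ker x hx).1 h)⟩)
    have hpowZ : ∀ x ∈ Q, x ^ r ∈ Z := fun x hx =>
      (hp.ker _ (Q.pow_mem hx r)).1 (by rw [twoF_p_pow hp hx, hkill])
    let E : Subgroup G :=
      { carrier := {e | e ∈ Z ∧ e ^ r = 1}
        one_mem' := ⟨Z.one_mem, one_pow r⟩
        mul_mem' := by
          rintro x y ⟨hx, hx'⟩ ⟨hy, hy'⟩
          refine ⟨Z.mul_mem hx hy, ?_⟩
          rw [Commute.mul_pow (((hZ y).1 hy).2 x (hZQ hx)), hx', hy', one_mul]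
        inv_mem' := by
          rintro x ⟨hx, hx'⟩
          exact ⟨Z.inv_mem hx, by rw [inv_pow, hx', inv_one]⟩ }
    haveI hEn : E.Normal := ⟨by
      rintro x ⟨hx, hx'⟩ g
      exact ⟨hZn.conj_mem x hx g, by rw [conj_pow, hx']; simp⟩⟩
    have hEZ : E ≤ Z := fun x hx => hx.1
    have hQE : ⁅Q, Q⁆ ≤ E := by
      rw [Subgroup.commutator_le]
      intro x hx y hy
      refine ⟨hQZ (Subgroup.commutator_mem_commutator hx hy), ?_⟩
      rw [← twoF_comm_pow (hcomm x hx x hx y hy), hZc _ (hpowZ x hx) y hy]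
    have hEne : E ≠ ⊥ := by
      intro h
      rw [h] at hQE
      exact hab (le_bot_iff.1 hQE)
    have hEQ : ∀ e ∈ E, ∀ q ∈ Q, e * q = q * e := fun e he q hq =>
      (((hZ e).1 he.1).2 q hq).symm
    have hexp : ∀ e ∈ E, e ^ r = 1 := fun e he => he.2
    obtain ⟨h0, hr0⟩ := cop_zero hs hf E hEne hr hexp
    obtain ⟨η, hη, ⟨w₀, hw, hwY⟩, hfix, e₀, he₀, he₀η, _⟩ :=
      cop_eta E (fun e he e' he' => hEQ e he e' (hZQ he'.1)) hr hexp h0 hr0 Y hY
    have hQη : ¬ ⁅Q, Q⁆ ≤ η := by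
      intro h
      have h1 := (cop_zero hs hf ⁅Q, Q⁆ hab hr (fun e he => hexp e (hQE he))).1 w₀
        (fun e he => hw e (h he))
      apply hwY
      rw [h1]
      exact Y.zero_mem
    let A : Subgroup G :=
      { carrier := {y | y ∈ Q ∧ ∀ q ∈ Q, ⁅y, q⁆ ∈ η}
        one_mem' := ⟨Q.one_mem, fun q _ => by simp⟩
        mul_mem' := by
          rintro x y ⟨hx, hx'⟩ ⟨hy, hy'⟩
          refine ⟨Q.mul_mem hx hy, fun q hq => ?_⟩
          rw [twoF_comm_mul (hcomm x hx y hy q hq)]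
          exact η.mul_mem (hy' q hq) (hx' q hq)
        inv_mem' := by
          rintro x ⟨hx, hx'⟩
          refine ⟨Q.inv_mem hx, fun q hq => ?_⟩
          have h1 := twoF_comm_mul (hcomm x hx x⁻¹ (Q.inv_mem hx) q hq)
          rw [mul_inv_cancel, commutatorElement_one_left] at h1
          rw [eq_inv_of_mul_eq_one_left h1.symm]
          exact η.inv_mem (hx' q hq) }
    have hZA : Z ≤ A := fun z hz =>
      ⟨hZQ hz, fun q hq => by rw [hZc z hz q hq]; exact η.one_mem⟩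
    obtain ⟨Y', hY', -, hY'top⟩ := hp.exists_image A hZA
    have hY'ne : Y' ≠ ⊤ := hY'top (by
      intro h
      apply hQη
      rw [Subgroup.commutator_le]
      intro x hx y hy
      exact (h hx).2 y hy)
    refine ⟨Subgroup.closure {t : G | Small Y' n t}, ?_, ?_⟩
    · intro hle
      exact hstate G X' Y' hY'ne T' (hp.mov hQT) (hle.trans (dser_succ_le _ f))
    · refine twoF_count Q E η hEQ hη
        (hind G X Q E η hQ (hEZ.trans hZQ) hη hEQ hQE hfix ⟨e₀, he₀, he₀η⟩) Y w₀ hw hwY P _ hQP ?_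
      intro s hsB
      by_cases hnorm : ∀ x ∈ η, s * x * s⁻¹ ∈ η
      · right
        have hns : ¬ Small Y' n s := fun h => hsB (Subgroup.subset_closure h)
        have hstab : ∀ x ∈ Y', s • x ∈ Y' := by
          intro x hx
          obtain ⟨u, hu, rfl⟩ := hp.surj x
          have huA := (hY' u hu).1 hx
          rw [← hp.conj s u hu, hY' _ (hQ.conj_mem u hu s)]
          refine ⟨hQ.conj_mem u hu s, fun q hq => ?_⟩
          have h1 := hnorm _ (huA.2 _ (hQ.conj_mem q hq s⁻¹))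
          convert h1 using 1
          simp only [commutatorElement_def]; group
        intro F hF hFc
        have h2 : ¬ ∀ x : X', ∃ φ ∈ F.image (fun a => -p a), s • x - x - φ ∈ Y' := fun h =>
          hns ⟨hstab, _, Finset.card_image_le.trans hFc, h⟩
        push Not at h2
        obtain ⟨x, hx⟩ := h2
        obtain ⟨y, hy, hyx⟩ := hp.surj (s • x)
        refine ⟨y, hy, fun a ha => ?_⟩
        by_contra hcon
        push Not at hcon
        have h3 : s⁻¹ * y⁻¹ * s ∈ Q := by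
          simpa using hQ.conj_mem _ (Q.inv_mem hy) s⁻¹
        have h4 : y * a * (s⁻¹ * y⁻¹ * s) ∈ Q := Q.mul_mem (Q.mul_mem hy (hF a ha)) h3
        have h5 := (hY' _ h4).2 ⟨h4, hcon⟩
        have h6 : p (s⁻¹ * y⁻¹ * s) = -x := by
          have := hp.conj s⁻¹ _ (Q.inv_mem hy)
          rw [inv_inv] at this
          rw [this, hp.inv hy, hyx, smul_neg, inv_smul_smul]
        rw [hp.mul _ (Q.mul_mem hy (hF a ha)) _ h3, hp.mul _ hy _ (hF a ha), h6, hyx] at h5
        apply hx (-p a) (Finset.mem_image_of_mem _ ha)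
        convert h5 using 1
        abel
      · left
        push Not at hnorm
        obtain ⟨x, hx, hx'⟩ := hnorm
        refine ⟨s * x * s⁻¹, hEn.conj_mem x (hη hx) s, hx', ?_⟩
        simpa [mul_assoc] using hx

end Pool.Agent.FitW
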